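import Pool.Agent.N879.GD.Stm

set_option autoImplicit false

/-!
Project GD, part BA: trivial bound for a block.
-/

namespace Pool.Agent.N879.GD

open Complex Filter Topology MeasureTheory Set

noncomputable section

theorem t_BA (h : S_GK) : S_BA := by
  intro b hb
  obtain ⟨C, hC, hGK⟩ := h b hb
  refine ⟨C, hC, ?_⟩
  intro σ T y ω m R L hσ _ hT hm hR hL hz
  set z := zz T m R with hzd
  have hz0 : 0 < z := by linarith
  have hm' : (0 : ℝ) < m := by exact_mod_cast hm
  have hR' : (0 : ℝ) < R := by exact_mod_cast hR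
  set w : ℝ := (R : ℝ) / m with hw
  have hw0 : 0 < w := by positivity
  have hzz : z = T * Real.log (1 + w) := rfl
  have key : ∀ r ∈ Finset.range L, ‖bt σ b T y ω m (m + R + r)‖ ≤
      C * (√((m : ℝ) * (m + R)))⁻¹ * (1 + |ω|) ^ (-(1 / 2 : ℝ)) * ((1 + |ω|) / z) ^ b *
      Real.exp (-(|ω| / (4 * z))) := by
    intro r hr
    have hr' : r < R := lt_of_lt_of_le (Finset.mem_range.1 hr) hL
    have hrr : (r : ℝ) ≤ R := by exact_mod_cast hr'.le
    have hr0 : (0 : ℝ) ≤ r := Nat.cast_nonneg r
    set n : ℕ := m + R + r with hn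
    have hnc : (n : ℝ) = m + R + r := by rw [hn]; push_cast; ring
    have hn0 : (0 : ℝ) < n := by rw [hnc]; positivity
    have hx : Real.log n - Real.log m = Real.log (1 + (R + r) / m) := by
      rw [← Real.log_div hn0.ne' hm'.ne']
      congr 1
      rw [hnc]
      field_simp
      ring
    have hx1 : Real.log (1 + w) ≤ Real.log n - Real.log m := by
      rw [hx]
      apply Real.log_le_log (by positivity)
      have : w ≤ (R + r) / m := by
        rw [hw]
        gcongr
        linarith
      linarith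
    have hx2 : Real.log n - Real.log m ≤ 2 * Real.log (1 + w) := by
      rw [hx]
      have h1 : (2 : ℝ) * Real.log (1 + w) = Real.log ((1 + w) ^ 2) := by
        rw [Real.log_pow]; norm_num
      rw [h1]
      apply Real.log_le_log (by positivity)
      have h2 : ((R : ℝ) + r) / m ≤ 2 * w := by
        rw [hw, mul_div_assoc']
        gcongr
        linarith
      nlinarith [sq_nonneg w]
    have hl0 : 0 < Real.log (1 + w) := Real.log_pos (by linarith)
    set x := Real.log n - Real.log m with hxd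
    have hxpos : 0 < x := lt_of_lt_of_le hl0 hx1
    have habs : |x| = x := abs_of_pos hxpos
    have hxT1 : z ≤ |x| * T := by
      rw [habs, hzz, mul_comm T]
      exact mul_le_mul_of_nonneg_right hx1 hT.le
    have hxT2 : |x| * T ≤ 2 * z := by
      rw [habs, hzz]
      nlinarith [mul_le_mul_of_nonneg_right hx2 hT.le]
    have hg := hGK T x ω hT (hz.trans hxT1)
    have hxT0 : 0 < |x| * T := lt_of_lt_of_le hz0 hxT1
    have hg2 : ‖GG b T x ω‖ ≤ C * (1 + |ω|) ^ (-(1 / 2 : ℝ)) * ((1 + |ω|) / z) ^ b *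
        Real.exp (-(|ω| / (4 * z))) := by
      refine hg.trans ?_
      have e1 : Real.exp (-(|ω| / (2 * (|x| * T)))) ≤ Real.exp (-(|ω| / (4 * z))) := by
        apply Real.exp_le_exp.2
        apply neg_le_neg
        apply div_le_div_of_nonneg_left (abs_nonneg ω) (by positivity)
        linarith
      have e2 : ((1 + |ω|) / (|x| * T)) ^ b ≤ ((1 + |ω|) / z) ^ b := by
        gcongr
      gcongr
    have hmn : 1 ≤ (m : ℝ) * n := by
      have h1 : (1 : ℝ) ≤ m := by exact_mod_cast hm
      have h2 : (1 : ℝ) ≤ n := by rw [hnc]; linarith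
      nlinarith
    have hs : (√((m : ℝ) * n))⁻¹ ≤ (√((m : ℝ) * (m + R)))⁻¹ := by
      apply inv_anti₀ (Real.sqrt_pos.2 (by positivity))
      apply Real.sqrt_le_sqrt
      rw [hnc]
      have : (m : ℝ) + R ≤ m + R + r := by linarith
      gcongr
    have hc : ‖cexp (-((σ + I * y) * (Real.log ((m : ℝ) * n) : ℝ)))‖ ≤ 1 := by
      rw [Complex.norm_exp]
      apply Real.exp_le_one_iff.2
      have e3 : (-((σ + I * y) * (Real.log ((m : ℝ) * n) : ℝ)) : ℂ).re =
          -(σ * Real.log ((m : ℝ) * n)) := by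
        simp [mul_re, add_re]
      rw [e3]
      have := Real.log_nonneg hmn
      have := mul_nonneg hσ this
      linarith
    unfold bt
    rw [norm_mul, norm_mul, Complex.norm_real, Real.norm_eq_abs,
      abs_of_nonneg (inv_nonneg.2 (Real.sqrt_nonneg _))]
    have hGn : 0 ≤ ‖GG b T x ω‖ := norm_nonneg _
    calc (√((m : ℝ) * n))⁻¹ * ‖cexp (-((σ + I * y) * (Real.log ((m : ℝ) * n) : ℝ)))‖ *
          ‖GG b T x ω‖
        ≤ (√((m : ℝ) * (m + R)))⁻¹ * 1 * (C * (1 + |ω|) ^ (-(1 / 2 : ℝ)) *
          ((1 + |ω|) / z) ^ b * Real.exp (-(|ω| / (4 * z)))) := by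
          gcongr
      _ = C * (√((m : ℝ) * (m + R)))⁻¹ * (1 + |ω|) ^ (-(1 / 2 : ℝ)) * ((1 + |ω|) / z) ^ b *
          Real.exp (-(|ω| / (4 * z))) := by ring
  refine (norm_sum_le_of_le _ key).trans ?_
  rw [Finset.sum_const, Finset.card_range, nsmul_eq_mul, mul_comm]
  have hLR : (L : ℝ) ≤ R := by exact_mod_cast hL
  gcongr

end

end Pool.Agent.N879.GD
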