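import Pool.Agent.N879.GD.Stm

set_option autoImplicit false

/-!
# GD/BB: bound for a block by partial summation (helper402)
-/

namespace Pool.Agent.N879.GD

open Complex Filter Topology MeasureTheory Set

noncomputable section

namespace BB

/-- partial summation -/
theorem part (a e : ℕ → ℂ) (B : ℝ) (L : ℕ) (hB : ∀ l ≤ L, ‖∑ r ∈ Finset.range l, e r‖ ≤ B)
    (hL : 1 ≤ L) : ‖∑ r ∈ Finset.range L, e r * a r‖ ≤
      B * (‖a (L - 1)‖ + ∑ r ∈ Finset.range (L - 1), ‖a (r + 1) - a r‖) := by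
  have h := Finset.sum_range_by_parts (fun r => a r) (fun r => e r) L
  simp only [smul_eq_mul] at h
  have h1 : ∑ r ∈ Finset.range L, e r * a r = ∑ r ∈ Finset.range L, a r * e r :=
    Finset.sum_congr rfl fun r _ => mul_comm _ _
  rw [h1, h]
  refine (norm_sub_le _ _).trans ?_
  have hB0 : 0 ≤ B := (norm_nonneg _).trans (hB 0 (Nat.zero_le _))
  have h2 : ‖a (L - 1) * ∑ i ∈ Finset.range L, e i‖ ≤ B * ‖a (L - 1)‖ := by
    rw [norm_mul, mul_comm]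
    gcongr
    exact hB L le_rfl
  have h3 : ‖∑ i ∈ Finset.range (L - 1), (a (i + 1) - a i) * ∑ i ∈ Finset.range (i + 1), e i‖ ≤
      B * ∑ r ∈ Finset.range (L - 1), ‖a (r + 1) - a r‖ := by
    refine (norm_sum_le _ _).trans ?_
    rw [Finset.mul_sum]
    refine Finset.sum_le_sum fun r hr => ?_
    rw [norm_mul, mul_comm]
    gcongr
    exact hB (r + 1) (by have := Finset.mem_range.1 hr; omega)
  rw [mul_add]
  exact add_le_add h2 h3

section one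

variable (σ y ω T : ℝ) (b m R : ℕ)

/-- `log (1 + t/m)` -/
def X (m : ℕ) (t : ℝ) : ℝ := Real.log (1 + t / m)

/-- the exponent of the amplitude -/
def gg (t : ℝ) : ℂ := -((1 / 2 + (σ + I * y)) * (Real.log ((m : ℝ) * (m + t)) : ℝ)) -
  b * (Real.log (X m t) : ℝ) - ((b : ℂ) - I * ω) * Complex.log ((((T * X m t)⁻¹ : ℝ) : ℂ) - I)

/-- the amplitude -/
def al (t : ℝ) : ℂ := ((T : ℂ) ^ b)⁻¹ * Gamma ((b : ℂ) - I * ω) * cexp (gg σ y ω T b m t)

variable {σ y ω T b m R}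

theorem X_pos (hm : 1 ≤ m) {t : ℝ} (ht : 0 < t) : 0 < X m t := by
  unfold X
  have : (0 : ℝ) < m := by exact_mod_cast hm
  refine Real.log_pos ?_
  have : 0 < t / m := by positivity
  linarith

theorem X_mono (hm : 1 ≤ m) {t t' : ℝ} (ht : 0 < t) (h : t ≤ t') : X m t ≤ X m t' := by
  unfold X
  have : (0 : ℝ) < m := by exact_mod_cast hm
  refine Real.log_le_log (by positivity) ?_
  gcongr

theorem X_two (hm : 1 ≤ m) {t t' : ℝ} (_ : 0 < t) (h0 : 0 < t') (h : t' ≤ 2 * t) :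
    X m t' ≤ 2 * X m t := by
  unfold X
  have h1 : (0 : ℝ) < m := by exact_mod_cast hm
  have h2 : 2 * Real.log (1 + t / m) = Real.log ((1 + t / m) ^ 2) := by
    rw [Real.log_pow]
    norm_num
  rw [h2]
  refine Real.log_le_log (by positivity) ?_
  have h3 : t' / m ≤ 2 * (t / m) := by
    rw [← mul_div_assoc]
    gcongr
  nlinarith [sq_nonneg (t / m)]

theorem X_eq (hm : 1 ≤ m) {t : ℝ} (ht : 0 < t) :
    Real.log ((m : ℝ) + t) - Real.log m = X m t := by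
  unfold X
  have h1 : (0 : ℝ) < m := by exact_mod_cast hm
  rw [← Real.log_div (by positivity) (by positivity)]
  congr 1
  field_simp

/-- the summand in terms of the amplitude -/
theorem bt_eq (h1 : S_GF) (hb : 1 ≤ b) (hT : 0 < T) (hm : 1 ≤ m) {t : ℝ} (ht : 0 < t) {n : ℕ}
    (hn : (n : ℝ) = m + t) : bt σ b T y ω m n =
      cexp (I * ((ω * Real.log (X m t) : ℝ) : ℂ)) * al σ y ω T b m t := by
  have hm0 : (0 : ℝ) < m := by exact_mod_cast hm
  have hX := X_pos hm ht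
  have hP : (0 : ℝ) < (m : ℝ) * (m + t) := by positivity
  unfold bt al gg
  rw [hn, X_eq hm ht, (h1 b T (X m t) ω hb hT).2]
  have e1 : (((√((m : ℝ) * (m + t)))⁻¹ : ℝ) : ℂ) =
      cexp (-(1 / 2 * (Real.log ((m : ℝ) * (m + t)) : ℝ))) := by
    rw [Real.sqrt_eq_rpow, Real.rpow_def_of_pos hP, ← Real.exp_neg, Complex.ofReal_exp]
    congr 1
    push_cast
    ring
  have e2 : (T : ℂ)⁻¹ - I * (X m t : ℂ) = ((X m t : ℝ) : ℂ) * ((((T * X m t)⁻¹ : ℝ) : ℂ) - I) := by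
    push_cast
    have : (X m t : ℂ) ≠ 0 := by exact_mod_cast hX.ne'
    have : (T : ℂ) ≠ 0 := by exact_mod_cast hT.ne'
    field_simp
  have e3 : (((T * X m t)⁻¹ : ℝ) : ℂ) - I ≠ 0 := by
    intro h
    have := congrArg Complex.im h
    simp at this
  rw [e2, Complex.log_ofReal_mul hX e3, e1]
  have e4 : cexp (-(1 / 2 * (Real.log ((m : ℝ) * (m + t)) : ℝ))) *
        cexp (-((σ + I * y) * (Real.log ((m : ℝ) * (m + t)) : ℝ))) *
      (((T : ℂ) ^ b)⁻¹ * Gamma ((b : ℂ) - I * ω) *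
        cexp (-((b : ℂ) - I * ω) * ((Real.log (X m t) : ℝ) +
          Complex.log ((((T * X m t)⁻¹ : ℝ) : ℂ) - I)))) =
      ((T : ℂ) ^ b)⁻¹ * Gamma ((b : ℂ) - I * ω) *
      (cexp (-(1 / 2 * (Real.log ((m : ℝ) * (m + t)) : ℝ))) *
        cexp (-((σ + I * y) * (Real.log ((m : ℝ) * (m + t)) : ℝ))) *
        cexp (-((b : ℂ) - I * ω) * ((Real.log (X m t) : ℝ) +
          Complex.log ((((T * X m t)⁻¹ : ℝ) : ℂ) - I)))) := by ring
  rw [e4, ← Complex.exp_add, ← Complex.exp_add]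
  have e5 : ∀ A B C D : ℂ, A * (B * C * D) = B * C * (A * D) := fun A B C D => by ring
  rw [e5, ← Complex.exp_add]
  congr 2
  push_cast
  ring

theorem norm_al (h1 : S_GF) {C : ℝ} (hC : 0 < C)
    (h2 : ∀ T x ω : ℝ, 0 < T → 1 ≤ |x| * T →
      ‖GG b T x ω‖ ≤ C * (1 + |ω|) ^ (-(1 / 2 : ℝ)) * ((1 + |ω|) / (|x| * T)) ^ b *
        Real.exp (-(|ω| / (2 * (|x| * T)))))
    (hb : 1 ≤ b) (hT : 0 < T) (hm : 1 ≤ m) (hR : 1 ≤ R) (hσ : 0 ≤ σ) (hz : 1 ≤ zz T m R)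
    {t : ℝ} (ht : (R : ℝ) ≤ t) (ht2 : t ≤ 2 * R) :
    ‖al σ y ω T b m t‖ ≤ C * (√((m : ℝ) * (m + R)))⁻¹ * (1 + |ω|) ^ (-(1 / 2 : ℝ)) *
      ((1 + |ω|) / zz T m R) ^ b * Real.exp (-(|ω| / (4 * zz T m R))) := by
  have hm0 : (0 : ℝ) < m := by exact_mod_cast hm
  have hR0 : (0 : ℝ) < R := by exact_mod_cast hR
  have ht0 : 0 < t := lt_of_lt_of_le hR0 ht
  have hX := X_pos hm ht0
  have hP : (0 : ℝ) < (m : ℝ) * (m + t) := by positivity
  have hzz : zz T m R = T * X m R := rfl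
  have hz1 : zz T m R ≤ |X m t| * T := by
    rw [hzz, abs_of_pos hX, mul_comm]
    have := X_mono hm hR0 ht
    gcongr
  have hz2 : |X m t| * T ≤ 2 * zz T m R := by
    rw [hzz, abs_of_pos hX]
    have := X_two hm hR0 ht0 ht2
    nlinarith
  -- the norm of the amplitude
  have e0 : al σ y ω T b m t = cexp (-(1 / 2 * (Real.log ((m : ℝ) * (m + t)) : ℝ))) *
      cexp (-((σ + I * y) * (Real.log ((m : ℝ) * (m + t)) : ℝ))) *
      cexp (-(I * ((ω * Real.log (X m t) : ℝ) : ℂ))) * GG b T (X m t) ω := by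
    rw [(h1 b T (X m t) ω hb hT).2]
    unfold al gg
    have e2 : (T : ℂ)⁻¹ - I * (X m t : ℂ) =
        ((X m t : ℝ) : ℂ) * ((((T * X m t)⁻¹ : ℝ) : ℂ) - I) := by
      push_cast
      have : (X m t : ℂ) ≠ 0 := by exact_mod_cast hX.ne'
      have : (T : ℂ) ≠ 0 := by exact_mod_cast hT.ne'
      field_simp
    have e3 : (((T * X m t)⁻¹ : ℝ) : ℂ) - I ≠ 0 := by
      intro h
      have := congrArg Complex.im h
      simp at this
    rw [e2, Complex.log_ofReal_mul hX e3]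
    have e5 : ∀ A B C D E F : ℂ, A * B * C * (D * E * F) = D * E * (A * B * C * F) :=
      fun A B C D E F => by ring
    rw [e5, ← Complex.exp_add, ← Complex.exp_add, ← Complex.exp_add]
    congr 2
    push_cast
    ring
  have n1 : ‖cexp (-(1 / 2 * (Real.log ((m : ℝ) * (m + t)) : ℝ)))‖ ≤ (√((m : ℝ) * (m + R)))⁻¹ := by
    have e1 : cexp (-(1 / 2 * (Real.log ((m : ℝ) * (m + t)) : ℝ))) =
        (((√((m : ℝ) * (m + t)))⁻¹ : ℝ) : ℂ) := by
      rw [Real.sqrt_eq_rpow, Real.rpow_def_of_pos hP, ← Real.exp_neg, Complex.ofReal_exp]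
      congr 1
      push_cast
      ring
    rw [e1, Complex.norm_real, Real.norm_of_nonneg (by positivity)]
    gcongr
  have n2 : ‖cexp (-((σ + I * y) * (Real.log ((m : ℝ) * (m + t)) : ℝ)))‖ ≤ 1 := by
    rw [Complex.norm_exp]
    have : (-((σ + I * y) * (Real.log ((m : ℝ) * (m + t)) : ℝ))).re =
        -(σ * Real.log ((m : ℝ) * (m + t))) := by
      simp
    rw [this]
    apply Real.exp_le_one_iff.2
    have h5 : (1 : ℝ) ≤ (m : ℝ) * (m + t) := by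
      have : (1 : ℝ) ≤ m := by exact_mod_cast hm
      nlinarith
    have := Real.log_nonneg h5
    nlinarith
  have n3 : ‖cexp (-(I * ((ω * Real.log (X m t) : ℝ) : ℂ)))‖ = 1 := by
    rw [Complex.norm_exp]
    simp
  have n4 := h2 T (X m t) ω hT (hz.trans hz1)
  have n5 : ‖GG b T (X m t) ω‖ ≤ C * (1 + |ω|) ^ (-(1 / 2 : ℝ)) * ((1 + |ω|) / zz T m R) ^ b *
      Real.exp (-(|ω| / (4 * zz T m R))) := by
    refine n4.trans ?_
    have hz0 : 0 < zz T m R := lt_of_lt_of_le one_pos hz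
    have q1 : (1 + |ω|) / (|X m t| * T) ≤ (1 + |ω|) / zz T m R := by
      gcongr
    have q2 : Real.exp (-(|ω| / (2 * (|X m t| * T)))) ≤ Real.exp (-(|ω| / (4 * zz T m R))) := by
      apply Real.exp_le_exp.2
      apply neg_le_neg
      have : 2 * (|X m t| * T) ≤ 4 * zz T m R := by linarith
      have h6 : 0 < 2 * (|X m t| * T) := by positivity
      gcongr
    have q3 : ((1 + |ω|) / (|X m t| * T)) ^ b ≤ ((1 + |ω|) / zz T m R) ^ b := by
      gcongr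
    gcongr
  rw [e0, norm_mul, norm_mul, norm_mul, n3, mul_one]
  calc _ ≤ (√((m : ℝ) * (m + R)))⁻¹ * 1 * (C * (1 + |ω|) ^ (-(1 / 2 : ℝ)) *
        ((1 + |ω|) / zz T m R) ^ b * Real.exp (-(|ω| / (4 * zz T m R)))) := by
        gcongr
    _ = _ := by ring

/-- the derivative of the exponent -/
theorem der (hT : 0 < T) (hm : 1 ≤ m) {t : ℝ} (ht : 0 < t) :
    HasDerivAt (gg σ y ω T b m) (-((1 / 2 + (σ + I * y)) * (((m : ℝ) + t)⁻¹ : ℝ)) -
      b * ((((m : ℝ) + t)⁻¹ / X m t : ℝ) : ℂ) - ((b : ℂ) - I * ω) *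
        (((-(((m : ℝ) + t)⁻¹) / (T * X m t ^ 2) : ℝ) : ℂ) / ((((T * X m t)⁻¹ : ℝ) : ℂ) - I))) t := by
  have hm0 : (0 : ℝ) < m := by exact_mod_cast hm
  have hX := X_pos hm ht
  have hP : (0 : ℝ) < (m : ℝ) * (m + t) := by positivity
  have d1 : HasDerivAt (fun t : ℝ => Real.log ((m : ℝ) * (m + t))) (((m : ℝ) + t)⁻¹) t := by
    have a1 : HasDerivAt (fun t : ℝ => (m : ℝ) * (m + t)) ((m : ℝ) * 1) t :=
      ((hasDerivAt_id t).const_add (m : ℝ)).const_mul (m : ℝ)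
    have a2 := a1.log hP.ne'
    convert a2 using 1
    field_simp
  have d2 : HasDerivAt (X m) (((m : ℝ) + t)⁻¹) t := by
    have a1 : HasDerivAt (fun t : ℝ => 1 + t / m) (1 / (m : ℝ)) t :=
      ((hasDerivAt_id t).div_const (m : ℝ)).const_add 1
    have a2 : HasDerivAt (X m) (1 / (m : ℝ) / (1 + t / m)) t := a1.log (by positivity)
    have a3 : ((m : ℝ) + t)⁻¹ = 1 / (m : ℝ) / (1 + t / m) := by field_simp
    rw [a3]
    exact a2
  have d3 : HasDerivAt (fun t : ℝ => Real.log (X m t)) (((m : ℝ) + t)⁻¹ / X m t) t :=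
    d2.log hX.ne'
  have d4 : HasDerivAt (fun t : ℝ => (T * X m t)⁻¹) (-(((m : ℝ) + t)⁻¹) / (T * X m t ^ 2)) t := by
    have a1 : HasDerivAt (fun t : ℝ => (T * X m t)⁻¹)
        (-(T * ((m : ℝ) + t)⁻¹) / (T * X m t) ^ 2) t := (d2.const_mul T).inv (mul_pos hT hX).ne'
    have a3 : -(((m : ℝ) + t)⁻¹) / (T * X m t ^ 2) = -(T * ((m : ℝ) + t)⁻¹) / (T * X m t) ^ 2 := by
      field_simp
    rw [a3]
    exact a1
  have d5 : HasDerivAt (fun t : ℝ => Complex.log ((((T * X m t)⁻¹ : ℝ) : ℂ) - I))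
      (((-(((m : ℝ) + t)⁻¹) / (T * X m t ^ 2) : ℝ) : ℂ) / ((((T * X m t)⁻¹ : ℝ) : ℂ) - I)) t := by
    have a1 : HasDerivAt (fun t : ℝ => (((T * X m t)⁻¹ : ℝ) : ℂ) - I)
        ((-(((m : ℝ) + t)⁻¹) / (T * X m t ^ 2) : ℝ) : ℂ) t := (d4.ofReal_comp).sub_const I
    refine a1.clog_real ?_
    rw [Complex.mem_slitPlane_iff]
    right
    simp
  unfold gg
  exact ((((d1.ofReal_comp).const_mul (1 / 2 + (σ + I * y) : ℂ)).neg).sub
    ((d3.ofReal_comp).const_mul (b : ℂ))).sub (d5.const_mul ((b : ℂ) - I * ω))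

theorem X_low (hm : 1 ≤ m) (hR : 1 ≤ R) : (R : ℝ) * ((m : ℝ) + R)⁻¹ ≤ X m R := by
  have hm0 : (0 : ℝ) < m := by exact_mod_cast hm
  have hR0 : (0 : ℝ) < R := by exact_mod_cast hR
  unfold X
  refine le_trans (le_of_eq ?_)
    (Real.one_sub_inv_le_log_of_pos (show 0 < 1 + (R : ℝ) / m by positivity))
  field_simp
  ring

/-- the derivative of the amplitude is small -/
theorem norm_der (hb : 1 ≤ b) (hT : 0 < T) (hm : 1 ≤ m) (hR : 1 ≤ R) (hσ : 0 ≤ σ) (hσ1 : σ ≤ 1)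
    (hz : 1 ≤ zz T m R) {t : ℝ} (ht : (R : ℝ) ≤ t) :
    R * ‖(-((1 / 2 + (σ + I * y)) * (((m : ℝ) + t)⁻¹ : ℝ)) -
      b * ((((m : ℝ) + t)⁻¹ / X m t : ℝ) : ℂ) - ((b : ℂ) - I * ω) *
        (((-(((m : ℝ) + t)⁻¹) / (T * X m t ^ 2) : ℝ) : ℂ) / ((((T * X m t)⁻¹ : ℝ) : ℂ) - I)))‖ ≤
      (3 / 2 + b) * (1 + |y|) * (1 + (1 + |ω|) / zz T m R) := by
  have hm0 : (0 : ℝ) < m := by exact_mod_cast hm
  have hR0 : (0 : ℝ) < R := by exact_mod_cast hR
  have hb1 : (1 : ℝ) ≤ b := by exact_mod_cast hb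
  have ht0 : 0 < t := lt_of_lt_of_le hR0 ht
  have hX := X_pos hm ht0
  have hzz : zz T m R = T * X m R := rfl
  have hz0 : 0 < zz T m R := lt_of_lt_of_le one_pos hz
  have hXR : X m R ≤ X m t := X_mono hm hR0 ht
  set q : ℝ := ((m : ℝ) + t)⁻¹ with hq
  have hq0 : 0 < q := by positivity
  have hRq : R * q ≤ (R : ℝ) * ((m : ℝ) + R)⁻¹ := by
    rw [hq]
    gcongr
  have hRq1 : R * q ≤ 1 := by
    refine hRq.trans ?_
    rw [← div_eq_mul_inv, div_le_one (by positivity)]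
    linarith
  have hRX : R * q ≤ X m t := hRq.trans ((X_low hm hR).trans hXR)
  have h1 : ‖(1 / 2 + (σ + I * y) : ℂ)‖ ≤ 3 / 2 + |y| := by
    refine (norm_add_le _ _).trans ?_
    have a1 : ‖(1 / 2 : ℂ)‖ = 1 / 2 := by simp
    have a2 : ‖((σ : ℂ) + I * y)‖ ≤ 1 + |y| := by
      refine (norm_add_le _ _).trans ?_
      rw [Complex.norm_real, norm_mul, Complex.norm_I, Complex.norm_real, one_mul,
        Real.norm_eq_abs, Real.norm_eq_abs, abs_of_nonneg hσ]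
      linarith
    rw [a1]
    linarith
  have h2 : ‖((b : ℂ) - I * ω)‖ ≤ b * (1 + |ω|) := by
    refine (norm_sub_le _ _).trans ?_
    rw [Complex.norm_natCast, norm_mul, Complex.norm_I, Complex.norm_real, one_mul,
      Real.norm_eq_abs]
    nlinarith [abs_nonneg ω]
  have h3 : 1 ≤ ‖((((T * X m t)⁻¹ : ℝ) : ℂ) - I)‖ := by
    refine le_trans (le_of_eq ?_) (Complex.abs_im_le_norm _)
    simp
  have n1 : ‖(1 / 2 + (σ + I * y)) * ((q : ℝ) : ℂ)‖ ≤ (3 / 2 + |y|) * q := by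
    rw [norm_mul, Complex.norm_real, Real.norm_of_nonneg hq0.le]
    gcongr
  have n2 : ‖(b : ℂ) * ((q / X m t : ℝ) : ℂ)‖ = b * (q / X m t) := by
    rw [norm_mul, Complex.norm_real, Complex.norm_natCast, Real.norm_of_nonneg (by positivity)]
  have n3 : ‖((b : ℂ) - I * ω) * (((-q / (T * X m t ^ 2) : ℝ) : ℂ) /
      ((((T * X m t)⁻¹ : ℝ) : ℂ) - I))‖ ≤ b * (1 + |ω|) * (q / (T * X m t ^ 2)) := by
    rw [norm_mul, norm_div, Complex.norm_real, Real.norm_eq_abs, neg_div, abs_neg,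
      abs_of_nonneg (show 0 ≤ q / (T * X m t ^ 2) by positivity)]
    have : q / (T * X m t ^ 2) / ‖((((T * X m t)⁻¹ : ℝ) : ℂ) - I)‖ ≤ q / (T * X m t ^ 2) :=
      div_le_self (by positivity) h3
    gcongr
  have n4 : ‖(-((1 / 2 + (σ + I * y)) * ((q : ℝ) : ℂ)) -
      b * ((q / X m t : ℝ) : ℂ) - ((b : ℂ) - I * ω) *
        (((-q / (T * X m t ^ 2) : ℝ) : ℂ) / ((((T * X m t)⁻¹ : ℝ) : ℂ) - I)))‖ ≤
      (3 / 2 + |y|) * q + b * (q / X m t) + b * (1 + |ω|) * (q / (T * X m t ^ 2)) := by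
    refine (norm_sub_le _ _).trans (add_le_add ((norm_sub_le _ _).trans ?_) n3)
    rw [norm_neg]
    exact add_le_add n1 n2.le
  have m2 : R * (q / X m t) ≤ 1 := by
    rw [← mul_div_assoc, div_le_one hX]
    exact hRX
  have m3 : R * (q / (T * X m t ^ 2)) ≤ 1 / zz T m R := by
    have e1 : R * (q / (T * X m t ^ 2)) = (R * (q / X m t)) * (1 / (T * X m t)) := by
      field_simp
    rw [e1]
    have e2 : 1 / (T * X m t) ≤ 1 / zz T m R := by
      rw [hzz]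
      have : 0 < T * X m R := hz0
      gcongr
    calc (R * (q / X m t)) * (1 / (T * X m t)) ≤ 1 * (1 / zz T m R) := by
          gcongr
      _ = _ := one_mul _
  calc (R : ℝ) * _ ≤ R * ((3 / 2 + |y|) * q + b * (q / X m t) +
        b * (1 + |ω|) * (q / (T * X m t ^ 2))) := by gcongr
    _ = (3 / 2 + |y|) * (R * q) + b * (R * (q / X m t)) +
        b * (1 + |ω|) * (R * (q / (T * X m t ^ 2))) := by ring
    _ ≤ (3 / 2 + |y|) * 1 + b * 1 + b * (1 + |ω|) * (1 / zz T m R) := by gcongr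
    _ = (3 / 2 + |y| + b) + b * ((1 + |ω|) / zz T m R) := by ring
    _ ≤ _ := by
      have hv : 0 ≤ (1 + |ω|) / zz T m R := by positivity
      have hy := abs_nonneg y
      set v := (1 + |ω|) / zz T m R
      have : 0 ≤ |y| * v := by positivity
      have : 0 ≤ b * |y| * v := by positivity
      have : 0 ≤ b * |y| := by positivity
      nlinarith

/-- the amplitude varies slowly -/
theorem lip {M : ℝ} (hM : ∀ t : ℝ, (R : ℝ) ≤ t → t ≤ 2 * R → ‖al σ y ω T b m t‖ ≤ M)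
    (hb : 1 ≤ b) (hT : 0 < T) (hm : 1 ≤ m) (hR : 1 ≤ R) (hσ : 0 ≤ σ) (hσ1 : σ ≤ 1)
    (hz : 1 ≤ zz T m R) {t t' : ℝ} (ht : (R : ℝ) ≤ t) (ht2 : t ≤ 2 * R) (ht' : (R : ℝ) ≤ t')
    (ht2' : t' ≤ 2 * R) : ‖al σ y ω T b m t' - al σ y ω T b m t‖ ≤
      M * ((3 / 2 + b) * (1 + |y|) * (1 + (1 + |ω|) / zz T m R)) / R * ‖t' - t‖ := by
  have hR0 : (0 : ℝ) < R := by exact_mod_cast hR
  have hM0 : 0 ≤ M := (norm_nonneg _).trans (hM t ht ht2)
  refine Convex.norm_image_sub_le_of_norm_hasDerivWithin_le (s := Icc (R : ℝ) (2 * R))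
    (f' := fun t => al σ y ω T b m t * (-((1 / 2 + (σ + I * y)) * (((m : ℝ) + t)⁻¹ : ℝ)) -
      b * ((((m : ℝ) + t)⁻¹ / X m t : ℝ) : ℂ) - ((b : ℂ) - I * ω) *
        (((-(((m : ℝ) + t)⁻¹) / (T * X m t ^ 2) : ℝ) : ℂ) / ((((T * X m t)⁻¹ : ℝ) : ℂ) - I))))
    ?_ ?_ (convex_Icc _ _) ⟨ht, ht2⟩ ⟨ht', ht2'⟩
  · intro s hs
    have hs0 : 0 < s := lt_of_lt_of_le hR0 hs.1
    have a1 := ((der (σ := σ) (y := y) (ω := ω) (b := b) hT hm hs0).cexp).const_mul
      (((T : ℂ) ^ b)⁻¹ * Gamma ((b : ℂ) - I * ω))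
    refine HasDerivAt.hasDerivWithinAt ?_
    unfold al
    rw [mul_assoc]
    exact a1
  · intro s hs
    rw [norm_mul, mul_div_assoc]
    have a1 := norm_der (σ := σ) (y := y) (ω := ω) hb hT hm hR hσ hσ1 hz hs.1
    gcongr
    · exact hM s hs.1 hs.2
    · rw [le_div_iff₀ hR0, mul_comm]
      exact a1

end one

end BB

open BB in
/-- **BB** -/
theorem t_BB (h1 : S_GF) (h2 : S_GK) (h3 : S_LL) : S_BB := by
  obtain ⟨η, hη, hη1, C0, hC0, h3⟩ := h3
  refine ⟨η, hη, hη1, fun b hb => ?_⟩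
  obtain ⟨C1, hC1, h2⟩ := h2 b hb
  refine ⟨C0 * C1 * (5 / 2 + b), by positivity, ?_⟩
  intro σ T y ω m R L hσ hσ1 hT hm hR hLR hz hk1 hk2
  have hm0 : (0 : ℝ) < m := by exact_mod_cast hm
  have hR0 : (0 : ℝ) < R := by exact_mod_cast hR
  have hz0 : 0 < zz T m R := lt_of_lt_of_le one_pos hz
  have hk0 : 0 < kap m R * |ω| := lt_of_lt_of_le (by positivity) hk1
  set B : ℝ := C0 * ((R : ℝ) ^ (1 - η) + R / (kap m R * |ω|)) with hB
  have hB0 : 0 ≤ B := by positivity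
  set M : ℝ := C1 * (√((m : ℝ) * (m + R)))⁻¹ * (1 + |ω|) ^ (-(1 / 2 : ℝ)) *
      ((1 + |ω|) / zz T m R) ^ b * Real.exp (-(|ω| / (4 * zz T m R))) with hM
  have hM0 : 0 ≤ M := by positivity
  set K : ℝ := (3 / 2 + b) * (1 + |y|) * (1 + (1 + |ω|) / zz T m R) with hK
  have hK0 : 0 ≤ K := by positivity
  have hMn : ∀ t : ℝ, (R : ℝ) ≤ t → t ≤ 2 * R → ‖al σ y ω T b m t‖ ≤ M := fun t ht ht2 =>
    norm_al h1 hC1 h2 hb hT hm hR hσ hz ht ht2
  have fin : B * (M * (1 + K)) ≤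
      C0 * C1 * (5 / 2 + b) * (1 + |y|) * (√((m : ℝ) * (m + R)))⁻¹ * (1 + |ω|) ^ (-(1 / 2 : ℝ)) *
      ((1 + |ω|) / zz T m R) ^ b * (1 + (1 + |ω|) / zz T m R) *
      Real.exp (-(|ω| / (4 * zz T m R))) * ((R : ℝ) ^ (1 - η) + R / (kap m R * |ω|)) := by
    have e1 : 1 + K ≤ (5 / 2 + b) * (1 + |y|) * (1 + (1 + |ω|) / zz T m R) := by
      rw [hK]
      have hv : 0 ≤ (1 + |ω|) / zz T m R := by positivity
      have hy := abs_nonneg y
      have : 1 ≤ (1 + |y|) * (1 + (1 + |ω|) / zz T m R) := by nlinarith [mul_nonneg hy hv]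
      nlinarith
    calc B * (M * (1 + K)) ≤ B * (M * ((5 / 2 + b) * (1 + |y|) *
          (1 + (1 + |ω|) / zz T m R))) := by gcongr
      _ = _ := by
        rw [hB, hM]
        ring
  rcases Nat.eq_zero_or_pos L with rfl | hL
  · rw [Finset.range_zero, Finset.sum_empty, norm_zero]
    exact le_trans (by positivity) fin
  refine le_trans ?_ fin
  have hrt : ∀ r : ℕ, r < L → (R : ℝ) ≤ R + r ∧ (R : ℝ) + r ≤ 2 * R := by
    intro r hr
    have h5 : (r : ℝ) ≤ R := by exact_mod_cast (hr.le.trans hLR)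
    have h6 : (0 : ℝ) ≤ r := Nat.cast_nonneg r
    constructor <;> linarith
  have e1 : ∑ r ∈ Finset.range L, bt σ b T y ω m (m + R + r) = ∑ r ∈ Finset.range L,
      cexp (I * ((ω * Real.log (Real.log (1 + ((R : ℝ) + r) / m)) : ℝ) : ℂ)) *
        al σ y ω T b m ((R : ℝ) + r) := by
    refine Finset.sum_congr rfl fun r _ => ?_
    exact bt_eq h1 hb hT hm (t := (R : ℝ) + r) (by positivity) (by push_cast; ring)
  rw [e1]
  have hp := part (fun r => al σ y ω T b m ((R : ℝ) + r))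
    (fun r : ℕ => cexp (I * ((ω * Real.log (Real.log (1 + ((R : ℝ) + r) / m)) : ℝ) : ℂ))) B L
    (by
      intro l hl
      refine h3 m R l R ω hm hR le_rfl (hl.trans hLR) ?_ hk1 hk2
      have : (l : ℝ) ≤ R := by exact_mod_cast hl.trans hLR
      linarith) hL
  refine hp.trans ?_
  refine mul_le_mul_of_nonneg_left ?_ hB0
  rw [mul_add, mul_one]
  refine add_le_add ?_ ?_
  · obtain ⟨a1, a2⟩ := hrt (L - 1) (by omega)
    exact hMn _ a1 a2
  · have h5 : ∀ r ∈ Finset.range (L - 1), ‖al σ y ω T b m ((R : ℝ) + ((r + 1 : ℕ) : ℝ)) -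
        al σ y ω T b m ((R : ℝ) + r)‖ ≤ M * K / R := by
      intro r hr
      have hr' := Finset.mem_range.1 hr
      obtain ⟨a1, a2⟩ := hrt r (by omega)
      obtain ⟨a3, a4⟩ := hrt (r + 1) (by omega)
      have h6 := lip hMn hb hT hm hR hσ hσ1 hz a1 a2 a3 a4
      refine h6.trans (le_of_eq ?_)
      have : ‖(R : ℝ) + ((r + 1 : ℕ) : ℝ) - (R + r)‖ = 1 := by
        push_cast
        have : (R : ℝ) + (r + 1) - (R + r) = 1 := by ring
        rw [this]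
        simp
      rw [this, mul_one]
    refine (Finset.sum_le_sum h5).trans ?_
    rw [Finset.sum_const, Finset.card_range, nsmul_eq_mul]
    have h7 : ((L - 1 : ℕ) : ℝ) ≤ R := by
      have : L - 1 ≤ R := by omega
      exact_mod_cast this
    calc ((L - 1 : ℕ) : ℝ) * (M * K / R) ≤ R * (M * K / R) := by gcongr
      _ = M * K := by field_simp

end

end Pool.Agent.N879.GD
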