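import Pool.Agent.N879.GD.Stm

set_option autoImplicit false

/-! GD: the bound for one block, all cases. -/

namespace Pool.Agent.N879.GD

open Complex Filter Topology MeasureTheory Set
open Pool.Agent.Y969.GP (ff V ht lam PS co PX)

noncomputable section

lemma pow_exp_le (b : ℕ) (v : ℝ) (hv : 0 ≤ v) :
    v ^ b * Real.exp (-(v / 4)) ≤ 4 ^ b * (b.factorial : ℝ) := by
  have h := Real.pow_div_factorial_le_exp (v / 4) (by positivity) b
  have hf : (0 : ℝ) < b.factorial := by exact_mod_cast b.factorial_pos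
  rw [div_le_iff₀ hf, div_pow, div_le_iff₀ (by positivity)] at h
  calc v ^ b * Real.exp (-(v / 4)) ≤ (Real.exp (v / 4) * b.factorial * 4 ^ b) * Real.exp (-(v / 4)) := by
        gcongr
    _ = 4 ^ b * b.factorial * (Real.exp (v / 4) * Real.exp (-(v / 4))) := by ring
    _ = 4 ^ b * b.factorial := by rw [← Real.exp_add]; simp

lemma q_le (m R : ℕ) (hm : 1 ≤ m) (Y : ℝ) (hY : (m : ℝ) * (m + R) ≤ Y) :
    (√((m : ℝ) * (m + R)))⁻¹ * R ≤ √Y / m := by
  have hm' : (1 : ℝ) ≤ m := by exact_mod_cast hm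
  have hR : (0 : ℝ) ≤ R := Nat.cast_nonneg R
  have h0 : 0 < (m : ℝ) * (m + R) := by positivity
  have hY0 : 0 ≤ Y := h0.le.trans hY
  rw [inv_mul_eq_div, div_le_div_iff₀ (Real.sqrt_pos.2 h0) (by positivity), ← Real.sqrt_mul hY0]
  apply Real.le_sqrt_of_sq_le
  have h1 : (R : ℝ) * m ≤ m * (m + R) := by nlinarith
  calc ((R : ℝ) * m) ^ 2 = (R * m) * (R * m) := by ring
    _ ≤ Y * (m * (m + R)) := mul_le_mul (h1.trans hY) h1 (by positivity) hY0

lemma q_le' (m R : ℕ) (hm : 1 ≤ m) :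
    (√((m : ℝ) * (m + R)))⁻¹ * R ≤ R / m := by
  have hm' : (1 : ℝ) ≤ m := by exact_mod_cast hm
  have hR : (0 : ℝ) ≤ R := Nat.cast_nonneg R
  have h1 : (m : ℝ) ≤ √((m : ℝ) * (m + R)) := by
    apply Real.le_sqrt_of_sq_le
    nlinarith
  rw [inv_mul_eq_div]
  gcongr

lemma le_of_sq' {a b : ℝ} (h : a ^ 2 ≤ b ^ 2) (hb : 0 ≤ b) : a ≤ b := by
  by_contra hc
  push Not at hc
  nlinarith

lemma block (κ : ℝ) (hκ : 0 < κ) (hκ1 : 512 * κ ≤ 1) (b : ℕ) (hb : 6 ≤ 4 * κ * b) (CA CB : ℝ)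
    (hCA : 0 < CA) (hCB : 0 < CB) (T y ω : ℝ) (m R : ℕ) (N : ℝ)
    (hm : 1 ≤ m) (hR : 1 ≤ R)
    (hT1 : 1 ≤ T) (hTl : 1 + 3 * Real.log T ≤ T ^ κ) (hT8 : 8 ≤ T ^ κ)
    (hX : (m : ℝ) * (m + R) ≤ 2 * T ^ (1 + 4 * κ))
    (hA : 1 ≤ zz T m R → N ≤ CA * (√((m : ℝ) * (m + R)))⁻¹ * (1 + |ω|) ^ (-(1 / 2 : ℝ)) *
      ((1 + |ω|) / zz T m R) ^ b * Real.exp (-(|ω| / (4 * zz T m R))) * R)
    (hB : 1 ≤ zz T m R → 2 * Real.pi ≤ kap m R * |ω| → kap m R * |ω| ≤ (R : ℝ) ^ 5 →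
      N ≤ CB * (1 + |y|) * (√((m : ℝ) * (m + R)))⁻¹ * (1 + |ω|) ^ (-(1 / 2 : ℝ)) *
      ((1 + |ω|) / zz T m R) ^ b * (1 + (1 + |ω|) / zz T m R) *
      Real.exp (-(|ω| / (4 * zz T m R))) * ((R : ℝ) ^ (1 - 512 * κ) + R / (kap m R * |ω|))) :
    N ≤ 16 * (CA + CB) * (4 ^ (2 * b + 1) * ((2 * b + 1).factorial : ℝ)) * (1 + |y|) * T ^ (-(8 * κ)) / m := by
  have hm' : (1 : ℝ) ≤ m := by exact_mod_cast hm
  have hm0 : (0 : ℝ) < m := by linarith
  have hR' : (1 : ℝ) ≤ R := by exact_mod_cast hR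
  have hR0 : (0 : ℝ) < R := by linarith
  have hT0 : 0 < T := by linarith
  have hy : 1 ≤ 1 + |y| := by linarith [abs_nonneg y]
  have radd : ∀ a c : ℝ, T ^ a * T ^ c = T ^ (a + c) := fun a c => (Real.rpow_add hT0 a c).symm
  have rmono : ∀ a c : ℝ, a ≤ c → T ^ a ≤ T ^ c := fun a c h => Real.rpow_le_rpow_of_exponent_le hT1 h
  have rpos : ∀ a : ℝ, 0 < T ^ a := fun a => Real.rpow_pos_of_pos hT0 a
  -- the constant
  set KK : ℝ := 4 ^ (2 * b + 1) * ((2 * b + 1).factorial : ℝ) with hKK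
  have hKb : ∀ c : ℕ, c ≤ 2 * b + 1 → (4 : ℝ) ^ c * (c.factorial : ℝ) ≤ KK := by
    intro c hc
    rw [hKK]
    have h1 : (4 : ℝ) ^ c ≤ 4 ^ (2 * b + 1) := pow_le_pow_right₀ (by norm_num) hc
    have h2 : (c.factorial : ℝ) ≤ ((2 * b + 1).factorial : ℝ) := by exact_mod_cast Nat.factorial_le hc
    gcongr
  have hKK1 : 1 ≤ KK := by
    have := hKb 0 (by omega)
    simpa using this
  -- X
  have hX5 : (m : ℝ) * (m + R) ≤ T ^ (1 + 5 * κ) := by
    calc (m : ℝ) * (m + R) ≤ 2 * T ^ (1 + 4 * κ) := hX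
      _ ≤ T ^ κ * T ^ (1 + 4 * κ) := by
          have := rpos (1 + 4 * κ)
          nlinarith
      _ = T ^ (1 + 5 * κ) := by rw [radd]; ring_nf
  have hT2 : 2 * (m : ℝ) ≤ T := by
    have h1 : (m : ℝ) ^ 2 ≤ 2 * T ^ (1 + 4 * κ) := by nlinarith
    have h2 : (2 * (m : ℝ)) ^ 2 ≤ T ^ 2 := by
      calc (2 * (m : ℝ)) ^ 2 = 4 * (m : ℝ) ^ 2 := by ring
        _ ≤ 8 * T ^ (1 + 4 * κ) := by linarith
        _ ≤ T ^ κ * T ^ (1 + 4 * κ) := by
            have := rpos (1 + 4 * κ)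
            nlinarith
        _ = T ^ (1 + 5 * κ) := by rw [radd]; ring_nf
        _ ≤ T ^ (2 : ℝ) := rmono _ _ (by linarith)
        _ = T ^ 2 := by norm_num
    exact le_of_sq' h2 hT0.le
  -- x and z
  set x : ℝ := Real.log (1 + (R : ℝ) / m) with hx
  have hx1 : (R : ℝ) / (m + R) ≤ x := by
    have h1 : 0 < 1 + (R : ℝ) / m := by positivity
    have h2 := Real.one_sub_inv_le_log_of_pos h1
    have h3 : 1 - (1 + (R : ℝ) / m)⁻¹ = (R : ℝ) / (m + R) := by
      field_simp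
      ring
    rw [h3] at h2
    exact h2
  have hx2 : x ≤ (R : ℝ) / m := by
    have h1 : 0 < 1 + (R : ℝ) / m := by positivity
    have h2 := Real.log_le_sub_one_of_pos h1
    linarith
  have hx0 : 0 < x := lt_of_lt_of_le (by positivity) hx1
  set z : ℝ := zz T m R with hz
  have hzx : z = T * x := rfl
  have hz1 : 1 ≤ z := by
    rw [hzx]
    have h1 : 1 / (2 * (m : ℝ)) ≤ (R : ℝ) / (m + R) := by
      rw [div_le_div_iff₀ (by positivity) (by positivity)]
      nlinarith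
    calc (1 : ℝ) = T * (1 / T) := by field_simp
      _ ≤ T * (1 / (2 * m)) := by gcongr
      _ ≤ T * x := by gcongr; exact h1.trans hx1
  have hz0 : 0 < z := by linarith
  have hAA := hA hz1
  have hBB := hB hz1
  clear hA hB
  -- Ω and v
  set Ω : ℝ := 1 + |ω| with hΩ
  have hΩ1 : 1 ≤ Ω := by rw [hΩ]; linarith [abs_nonneg ω]
  have hΩ0 : 0 < Ω := by linarith
  set v : ℝ := Ω / z with hv
  have hv0 : 0 < v := by positivity
  set E : ℝ := Real.exp (-(|ω| / (4 * z))) with hE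
  have hE0 : 0 < E := Real.exp_pos _
  have hE1 : E ≤ 1 := by
    rw [hE, Real.exp_le_one_iff]
    have : 0 ≤ |ω| / (4 * z) := by positivity
    linarith
  have hE2 : E ≤ 2 * Real.exp (-(v / 4)) := by
    have h1 : -(|ω| / (4 * z)) ≤ 1 / 4 + -(v / 4) := by
      have h2 : v / 4 = 1 / (4 * z) + |ω| / (4 * z) := by
        rw [hv, hΩ]; field_simp
      have h3 : 1 / (4 * z) ≤ 1 / 4 := by
        rw [div_le_div_iff₀ (by positivity) (by norm_num)]
        linarith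
      rw [h2]; linarith
    calc E ≤ Real.exp (1 / 4 + -(v / 4)) := Real.exp_le_exp.2 h1
      _ = Real.exp (1 / 4) * Real.exp (-(v / 4)) := Real.exp_add _ _
      _ ≤ 2 * Real.exp (-(v / 4)) := by
          gcongr
          have h4 : Real.exp (1 / 4) ≤ Real.exp (1 / 2) := Real.exp_le_exp.2 (by norm_num)
          have h5 : Real.exp (1 / 2) ^ 2 = Real.exp 1 := by
            rw [← Real.exp_nat_mul]; norm_num
          have h6 := Real.exp_one_lt_d9
          have h7 : 0 < Real.exp (1 / 2) := Real.exp_pos _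
          nlinarith
  have hvE : ∀ c : ℕ, c ≤ 2 * b + 1 → v ^ c * E ≤ 2 * KK := by
    intro c hc
    have h1 := pow_exp_le c v hv0.le
    calc v ^ c * E ≤ v ^ c * (2 * Real.exp (-(v / 4))) := by gcongr
      _ = 2 * (v ^ c * Real.exp (-(v / 4))) := by ring
      _ ≤ 2 * KK := by
          gcongr
          exact h1.trans (hKb c hc)
  -- q
  set q : ℝ := (√((m : ℝ) * (m + R)))⁻¹ * R with hq
  have hq0 : 0 ≤ q := by positivity
  have hqX : q ≤ T ^ ((1 + 5 * κ) / 2) / m := by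
    have h1 := q_le m R hm _ hX5
    have h2 : √(T ^ (1 + 5 * κ)) = T ^ ((1 + 5 * κ) / 2) := by
      rw [Real.sqrt_eq_rpow, ← Real.rpow_mul hT0.le]
      ring_nf
    rw [h2] at h1
    exact h1
  have hqT : q ≤ T / m := by
    refine hqX.trans ?_
    gcongr
    calc T ^ ((1 + 5 * κ) / 2) ≤ T ^ (1 : ℝ) := rmono _ _ (by linarith)
      _ = T := Real.rpow_one T
  have hΩh : Ω ^ (-(1 / 2 : ℝ)) ≤ 1 := Real.rpow_le_one_of_one_le_of_nonpos hΩ1 (by norm_num)
  have hΩh0 : 0 < Ω ^ (-(1 / 2 : ℝ)) := Real.rpow_pos_of_pos hΩ0 _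
  have hN : N ≤ CA * q * Ω ^ (-(1 / 2 : ℝ)) * (v ^ b * E) := by
    refine hAA.trans (le_of_eq ?_)
    rw [hq]; ring
  -- reduction of the goal
  have hgoal : ∀ G : ℝ, G ≤ 16 * (CA + CB) * KK * (1 + |y|) * T ^ (-(8 * κ)) / m → N ≤ G →
      N ≤ 16 * (CA + CB) * KK * (1 + |y|) * T ^ (-(8 * κ)) / m := fun G h1 h2 => h2.trans h1
  have hb6 : T ^ (-(4 * κ * b)) ≤ T ^ (-(6 : ℝ)) := rmono _ _ (by linarith)
  have vb1 : v ≤ T ^ (-(4 * κ)) → v ^ b ≤ T ^ (-(6 : ℝ)) := by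
    intro h
    calc v ^ b ≤ (T ^ (-(4 * κ))) ^ b := by gcongr
      _ = T ^ (-(4 * κ * b)) := by
          rw [← Real.rpow_natCast, ← Real.rpow_mul hT0.le]; ring_nf
      _ ≤ _ := hb6
  have vb2 : T ^ (4 * κ) ≤ v → v ^ b * E ≤ 2 * KK * T ^ (-(6 : ℝ)) := by
    intro h
    have h1 : T ^ (6 : ℝ) ≤ v ^ b := by
      calc T ^ (6 : ℝ) ≤ T ^ (4 * κ * b) := rmono _ _ hb
        _ = (T ^ (4 * κ)) ^ b := by
            rw [← Real.rpow_natCast, ← Real.rpow_mul hT0.le]
        _ ≤ v ^ b := by gcongr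
    have h2 : v ^ b * E * T ^ (6 : ℝ) ≤ 2 * KK := by
      calc v ^ b * E * T ^ (6 : ℝ) ≤ v ^ b * E * v ^ b := by gcongr
        _ = v ^ (2 * b) * E := by ring
        _ ≤ 2 * KK := hvE (2 * b) (by omega)
    have h3 : T ^ (-(6 : ℝ)) = (T ^ (6 : ℝ))⁻¹ := Real.rpow_neg hT0.le _
    rw [h3, ← div_eq_mul_inv, le_div_iff₀ (rpos 6)]
    exact h2
  have fin12 : v ^ b * E ≤ 2 * KK * T ^ (-(6 : ℝ)) →
      N ≤ 16 * (CA + CB) * KK * (1 + |y|) * T ^ (-(8 * κ)) / m := by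
    intro h
    have h1 : T * T ^ (-(6 : ℝ)) ≤ T ^ (-(8 * κ)) := by
      calc T * T ^ (-(6 : ℝ)) = T ^ (1 : ℝ) * T ^ (-(6 : ℝ)) := by rw [Real.rpow_one]
        _ = T ^ (1 + -(6 : ℝ)) := radd _ _
        _ ≤ _ := rmono _ _ (by linarith)
    calc N ≤ CA * q * Ω ^ (-(1 / 2 : ℝ)) * (v ^ b * E) := hN
      _ ≤ CA * (T / m) * 1 * (2 * KK * T ^ (-(6 : ℝ))) := by gcongr
      _ = 2 * CA * KK * (T * T ^ (-(6 : ℝ))) / m := by ring
      _ ≤ 2 * CA * KK * T ^ (-(8 * κ)) / m := by gcongr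
      _ = (2 * CA * KK) * 1 * T ^ (-(8 * κ)) / m := by ring
      _ ≤ (16 * (CA + CB) * KK) * (1 + |y|) * T ^ (-(8 * κ)) / m := by
          have h5 : 2 * CA * KK ≤ 16 * (CA + CB) * KK := by nlinarith
          have h6 := rpos (-(8 * κ))
          gcongr
  rcases le_or_gt v (T ^ (-(4 * κ))) with hv1 | hv1
  · apply fin12
    calc v ^ b * E ≤ T ^ (-(6 : ℝ)) * 1 := by
          have := vb1 hv1
          have h6 := rpos (-(6 : ℝ))
          gcongr
      _ ≤ 2 * KK * T ^ (-(6 : ℝ)) := by nlinarith [rpos (-(6 : ℝ))]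
  rcases le_or_gt (T ^ (4 * κ)) v with hv2 | hv2
  · exact fin12 (vb2 hv2)
  -- now T^(-4κ) < v < T^(4κ)
  have hΩv : Ω = v * z := by rw [hv]; field_simp
  rcases le_or_gt Ω (T ^ (1 - 32 * κ)) with hO | hO
  · -- case (a)
    have h1 : x * T ≤ T ^ (4 * κ) * Ω := by
      have h2 : x * T = z := by rw [hzx]; ring
      rw [h2]
      have h3 : z = Ω / v := by rw [hv]; field_simp
      rw [h3, div_le_iff₀ hv0]
      have h4 : 1 ≤ T ^ (4 * κ) * v := by
        calc (1 : ℝ) = T ^ (4 * κ) * T ^ (-(4 * κ)) := by rw [radd]; simp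
          _ ≤ T ^ (4 * κ) * v := by gcongr
      nlinarith
    have h2 : x ≤ T ^ (4 * κ - 1) * Ω := by
      have h3 : T ^ (4 * κ - 1) = T ^ (4 * κ) / T := by
        rw [Real.rpow_sub hT0, Real.rpow_one]
      rw [h3, div_mul_eq_mul_div, le_div_iff₀ hT0]
      exact h1
    have h3 : x ≤ 1 := by
      calc x ≤ T ^ (4 * κ - 1) * Ω := h2
        _ ≤ T ^ (4 * κ - 1) * T ^ (1 - 32 * κ) := by gcongr
        _ = T ^ (-(28 * κ)) := by rw [radd]; ring_nf
        _ ≤ T ^ (0 : ℝ) := rmono _ _ (by linarith)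
        _ = 1 := Real.rpow_zero T
    have h4 : (R : ℝ) / m ≤ 2 * x := by
      have h5 : Real.exp x = 1 + (R : ℝ) / m := by
        rw [hx, Real.exp_log (by positivity)]
      have h6 : Real.exp x ≤ 1 + 2 * x := by
        have h7 := Real.abs_exp_sub_one_le (x := x) (by rw [abs_of_pos hx0]; exact h3)
        rw [abs_of_pos hx0] at h7
        have h8 := le_abs_self (Real.exp x - 1)
        linarith
      linarith
    have h5 : q ≤ 2 * (T ^ (4 * κ - 1) * Ω) := by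
      calc q ≤ (R : ℝ) / m := q_le' m R hm
        _ ≤ 2 * x := h4
        _ ≤ _ := by linarith
    have h6 : Ω * Ω ^ (-(1 / 2 : ℝ)) ≤ T ^ ((1 - 32 * κ) / 2) := by
      calc Ω * Ω ^ (-(1 / 2 : ℝ)) = Ω ^ (1 : ℝ) * Ω ^ (-(1 / 2 : ℝ)) := by rw [Real.rpow_one]
        _ = Ω ^ (1 / 2 : ℝ) := by rw [← Real.rpow_add hΩ0]; norm_num
        _ ≤ (T ^ (1 - 32 * κ)) ^ (1 / 2 : ℝ) := by gcongr
        _ = _ := by rw [← Real.rpow_mul hT0.le]; ring_nf
    have h7 : (m : ℝ) ≤ T ^ ((1 + 5 * κ) / 2) := by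
      have h8 : (m : ℝ) ^ 2 ≤ T ^ (1 + 5 * κ) := by nlinarith
      have h9 : T ^ (1 + 5 * κ) = (T ^ ((1 + 5 * κ) / 2)) ^ 2 := by
        rw [← Real.rpow_natCast, ← Real.rpow_mul hT0.le]; push_cast; ring_nf
      rw [h9] at h8
      exact le_of_sq' h8 (rpos _).le
    have h8 : (m : ℝ) * (T ^ (4 * κ - 1) * T ^ ((1 - 32 * κ) / 2)) ≤ T ^ (-(8 * κ)) := by
      calc (m : ℝ) * (T ^ (4 * κ - 1) * T ^ ((1 - 32 * κ) / 2)) ≤
          T ^ ((1 + 5 * κ) / 2) * (T ^ (4 * κ - 1) * T ^ ((1 - 32 * κ) / 2)) := by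
            have := rpos (4 * κ - 1)
            have := rpos ((1 - 32 * κ) / 2)
            gcongr
        _ = T ^ ((1 + 5 * κ) / 2 + (4 * κ - 1 + (1 - 32 * κ) / 2)) := by rw [radd, radd]
        _ ≤ _ := rmono _ _ (by linarith)
    calc N ≤ CA * q * Ω ^ (-(1 / 2 : ℝ)) * (v ^ b * E) := hN
      _ ≤ CA * (2 * (T ^ (4 * κ - 1) * Ω)) * Ω ^ (-(1 / 2 : ℝ)) * (2 * KK) := by
          have := hvE b (by omega)
          gcongr
      _ = 4 * CA * KK * (T ^ (4 * κ - 1) * (Ω * Ω ^ (-(1 / 2 : ℝ)))) := by ring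
      _ ≤ 4 * CA * KK * (T ^ (4 * κ - 1) * T ^ ((1 - 32 * κ) / 2)) := by
          have := rpos (4 * κ - 1)
          gcongr
      _ = 4 * CA * KK * ((m : ℝ) * (T ^ (4 * κ - 1) * T ^ ((1 - 32 * κ) / 2))) / m := by
          field_simp
      _ ≤ 4 * CA * KK * T ^ (-(8 * κ)) / m := by gcongr
      _ = (4 * CA * KK) * 1 * T ^ (-(8 * κ)) / m := by ring
      _ ≤ (16 * (CA + CB) * KK) * (1 + |y|) * T ^ (-(8 * κ)) / m := by
          have h5 : 4 * CA * KK ≤ 16 * (CA + CB) * KK := by nlinarith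
          have h6 := rpos (-(8 * κ))
          gcongr
  · -- Ω large
    have hO1 : Ω ^ (-(1 / 2 : ℝ)) ≤ T ^ (-((1 - 32 * κ) / 2)) := by
      calc Ω ^ (-(1 / 2 : ℝ)) ≤ (T ^ (1 - 32 * κ)) ^ (-(1 / 2 : ℝ)) :=
            Real.rpow_le_rpow_of_nonpos (rpos _) hO.le (by norm_num)
        _ = _ := by rw [← Real.rpow_mul hT0.le]; ring_nf
    rcases le_or_gt ((m : ℝ) * (m + R)) (T ^ (1 - 64 * κ)) with hS | hS
    · -- case (b)
      have h1 : q ≤ T ^ ((1 - 64 * κ) / 2) / m := by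
        have h1 := q_le m R hm _ hS
        have h2 : √(T ^ (1 - 64 * κ)) = T ^ ((1 - 64 * κ) / 2) := by
          rw [Real.sqrt_eq_rpow, ← Real.rpow_mul hT0.le]
          ring_nf
        rw [h2] at h1
        exact h1
      have h8 : T ^ ((1 - 64 * κ) / 2) * T ^ (-((1 - 32 * κ) / 2)) ≤ T ^ (-(8 * κ)) := by
        rw [radd]
        exact rmono _ _ (by linarith)
      calc N ≤ CA * q * Ω ^ (-(1 / 2 : ℝ)) * (v ^ b * E) := hN
        _ ≤ CA * (T ^ ((1 - 64 * κ) / 2) / m) * T ^ (-((1 - 32 * κ) / 2)) * (2 * KK) := by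
            have := hvE b (by omega)
            have := rpos ((1 - 64 * κ) / 2)
            gcongr
        _ = 2 * CA * KK * (T ^ ((1 - 64 * κ) / 2) * T ^ (-((1 - 32 * κ) / 2))) / m := by ring
        _ ≤ 2 * CA * KK * T ^ (-(8 * κ)) / m := by gcongr
        _ = (2 * CA * KK) * 1 * T ^ (-(8 * κ)) / m := by ring
        _ ≤ (16 * (CA + CB) * KK) * (1 + |y|) * T ^ (-(8 * κ)) / m := by
            have h5 : 2 * CA * KK ≤ 16 * (CA + CB) * KK := by nlinarith
            have h6 := rpos (-(8 * κ))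
            gcongr
    · -- case (c)
      -- lower bound for R
      have hxl : T ^ (-(36 * κ)) ≤ x := by
        have h1 : T * x = Ω / v := by rw [← hzx, hv]; field_simp
        have h2 : T ^ (1 - 32 * κ) * T ^ (-(4 * κ)) ≤ T * x := by
          rw [h1, le_div_iff₀ hv0]
          calc T ^ (1 - 32 * κ) * T ^ (-(4 * κ)) * v ≤ Ω * T ^ (-(4 * κ)) * T ^ (4 * κ) := by
                have := rpos (-(4 * κ))
                gcongr
            _ = Ω * (T ^ (-(4 * κ)) * T ^ (4 * κ)) := by ring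
            _ = Ω := by rw [radd]; simp
        rw [radd] at h2
        have h3 : T ^ (1 - 32 * κ + -(4 * κ)) = T * T ^ (-(36 * κ)) := by
          calc T ^ (1 - 32 * κ + -(4 * κ)) = T ^ (1 + -(36 * κ)) := by ring_nf
            _ = T ^ (1 : ℝ) * T ^ (-(36 * κ)) := (radd _ _).symm
            _ = _ := by rw [Real.rpow_one]
        rw [h3] at h2
        exact le_of_mul_le_mul_left h2 hT0
      have hRm : T ^ (-(36 * κ)) * m ≤ R := by
        have := hxl.trans hx2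
        rwa [le_div_iff₀ hm0] at this
      have hR2 : T ^ (1 - 137 * κ) ≤ (R : ℝ) ^ 2 := by
        have h36 : T ^ (-(36 * κ)) ≤ 1 := by
          calc T ^ (-(36 * κ)) ≤ T ^ (0 : ℝ) := rmono _ _ (by linarith)
            _ = 1 := Real.rpow_zero T
        have h0 := rpos (-(36 * κ))
        have h1 : T ^ (-(36 * κ)) * T ^ (-(36 * κ)) * ((m : ℝ) * (m + R)) ≤ 2 * (R : ℝ) ^ 2 := by
          have h2 : T ^ (-(36 * κ)) * (m + R) ≤ 2 * R := by nlinarith
          calc T ^ (-(36 * κ)) * T ^ (-(36 * κ)) * ((m : ℝ) * (m + R)) =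
              (T ^ (-(36 * κ)) * m) * (T ^ (-(36 * κ)) * (m + R)) := by ring
            _ ≤ R * (2 * R) := by gcongr
            _ = _ := by ring
        have h2 : T ^ (-(36 * κ)) * T ^ (-(36 * κ)) * T ^ (1 - 64 * κ) ≤ 2 * (R : ℝ) ^ 2 := by
          refine le_trans ?_ h1
          gcongr
        rw [radd, radd] at h2
        have h3 : 2 * T ^ (1 - 137 * κ) ≤ T ^ (-(36 * κ) + -(36 * κ) + (1 - 64 * κ)) := by
          calc 2 * T ^ (1 - 137 * κ) ≤ T ^ κ * T ^ (1 - 137 * κ) := by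
                have := rpos (1 - 137 * κ)
                nlinarith
            _ = _ := by rw [radd]; ring_nf
        linarith
      have hR4 : T ^ (1 / 4 : ℝ) ≤ R := by
        have h1 : (T ^ (1 / 4 : ℝ)) ^ 2 ≤ (R : ℝ) ^ 2 := by
          calc (T ^ (1 / 4 : ℝ)) ^ 2 = T ^ (1 / 2 : ℝ) := by
                rw [← Real.rpow_natCast, ← Real.rpow_mul hT0.le]; norm_num
            _ ≤ T ^ (1 - 137 * κ) := rmono _ _ (by linarith)
            _ ≤ _ := hR2
        exact le_of_sq' h1 hR0.le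
      -- log bound
      have hlx : x ≤ T ^ κ := by
        have h1 : 1 + (R : ℝ) / m ≤ T ^ (3 : ℝ) := by
          have h2 : 1 + (R : ℝ) / m ≤ m * (m + R) := by
            have h3 : (R : ℝ) / m ≤ R := div_le_self hR0.le hm'
            nlinarith
          calc 1 + (R : ℝ) / m ≤ m * (m + R) := h2
            _ ≤ T ^ (1 + 5 * κ) := hX5
            _ ≤ T ^ (3 : ℝ) := rmono _ _ (by linarith)
        have h2 : x ≤ 3 * Real.log T := by
          rw [hx, ← Real.log_rpow hT0]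
          exact Real.log_le_log (by positivity) h1
        linarith
      -- kap
      have hk1 : kap m R ≤ 1 := by
        unfold kap
        rw [div_le_one hx0]
        exact hx1
      have hk0 : 0 < kap m R := by
        unfold kap
        positivity
      have hk2 : T ^ (-(2 * κ)) ≤ kap m R := by
        unfold kap
        rw [← hx, le_div_iff₀ hx0]
        rcases le_or_gt (R : ℝ) m with hRm' | hRm'
        · have h1 : x / 2 ≤ (R : ℝ) / (m + R) := by
            calc x / 2 ≤ (R : ℝ) / m / 2 := by gcongr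
              _ = (R : ℝ) / (2 * m) := by rw [div_div, mul_comm]
              _ ≤ (R : ℝ) / (m + R) := by
                  apply div_le_div_of_nonneg_left hR0.le (by positivity)
                  linarith
          have h2 : T ^ (-(2 * κ)) ≤ 1 / 2 := by
            have h3 : T ^ (-(2 * κ)) = (T ^ (2 * κ))⁻¹ := Real.rpow_neg hT0.le _
            have h4 : 2 ≤ T ^ (2 * κ) := by
              calc (2 : ℝ) ≤ T ^ κ := by linarith
                _ ≤ T ^ (2 * κ) := rmono _ _ (by linarith)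
            rw [h3, inv_eq_one_div]
            exact one_div_le_one_div_of_le (by norm_num) h4
          calc T ^ (-(2 * κ)) * x ≤ 1 / 2 * x := by gcongr
            _ = x / 2 := by ring
            _ ≤ _ := h1
        · have h1 : (1 : ℝ) / 2 ≤ (R : ℝ) / (m + R) := by
            rw [div_le_div_iff₀ (by norm_num) (by positivity)]
            linarith
          refine le_trans ?_ h1
          calc T ^ (-(2 * κ)) * x ≤ T ^ (-(2 * κ)) * T ^ κ := by
                have := rpos (-(2 * κ))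
                gcongr
            _ = T ^ (-κ) := by rw [radd]; ring_nf
            _ = (T ^ κ)⁻¹ := Real.rpow_neg hT0.le _
            _ ≤ 1 / 2 := by
                rw [inv_eq_one_div]
                exact one_div_le_one_div_of_le (by norm_num) (by linarith)
      -- |ω|
      have hT32 : 2 ≤ T ^ (1 - 32 * κ) := by
        calc (2 : ℝ) ≤ T ^ κ := by linarith
          _ ≤ _ := rmono _ _ (by linarith)
      have hw1 : T ^ (1 - 33 * κ) ≤ |ω| := by
        have h1 : 2 * T ^ (1 - 33 * κ) ≤ T ^ (1 - 32 * κ) := by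
          calc 2 * T ^ (1 - 33 * κ) ≤ T ^ κ * T ^ (1 - 33 * κ) := by
                have := rpos (1 - 33 * κ)
                nlinarith
            _ = _ := by rw [radd]; ring_nf
        have h2 : |ω| = Ω - 1 := by rw [hΩ]; ring
        rw [h2]
        linarith
      have hkw : T ^ (1 - 35 * κ) ≤ kap m R * |ω| := by
        calc T ^ (1 - 35 * κ) = T ^ (-(2 * κ)) * T ^ (1 - 33 * κ) := by rw [radd]; ring_nf
          _ ≤ kap m R * |ω| := by
              have := rpos (1 - 33 * κ)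
              gcongr
      have hkw0 : 0 < kap m R * |ω| := lt_of_lt_of_le (rpos _) hkw
      have hc1 : 2 * Real.pi ≤ kap m R * |ω| := by
        have h1 : 2 * Real.pi ≤ 8 := by linarith [Real.pi_lt_four]
        calc 2 * Real.pi ≤ 8 := h1
          _ ≤ T ^ κ := hT8
          _ ≤ T ^ (1 - 35 * κ) := rmono _ _ (by linarith)
          _ ≤ _ := hkw
      have hc2 : kap m R * |ω| ≤ (R : ℝ) ^ 5 := by
        have h1 : kap m R * |ω| ≤ Ω := by
          have h2 : |ω| ≤ Ω := by rw [hΩ]; linarith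
          calc kap m R * |ω| ≤ 1 * Ω := by gcongr
            _ = Ω := one_mul _
        have h2 : Ω ≤ T ^ (5 / 4 : ℝ) := by
          rw [hΩv, hzx]
          calc v * (T * x) ≤ T ^ (4 * κ) * (T * T ^ κ) := by
                have := rpos (4 * κ)
                gcongr
            _ = T ^ (4 * κ) * (T ^ (1 : ℝ) * T ^ κ) := by rw [Real.rpow_one]
            _ = T ^ (4 * κ + (1 + κ)) := by rw [radd, radd]
            _ ≤ _ := rmono _ _ (by linarith)
        have h3 : T ^ (5 / 4 : ℝ) ≤ (R : ℝ) ^ 5 := by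
          calc T ^ (5 / 4 : ℝ) = (T ^ (1 / 4 : ℝ)) ^ 5 := by
                rw [← Real.rpow_natCast, ← Real.rpow_mul hT0.le]; norm_num
            _ ≤ (R : ℝ) ^ 5 := by gcongr
        linarith
      have hB2 := hBB hc1 hc2
      -- final
      have hRη : (R : ℝ) ^ (1 - 512 * κ) ≤ R * T ^ (-(35 * κ)) := by
        have h1 : (R : ℝ) ^ (1 - 512 * κ) = R * (R : ℝ) ^ (-(512 * κ)) := by
          rw [sub_eq_add_neg, Real.rpow_add hR0, Real.rpow_one]
        rw [h1]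
        have h2 : (R : ℝ) ^ (-(512 * κ)) ≤ T ^ (-(128 * κ)) := by
          calc (R : ℝ) ^ (-(512 * κ)) ≤ (T ^ (1 / 4 : ℝ)) ^ (-(512 * κ)) :=
                Real.rpow_le_rpow_of_nonpos (rpos _) hR4 (by linarith)
            _ = _ := by rw [← Real.rpow_mul hT0.le]; ring_nf
        have h3 : T ^ (-(128 * κ)) ≤ T ^ (-(35 * κ)) := rmono _ _ (by linarith)
        gcongr
        exact h2.trans h3
      have hRk : R / (kap m R * |ω|) ≤ R * T ^ (-(35 * κ)) := by
        rw [div_eq_mul_inv]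
        have h1 : (kap m R * |ω|)⁻¹ ≤ (T ^ (1 - 35 * κ))⁻¹ := by gcongr
        have h2 : (T ^ (1 - 35 * κ))⁻¹ = T ^ (-(1 - 35 * κ)) := (Real.rpow_neg hT0.le _).symm
        have h3 : T ^ (-(1 - 35 * κ)) ≤ T ^ (-(35 * κ)) := rmono _ _ (by linarith)
        rw [h2] at h1
        gcongr
        exact h1.trans h3
      have hvE3 : v ^ b * (1 + v) * E ≤ 4 * KK := by
        have h1 := hvE b (by omega)
        have h2 : v ^ (b + 1) * E ≤ 2 * KK := by
          rcases Nat.eq_zero_or_pos b with h0 | h0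
          · subst h0
            norm_num at hb
          · exact hvE (b + 1) (by omega)
        calc v ^ b * (1 + v) * E = v ^ b * E + v ^ (b + 1) * E := by ring
          _ ≤ 4 * KK := by linarith
      have h8 : T ^ ((1 + 5 * κ) / 2) * (T ^ (-((1 - 32 * κ) / 2)) * T ^ (-(35 * κ))) ≤
          T ^ (-(8 * κ)) := by
        rw [radd, radd]
        exact rmono _ _ (by linarith)
      have hs0 : 0 ≤ (√((m : ℝ) * (m + R)))⁻¹ := by positivity
      calc N ≤ CB * (1 + |y|) * (√((m : ℝ) * (m + R)))⁻¹ * Ω ^ (-(1 / 2 : ℝ)) *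
            v ^ b * (1 + v) * E * ((R : ℝ) ^ (1 - 512 * κ) + R / (kap m R * |ω|)) := hB2
        _ ≤ CB * (1 + |y|) * (√((m : ℝ) * (m + R)))⁻¹ * Ω ^ (-(1 / 2 : ℝ)) *
            v ^ b * (1 + v) * E * (R * T ^ (-(35 * κ)) + R * T ^ (-(35 * κ))) := by
              gcongr
        _ = 2 * CB * (1 + |y|) * q * Ω ^ (-(1 / 2 : ℝ)) * (v ^ b * (1 + v) * E) *
            T ^ (-(35 * κ)) := by rw [hq]; ring
        _ ≤ 2 * CB * (1 + |y|) * (T ^ ((1 + 5 * κ) / 2) / m) * T ^ (-((1 - 32 * κ) / 2)) * (4 * KK) *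
            T ^ (-(35 * κ)) := by
              have := rpos ((1 + 5 * κ) / 2)
              have := rpos (-(35 * κ))
              gcongr
        _ = 8 * CB * KK * (1 + |y|) * (T ^ ((1 + 5 * κ) / 2) * (T ^ (-((1 - 32 * κ) / 2)) *
            T ^ (-(35 * κ)))) / m := by ring
        _ ≤ 8 * CB * KK * (1 + |y|) * T ^ (-(8 * κ)) / m := by gcongr
        _ ≤ (16 * (CA + CB) * KK) * (1 + |y|) * T ^ (-(8 * κ)) / m := by
            have h5 : 8 * CB * KK ≤ 16 * (CA + CB) * KK := by nlinarith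
            have h6 := rpos (-(8 * κ))
            gcongr

end

end Pool.Agent.N879.GD
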