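import Pool.Agent.N879.GD.Stm

set_option autoImplicit false

/-! GD: the class of weights and the main term for `F = 1`. -/

namespace Pool.Agent.N879.GD

open Complex Filter Topology MeasureTheory Set
open Pool.Agent.Y969.GP (ff)

noncomputable section

/-- the powers `|ζ(1/2+it)|^b`, `0 ≤ b ≤ 2`, belong to the class -/
lemma gr_pow (h1 : S_CRU) (h2 : S_M4) (b : ℝ) (hb0 : 0 ≤ b) (hb2 : b ≤ 2) :
    Gr (fun t => ((‖riemannZeta (1 / 2 + I * t)‖ ^ b : ℝ) : ℂ)) := by
  obtain ⟨_, _, _, hcont, _, _⟩ := h1
  have hff : ∀ t, ff t = ‖riemannZeta (1 / 2 + I * t)‖ ^ 2 := fun t => rfl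
  have hn : (fun t : ℝ => ‖riemannZeta (1 / 2 + I * t)‖) = fun t => √(ff t) := by
    funext t
    rw [hff, Real.sqrt_sq (norm_nonneg _)]
  have hcn : Continuous (fun t : ℝ => ‖riemannZeta (1 / 2 + I * t)‖) := by
    rw [hn]; exact hcont.sqrt
  have hcb : Continuous (fun t : ℝ => ‖riemannZeta (1 / 2 + I * t)‖ ^ b) :=
    hcn.rpow_const fun t => Or.inr hb0
  refine ⟨(continuous_ofReal.comp hcb).measurable, ?_⟩
  intro ε hε
  obtain ⟨C, hC, h4⟩ := h2 ε hε
  refine ⟨1 + C, by positivity, fun T hT => ?_⟩
  have hT0 : 0 ≤ T := by linarith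
  have hpt : ∀ t : ℝ, ‖((‖riemannZeta (1 / 2 + I * t)‖ ^ b : ℝ) : ℂ)‖ₑ ^ 2 ≤
      ENNReal.ofReal (1 + ff t ^ 2) := by
    intro t
    set y : ℝ := ‖riemannZeta (1 / 2 + I * t)‖ with hy
    have hy0 : 0 ≤ y := norm_nonneg _
    have e1 : ‖((y ^ b : ℝ) : ℂ)‖ₑ ^ 2 = ENNReal.ofReal ((y ^ b) ^ 2) := by
      rw [← ofReal_norm, Complex.norm_real, Real.norm_of_nonneg (Real.rpow_nonneg hy0 b),
        ENNReal.ofReal_pow (Real.rpow_nonneg hy0 b)]
    rw [e1]
    apply ENNReal.ofReal_le_ofReal
    have e2 : ff t = y ^ 2 := rfl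
    rw [e2]
    rcases le_or_gt y 1 with h | h
    · have : y ^ b ≤ 1 := Real.rpow_le_one hy0 h hb0
      have h0 : 0 ≤ y ^ b := Real.rpow_nonneg hy0 b
      nlinarith [sq_nonneg (y ^ 2)]
    · have h3 : y ^ b ≤ y ^ (2 : ℝ) := Real.rpow_le_rpow_of_exponent_le h.le hb2
      have h0 : 0 ≤ y ^ b := Real.rpow_nonneg hy0 b
      rw [Real.rpow_two] at h3
      nlinarith
  have hint : IntegrableOn (fun t => 1 + ff t ^ 2) (Ioc 0 T) :=
    ((continuous_const.add (hcont.pow 2)).integrableOn_Icc (a := 0) (b := T)).mono_set Ioc_subset_Icc_self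
  calc ∫⁻ t in Ioc 0 T, ‖((‖riemannZeta (1 / 2 + I * t)‖ ^ b : ℝ) : ℂ)‖ₑ ^ 2
      ≤ ∫⁻ t in Ioc 0 T, ENNReal.ofReal (1 + ff t ^ 2) := lintegral_mono hpt
    _ = ENNReal.ofReal (∫ t in Ioc 0 T, (1 + ff t ^ 2)) := by
        rw [ofReal_integral_eq_lintegral_ofReal hint (Eventually.of_forall fun t => by positivity)]
    _ ≤ ENNReal.ofReal ((1 + C) * T ^ (1 + ε)) := by
        apply ENNReal.ofReal_le_ofReal
        rw [← intervalIntegral.integral_of_le hT0]
        have h5 := h4 T hT
        have h7 : ∫ t in (0 : ℝ)..T, (1 + ff t ^ 2) = (∫ _t in (0 : ℝ)..T, (1 : ℝ)) +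
            ∫ t in (0 : ℝ)..T, ff t ^ 2 := by
          apply intervalIntegral.integral_add (by simp)
          exact (hcont.pow 2).intervalIntegrable _ _
        rw [h7]
        have h6 : T ≤ T ^ (1 + ε) := by
          calc T = T ^ (1 : ℝ) := (Real.rpow_one T).symm
            _ ≤ _ := Real.rpow_le_rpow_of_exponent_le hT (by linarith)
        simp only [intervalIntegral.integral_const, sub_zero, smul_eq_mul, mul_one]
        linarith

open Polynomial in
/-- the solution of `q + q' = p` -/
lemma exists_prim (p : ℝ[X]) : ∃ q : ℝ[X], q + derivative q = p ∧ q.degree = p.degree ∧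
    q.leadingCoeff = p.leadingCoeff := by
  induction hn : p.natDegree using Nat.strong_induction_on generalizing p with
  | _ n ih =>
    rcases Nat.eq_zero_or_pos n with h0 | h0
    · subst h0
      obtain ⟨c, rfl⟩ := Polynomial.natDegree_eq_zero.1 hn
      exact ⟨C c, by simp, rfl, rfl⟩
    · have h1 : (derivative p).natDegree < n := by
        rw [← hn]; exact Polynomial.natDegree_derivative_lt (by omega)
      obtain ⟨q, hq1, hq2, hq3⟩ := ih _ h1 (derivative p) rfl
      have hp0 : p ≠ 0 := by
        rintro rfl; simp at hn; omega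
      have h2 : q.degree < p.degree := by
        rw [hq2]; exact Polynomial.degree_derivative_lt hp0
      refine ⟨p - q, ?_, Polynomial.degree_sub_eq_left_of_degree_lt h2,
        Polynomial.leadingCoeff_sub_of_degree_lt h2⟩
      rw [map_sub]
      have h3 : derivative q = derivative p - q := by rw [← hq1]; ring
      rw [h3]; ring

open Polynomial in
/-- the integral of a polynomial in `log t` -/
lemma int_poly (p q : ℝ[X]) (h : q + derivative q = p) (T : ℝ) (hT : 0 < T) :
    ∫ t in (0 : ℝ)..T, p.eval (Real.log t) = T * q.eval (Real.log T) := by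
  have hz : ∀ r : ℝ[X], Tendsto (fun t : ℝ => t * r.eval (Real.log t)) (𝓝[>] 0) (𝓝 0) := by
    intro r
    induction r using Polynomial.induction_on' with
    | add p q hp hq =>
      have := hp.add hq
      rw [add_zero] at this
      refine this.congr fun t => ?_
      rw [eval_add]; ring
    | monomial n a =>
      have h1 := (tendsto_log_mul_rpow_nhdsGT_zero (r := 1 / (n + 1 : ℝ)) (by positivity))
      have h2 := (h1.pow n).const_mul a
      rcases Nat.eq_zero_or_pos n with h0 | h0
      · subst h0
        simp only [eval_monomial, pow_zero, mul_one]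
        have : Tendsto (fun t : ℝ => t * a) (𝓝 0) (𝓝 (0 * a)) := (continuous_id.mul continuous_const).tendsto 0
        rw [zero_mul] at this
        exact this.mono_left nhdsWithin_le_nhds
      · rw [zero_pow (by omega), mul_zero] at h2
        have h3 : Tendsto (fun t : ℝ => t ^ (1 / (n + 1 : ℝ))) (𝓝[>] 0) (𝓝 0) := by
          have : ContinuousAt (fun t : ℝ => t ^ (1 / (n + 1 : ℝ))) 0 :=
            Real.continuousAt_rpow_const _ _ (Or.inr (by positivity))
          have h4 := this.tendsto
          rw [Real.zero_rpow (by positivity)] at h4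
          exact h4.mono_left nhdsWithin_le_nhds
        have h5 := h2.mul h3
        rw [mul_zero] at h5
        refine h5.congr' ?_
        filter_upwards [self_mem_nhdsWithin] with t ht
        have ht0 : (0 : ℝ) < t := ht
        rw [eval_monomial, mul_pow, ← Real.rpow_natCast (t ^ (1 / (n + 1 : ℝ))) n, ← Real.rpow_mul ht0.le]
        have e : t ^ (1 / (n + 1 : ℝ) * n) * t ^ (1 / (n + 1 : ℝ)) = t := by
          rw [← Real.rpow_add ht0]
          have : 1 / (n + 1 : ℝ) * n + 1 / (n + 1 : ℝ) = 1 := by field_simp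
          rw [this, Real.rpow_one]
        calc a * (Real.log t ^ n * t ^ (1 / (n + 1 : ℝ) * n)) * t ^ (1 / (n + 1 : ℝ)) =
            a * Real.log t ^ n * (t ^ (1 / (n + 1 : ℝ) * n) * t ^ (1 / (n + 1 : ℝ))) := by ring
          _ = t * (a * Real.log t ^ n) := by rw [e]; ring
  set G : ℝ → ℝ := fun t => t * q.eval (Real.log t) with hG
  have hd : ∀ t : ℝ, 0 < t → HasDerivAt G (p.eval (Real.log t)) t := by
    intro t ht
    have h1 := (q.hasDerivAt (Real.log t)).comp t (Real.hasDerivAt_log ht.ne')
    have h2 := (hasDerivAt_id t).mul h1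
    refine h2.congr_deriv ?_
    rw [← h, eval_add]
    simp only [id, Function.comp]
    field_simp
  have hint : IntervalIntegrable (fun t => p.eval (Real.log t)) volume 0 T := by
    have hall : ∀ r : ℝ[X], IntervalIntegrable (fun t => r.eval (Real.log t)) volume 0 T := by
      intro r
      rw [intervalIntegrable_iff_integrableOn_Ioc_of_le hT.le]
      -- `|r (log t)| ≤ C t^(-1/2)`
      have h1 : IntegrableOn (fun t : ℝ => t ^ (-(1 / 2) : ℝ)) (Ioc 0 T) := by
        have := intervalIntegral.intervalIntegrable_rpow' (a := 0) (b := T) (r := -(1 / 2)) (by norm_num)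
        rwa [intervalIntegrable_iff_integrableOn_Ioc_of_le hT.le] at this
      have hbd : ∃ C : ℝ, ∀ t ∈ Ioc 0 T, ‖r.eval (Real.log t)‖ ≤ C * t ^ (-(1 / 2) : ℝ) := by
        have hc : ContinuousOn (fun t : ℝ => if t = 0 then (0:ℝ) else t ^ (1 / 2 : ℝ) * r.eval (Real.log t)) (Icc 0 T) := by
          intro t ht
          rcases eq_or_lt_of_le ht.1 with h0 | h0
          · rw [← h0]
            have hz2 : Tendsto (fun t : ℝ => t ^ (1 / 2 : ℝ) * r.eval (Real.log t)) (𝓝[>] 0) (𝓝 0) := by
              have h4 := hz (r.comp (C 2 * X))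
              have h5 : Tendsto (fun t : ℝ => t ^ (1 / 2 : ℝ)) (𝓝[>] 0) (𝓝[>] 0) := by
                apply tendsto_nhdsWithin_iff.2
                constructor
                · have : ContinuousAt (fun t : ℝ => t ^ (1 / 2 : ℝ)) 0 :=
                    Real.continuousAt_rpow_const _ _ (Or.inr (by norm_num))
                  have h6 := this.tendsto
                  rw [Real.zero_rpow (by norm_num)] at h6
                  exact h6.mono_left nhdsWithin_le_nhds
                · filter_upwards [self_mem_nhdsWithin] with t ht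
                  exact Real.rpow_pos_of_pos ht _
              have h6 := h4.comp h5
              refine h6.congr' ?_
              filter_upwards [self_mem_nhdsWithin] with t ht
              have ht0 : (0 : ℝ) < t := ht
              simp only [Function.comp, eval_comp, eval_mul, eval_C, eval_X]
              rw [Real.log_rpow ht0]
              congr 2
              ring
            rw [ContinuousWithinAt, if_pos rfl]
            have h7 : 𝓝[Icc 0 T] (0:ℝ) ≤ 𝓝[≥] 0 := nhdsWithin_mono _ fun x hx => hx.1
            refine Tendsto.mono_left ?_ h7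
            rw [← Ioi_union_left, nhdsWithin_union, tendsto_sup]
            constructor
            · refine hz2.congr' ?_
              filter_upwards [self_mem_nhdsWithin] with t ht
              rw [if_neg (ne_of_gt ht)]
            · rw [nhdsWithin_singleton]
              rw [tendsto_pure_left]
              intro s hs
              simpa using mem_of_mem_nhds hs
          · have hca : ContinuousAt (fun t : ℝ => t ^ (1 / 2 : ℝ) * r.eval (Real.log t)) t :=
              (Real.continuousAt_rpow_const _ _ (Or.inl h0.ne')).mul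
                (r.continuous.continuousAt.comp (Real.continuousAt_log h0.ne'))
            refine (hca.congr ?_).continuousWithinAt
            filter_upwards [lt_mem_nhds h0] with s hs
            rw [if_neg hs.ne']
        obtain ⟨C, hC⟩ := isCompact_Icc.exists_bound_of_continuousOn hc
        refine ⟨C, fun t ht => ?_⟩
        have ht0 : 0 < t := ht.1
        have h4 := hC t ⟨ht0.le, ht.2⟩
        rw [if_neg ht0.ne', norm_mul, Real.norm_of_nonneg (Real.rpow_nonneg ht0.le _)] at h4
        have h5 : t ^ (-(1 / 2) : ℝ) = (t ^ (1 / 2 : ℝ))⁻¹ := Real.rpow_neg ht0.le _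
        have h6 : 0 < t ^ (1 / 2 : ℝ) := Real.rpow_pos_of_pos ht0 _
        rw [h5, ← div_eq_mul_inv, le_div_iff₀ h6]
        linarith
      obtain ⟨C, hC⟩ := hbd
      refine Integrable.mono' (h1.const_mul C) ?_ ?_
      · exact (r.continuous.measurable.comp Real.measurable_log).aestronglyMeasurable
      · rw [ae_restrict_iff' measurableSet_Ioc]
        exact Eventually.of_forall hC
    exact hall p
  have h1 := intervalIntegral.integral_eq_sub_of_hasDerivAt_of_tendsto (f := G) (a := 0) (b := T) hT
    (fun t ht => hd t ht.1) hint (hz q)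
    ((hd T hT).continuousAt.continuousWithinAt.tendsto)
  rw [h1, sub_zero]

open Polynomial in
/-- the main term for `F = 1` -/
lemma main_one {k : ℕ} (l : Fin k → ℝ) (hl : ∀ j, 0 < l j) :
    Tendsto (fun T : ℝ => (∫ t in (0 : ℝ)..T, ∏ j, D0 (l j * t)) / (T * Real.log T ^ k)) atTop (𝓝 1) := by
  set p : ℝ[X] := ∏ j, (X + C (Real.log (l j / (2 * Real.pi)) + 2 * Real.eulerMascheroniConstant)) with hp
  have hmon : p.Monic := monic_prod_of_monic _ _ fun j _ => monic_X_add_C _
  have hdeg : p.degree = k := by
    rw [hp, degree_prod]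
    have : ∀ j : Fin k, (X + C (Real.log (l j / (2 * Real.pi)) + 2 * Real.eulerMascheroniConstant)).degree = 1 :=
      fun j => degree_X_add_C _
    rw [Finset.sum_congr rfl fun j _ => this j]
    simp
  obtain ⟨q, hq, hq2, hq3⟩ := exists_prim p
  have hI : ∀ T : ℝ, 0 < T → ∫ t in (0 : ℝ)..T, ∏ j, D0 (l j * t) = T * q.eval (Real.log T) := by
    intro T hT
    rw [← int_poly p q hq T hT]
    rw [intervalIntegral.integral_of_le hT.le, intervalIntegral.integral_of_le hT.le]
    refine setIntegral_congr_fun measurableSet_Ioc fun t ht => ?_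
    have ht0 : 0 < t := ht.1
    simp only [hp, eval_prod, eval_add, eval_X, eval_C]
    refine Finset.prod_congr rfl fun j _ => ?_
    unfold D0
    have h1 : l j * t / (2 * Real.pi) = t * (l j / (2 * Real.pi)) := by ring
    have h2 : l j / (2 * Real.pi) ≠ 0 := (div_pos (hl j) (by positivity)).ne'
    rw [h1, Real.log_mul ht0.ne' h2]
    ring
  have h4 : Tendsto (fun x : ℝ => q.eval x / (X ^ k : ℝ[X]).eval x) atTop (𝓝 (q.leadingCoeff / (X ^ k : ℝ[X]).leadingCoeff)) :=
    Polynomial.div_tendsto_atTop_leadingCoeff_div_of_degree_eq q (X ^ k) (by rw [hq2, hdeg, degree_X_pow])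
  rw [hq3, hmon.leadingCoeff, (monic_X_pow k).leadingCoeff, div_one] at h4
  have h5 := h4.comp Real.tendsto_log_atTop
  refine h5.congr' ?_
  filter_upwards [eventually_gt_atTop 0] with T hT
  rw [hI T hT]
  simp only [Function.comp, eval_pow, eval_X]
  rw [mul_div_mul_left _ _ hT.ne']

end

end Pool.Agent.N879.GD
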