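import Pool.Agent.N879.GD.Stm
import Pool.Agent.R942.AX.Lim

set_option autoImplicit false

/-!
GD/COV (helper498): the Hausdorff dimension of a limsup set from volumes of neighbourhoods.
-/

namespace Pool.Agent.N879.GD

open Filter Topology MeasureTheory Set
open scoped ENNReal NNReal

namespace Cov_

/-- a maximal separated set -/
theorem net {k : ℕ} {B B' : Set (Fin k → ℝ)} {r v : ℝ} (hr : 0 < r) (hv : 0 ≤ v)
    (hB : ∀ x ∈ B, Metric.closedBall x r ⊆ B') (hB' : volume B' ≤ ENNReal.ofReal v) :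
    ∃ X : Finset (Fin k → ℝ), B ⊆ ⋃ x ∈ X, Metric.closedBall x r ∧ (X.card : ℝ) * r ^ k ≤ v := by
  classical
  have hcard : ∀ X : Finset (Fin k → ℝ), (∀ x ∈ X, x ∈ B) →
      (∀ x ∈ X, ∀ y ∈ X, x ≠ y → r < dist x y) → (X.card : ℝ) * r ^ k ≤ v := by
    intro X hX hsep
    have h1 : volume (⋃ x ∈ X, Metric.closedBall x (r / 2)) =
        ∑ x ∈ X, volume (Metric.closedBall x (r / 2)) := by
      apply measure_biUnion_finset
      · intro x hx y hy hxy
        apply Metric.closedBall_disjoint_closedBall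
        have := hsep x hx y hy hxy
        linarith
      · intro x _
        exact measurableSet_closedBall
    have h2 : ∀ x : Fin k → ℝ, volume (Metric.closedBall x (r / 2)) = ENNReal.ofReal (r ^ k) := by
      intro x
      rw [Real.volume_pi_closedBall _ (by positivity), Fintype.card_fin]
      congr 2
      ring
    rw [Finset.sum_congr rfl fun x _ => h2 x, Finset.sum_const, nsmul_eq_mul] at h1
    have h3 : (⋃ x ∈ X, Metric.closedBall x (r / 2)) ⊆ B' := by
      intro y hy
      simp only [mem_iUnion] at hy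
      obtain ⟨x, hx, hy⟩ := hy
      exact hB x (hX x hx) (Metric.closedBall_subset_closedBall (by linarith) hy)
    have h4 : (X.card : ℝ≥0∞) * ENNReal.ofReal (r ^ k) ≤ ENNReal.ofReal v := by
      rw [← h1]
      exact (measure_mono h3).trans hB'
    rw [← ENNReal.ofReal_natCast, ← ENNReal.ofReal_mul (by positivity),
      ENNReal.ofReal_le_ofReal_iff hv] at h4
    exact h4
  let P : ℕ → Prop := fun n => ∃ X : Finset (Fin k → ℝ), (∀ x ∈ X, x ∈ B) ∧
    (∀ x ∈ X, ∀ y ∈ X, x ≠ y → r < dist x y) ∧ X.card = n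
  have hbd : ∀ n, P n → n ≤ ⌊v / r ^ k⌋₊ := by
    rintro n ⟨X, h1, h2, rfl⟩
    rw [Nat.le_floor_iff (by positivity), le_div_iff₀ (by positivity)]
    exact hcard X h1 h2
  have hP0 : P 0 := ⟨∅, by simp, by simp, rfl⟩
  have hmax : P (Nat.findGreatest P ⌊v / r ^ k⌋₊) := Nat.findGreatest_spec (Nat.zero_le _) hP0
  obtain ⟨X, h1, h2, h3⟩ := hmax
  refine ⟨X, ?_, hcard X h1 h2⟩
  intro y hy
  by_contra hcon
  simp only [mem_iUnion, not_exists, Metric.mem_closedBall, not_le] at hcon
  have hyX : y ∉ X := by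
    intro h
    have := hcon y h
    rw [dist_self] at this
    linarith
  have hP : P (X.card + 1) := by
    refine ⟨insert y X, ?_, ?_, Finset.card_insert_of_notMem hyX⟩
    · intro x hx
      rw [Finset.mem_insert] at hx
      rcases hx with rfl | hx
      · exact hy
      · exact h1 x hx
    · intro x hx z hz hxz
      rw [Finset.mem_insert] at hx hz
      rcases hx with rfl | hx <;> rcases hz with rfl | hz
      · exact absurd rfl hxz
      · exact hcon z hz
      · rw [dist_comm]
        exact hcon x hx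
      · exact h2 x hx z hz hxz
  have h4 := Nat.le_findGreatest (hbd _ hP) hP
  omega

end Cov_

theorem t_COV : S_COV := by
  intro k s B B' r v hk hs hr hr0 hv hB hB' hsum
  classical
  obtain ⟨n0, hn0⟩ := (hB.and hB').exists_forall_of_atTop
  have hnet : ∀ n, ∃ X : Finset (Fin k → ℝ),
      (n0 ≤ n → B n ⊆ ⋃ x ∈ X, Metric.closedBall x (r n)) ∧ (X.card : ℝ) * r n ^ k ≤ v n := by
    intro n
    by_cases hn : n0 ≤ n
    · obtain ⟨X, h1, h2⟩ := Cov_.net (hr n) (hv n) (hn0 n hn).1 (hn0 n hn).2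
      exact ⟨X, fun _ => h1, h2⟩
    · exact ⟨∅, fun h => absurd h hn, by simpa using hv n⟩
  choose X hX1 hX2 using hnet
  let U : (Σ n : ℕ, {x // x ∈ X n}) → Set (Fin k → ℝ) :=
    fun i => Metric.closedBall (i.2 : Fin k → ℝ) (r i.1)
  have hsum2 : ∑' i, Metric.ediam (U i) ^ s ≠ ⊤ := by
    have h1 : ∀ i, Metric.ediam (U i) ^ s ≤ ENNReal.ofReal ((2 * r i.1) ^ s) := by
      intro i
      have hri := hr i.1
      have h2 : Metric.ediam (U i) ≤ ENNReal.ofReal (2 * r i.1) := by
        apply Metric.ediam_le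
        intro x hx y hy
        rw [edist_dist]
        apply ENNReal.ofReal_le_ofReal
        have hx' := Metric.mem_closedBall.1 hx
        have hy' := Metric.mem_closedBall.1 hy
        have h3 := dist_triangle_right x y (i.2 : Fin k → ℝ)
        linarith
      rw [← ENNReal.ofReal_rpow_of_nonneg (by positivity) hs.le]
      exact ENNReal.rpow_le_rpow h2 hs.le
    have h2 : ∑' i, Metric.ediam (U i) ^ s ≤
        ∑' n, ENNReal.ofReal (2 ^ s * (v n * r n ^ (s - k))) := by
      refine (ENNReal.tsum_le_tsum h1).trans ?_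
      rw [ENNReal.tsum_sigma']
      refine ENNReal.tsum_le_tsum fun n => ?_
      have hrn := hr n
      rw [tsum_fintype]
      change ∑ _b : {x // x ∈ X n}, ENNReal.ofReal ((2 * r n) ^ s) ≤ _
      rw [Finset.sum_const, Finset.card_univ, Fintype.card_coe, nsmul_eq_mul,
        ← ENNReal.ofReal_natCast, ← ENNReal.ofReal_mul (by positivity)]
      apply ENNReal.ofReal_le_ofReal
      rw [Real.mul_rpow (by norm_num) hrn.le]
      have h3 : r n ^ s = r n ^ k * r n ^ (s - k) := by
        rw [← Real.rpow_natCast, ← Real.rpow_add hrn]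
        congr 1
        ring
      rw [h3]
      calc ((X n).card : ℝ) * (2 ^ s * (r n ^ k * r n ^ (s - k))) =
          2 ^ s * (((X n).card * r n ^ k) * r n ^ (s - k)) := by ring
        _ ≤ 2 ^ s * (v n * r n ^ (s - k)) := by
          have h4 := hX2 n
          gcongr
    exact ne_top_of_le_ne_top (hsum.mul_left (2 ^ s)).tsum_ofReal_ne_top h2
  refine (dimH_mono ?_).trans (Pool.Agent.R942.AX.dimH_limsup U hs hsum2)
  intro x hx
  have hinf : {n | x ∈ B n ∧ n0 ≤ n}.Infinite :=
    Nat.frequently_atTop_iff_infinite.1 (hx.and_eventually (eventually_ge_atTop n0))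
  have hsub : {n | x ∈ B n ∧ n0 ≤ n} ⊆ Sigma.fst '' {i | x ∈ U i} := by
    rintro n ⟨hxn, hn⟩
    have h1 := hX1 n hn hxn
    simp only [mem_iUnion] at h1
    obtain ⟨y, hy, hxy⟩ := h1
    exact ⟨⟨n, ⟨y, hy⟩⟩, hxy, rfl⟩
  exact Set.Infinite.of_image Sigma.fst (hinf.mono hsub)

end Pool.Agent.N879.GD
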