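import Pool.Agent.N879.GD.Stm
import Pool.Agent.H295R2.Z

set_option autoImplicit false

/-!
Project GD: crude bounds for `|ζ(1/2+iu)|²` and its increments (helper407).
-/

namespace Pool.Agent.N879.GD

open Complex Filter Topology MeasureTheory Set
open Pool.Agent.Y969.GP (ff)

namespace Cru

lemma norm_line (u : ℝ) : ‖(1 / 2 + I * u : ℂ)‖ ≤ 1 / 2 + |u| := by
  refine (norm_add_le _ _).trans ?_
  rw [norm_mul, norm_I, one_mul, norm_real, Real.norm_eq_abs]
  norm_num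

lemma re_line (u : ℝ) : (1 / 2 + I * u : ℂ).re = 1 / 2 := by simp

/-- zeta near the critical line -/
lemma zeta_disc {u : ℝ} (hu : 0 ≤ u) {z : ℂ} (hz : ‖z - (1 / 2 + I * u)‖ ≤ 1 / 8) :
    z ≠ 1 ∧ ‖riemannZeta z‖ ≤ 56 * (1 + u) ^ 2 := by
  have h1 := (abs_le.1 ((abs_re_le_norm _).trans hz))
  rw [sub_re, re_line] at h1
  have hz1 : z ≠ 1 := by
    rintro rfl
    rw [one_re] at h1
    linarith [h1.2]
  refine ⟨hz1, ?_⟩
  have h2 := Pool.Agent.H295R2.Zs_norm_le (s := z) (by linarith [h1.1])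
  rw [← Pool.Agent.H295R2.Zs_eq hz1, norm_mul] at h2
  have h3 : 3 / 8 ≤ ‖z - 1‖ := by
    have h4 := neg_le_of_abs_le (abs_re_le_norm (z - 1))
    rw [sub_re, one_re] at h4
    linarith [h1.2]
  have h5 : ‖z‖ ≤ 5 / 8 + u := by
    have h6 : z = (z - (1 / 2 + I * u)) + (1 / 2 + I * u) := by ring
    rw [h6]
    refine (norm_add_le _ _).trans ?_
    have h7 := norm_line u
    rw [abs_of_nonneg hu] at h7
    linarith
  have h8 : 5 * (‖z‖ + 1) ^ 2 ≤ 20 * (1 + u) ^ 2 := by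
    have h9 : ‖z‖ + 1 ≤ 2 * (1 + u) := by linarith
    have h10 : 0 ≤ ‖z‖ + 1 := by positivity
    nlinarith
  have h11 : 3 / 8 * ‖riemannZeta z‖ ≤ 20 * (1 + u) ^ 2 := by
    calc 3 / 8 * ‖riemannZeta z‖ ≤ ‖z - 1‖ * ‖riemannZeta z‖ := by gcongr
      _ ≤ _ := h2.trans h8
  have h12 : 0 ≤ (1 + u) ^ 2 := by positivity
  linarith

lemma deriv_zeta {u : ℝ} (hu : 0 ≤ u) : ‖deriv riemannZeta (1 / 2 + I * u)‖ ≤ 448 * (1 + u) ^ 2 := by
  have h1 : ‖deriv riemannZeta (1 / 2 + I * u)‖ ≤ (56 * (1 + u) ^ 2) / (1 / 8) := by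
    refine norm_deriv_le_of_forall_mem_sphere_norm_le (by norm_num) ?_ ?_
    · refine DifferentiableOn.diffContOnCl fun z hz => ?_
      rw [closure_ball _ (by norm_num), Metric.mem_closedBall, dist_eq_norm] at hz
      exact (differentiableAt_riemannZeta (zeta_disc hu hz).1).differentiableWithinAt
    · intro z hz
      rw [mem_sphere_iff_norm] at hz
      exact (zeta_disc hu hz.le).2
  linarith

lemma line_ne (u : ℝ) : (1 / 2 + I * u : ℂ) ≠ 1 := by
  intro h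
  have := congrArg Complex.re h
  rw [re_line, one_re] at this
  norm_num at this

lemma hasDeriv (u : ℝ) : HasDerivAt (fun x : ℝ => riemannZeta (1 / 2 + I * x))
    (deriv riemannZeta (1 / 2 + I * u) * I) u := by
  have h1 : HasDerivAt (fun x : ℝ => (1 / 2 + I * x : ℂ)) I u := by
    have h2 : HasDerivAt (fun x : ℝ => (x : ℂ)) 1 u := ofRealCLM.hasDerivAt
    have h3 := (h2.const_mul I).const_add (1 / 2 : ℂ)
    rwa [mul_one] at h3
  exact HasDerivAt.comp_of_eq u (differentiableAt_riemannZeta (line_ne u)).hasDerivAt h1 rfl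

lemma norm_zeta {u : ℝ} (hu : 0 ≤ u) : ‖riemannZeta (1 / 2 + I * u)‖ ≤ 56 * (1 + u) ^ 2 :=
  (zeta_disc hu (by simp)).2

end Cru

open Cru in
theorem t_CRU : S_CRU := by
  refine ⟨50176, 4, by norm_num, ?_, ?_, ?_⟩
  · unfold ff
    have h1 : Continuous (fun x : ℝ => riemannZeta (1 / 2 + I * x)) :=
      continuous_iff_continuousAt.2 fun u => (hasDeriv u).continuousAt
    exact h1.norm.pow 2
  · intro u hu
    unfold ff
    have h1 := norm_zeta hu
    have h2 : 0 ≤ ‖riemannZeta (1 / 2 + I * u)‖ := norm_nonneg _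
    calc ‖riemannZeta (1 / 2 + I * u)‖ ^ 2 ≤ (56 * (1 + u) ^ 2) ^ 2 := by gcongr
      _ = 3136 * (1 + u) ^ 4 := by ring
      _ ≤ 50176 * (1 + u) ^ 4 := by gcongr; norm_num
  · intro u v hu hv
    set g : ℝ → ℂ := fun x => riemannZeta (1 / 2 + I * x) with hg
    have hgu : ‖g u‖ ≤ 56 * (1 + u + v) ^ 2 := (norm_zeta hu).trans (by gcongr 56 * ?_ ^ 2; linarith)
    have hgv : ‖g v‖ ≤ 56 * (1 + u + v) ^ 2 := (norm_zeta hv).trans (by gcongr 56 * ?_ ^ 2; linarith)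
    have hinc : ‖g u - g v‖ ≤ 448 * (1 + u + v) ^ 2 * |u - v| := by
      have h1 := Convex.norm_image_sub_le_of_norm_deriv_le (𝕜 := ℝ) (f := g)
        (C := 448 * (1 + u + v) ^ 2) (s := Icc 0 (u + v)) (x := v) (y := u)
        (fun x _ => (hasDeriv x).differentiableAt) (fun x hx => by
          rw [(hasDeriv x).deriv, norm_mul, norm_I, mul_one]
          refine (deriv_zeta hx.1).trans ?_
          have := hx.1
          gcongr 448 * ?_ ^ 2
          linarith [hx.2]) (convex_Icc _ _) ⟨hv, by linarith⟩ ⟨hu, by linarith⟩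
      rwa [Real.norm_eq_abs] at h1
    have h2 : |‖g u‖ - ‖g v‖| ≤ ‖g u - g v‖ := abs_norm_sub_norm_le _ _
    have h3 : ff u - ff v = (‖g u‖ + ‖g v‖) * (‖g u‖ - ‖g v‖) := by
      unfold ff
      simp only [hg]
      ring
    rw [h3, abs_mul, abs_of_nonneg (by positivity : 0 ≤ ‖g u‖ + ‖g v‖)]
    calc (‖g u‖ + ‖g v‖) * |‖g u‖ - ‖g v‖|
        ≤ (56 * (1 + u + v) ^ 2 + 56 * (1 + u + v) ^ 2) * (448 * (1 + u + v) ^ 2 * |u - v|) := by
          refine mul_le_mul (add_le_add hgu hgv) (h2.trans hinc) (abs_nonneg _) (by positivity)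
      _ = 50176 * (1 + u + v) ^ 4 * |u - v| := by ring

end Pool.Agent.N879.GD
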