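import Pool.Agent.N879.GD.Stm

set_option autoImplicit false

/-!
Project GD (helper879), part DET (helper887): the integral for parameters which are bad only
finitely often.
-/

namespace Pool.Agent.N879.GD

open Complex Filter Topology MeasureTheory Set
open Pool.Agent.Y969.GP (ff V ht lam PS co PX)

noncomputable section

namespace Det

theorem ff_nonneg (u : ℝ) : 0 ≤ ff u := by
  unfold Pool.Agent.Y969.GP.ff
  positivity

/-- Dyadic summation. -/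
theorem dyadic {G : ℝ → ℂ} (hG : ∀ T : ℝ, IntegrableOn G (Ioc 0 T)) {δ C₁ : ℝ} {n₀ : ℕ}
    (hδ : δ < 1) (h : ∀ n ≥ n₀, ∀ S : ℝ, (2 : ℝ) ^ n ≤ S → S ≤ 2 ^ (n + 1) →
      ‖∫ t in Ioc ((2 : ℝ) ^ n) S, G t‖ ≤ C₁ * ((2 : ℝ) ^ n) ^ (1 - δ)) :
    ∃ C : ℝ, ∀ T : ℝ, 1 ≤ T → ‖∫ t in Ioc 0 T, G t‖ ≤ C * T ^ (1 - δ) := by
  have hδ' : 0 < 1 - δ := by linarith
  have hq1 : 1 < (2 : ℝ) ^ (1 - δ) := Real.one_lt_rpow (by norm_num) hδ'
  have split : ∀ a S : ℝ, 0 ≤ a → a ≤ S →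
      ∫ t in Ioc 0 S, G t = (∫ t in Ioc 0 a, G t) + ∫ t in Ioc a S, G t := by
    intro a S ha haS
    rw [← Ioc_union_Ioc_eq_Ioc ha haS, setIntegral_union (Ioc_disjoint_Ioc_of_le le_rfl)
      measurableSet_Ioc (hG a) ((hG S).mono_set (Ioc_subset_Ioc_left ha))]
  set K0 : ℝ := ∫ t in Ioc 0 ((2 : ℝ) ^ n₀), ‖G t‖ with hK0
  have hK00 : 0 ≤ K0 := integral_nonneg fun t => norm_nonneg _
  set K : ℝ := max K0 (|C₁| / ((2 : ℝ) ^ (1 - δ) - 1)) with hK
  have hK1 : |C₁| ≤ K * ((2 : ℝ) ^ (1 - δ) - 1) := by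
    rw [← div_le_iff₀ (by linarith)]
    exact le_max_right _ _
  have hK2 : K0 ≤ K := le_max_left _ _
  have base : ∀ T : ℝ, T ≤ 2 ^ n₀ → ‖∫ t in Ioc 0 T, G t‖ ≤ K0 := by
    intro T hT
    refine (norm_integral_le_integral_norm _).trans ?_
    exact setIntegral_mono_set (hG _).norm (ae_of_all _ fun t => norm_nonneg _)
      (Ioc_subset_Ioc_right hT).eventuallyLE
  have step : ∀ n ≥ n₀, ‖∫ t in Ioc 0 ((2 : ℝ) ^ n), G t‖ ≤ K * ((2 : ℝ) ^ n) ^ (1 - δ) := by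
    intro n hn
    induction n, hn using Nat.le_induction with
    | base =>
      have h1 : (1 : ℝ) ≤ ((2 : ℝ) ^ n₀) ^ (1 - δ) :=
        Real.one_le_rpow (one_le_pow₀ (by norm_num)) hδ'.le
      nlinarith [base _ le_rfl]
    | succ n hn ih =>
      have h2 : (2 : ℝ) ^ n ≤ 2 ^ (n + 1) := pow_le_pow_right₀ (by norm_num) (Nat.le_succ n)
      have h3 := h n hn _ h2 le_rfl
      have h4 : ((2 : ℝ) ^ (n + 1)) ^ (1 - δ) = ((2 : ℝ) ^ n) ^ (1 - δ) * (2 : ℝ) ^ (1 - δ) := by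
        rw [pow_succ, Real.mul_rpow (by positivity) (by positivity)]
      have h5 : 0 < ((2 : ℝ) ^ n) ^ (1 - δ) := Real.rpow_pos_of_pos (by positivity) _
      rw [split _ _ (by positivity) h2, h4]
      refine (norm_add_le _ _).trans ?_
      have h6 : C₁ ≤ |C₁| := le_abs_self _
      nlinarith
  refine ⟨K + |C₁|, fun T hT => ?_⟩
  have hT1 : (1 : ℝ) ≤ T ^ (1 - δ) := Real.one_le_rpow hT hδ'.le
  obtain ⟨n, hn1, hn2⟩ := exists_nat_pow_near hT (by norm_num : (1 : ℝ) < 2)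
  by_cases hn : n₀ ≤ n
  · rw [split _ _ (by positivity) hn1]
    refine (norm_add_le _ _).trans ?_
    have h1 := step n hn
    have h2 := h n hn T hn1 hn2.le
    have h3 : ((2 : ℝ) ^ n) ^ (1 - δ) ≤ T ^ (1 - δ) :=
      Real.rpow_le_rpow (by positivity) hn1 hδ'.le
    have h4 : C₁ ≤ |C₁| := le_abs_self _
    have h5 : 0 < ((2 : ℝ) ^ n) ^ (1 - δ) := Real.rpow_pos_of_pos (by positivity) _
    have h6 : 0 ≤ K + |C₁| := by positivity
    calc _ ≤ (K + |C₁|) * ((2 : ℝ) ^ n) ^ (1 - δ) := by nlinarith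
      _ ≤ _ := mul_le_mul_of_nonneg_left h3 h6
  · have h1 : T ≤ 2 ^ n₀ := hn2.le.trans (pow_le_pow_right₀ (by norm_num) (by omega))
    have h2 := base T h1
    have h3 : 0 ≤ |C₁| := abs_nonneg _
    nlinarith

theorem NN_pos (θ : ℝ) (n : ℕ) : 0 < NN θ n := by
  unfold NN
  exact Nat.ceil_pos.2 (Real.rpow_pos_of_pos (by positivity) _)

theorem gp_zero (θ : ℝ) (n : ℕ) : gp θ n 0 = 2 ^ n := by
  unfold gp
  simp

theorem gp_NN (θ : ℝ) (n : ℕ) : gp θ n (NN θ n) = 2 ^ (n + 1) := by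
  have h : (0 : ℝ) < NN θ n := Nat.cast_pos.2 (NN_pos θ n)
  unfold gp
  rw [div_self h.ne', pow_succ]
  ring

theorem gp_mono (θ : ℝ) (n : ℕ) {i j : ℕ} (h : i ≤ j) : gp θ n i ≤ gp θ n j := by
  unfold gp
  have h1 : (i : ℝ) ≤ j := Nat.cast_le.2 h
  gcongr

theorem gp_succ (θ : ℝ) (n i : ℕ) : gp θ n (i + 1) - gp θ n i ≤ ((2 : ℝ) ^ n) ^ (1 - θ) := by
  have h : (0 : ℝ) < NN θ n := Nat.cast_pos.2 (NN_pos θ n)
  have h2 : ((2 : ℝ) ^ n) ^ θ ≤ NN θ n := Nat.le_ceil _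
  have h3 : 0 < ((2 : ℝ) ^ n) ^ θ := Real.rpow_pos_of_pos (by positivity) _
  have h4 : gp θ n (i + 1) - gp θ n i = 2 ^ n / NN θ n := by
    unfold gp
    push_cast
    field_simp
    ring
  rw [h4, Real.rpow_sub (by positivity), Real.rpow_one]
  exact div_le_div_of_nonneg_left (by positivity) h3 h2

theorem exists_cell (θ : ℝ) (n : ℕ) {S : ℝ} (h1 : (2 : ℝ) ^ n ≤ S) (h2 : S ≤ 2 ^ (n + 1)) :
    ∃ i < NN θ n, gp θ n i ≤ S ∧ S ≤ gp θ n (i + 1) := by
  have hex : ∃ j, 1 ≤ j ∧ S ≤ gp θ n j := ⟨NN θ n, NN_pos θ n, by rw [gp_NN]; exact h2⟩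
  classical
  have h3 := Nat.find_spec hex
  have h4 : Nat.find hex ≤ NN θ n := Nat.find_min' hex ⟨NN_pos θ n, by rw [gp_NN]; exact h2⟩
  have h5 : ∀ m, m < Nat.find hex → ¬ (1 ≤ m ∧ S ≤ gp θ n m) := fun m hm => Nat.find_min hex hm
  generalize Nat.find hex = j at h3 h4 h5
  obtain ⟨i, rfl⟩ : ∃ i, j = i + 1 := ⟨j - 1, by omega⟩
  refine ⟨i, by omega, ?_, h3.2⟩
  rcases Nat.eq_zero_or_pos i with rfl | hi
  · rw [gp_zero]
    exact h1
  · have h6 := h5 i (by omega)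
    push Not at h6
    exact (h6 hi).le

/-- The Cauchy-Schwarz inequality. -/
theorem int_F {F : ℝ → ℂ} (hF : Gr F) {ε : ℝ} (hε : 0 < ε) : ∃ C : ℝ, 0 < C ∧
    ∀ a b T : ℝ, 1 ≤ T → 0 < a → a ≤ b → b ≤ T → IntegrableOn F (Icc a b) ∧
      ∫ t in Icc a b, ‖F t‖ ≤ C * ((b - a) ^ (1 / 2 : ℝ) * T ^ ((1 + ε) / 2)) := by
  obtain ⟨hm, hg⟩ := hF
  obtain ⟨C, hC, hg⟩ := hg ε hε
  refine ⟨C ^ (1 / 2 : ℝ), Real.rpow_pos_of_pos hC _, fun a b T hT ha hab hbT => ?_⟩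
  have h1 : ∫⁻ t in Icc a b, ‖F t‖ₑ ^ 2 ≤ ENNReal.ofReal (C * T ^ (1 + ε)) :=
    (lintegral_mono_set (show Icc a b ⊆ Ioc 0 T from
      fun t ht => ⟨ha.trans_le ht.1, ht.2.trans hbT⟩)).trans (hg T hT)
  have h2 := ENNReal.lintegral_mul_le_Lp_mul_Lq (volume.restrict (Icc a b))
    Real.HolderConjugate.two_two (f := fun _ => 1) (g := fun t => ‖F t‖ₑ) aemeasurable_const
    hm.enorm.aemeasurable
  have hT0 : 0 < T := by linarith
  have h3 : ∫⁻ t in Icc a b, ‖F t‖ₑ ≤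
      ENNReal.ofReal (C ^ (1 / 2 : ℝ) * ((b - a) ^ (1 / 2 : ℝ) * T ^ ((1 + ε) / 2))) := by
    have e1 : ∫⁻ t in Icc a b, ‖F t‖ₑ =
        ∫⁻ t in Icc a b, ((fun _ => 1) * (fun t => ‖F t‖ₑ) : ℝ → ENNReal) t := by
      refine lintegral_congr fun t => ?_
      rw [Pi.mul_apply, one_mul]
    rw [e1]
    refine h2.trans ?_
    simp only [ENNReal.one_rpow, lintegral_const, one_mul, MeasurableSet.univ,
      Measure.restrict_apply, univ_inter, Real.volume_Icc]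
    have e2 : ∫⁻ t in Icc a b, ‖F t‖ₑ ^ (2 : ℝ) = ∫⁻ t in Icc a b, ‖F t‖ₑ ^ 2 := by
      refine lintegral_congr fun t => ?_
      rw [ENNReal.rpow_two]
    rw [e2]
    calc _ ≤ ENNReal.ofReal (b - a) ^ (1 / 2 : ℝ) *
          ENNReal.ofReal (C * T ^ (1 + ε)) ^ (1 / 2 : ℝ) := by gcongr
      _ = _ := by
        rw [ENNReal.ofReal_rpow_of_nonneg (by linarith) (by norm_num),
          ENNReal.ofReal_rpow_of_nonneg (by positivity) (by norm_num),
          ← ENNReal.ofReal_mul (Real.rpow_nonneg (by linarith) _),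
          Real.mul_rpow hC.le (by positivity), ← Real.rpow_mul hT0.le]
        congr 1
        rw [show (1 + ε) * (1 / 2) = (1 + ε) / 2 by ring]
        ring
  have h4 : IntegrableOn F (Icc a b) :=
    ⟨hm.aestronglyMeasurable, h3.trans_lt ENNReal.ofReal_lt_top⟩
  refine ⟨h4, ?_⟩
  rw [integral_norm_eq_lintegral_enorm h4.1]
  refine ENNReal.toReal_le_of_le_ofReal ?_ h3
  have : 0 ≤ b - a := by linarith
  positivity

/-- The main term is small. -/
theorem D0_bound (k : ℕ) {A : ℝ} (hA : 1 ≤ A) {ε : ℝ} (hε : 0 < ε) : ∃ C : ℝ, 0 < C ∧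
    ∀ l : Fin k → ℝ, (∀ j, A⁻¹ ≤ l j ∧ l j ≤ A) → ∀ t : ℝ, 1 ≤ t →
      |∏ j, D0 (l j * t)| ≤ C * t ^ ε := by
  have hk : (0 : ℝ) < k + 1 := by positivity
  set ε' : ℝ := ε / (k + 1) with hε'
  have hε1 : 0 < ε' := div_pos hε hk
  set c0 : ℝ := |Real.log A| + |Real.log (2 * Real.pi)| + 2 * |Real.eulerMascheroniConstant| with hc0
  have hc00 : 0 ≤ c0 := by positivity
  refine ⟨(c0 + 1 / ε' + 1) ^ k, by positivity, fun l hl t ht => ?_⟩
  have ht0 : 0 < t := by linarith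
  have h1 : ∀ j, |D0 (l j * t)| ≤ (c0 + 1 / ε' + 1) * t ^ ε' := by
    intro j
    obtain ⟨h1, h2⟩ := hl j
    have hA0 : 0 < A := by linarith
    have hl0 : 0 < l j := (inv_pos.2 hA0).trans_le h1
    have h3 : |Real.log (l j)| ≤ |Real.log A| := by
      rw [abs_of_nonneg (Real.log_nonneg hA), abs_le]
      constructor
      · rw [← Real.log_inv]
        exact Real.log_le_log (inv_pos.2 hA0) h1
      · exact Real.log_le_log hl0 h2
    have h4 : Real.log t ≤ t ^ ε' / ε' := Real.log_le_rpow_div ht0.le hε1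
    have h5 : (0 : ℝ) ≤ Real.log t := Real.log_nonneg ht
    have h6 : (1 : ℝ) ≤ t ^ ε' := Real.one_le_rpow ht hε1.le
    have h7 : |D0 (l j * t)| ≤ c0 + Real.log t := by
      unfold D0
      rw [Real.log_div (by positivity) (by positivity), Real.log_mul hl0.ne' ht0.ne']
      have e1 := abs_le.1 (le_refl |Real.log (l j)|)
      have e2 := abs_le.1 (le_refl |Real.log (2 * Real.pi)|)
      have e3 := abs_le.1 (le_refl |Real.eulerMascheroniConstant|)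
      rw [abs_le]
      constructor
      · linarith
      · linarith
    have h8 : t ^ ε' / ε' = 1 / ε' * t ^ ε' := by ring
    rw [h8] at h4
    nlinarith
  rw [Finset.abs_prod]
  calc ∏ j, |D0 (l j * t)| ≤ ∏ _j : Fin k, ((c0 + 1 / ε' + 1) * t ^ ε') :=
        Finset.prod_le_prod (fun j _ => abs_nonneg _) fun j _ => h1 j
    _ = (c0 + 1 / ε' + 1) ^ k * (t ^ ε') ^ k := by
        rw [Finset.prod_const, Finset.card_univ, Fintype.card_fin, mul_pow]
    _ ≤ (c0 + 1 / ε' + 1) ^ k * t ^ ε := by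
        refine mul_le_mul_of_nonneg_left ?_ (by positivity)
        rw [← Real.rpow_natCast, ← Real.rpow_mul ht0.le]
        refine Real.rpow_le_rpow_of_exponent_le ht ?_
        rw [hε', div_mul_eq_mul_div, div_le_iff₀ hk]
        nlinarith

end Det

open Det in
/-- **DET.** -/
theorem t_DET (h1 : S_CRU) (h2 : S_INT) : S_DET := by
  intro k F A θ ρ δ hF hA hθ hθ1 hρ hρ1 hδ hδρ hδθ l hl hbad
  obtain ⟨_, _, _, hcont, _, _⟩ := h1
  have hA0 : 0 < A := by linarith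
  have hl0 : ∀ j, 0 < l j := fun j => (inv_pos.2 hA0).trans_le (hl j).1
  have hint : ∀ T : ℝ, IntegrableOn (fun t => F t * ((dif l t : ℝ) : ℂ)) (Ioc 0 T) := by
    intro T
    obtain ⟨e1, e2⟩ := h2 k F hF l hl0 T
    refine (e1.sub e2).congr (ae_of_all _ fun t => ?_)
    simp only [Pi.sub_apply]
    unfold dif
    rw [Complex.ofReal_sub, mul_sub]
  have hdm : Measurable (dif l) := by
    unfold dif
    refine Measurable.sub ?_ ?_
    · exact Finset.measurable_fun_prod _ fun j _ =>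
        hcont.measurable.comp (measurable_const.mul measurable_id)
    · refine Finset.measurable_fun_prod _ fun j _ => ?_
      unfold D0
      exact (Real.measurable_log.comp
        ((measurable_const.mul measurable_id).div_const _)).add_const _
  obtain ⟨n₁, hn₁⟩ := eventually_atTop.1 hbad
  set ε : ℝ := (θ - 2 * δ) / 3 with hε
  have hε0 : 0 < ε := by
    rw [hε]
    linarith
  obtain ⟨CF, hCF, hCF'⟩ := int_F hF hε0
  obtain ⟨CD, hCD, hCD'⟩ := D0_bound k hA hε0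
  refine dyadic (C₁ := 2 + 2 * (CD * 2 ^ ε * (CF * 2 ^ ((1 + ε) / 2)))) (n₀ := n₁) hint
    (by linarith) fun n hn S hS1 hS2 => ?_
  obtain ⟨i, hi, hi1, hi2⟩ := exists_cell θ n hS1 hS2
  have hb := hn₁ n hn
  have hb1 : JJ F l (2 ^ n) (gp θ n i) ≤ ((2 : ℝ) ^ n) ^ (1 - ρ) ∧
      JJ (fun t => ((‖F t‖ : ℝ) : ℂ)) l (gp θ n i) (gp θ n (i + 1)) ≤
        ((2 : ℝ) ^ n) ^ (1 - ρ) := by
    by_contra hcon
    apply hb
    refine ⟨hl, i, hi, ?_⟩
    rw [one_mul]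
    by_contra hcon2
    push Not at hcon2
    exact hcon hcon2
  obtain ⟨hb1, hb2⟩ := hb1
  set T : ℝ := (2 : ℝ) ^ n with hT
  have hT1 : 1 ≤ T := one_le_pow₀ (by norm_num)
  have hT0 : 0 < T := by linarith
  have hgi : T ≤ gp θ n i := by
    rw [hT, ← gp_zero θ n]
    exact gp_mono θ n (Nat.zero_le i)
  have hgi' : gp θ n (i + 1) ≤ 2 * T := by
    have h3 := gp_mono θ n (Nat.succ_le_of_lt hi)
    rw [gp_NN, pow_succ] at h3
    linarith
  have hg1 : gp θ n i ≤ gp θ n (i + 1) := gp_mono θ n (Nat.le_succ i)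
  -- the integral over the cell
  have hIcell : IntegrableOn (fun t => F t * ((dif l t : ℝ) : ℂ))
      (Icc (gp θ n i) (gp θ n (i + 1))) :=
    (hint (gp θ n (i + 1))).mono_set fun t ht => ⟨by linarith [ht.1], ht.2⟩
  obtain ⟨hFi, hFb⟩ := hCF' (gp θ n i) (gp θ n (i + 1)) (2 * T) (by linarith) (by linarith) hg1
    hgi'
  have hI2 : IntegrableOn (fun t => ‖F t‖ * dif l t) (Icc (gp θ n i) (gp θ n (i + 1))) := by
    refine Integrable.mono' hIcell.norm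
      ((hF.1.norm.mul hdm).aestronglyMeasurable) (ae_of_all _ fun t => ?_)
    rw [norm_mul, norm_mul, norm_norm, Complex.norm_real]
  have hDb : ∀ t ∈ Icc (gp θ n i) (gp θ n (i + 1)),
      |∏ j, D0 (l j * t)| ≤ CD * 2 ^ ε * T ^ ε := by
    intro t ht
    refine (hCD' l hl t (by linarith [ht.1])).trans ?_
    rw [mul_assoc, ← Real.mul_rpow (by norm_num) hT0.le]
    refine mul_le_mul_of_nonneg_left ?_ hCD.le
    exact Real.rpow_le_rpow (by linarith [ht.1]) (ht.2.trans hgi') hε0.le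
  have hcell : ∫ t in Icc (gp θ n i) (gp θ n (i + 1)), ‖F t * ((dif l t : ℝ) : ℂ)‖ ≤
      T ^ (1 - ρ) + 2 * (CD * 2 ^ ε * T ^ ε *
        ∫ t in Icc (gp θ n i) (gp θ n (i + 1)), ‖F t‖) := by
    have e1 : ∫ t in Icc (gp θ n i) (gp θ n (i + 1)), ‖F t‖ * dif l t ≤ T ^ (1 - ρ) := by
      refine le_trans ?_ hb2
      unfold JJ
      have e2 : ∫ t in Icc (gp θ n i) (gp θ n (i + 1)), ((‖F t‖ : ℝ) : ℂ) * ((dif l t : ℝ) : ℂ) =
          ((∫ t in Icc (gp θ n i) (gp θ n (i + 1)), ‖F t‖ * dif l t : ℝ) : ℂ) := by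
        rw [← integral_complex_ofReal]
        refine integral_congr_ae (ae_of_all _ fun t => ?_)
        simp only [Complex.ofReal_mul]
      rw [e2, Complex.norm_real]
      exact le_abs_self _
    have e3 : ∫ t in Icc (gp θ n i) (gp θ n (i + 1)), ‖F t * ((dif l t : ℝ) : ℂ)‖ ≤
        ∫ t in Icc (gp θ n i) (gp θ n (i + 1)),
          (‖F t‖ * dif l t + 2 * (CD * 2 ^ ε * T ^ ε) * ‖F t‖) := by
      refine setIntegral_mono_on hIcell.norm (hI2.add (hFi.norm.const_mul _)) measurableSet_Icc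
        fun t ht => ?_
      rw [norm_mul, Complex.norm_real, Real.norm_eq_abs]
      have e4 := hDb t ht
      have e5 : 0 ≤ ∏ j, ff (l j * t) := Finset.prod_nonneg fun j _ => ff_nonneg _
      have e6 : |dif l t| ≤ dif l t + 2 * (CD * 2 ^ ε * T ^ ε) := by
        unfold dif
        generalize ∏ j, ff (l j * t) = x at e5
        generalize ∏ j, D0 (l j * t) = y at e4
        have e7 := abs_le.1 e4
        rw [abs_le]
        constructor
        · linarith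
        · linarith [abs_nonneg y]
      calc ‖F t‖ * |dif l t| ≤ ‖F t‖ * (dif l t + 2 * (CD * 2 ^ ε * T ^ ε)) :=
            mul_le_mul_of_nonneg_left e6 (norm_nonneg _)
        _ = _ := by ring
    refine e3.trans ?_
    rw [integral_add hI2 (hFi.norm.const_mul _), integral_const_mul]
    linarith
  -- the integral over `[T, S]`
  have hsplit : ∫ t in Ioc T S, F t * ((dif l t : ℝ) : ℂ) =
      (∫ t in Ioc T (gp θ n i), F t * ((dif l t : ℝ) : ℂ)) +
        ∫ t in Ioc (gp θ n i) S, F t * ((dif l t : ℝ) : ℂ) := by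
    rw [← Ioc_union_Ioc_eq_Ioc hgi hi1, setIntegral_union (Ioc_disjoint_Ioc_of_le le_rfl)
      measurableSet_Ioc ((hint _).mono_set (Ioc_subset_Ioc_left hT0.le))
      ((hint _).mono_set (Ioc_subset_Ioc_left (by linarith)))]
  have hp1 : ‖∫ t in Ioc T (gp θ n i), F t * ((dif l t : ℝ) : ℂ)‖ ≤ T ^ (1 - ρ) := by
    rw [← integral_Icc_eq_integral_Ioc]
    exact hb1
  have hp2 : ‖∫ t in Ioc (gp θ n i) S, F t * ((dif l t : ℝ) : ℂ)‖ ≤
      ∫ t in Icc (gp θ n i) (gp θ n (i + 1)), ‖F t * ((dif l t : ℝ) : ℂ)‖ := by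
    refine (norm_integral_le_integral_norm _).trans ?_
    exact setIntegral_mono_set hIcell.norm (ae_of_all _ fun t => norm_nonneg _)
      (LE.le.eventuallyLE (show Ioc (gp θ n i) S ≤ Icc (gp θ n i) (gp θ n (i + 1)) from
        fun t ht => ⟨ht.1.le, ht.2.trans hi2⟩))
  have hF2 : ∫ t in Icc (gp θ n i) (gp θ n (i + 1)), ‖F t‖ ≤
      CF * 2 ^ ((1 + ε) / 2) * T ^ ((1 - θ) / 2 + (1 + ε) / 2) := by
    refine hFb.trans ?_
    have e1 : (gp θ n (i + 1) - gp θ n i) ^ (1 / 2 : ℝ) ≤ T ^ ((1 - θ) / 2) := by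
      have e2 := Real.rpow_le_rpow (sub_nonneg.2 hg1) (gp_succ θ n i)
        (by norm_num : (0 : ℝ) ≤ 1 / 2)
      rw [← Real.rpow_mul hT0.le] at e2
      rwa [show (1 - θ) / 2 = (1 - θ) * (1 / 2) by ring]
    rw [Real.mul_rpow (by norm_num) hT0.le, Real.rpow_add hT0]
    calc _ ≤ CF * (T ^ ((1 - θ) / 2) * (2 ^ ((1 + ε) / 2) * T ^ ((1 + ε) / 2))) := by
          gcongr
      _ = _ := by ring
  have hexp : T ^ ε * T ^ ((1 - θ) / 2 + (1 + ε) / 2) = T ^ (1 - δ) := by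
    rw [← Real.rpow_add hT0]
    congr 1
    rw [hε]
    ring
  have hρδ : T ^ (1 - ρ) ≤ T ^ (1 - δ) := Real.rpow_le_rpow_of_exponent_le hT1 (by linarith)
  rw [hsplit]
  refine (norm_add_le _ _).trans ?_
  have hfin : CD * 2 ^ ε * T ^ ε * ∫ t in Icc (gp θ n i) (gp θ n (i + 1)), ‖F t‖ ≤
      CD * 2 ^ ε * (CF * 2 ^ ((1 + ε) / 2)) * T ^ (1 - δ) := by
    calc _ ≤ CD * 2 ^ ε * T ^ ε *
          (CF * 2 ^ ((1 + ε) / 2) * T ^ ((1 - θ) / 2 + (1 + ε) / 2)) :=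
          mul_le_mul_of_nonneg_left hF2 (by positivity)
      _ = CD * 2 ^ ε * (CF * 2 ^ ((1 + ε) / 2)) *
          (T ^ ε * T ^ ((1 - θ) / 2 + (1 + ε) / 2)) := by ring
      _ = _ := by rw [hexp]
  have := hcell.trans (add_le_add_right (mul_le_mul_of_nonneg_left hfin zero_le_two) _)
  nlinarith [hp1, hp2, this, hρδ]

end

end Pool.Agent.N879.GD
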