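import Pool.Agent.N879.GD.Stm

set_option autoImplicit false

/-!
Project GD: the diagonal part of the approximate functional equation (statement `S_DIA`).
-/

namespace Pool.Agent.N879.GD

open MeasureTheory Set
open Pool.Agent.Y969.GP (ff V ht lam PS co PX)

namespace Dia

noncomputable section

/-- the Gaussian -/
def gs (v : ℝ) : ℝ := Real.exp (-v ^ 2 / 4)

lemma gs_pos (v : ℝ) : 0 < gs v := Real.exp_pos _

lemma gs_eq (v : ℝ) : gs v = Real.exp (-(1 / 4) * v ^ 2) := by
  unfold gs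
  congr 1
  ring

lemma gs_int : Integrable gs := by
  have h := integrable_exp_neg_mul_sq (b := 1 / 4) (by norm_num)
  refine h.congr (Filter.Eventually.of_forall fun v => ?_)
  exact (gs_eq v).symm

lemma gs_cont : Continuous gs := by
  unfold gs
  fun_prop

lemma gs_total : ∫ v, gs v = 2 * √Real.pi := by
  have h := integral_gaussian (1 / 4)
  have e : ∫ v, gs v = ∫ x : ℝ, Real.exp (-(1 / 4) * x ^ 2) :=
    integral_congr_ae (Filter.Eventually.of_forall fun v => gs_eq v)
  rw [e, h]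
  rw [show Real.pi / (1 / 4) = 2 ^ 2 * Real.pi by ring, Real.sqrt_mul (by norm_num),
    Real.sqrt_sq (by norm_num)]

lemma c0_pos : (0 : ℝ) < 2 * √Real.pi := by
  have := Real.pi_pos
  positivity

/-- exponential moments -/
lemma gs_exp_int (a : ℝ) : Integrable (fun v => gs v * Real.exp (a * v)) := by
  have h := (integrable_exp_neg_mul_sq (b := 1 / 8) (by norm_num)).const_mul
    (Real.exp (2 * a ^ 2))
  refine h.mono' ?_ (Filter.Eventually.of_forall fun v => ?_)
  · exact (gs_cont.mul (by fun_prop)).aestronglyMeasurable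
  · rw [Real.norm_eq_abs, abs_of_pos (mul_pos (gs_pos v) (Real.exp_pos _))]
    unfold gs
    rw [← Real.exp_add, ← Real.exp_add]
    apply Real.exp_le_exp.2
    nlinarith [sq_nonneg (v - 4 * a)]

lemma gs_id_int : Integrable (fun v => gs v * v) := by
  have h := (gs_exp_int 1).add (gs_exp_int (-1))
  refine h.mono' ?_ (Filter.Eventually.of_forall fun v => ?_)
  · exact (gs_cont.mul continuous_id).aestronglyMeasurable
  · rw [Real.norm_eq_abs, abs_mul, abs_of_pos (gs_pos v)]
    simp only [Pi.add_apply]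
    rw [← mul_add]
    refine mul_le_mul_of_nonneg_left ?_ (gs_pos v).le
    have h1 := Real.add_one_le_exp (1 * v)
    have h2 := Real.add_one_le_exp (-1 * v)
    have h3 := Real.exp_pos (1 * v)
    have h4 := Real.exp_pos (-1 * v)
    rcases abs_cases v with ⟨h, _⟩ | ⟨h, _⟩ <;> rw [h] <;> linarith

lemma gs_id : ∫ v, gs v * v = 0 := by
  have h := integral_neg_eq_self (fun v : ℝ => gs v * v) (volume : Measure ℝ)
  have e : ∀ v : ℝ, gs (-v) * (-v) = -(gs v * v) := by
    intro v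
    unfold gs
    rw [neg_sq]
    ring
  simp only [e] at h
  rw [integral_neg] at h
  linarith

/-- the truncated harmonic sum -/
def HN (N : ℕ) (y : ℝ) : ℝ := ∑ m ∈ Finset.Icc 1 N, if (m : ℝ) < y then 2 / (m : ℝ) else 0

lemma harm_eq (n : ℕ) : ∑ m ∈ Finset.Icc 1 n, 2 / (m : ℝ) = 2 * (harmonic n : ℝ) := by
  rw [harmonic_eq_sum_Icc]
  push_cast
  rw [Finset.mul_sum]
  refine Finset.sum_congr rfl fun m _ => ?_
  rw [div_eq_mul_inv]

lemma HN_eq (N : ℕ) (y : ℝ) : HN N y = 2 * (harmonic (min N (⌈y⌉₊ - 1)) : ℝ) := by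
  unfold HN
  rw [← Finset.sum_filter, ← harm_eq]
  refine Finset.sum_congr ?_ fun _ _ => rfl
  ext m
  simp only [Finset.mem_filter, Finset.mem_Icc]
  rw [← Nat.lt_ceil]
  omega

lemma harm_bd (n : ℕ) (y : ℝ) (h1 : (n : ℝ) ≤ y) (h2 : y ≤ n + 1) (hy : 0 < y) :
    |2 * (harmonic n : ℝ) - 2 * Real.log y - 2 * Real.eulerMascheroniConstant| ≤ 4 / y := by
  have a1 := Real.eulerMascheroniSeq_lt_eulerMascheroniConstant n
  have a2 := Real.eulerMascheroniConstant_lt_eulerMascheroniSeq' n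
  have hl2 : Real.log y ≤ Real.log (n + 1) := Real.log_le_log hy h2
  unfold Real.eulerMascheroniSeq at a1
  unfold Real.eulerMascheroniSeq' at a2
  rcases Nat.eq_zero_or_pos n with rfl | hn
  · have hl : Real.log y ≤ 0 := Real.log_nonpos hy.le (by simpa using h2)
    have hg1 := Real.one_half_lt_eulerMascheroniConstant
    have hg2 := Real.eulerMascheroniConstant_lt_two_thirds
    have hl3 : Real.log y⁻¹ ≤ y⁻¹ - 1 := Real.log_le_sub_one_of_pos (inv_pos.2 hy)
    rw [Real.log_inv] at hl3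
    have hy1 : 1 ≤ y⁻¹ := by
      rw [one_le_inv₀ hy]
      simpa using h2
    simp only [harmonic_zero, Rat.cast_zero, mul_zero, zero_sub]
    rw [div_eq_mul_inv, abs_le]
    constructor <;> linarith
  · have hn' : (0 : ℝ) < n := by exact_mod_cast hn
    have hn1 : (1 : ℝ) ≤ n := by exact_mod_cast hn
    rw [if_neg hn.ne'] at a2
    have hl1 : Real.log n ≤ Real.log y := Real.log_le_log hn' h1
    have hd : Real.log (n + 1) - Real.log n ≤ 1 / n := by
      rw [← Real.log_div (by positivity) (by positivity)]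
      have := Real.log_le_sub_one_of_pos (show 0 < ((n : ℝ) + 1) / n by positivity)
      refine this.trans (le_of_eq ?_)
      field_simp
      ring
    have hd2 : 1 / (n : ℝ) ≤ 2 / y := by
      rw [div_le_div_iff₀ hn' hy]
      linarith
    have e : (4 : ℝ) / y = 2 * (2 / y) := by ring
    rw [e, abs_le]
    constructor <;> linarith

lemma HN_bd (N : ℕ) (y k : ℝ) (hy : 0 < y) (hk : 0 < k) :
    |HN N y - 2 * Real.log y - 2 * Real.eulerMascheroniConstant| ≤
      4 / y + 4 / ((N : ℝ) + 1) + 2 * ((y / ((N : ℝ) + 1)) ^ k / k) := by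
  have hN : (0 : ℝ) < (N : ℝ) + 1 := by positivity
  have p1 : 0 < 4 / y := by positivity
  have p2 : 0 < 4 / ((N : ℝ) + 1) := by positivity
  have p3 : 0 < 2 * ((y / ((N : ℝ) + 1)) ^ k / k) := by positivity
  have hc : 0 < ⌈y⌉₊ := Nat.ceil_pos.2 hy
  rw [HN_eq]
  by_cases h : ⌈y⌉₊ - 1 ≤ N
  · rw [min_eq_right h]
    have h1 : ((⌈y⌉₊ - 1 : ℕ) : ℝ) ≤ y := by
      have : (⌈y⌉₊ - 1) < ⌈y⌉₊ := by omega
      exact (Nat.lt_ceil.1 this).le
    have h2 : y ≤ ((⌈y⌉₊ - 1 : ℕ) : ℝ) + 1 := by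
      have e : ((⌈y⌉₊ - 1 : ℕ) : ℝ) + 1 = ((⌈y⌉₊ : ℕ) : ℝ) := by
        have : (⌈y⌉₊ - 1) + 1 = ⌈y⌉₊ := by omega
        exact_mod_cast this
      rw [e]
      exact Nat.le_ceil y
    have := harm_bd _ y h1 h2 hy
    linarith
  · have h' : N + 1 < ⌈y⌉₊ := by omega
    have h3 : ((N : ℝ) + 1) < y := by
      have := Nat.lt_ceil.1 h'
      exact_mod_cast this
    rw [min_eq_left (by omega)]
    have h4 := harm_bd N ((N : ℝ) + 1) (by linarith) le_rfl hN
    have h5 : Real.log (y / ((N : ℝ) + 1)) ≤ (y / ((N : ℝ) + 1)) ^ k / k :=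
      Real.log_le_rpow_div (by positivity) hk
    rw [Real.log_div hy.ne' hN.ne'] at h5
    have h6 : Real.log ((N : ℝ) + 1) ≤ Real.log y := Real.log_le_log hN h3.le
    rw [abs_le] at h4 ⊢
    constructor <;> linarith [h4.1, h4.2]

lemma sum_eq (X : ℕ) (u : ℝ) : ∑ p ∈ (PS X).filter (fun p => p.1 = p.2), co p u =
    ∑ m ∈ Finset.Icc 1 (Nat.sqrt X), co (m, m) u := by
  refine Finset.sum_nbij' (fun p => p.1) (fun m => (m, m)) ?_ ?_ ?_ ?_ ?_
  · intro p hp
    simp only [PS, Finset.mem_filter, Finset.mem_product, Finset.mem_Icc] at hp ⊢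
    refine ⟨hp.1.1.1.1, ?_⟩
    rw [Nat.le_sqrt]
    have := hp.1.2
    rw [← hp.2] at this
    exact this
  · intro m hm
    simp only [PS, Finset.mem_filter, Finset.mem_product, Finset.mem_Icc] at hm ⊢
    have h1 : m * m ≤ X := Nat.le_sqrt.1 hm.2
    have h2 : m ≤ m * m := by nlinarith [hm.1]
    exact ⟨⟨⟨⟨hm.1, h2.trans h1⟩, ⟨hm.1, h2.trans h1⟩⟩, h1⟩, trivial⟩
  · intro p hp
    simp only [Finset.mem_filter] at hp
    exact Prod.ext rfl hp.2
  · intro m _
    rfl
  · intro p hp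
    simp only [Finset.mem_filter] at hp
    have : p = (p.1, p.1) := Prod.ext rfl hp.2.symm
    rw [← this]

/-- the point `√(u e^v / 2π)` -/
def Y (u v : ℝ) : ℝ := Real.exp ((Real.log (u / (2 * Real.pi)) + v) / 2)

lemma Y_pos (u v : ℝ) : 0 < Y u v := Real.exp_pos _

lemma lt_Y (u v : ℝ) (hu : 0 < u) (m : ℕ) (hm : 1 ≤ m) :
    (m : ℝ) < Y u v ↔ Real.log (2 * Real.pi * ht (m, m) / u) < v := by
  have hm' : (0 : ℝ) < m := by exact_mod_cast hm
  have hp := Real.pi_pos
  have e : Real.log (2 * Real.pi * ht (m, m) / u) =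
      2 * Real.log m - Real.log (u / (2 * Real.pi)) := by
    unfold ht
    simp only
    rw [Real.log_div (by positivity) hu.ne', Real.log_mul (by positivity) (by positivity),
      Real.log_mul (x := (m : ℝ)) (by positivity) (by positivity),
      Real.log_div hu.ne' (by positivity)]
    ring
  rw [e]
  unfold Y
  rw [← Real.log_lt_iff_lt_exp hm']
  constructor <;> intro h <;> linarith

lemma co_eq (u : ℝ) (hu : 0 < u) (m : ℕ) (hm : 1 ≤ m) :
    co (m, m) u = (2 * √Real.pi)⁻¹ *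
      ∫ v, gs v * (if (m : ℝ) < Y u v then 2 / (m : ℝ) else 0) := by
  have hm' : (0 : ℝ) < m := by exact_mod_cast hm
  have e1 : √(ht (m, m)) = m := by
    unfold ht
    exact Real.sqrt_mul_self hm'.le
  have e2 : (∫ v, gs v * (if (m : ℝ) < Y u v then 2 / (m : ℝ) else 0)) =
      2 / (m : ℝ) * ∫ v in Ioi (Real.log (2 * Real.pi * ht (m, m) / u)), gs v := by
    rw [← integral_indicator measurableSet_Ioi, ← integral_const_mul]
    refine integral_congr_ae (Filter.Eventually.of_forall fun v => ?_)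
    simp only [indicator, mem_Ioi, ← lt_Y u v hu m hm]
    split_ifs
    · ring
    · ring
  rw [e2]
  unfold co V
  rw [e1]
  have e3 : (∫ v in Ioi (Real.log (2 * Real.pi * ht (m, m) / u)), Real.exp (-v ^ 2 / 4)) =
    ∫ v in Ioi (Real.log (2 * Real.pi * ht (m, m) / u)), gs v := rfl
  rw [e3]
  ring

lemma co_int (u : ℝ) (m : ℕ) :
    Integrable (fun v => gs v * (if (m : ℝ) < Y u v then 2 / (m : ℝ) else 0)) := by
  refine (gs_int.mul_const (2 / (m : ℝ))).mono' ?_ (Filter.Eventually.of_forall fun v => ?_)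
  · refine (gs_cont.measurable.mul ?_).aestronglyMeasurable
    refine Measurable.ite ?_ measurable_const measurable_const
    refine measurableSet_lt measurable_const ?_
    unfold Y
    fun_prop
  · have h0 : 0 ≤ 2 / (m : ℝ) := by positivity
    rw [Real.norm_eq_abs, abs_mul, abs_of_pos (gs_pos v)]
    refine mul_le_mul_of_nonneg_left ?_ (gs_pos v).le
    split_ifs
    · rw [abs_of_nonneg h0]
    · rw [abs_zero]
      exact h0

lemma dsum_eq (u : ℝ) (hu : 0 < u) (N : ℕ) :
    ∑ m ∈ Finset.Icc 1 N, co (m, m) u - D0 u =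
      (2 * √Real.pi)⁻¹ * ∫ v, gs v * (HN N (Y u v) - 2 * Real.log (Y u v) -
        2 * Real.eulerMascheroniConstant) := by
  have h1 : ∑ m ∈ Finset.Icc 1 N, co (m, m) u =
      (2 * √Real.pi)⁻¹ * ∫ v, gs v * HN N (Y u v) := by
    have e : ∀ v, gs v * HN N (Y u v) =
        ∑ m ∈ Finset.Icc 1 N, gs v * (if (m : ℝ) < Y u v then 2 / (m : ℝ) else 0) := by
      intro v
      unfold HN
      rw [Finset.mul_sum]
    simp only [e]
    rw [integral_finsetSum _ fun m _ => co_int u m, Finset.mul_sum]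
    refine Finset.sum_congr rfl fun m hm => ?_
    exact co_eq u hu m (Finset.mem_Icc.1 hm).1
  have hI : Integrable (fun v => gs v * HN N (Y u v)) := by
    have e : (fun v => gs v * HN N (Y u v)) = fun v =>
        ∑ m ∈ Finset.Icc 1 N, gs v * (if (m : ℝ) < Y u v then 2 / (m : ℝ) else 0) := by
      funext v
      unfold HN
      rw [Finset.mul_sum]
    rw [e]
    exact integrable_finsetSum _ fun m _ => co_int u m
  have h2 : (∫ v, gs v * (HN N (Y u v) - 2 * Real.log (Y u v) -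
        2 * Real.eulerMascheroniConstant)) =
      (∫ v, gs v * HN N (Y u v)) - (2 * √Real.pi) * D0 u := by
    have e : ∀ v, gs v * (HN N (Y u v) - 2 * Real.log (Y u v) -
        2 * Real.eulerMascheroniConstant) =
        gs v * HN N (Y u v) - (gs v * D0 u + gs v * v) := by
      intro v
      unfold Y D0
      rw [Real.log_exp]
      ring
    simp only [e]
    have i1 : Integrable (fun v => gs v * D0 u) := gs_int.mul_const _
    have i2 : Integrable (fun v => gs v * D0 u + gs v * v) := i1.add gs_id_int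
    rw [integral_sub hI i2, integral_add i1 gs_id_int, integral_mul_const, gs_total, gs_id,
      add_zero]
  rw [h1, h2, mul_sub, ← mul_assoc, inv_mul_cancel₀ c0_pos.ne', one_mul]

lemma pt_bd (ε : ℝ) (hε : 0 < ε) (u v : ℝ) (X : ℕ) (hu : 1 ≤ u) (hX : u ^ (1 + ε) ≤ X) :
    |HN (Nat.sqrt X) (Y u v) - 2 * Real.log (Y u v) - 2 * Real.eulerMascheroniConstant| ≤
      u ^ (-(1 / 2 : ℝ)) * (4 * Real.exp (Real.log (2 * Real.pi) / 2) * Real.exp (-(1 / 2) * v) +
        4 + 2 * ε * Real.exp ((1 / (2 * ε)) * v)) := by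
  have hu0 : 0 < u := by linarith
  have hp := Real.pi_pos
  have hlu : 0 ≤ Real.log u := Real.log_nonneg hu
  have hlp : 0 ≤ Real.log (2 * Real.pi) := Real.log_nonneg (by linarith [Real.pi_gt_three])
  have hk : 0 < 1 / ε := by positivity
  refine (HN_bd (Nat.sqrt X) (Y u v) (1 / ε) (Y_pos u v) hk).trans ?_
  have hN : Real.exp ((1 + ε) * Real.log u / 2) ≤ (Nat.sqrt X : ℝ) + 1 := by
    have h1 : X < (Nat.sqrt X + 1) * (Nat.sqrt X + 1) := Nat.lt_succ_sqrt X
    have h2 : (X : ℝ) < ((Nat.sqrt X : ℝ) + 1) * ((Nat.sqrt X : ℝ) + 1) := by exact_mod_cast h1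
    have h3 : Real.exp ((1 + ε) * Real.log u / 2) * Real.exp ((1 + ε) * Real.log u / 2) ≤ X := by
      rw [← Real.exp_add]
      refine le_trans (le_of_eq ?_) hX
      rw [Real.rpow_def_of_pos hu0]
      congr 1
      ring
    have h4 := Real.exp_pos ((1 + ε) * Real.log u / 2)
    by_contra hcon
    push Not at hcon
    have h5 : (0 : ℝ) < (Nat.sqrt X : ℝ) + 1 := by positivity
    nlinarith
  have hw : u ^ (-(1 / 2 : ℝ)) = Real.exp (-(Real.log u / 2)) := by
    rw [Real.rpow_def_of_pos hu0]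
    congr 1
    ring
  have hlog : Real.log (u / (2 * Real.pi)) = Real.log u - Real.log (2 * Real.pi) :=
    Real.log_div hu0.ne' (by positivity)
  have b1 : 4 / Y u v = u ^ (-(1 / 2 : ℝ)) *
      (4 * Real.exp (Real.log (2 * Real.pi) / 2) * Real.exp (-(1 / 2) * v)) := by
    unfold Y
    rw [hw, hlog, div_eq_mul_inv, ← Real.exp_neg]
    rw [show Real.exp (-(Real.log u / 2)) * (4 * Real.exp (Real.log (2 * Real.pi) / 2) *
      Real.exp (-(1 / 2) * v)) = 4 * (Real.exp (-(Real.log u / 2)) *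
        (Real.exp (Real.log (2 * Real.pi) / 2) * Real.exp (-(1 / 2) * v))) by ring]
    rw [← Real.exp_add, ← Real.exp_add]
    congr 2
    ring
  have b2 : 4 / ((Nat.sqrt X : ℝ) + 1) ≤ u ^ (-(1 / 2 : ℝ)) * 4 := by
    have h1 : Real.exp (Real.log u / 2) ≤ (Nat.sqrt X : ℝ) + 1 := by
      refine le_trans (Real.exp_le_exp.2 ?_) hN
      nlinarith [mul_nonneg hε.le hlu]
    rw [hw, Real.exp_neg, div_le_iff₀ (by positivity)]
    have h2 := Real.exp_pos (Real.log u / 2)
    have h3 : (Real.exp (Real.log u / 2))⁻¹ * Real.exp (Real.log u / 2) = 1 :=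
      inv_mul_cancel₀ h2.ne'
    have h4 : 0 < (Real.exp (Real.log u / 2))⁻¹ := inv_pos.2 h2
    nlinarith
  have b3 : 2 * ((Y u v / ((Nat.sqrt X : ℝ) + 1)) ^ (1 / ε) / (1 / ε)) ≤
      u ^ (-(1 / 2 : ℝ)) * (2 * ε * Real.exp ((1 / (2 * ε)) * v)) := by
    have hz : Y u v / ((Nat.sqrt X : ℝ) + 1) ≤ Real.exp (v / 2 - ε * Real.log u / 2) := by
      rw [div_le_iff₀ (by positivity)]
      have h1 : Y u v ≤ Real.exp (v / 2 - ε * Real.log u / 2) *
          Real.exp ((1 + ε) * Real.log u / 2) := by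
        rw [← Real.exp_add]
        unfold Y
        apply Real.exp_le_exp.2
        rw [hlog]
        nlinarith
      exact h1.trans (mul_le_mul_of_nonneg_left hN (Real.exp_pos _).le)
    have hz2 : (Y u v / ((Nat.sqrt X : ℝ) + 1)) ^ (1 / ε) ≤
        Real.exp (-(Real.log u / 2)) * Real.exp ((1 / (2 * ε)) * v) := by
      refine (Real.rpow_le_rpow (div_nonneg (Y_pos u v).le (by positivity)) hz hk.le).trans
        (le_of_eq ?_)
      rw [← Real.exp_mul, ← Real.exp_add]
      congr 1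
      field_simp
      ring
    rw [hw]
    have e : 2 * ((Y u v / ((Nat.sqrt X : ℝ) + 1)) ^ (1 / ε) / (1 / ε)) =
        2 * ε * (Y u v / ((Nat.sqrt X : ℝ) + 1)) ^ (1 / ε) := by
      field_simp
    rw [e]
    have := mul_le_mul_of_nonneg_left hz2 (show 0 ≤ 2 * ε by positivity)
    refine this.trans (le_of_eq ?_)
    ring
  rw [b1]
  linarith

theorem main : S_DIA := by
  intro ε hε
  have hJ : Integrable (fun v => gs v * (4 * Real.exp (Real.log (2 * Real.pi) / 2) *
      Real.exp (-(1 / 2) * v) + 4 + 2 * ε * Real.exp ((1 / (2 * ε)) * v))) := by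
    have h1 := (gs_exp_int (-(1 / 2))).const_mul (4 * Real.exp (Real.log (2 * Real.pi) / 2))
    have h2 := gs_int.const_mul 4
    have h3 := (gs_exp_int (1 / (2 * ε))).const_mul (2 * ε)
    refine ((h1.add h2).add h3).congr (Filter.Eventually.of_forall fun v => ?_)
    simp only [Pi.add_apply]
    ring
  obtain ⟨J, hJd⟩ : ∃ J, J = ∫ v, gs v * (4 * Real.exp (Real.log (2 * Real.pi) / 2) *
      Real.exp (-(1 / 2) * v) + 4 + 2 * ε * Real.exp ((1 / (2 * ε)) * v)) := ⟨_, rfl⟩
  have hJ0 : 0 ≤ J := by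
    rw [hJd]
    refine integral_nonneg fun v => ?_
    have := gs_pos v
    positivity
  refine ⟨(2 * √Real.pi)⁻¹ * J + 1, by have := c0_pos; positivity, fun u X hu hX => ?_⟩
  have hu0 : 0 < u := by linarith
  rw [sum_eq, dsum_eq u hu0, abs_mul, abs_of_pos (inv_pos.2 c0_pos)]
  have hb : |∫ v, gs v * (HN (Nat.sqrt X) (Y u v) - 2 * Real.log (Y u v) -
        2 * Real.eulerMascheroniConstant)| ≤ u ^ (-(1 / 2 : ℝ)) * J := by
    rw [hJd, ← integral_const_mul, ← Real.norm_eq_abs]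
    refine norm_integral_le_of_norm_le (hJ.const_mul _) (Filter.Eventually.of_forall fun v => ?_)
    rw [Real.norm_eq_abs, abs_mul, abs_of_pos (gs_pos v)]
    refine (mul_le_mul_of_nonneg_left (pt_bd ε hε u v X hu hX) (gs_pos v).le).trans
      (le_of_eq ?_)
    ring
  have hw : 0 < u ^ (-(1 / 2 : ℝ)) := Real.rpow_pos_of_pos hu0 _
  calc (2 * √Real.pi)⁻¹ * |∫ v, gs v * (HN (Nat.sqrt X) (Y u v) - 2 * Real.log (Y u v) -
        2 * Real.eulerMascheroniConstant)|
      ≤ (2 * √Real.pi)⁻¹ * (u ^ (-(1 / 2 : ℝ)) * J) :=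
        mul_le_mul_of_nonneg_left hb (inv_pos.2 c0_pos).le
    _ ≤ ((2 * √Real.pi)⁻¹ * J + 1) * u ^ (-(1 / 2 : ℝ)) := by nlinarith

end

end Dia

/-- the diagonal part -/
theorem t_DIA (_h : Pool.Agent.Y969.GP.S_V) : S_DIA := Dia.main

end Pool.Agent.N879.GD
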