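import Pool.Agent.N879.GD.Stm

/-!
# Project GD (helper879): DIL1, mean square over one dilation (helper42)
-/

set_option autoImplicit false

namespace Pool.Agent.N879.GD

open Complex Filter Topology MeasureTheory Set
open Pool.Agent.Y969.GP (ff V ht lam PS co PX)

noncomputable section

namespace Dil1

/-- the weight -/
def wA (A x : ℝ) : ℝ := Real.smoothTransition (2 * A * x - 1) * Real.smoothTransition (2 - x / (2 * A))

theorem wA_smooth (A : ℝ) : ContDiff ℝ (⊤ : ℕ∞) (wA A) := by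
  unfold wA
  have h1 : ContDiff ℝ (⊤ : ℕ∞) fun x : ℝ => 2 * A * x - 1 := by fun_prop
  have h2 : ContDiff ℝ (⊤ : ℕ∞) fun x : ℝ => 2 - x / (2 * A) := by fun_prop
  exact (Real.smoothTransition.contDiff.comp h1).mul (Real.smoothTransition.contDiff.comp h2)

theorem wA_one {A x : ℝ} (hA : 1 ≤ A) (h1 : A⁻¹ ≤ x) (h2 : x ≤ 2 * A) : wA A x = 1 := by
  have hA0 : 0 < A := by linarith
  unfold wA
  rw [Real.smoothTransition.one_of_one_le, Real.smoothTransition.one_of_one_le, one_mul]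
  · have : x / (2 * A) ≤ 1 := by rw [div_le_one (by positivity)]; exact h2
    linarith
  · have h3 : A * A⁻¹ ≤ A * x := mul_le_mul_of_nonneg_left h1 hA0.le
    rw [mul_inv_cancel₀ hA0.ne'] at h3
    linarith

theorem wA_low {A x : ℝ} (hA : 1 ≤ A) (h1 : x ≤ (2 * A)⁻¹) : wA A x = 0 := by
  have hA0 : 0 < A := by linarith
  unfold wA
  rw [Real.smoothTransition.zero_of_nonpos, zero_mul]
  have h3 : 2 * A * x ≤ 2 * A * (2 * A)⁻¹ := mul_le_mul_of_nonneg_left h1 (by positivity)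
  rw [mul_inv_cancel₀ (by positivity)] at h3
  linarith

theorem wA_high {A x : ℝ} (hA : 1 ≤ A) (h1 : 4 * A ≤ x) : wA A x = 0 := by
  have hA0 : 0 < A := by linarith
  unfold wA
  rw [Real.smoothTransition.zero_of_nonpos (x := 2 - x / (2 * A)), mul_zero]
  have : 2 ≤ x / (2 * A) := by rw [le_div_iff₀ (by positivity)]; linarith
  linarith

theorem wA_supp {A : ℝ} (hA : 1 ≤ A) : Function.support (wA A) ⊆ Icc (2 * A)⁻¹ (4 * A) := by
  intro x hx
  rw [Function.mem_support] at hx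
  constructor
  · by_contra h
    exact hx (wA_low hA (not_le.1 h).le)
  · by_contra h
    exact hx (wA_high hA (not_le.1 h).le)

theorem wA_tsupp {A : ℝ} (hA : 1 ≤ A) : tsupport (wA A) ⊆ Icc (2 * A)⁻¹ (4 * A) :=
  closure_minimal (wA_supp hA) isClosed_Icc

/-- the truncated function -/
def Gt (A T u : ℝ) : ℝ := wA A (u / T) * (ff u - D0 u)

theorem Gt_low {A T u : ℝ} (hA : 1 ≤ A) (hT : 0 < T) (hu : u ≤ T * (2 * A)⁻¹) : Gt A T u = 0 := by
  unfold Gt
  rw [wA_low hA, zero_mul]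
  rw [div_le_iff₀ hT, mul_comm]
  exact hu

theorem Gt_cont {A T : ℝ} (hf : Continuous ff) (hA : 1 ≤ A) (hT : 0 < T) :
    Continuous (Gt A T) := by
  rw [continuous_iff_continuousAt]
  intro u
  have hpos : 0 < T * (2 * A)⁻¹ := by positivity
  rcases lt_or_ge u (T * (2 * A)⁻¹) with h | h
  · have h1 : Gt A T =ᶠ[𝓝 u] fun _ => 0 := by
      filter_upwards [Iio_mem_nhds h] with v hv
      exact Gt_low hA hT (le_of_lt hv)
    exact (continuousAt_const (y := (0 : ℝ))).congr h1.symm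
  · have hu : 0 < u := lt_of_lt_of_le hpos h
    unfold Gt
    refine ContinuousAt.mul ?_ (hf.continuousAt.sub ?_)
    · exact ((wA_smooth A).continuous.comp (continuous_id.div_const T)).continuousAt
    · unfold D0
      refine ContinuousAt.add (ContinuousAt.log ?_ ?_) continuousAt_const
      · exact (continuous_id.div_const _).continuousAt
      · have : 0 < u / (2 * Real.pi) := div_pos hu (by positivity)
        exact this.ne'

theorem ofReal_sq_enorm (t : ℝ) (ht : 0 ≤ t) (z : ℂ) :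
    ‖(t : ℂ) * z‖ₑ ^ 2 = ENNReal.ofReal (t ^ 2) * ‖z‖ₑ ^ 2 := by
  rw [enorm_mul, mul_pow]
  congr 1
  rw [← ofReal_norm, Complex.norm_real, Real.norm_of_nonneg ht, ENNReal.ofReal_pow ht]

end Dil1

open Dil1 in
/-- **DIL1** -/
theorem t_DIL1 (h1 : S_LEW) (h2 : S_PL) (h3 : S_CRU) : S_DIL1 := by
  obtain ⟨δ, hδ0, hδ1, h1⟩ := h1
  obtain ⟨-, -, -, hff, -, -⟩ := h3
  refine ⟨δ, hδ0, hδ1, fun A hA => ?_⟩
  have hA0 : 0 < A := by linarith
  obtain ⟨C, T₀, hC, hT₀, hw⟩ := h1 (wA A) (wA_smooth A)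
    (HasCompactSupport.of_support_subset_isCompact isCompact_Icc (wA_supp hA))
    ((wA_tsupp hA).trans fun x hx => lt_of_lt_of_le (by positivity : (0 : ℝ) < (2 * A)⁻¹) hx.1)
  refine ⟨2 * A * C ^ 2, T₀, by positivity, hT₀, fun T F hT hF => ?_⟩
  have hT1 : 1 ≤ T := hT₀.trans hT
  have hT0 : 0 < T := by linarith
  by_cases htop : ∫⁻ t in Icc T (2 * T), ‖F t‖ₑ ^ 2 = ⊤
  · rw [htop, ENNReal.mul_top]
    · exact le_top
    · rw [Ne, ENNReal.ofReal_eq_zero, not_le]
      positivity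
  -- the functions
  obtain ⟨F1, hF1⟩ : ∃ F1 : ℝ → ℂ, F1 = (Icc T (2 * T)).indicator fun t => (t : ℂ) * F t :=
    ⟨_, rfl⟩
  have hF1m : Measurable F1 := by
    rw [hF1]
    exact (Complex.measurable_ofReal.mul hF).indicator measurableSet_Icc
  have hsq : ∀ t, ‖F1 t‖ₑ ^ 2 =
      (Icc T (2 * T)).indicator (fun t => ENNReal.ofReal (t ^ 2) * ‖F t‖ₑ ^ 2) t := by
    intro t
    rw [hF1]
    by_cases ht : t ∈ Icc T (2 * T)
    · rw [indicator_of_mem ht, indicator_of_mem ht, ofReal_sq_enorm t (by linarith [ht.1])]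
    · rw [indicator_of_notMem ht, indicator_of_notMem ht]
      simp
  have hfin : ∫⁻ t, ‖F1 t‖ₑ ^ 2 ≠ ⊤ := by
    have e : ∫⁻ t, ‖F1 t‖ₑ ^ 2 =
        ∫⁻ t in Icc T (2 * T), ENNReal.ofReal (t ^ 2) * ‖F t‖ₑ ^ 2 := by
      rw [← lintegral_indicator measurableSet_Icc]
      exact lintegral_congr hsq
    rw [e]
    have h4 : ∫⁻ t in Icc T (2 * T), ENNReal.ofReal (t ^ 2) * ‖F t‖ₑ ^ 2 ≤
        ∫⁻ t in Icc T (2 * T), ENNReal.ofReal ((2 * T) ^ 2) * ‖F t‖ₑ ^ 2 := by
      refine setLIntegral_mono' measurableSet_Icc fun t ht => ?_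
      gcongr
      · linarith [ht.1]
      · exact ht.2
    rw [lintegral_const_mul' _ _ ENNReal.ofReal_ne_top] at h4
    exact (h4.trans_lt (ENNReal.mul_lt_top ENNReal.ofReal_lt_top (lt_top_iff_ne_top.2 htop))).ne
  have hB0 : 0 ≤ C * T ^ (-δ) := by positivity
  have key := h2 F1 (fun u => ((Gt A T u : ℝ) : ℂ)) (T * (2 * A)⁻¹) (4 * A * T) (C * T ^ (-δ))
    (by positivity) (by
      have h4 : (2 * A)⁻¹ ≤ 1 := inv_le_one_of_one_le₀ (by linarith)
      nlinarith) hF1m (by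
      intro t ht
      rw [hF1, indicator_of_notMem]
      intro h
      apply ht
      constructor
      · have h4 : (2 * A)⁻¹ ≤ 1 := inv_le_one_of_one_le₀ (by linarith)
        have h5 : T * (2 * A)⁻¹ ≤ T * 1 := mul_le_mul_of_nonneg_left h4 hT0.le
        linarith [h.1]
      · nlinarith [h.2]) hfin
    (Complex.continuous_ofReal.comp (Gt_cont hff hA hT0)) (by
      intro t ht
      rw [mem_Icc, not_and_or, not_le, not_le] at ht
      have h4 : Gt A T t = 0 := by
        rcases ht with h | h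
        · exact Gt_low hA hT0 h.le
        · unfold Gt
          rw [wA_high hA, zero_mul]
          rw [le_div_iff₀ hT0]
          exact h.le
      rw [h4, Complex.ofReal_zero]) hB0 (by
      intro τ
      have h4 := hw T τ hT
      have e : (fun u : ℝ => ((Gt A T u : ℝ) : ℂ) / u * cexp (-(I * ((τ * Real.log u : ℝ) : ℂ)))) =
          fun u : ℝ => ((wA A (u / T) * (ff u - D0 u) / u : ℝ) : ℂ) *
            cexp (-(I * ((τ * Real.log u : ℝ) : ℂ))) := by
        funext u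
        unfold Gt
        rw [Complex.ofReal_div]
      rw [e]
      exact h4)
  -- the right side
  have hR : ∫⁻ t in Ioi (0 : ℝ), ‖F1 t‖ₑ ^ 2 * ENNReal.ofReal t⁻¹ ≤
      ENNReal.ofReal (2 * T) * ∫⁻ t in Icc T (2 * T), ‖F t‖ₑ ^ 2 := by
    calc ∫⁻ t in Ioi (0 : ℝ), ‖F1 t‖ₑ ^ 2 * ENNReal.ofReal t⁻¹
        ≤ ∫⁻ t, ‖F1 t‖ₑ ^ 2 * ENNReal.ofReal t⁻¹ := setLIntegral_le_lintegral _ _
      _ = ∫⁻ t, (Icc T (2 * T)).indicator (fun t => ENNReal.ofReal t * ‖F t‖ₑ ^ 2) t := by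
        refine lintegral_congr fun t => ?_
        rw [hsq]
        by_cases ht : t ∈ Icc T (2 * T)
        · rw [indicator_of_mem ht, indicator_of_mem ht]
          have h0 : 0 < t := lt_of_lt_of_le hT0 ht.1
          rw [mul_right_comm, ← ENNReal.ofReal_mul (by positivity)]
          congr 2
          field_simp
        · rw [indicator_of_notMem ht, indicator_of_notMem ht, zero_mul]
      _ = ∫⁻ t in Icc T (2 * T), ENNReal.ofReal t * ‖F t‖ₑ ^ 2 :=
        lintegral_indicator measurableSet_Icc _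
      _ ≤ ∫⁻ t in Icc T (2 * T), ENNReal.ofReal (2 * T) * ‖F t‖ₑ ^ 2 := by
        refine setLIntegral_mono' measurableSet_Icc fun t ht => ?_
        gcongr
        exact ht.2
      _ = _ := lintegral_const_mul' _ _ ENNReal.ofReal_ne_top
  -- the left side
  have hin : ∀ l ∈ Icc A⁻¹ A, ∫ t in Ioi (0 : ℝ), F1 t * ((Gt A T (l * t) : ℝ) : ℂ) / t =
      ∫ t in Icc T (2 * T), F t * ((ff (l * t) - D0 (l * t) : ℝ) : ℂ) := by
    intro l hl
    have hl0 : 0 < l := lt_of_lt_of_le (by positivity) hl.1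
    have e : (fun t : ℝ => F1 t * ((Gt A T (l * t) : ℝ) : ℂ) / t) =
        (Icc T (2 * T)).indicator fun t => F t * ((ff (l * t) - D0 (l * t) : ℝ) : ℂ) := by
      funext t
      rw [hF1]
      by_cases ht : t ∈ Icc T (2 * T)
      · rw [indicator_of_mem ht, indicator_of_mem ht]
        have h0 : 0 < t := lt_of_lt_of_le hT0 ht.1
        have h5 : wA A (l * t / T) = 1 := by
          refine wA_one hA ?_ ?_
          · rw [le_div_iff₀ hT0]
            exact mul_le_mul hl.1 ht.1 hT0.le hl0.le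
          · rw [div_le_iff₀ hT0]
            calc l * t ≤ A * (2 * T) := mul_le_mul hl.2 ht.2 h0.le hA0.le
              _ = 2 * A * T := by ring
        unfold Gt
        rw [h5, one_mul]
        have h6 : (t : ℂ) ≠ 0 := by exact_mod_cast h0.ne'
        field_simp
      · rw [indicator_of_notMem ht, indicator_of_notMem ht]
        simp
    rw [e, setIntegral_indicator measurableSet_Icc]
    congr 2
    rw [inter_eq_right]
    exact fun t ht => lt_of_lt_of_le hT0 ht.1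
  have hL : ENNReal.ofReal A⁻¹ * ∫⁻ l in Icc A⁻¹ A,
      ‖∫ t in Icc T (2 * T), F t * ((ff (l * t) - D0 (l * t) : ℝ) : ℂ)‖ₑ ^ 2 ≤
      ∫⁻ l in Ioi (0 : ℝ), ‖∫ t in Ioi (0 : ℝ), F1 t * ((Gt A T (l * t) : ℝ) : ℂ) / t‖ₑ ^ 2 *
        ENNReal.ofReal l⁻¹ := by
    rw [← lintegral_const_mul' _ _ ENNReal.ofReal_ne_top]
    calc ∫⁻ l in Icc A⁻¹ A, ENNReal.ofReal A⁻¹ *
          ‖∫ t in Icc T (2 * T), F t * ((ff (l * t) - D0 (l * t) : ℝ) : ℂ)‖ₑ ^ 2
        ≤ ∫⁻ l in Icc A⁻¹ A, ‖∫ t in Ioi (0 : ℝ), F1 t * ((Gt A T (l * t) : ℝ) : ℂ) / t‖ₑ ^ 2 *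
            ENNReal.ofReal l⁻¹ := by
          refine setLIntegral_mono' measurableSet_Icc fun l hl => ?_
          rw [hin l hl, mul_comm]
          have hl0 : 0 < l := lt_of_lt_of_le (by positivity) hl.1
          gcongr
          exact hl.2
      _ ≤ _ := lintegral_mono_set fun l hl => lt_of_lt_of_le (by positivity : 0 < A⁻¹) hl.1
  have hall := hL.trans (key.trans (mul_le_mul_right hR _))
  calc ∫⁻ l in Icc A⁻¹ A,
        ‖∫ t in Icc T (2 * T), F t * ((ff (l * t) - D0 (l * t) : ℝ) : ℂ)‖ₑ ^ 2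
      = ENNReal.ofReal A * (ENNReal.ofReal A⁻¹ * ∫⁻ l in Icc A⁻¹ A,
        ‖∫ t in Icc T (2 * T), F t * ((ff (l * t) - D0 (l * t) : ℝ) : ℂ)‖ₑ ^ 2) := by
        rw [← mul_assoc, ← ENNReal.ofReal_mul hA0.le, mul_inv_cancel₀ hA0.ne', ENNReal.ofReal_one,
          one_mul]
    _ ≤ ENNReal.ofReal A * (ENNReal.ofReal ((C * T ^ (-δ)) ^ 2) *
        (ENNReal.ofReal (2 * T) * ∫⁻ t in Icc T (2 * T), ‖F t‖ₑ ^ 2)) := by
        gcongr
    _ = _ := by
        rw [← mul_assoc, ← mul_assoc, ← ENNReal.ofReal_mul hA0.le,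
          ← ENNReal.ofReal_mul (by positivity)]
        congr 2
        have e : T ^ (1 - 2 * δ) = T * (T ^ (-δ)) ^ 2 := by
          rw [← Real.rpow_natCast, ← Real.rpow_mul hT0.le]
          nth_rewrite 2 [← Real.rpow_one T]
          rw [← Real.rpow_add hT0]
          congr 1
          push_cast
          ring
        rw [e]
        ring

end

end Pool.Agent.N879.GD
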