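import Pool.Agent.N879.GD.Stm

set_option autoImplicit false

/-!
Project GD (helper879), task DILK: mean square over `k` dilations, from one dilation and the fourth
moment of zeta.
-/

namespace Pool.Agent.N879.GD

open Complex Filter Topology MeasureTheory Set
open Pool.Agent.Y969.GP (ff V ht lam PS co PX)
open scoped ENNReal

namespace Dilk

lemma ff_nonneg (u : ℝ) : 0 ≤ ff u := by unfold ff; positivity

lemma meas_D0 : Measurable D0 := by
  unfold D0
  fun_prop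

lemma dif_cons {k : ℕ} (x : ℝ) (l : Fin k → ℝ) (t : ℝ) :
    dif (Fin.cons x l : Fin (k + 1) → ℝ) t =
      ff (x * t) * dif l t + (ff (x * t) - D0 (x * t)) * ∏ j, D0 (l j * t) := by
  simp only [dif, Fin.prod_univ_succ, Fin.cons_zero, Fin.cons_succ]
  ring

/-- change of variables -/
lemma chg {k : ℕ} (a b : ℝ) (f : (Fin (k + 1) → ℝ) → ℝ≥0∞) :
    ∫⁻ l in Icc (fun _ : Fin (k + 1) => a) (fun _ => b), f l =
      ∫⁻ p : ℝ × (Fin k → ℝ) in Icc a b ×ˢ Icc (fun _ => a) (fun _ => b),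
        f (Fin.cons p.1 p.2 : Fin (k + 1) → ℝ) := by
  have h := (volume_preserving_piFinSuccAbove (fun _ : Fin (k + 1) => ℝ) 0).symm
  have h2 := h.setLIntegral_comp_preimage_emb
    (MeasurableEquiv.measurableEmbedding _) f (Icc (fun _ : Fin (k + 1) => a) (fun _ => b))
  rw [← h2]
  have e1 : ∀ p : ℝ × (Fin k → ℝ),
      (MeasurableEquiv.piFinSuccAbove (fun _ : Fin (k + 1) => ℝ) 0).symm p =
        (Fin.cons p.1 p.2 : Fin (k + 1) → ℝ) := by
    intro p
    simp [MeasurableEquiv.piFinSuccAbove, Fin.insertNthEquiv]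
  have e2 : (MeasurableEquiv.piFinSuccAbove (fun _ : Fin (k + 1) => ℝ) 0).symm ⁻¹'
      (Icc (fun _ : Fin (k + 1) => a) (fun _ => b)) =
        Icc a b ×ˢ Icc (fun _ => a) (fun _ => b) := by
    ext p
    rw [mem_preimage, e1, mem_prod, mem_Icc, mem_Icc, mem_Icc, Pi.le_def, Pi.le_def, Pi.le_def,
      Pi.le_def]
    simp only [Fin.forall_fin_succ, Fin.cons_zero, Fin.cons_succ]
    tauto
  rw [e2]
  refine lintegral_congr fun p => ?_
  rw [e1]

lemma sq_add (x y : ℂ) : ‖x + y‖ₑ ^ 2 ≤ 2 * ‖x‖ₑ ^ 2 + 2 * ‖y‖ₑ ^ 2 := by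
  have h1 : ‖x + y‖ ^ 2 ≤ 2 * ‖x‖ ^ 2 + 2 * ‖y‖ ^ 2 := by
    have h2 := norm_add_le x y
    nlinarith [norm_nonneg (x + y), norm_nonneg x, norm_nonneg y, sq_nonneg (‖x‖ - ‖y‖),
      mul_self_le_mul_self (norm_nonneg (x + y)) h2]
  have e : ∀ z : ℂ, ‖z‖ₑ ^ 2 = ENNReal.ofReal (‖z‖ ^ 2) := by
    intro z
    rw [ENNReal.ofReal_pow (norm_nonneg _), ofReal_norm]
  have h2 : (2 : ℝ≥0∞) = ENNReal.ofReal 2 := by simp
  rw [e, e, e, h2, ← ENNReal.ofReal_mul (by norm_num), ← ENNReal.ofReal_mul (by norm_num),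
    ← ENNReal.ofReal_add (by positivity) (by positivity)]
  exact ENNReal.ofReal_le_ofReal h1

/-- integral of `ff²` over the dilations -/
lemma inner_ff (h1 : S_M4) (h2 : S_CRU) (A : ℝ) (hA : 1 ≤ A) (ε : ℝ) (hε : 0 < ε) :
    ∃ C : ℝ, 0 < C ∧ ∀ T t : ℝ, 1 ≤ T → t ∈ Icc T (2 * T) →
      ∫⁻ x in Icc A⁻¹ A, ‖((ff (x * t) : ℝ) : ℂ)‖ₑ ^ 2 ≤ ENNReal.ofReal (C * T ^ ε) := by
  obtain ⟨C, hC, h⟩ := h1 ε hε
  obtain ⟨-, -, -, hcont, -, -⟩ := h2
  refine ⟨C * A ^ (1 + ε) * 2 ^ ε, by positivity, ?_⟩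
  intro T t hT ht
  have hA0 : 0 < A := by linarith
  have hT0 : 0 < T := by linarith
  have ht0 : 0 < t := lt_of_lt_of_le hT0 ht.1
  have hAA : A⁻¹ ≤ A := by
    have : A⁻¹ ≤ 1 := inv_le_one_of_one_le₀ hA
    linarith
  have e : ∀ x : ℝ, ‖((ff (x * t) : ℝ) : ℂ)‖ₑ ^ 2 = ENNReal.ofReal (ff (x * t) ^ 2) := by
    intro x
    rw [← ofReal_norm, ← ENNReal.ofReal_pow (norm_nonneg _), Complex.norm_real,
      Real.norm_eq_abs, sq_abs]
  simp_rw [e]
  rw [← ofReal_integral_eq_lintegral_ofReal]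
  · refine ENNReal.ofReal_le_ofReal ?_
    rw [integral_Icc_eq_integral_Ioc, ← intervalIntegral.integral_of_le hAA,
      intervalIntegral.integral_comp_mul_right (fun u => ff u ^ 2) ht0.ne', smul_eq_mul]
    have e1 : ∫ u in (A⁻¹ * t)..(A * t), ff u ^ 2 ≤ ∫ u in (0 : ℝ)..(A * t), ff u ^ 2 := by
      have hint : ∀ a b : ℝ, IntervalIntegrable (fun u => ff u ^ 2) volume a b :=
        fun a b => (hcont.pow 2).intervalIntegrable a b
      rw [← intervalIntegral.integral_add_adjacent_intervals (hint 0 (A⁻¹ * t)) (hint _ _)]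
      have : 0 ≤ ∫ u in (0 : ℝ)..(A⁻¹ * t), ff u ^ 2 :=
        intervalIntegral.integral_nonneg (by positivity) fun u _ => by positivity
      linarith
    have hAt : 1 ≤ A * t := by
      have : 1 ≤ t := hT.trans ht.1
      nlinarith
    have e2 := h (A * t) hAt
    calc t⁻¹ * ∫ u in (A⁻¹ * t)..(A * t), ff u ^ 2 ≤ t⁻¹ * (C * (A * t) ^ (1 + ε)) := by
          gcongr
          exact e1.trans e2
      _ = C * A ^ (1 + ε) * t ^ ε := by
          rw [Real.mul_rpow hA0.le ht0.le, Real.rpow_add ht0, Real.rpow_one]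
          field_simp
      _ ≤ C * A ^ (1 + ε) * (2 * T) ^ ε := by
          gcongr
          exact ht.2
      _ = C * A ^ (1 + ε) * 2 ^ ε * T ^ ε := by
          rw [Real.mul_rpow (by norm_num) hT0.le]
          ring
  · exact ((hcont.comp (continuous_id.mul continuous_const)).pow 2).continuousOn.integrableOn_Icc
  · exact Eventually.of_forall fun x => sq_nonneg _

/-- bound of `D0` -/
lemma D0_le (A : ℝ) (hA : 1 ≤ A) (s : ℝ) (hs : 0 < s) : ∃ C : ℝ, 0 < C ∧ ∀ T t x : ℝ, 1 ≤ T →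
    t ∈ Icc T (2 * T) → x ∈ Icc A⁻¹ A → |D0 (x * t)| ≤ C * T ^ s := by
  refine ⟨(2 * A) ^ s / s + 4, by positivity, ?_⟩
  intro T t x hT ht hx
  have hA0 : 0 < A := by linarith
  have hT0 : 0 < T := by linarith
  have ht0 : 0 < t := lt_of_lt_of_le hT0 ht.1
  have hx0 : 0 < x := lt_of_lt_of_le (inv_pos.2 hA0) hx.1
  have hπ := Real.pi_pos
  have e1 : D0 (x * t) = Real.log (x * t) - Real.log (2 * Real.pi) +
      2 * Real.eulerMascheroniConstant := by
    unfold D0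
    rw [Real.log_div (by positivity) (by positivity)]
  have hu : x * t ≤ 2 * A * T := by nlinarith [hx.2, ht.2]
  have hl : A⁻¹ ≤ x * t := by
    have : 1 ≤ t := hT.trans ht.1
    nlinarith [hx.1]
  have e2 : Real.log (x * t) ≤ Real.log (2 * A * T) := Real.log_le_log (by positivity) hu
  have e3 : -Real.log (2 * A * T) ≤ Real.log (x * t) := by
    have h1 := Real.log_le_log (inv_pos.2 hA0) hl
    rw [Real.log_inv] at h1
    have h2 : Real.log A ≤ Real.log (2 * A * T) := Real.log_le_log hA0 (by nlinarith)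
    linarith
  have e4 : Real.log (2 * A * T) ≤ (2 * A * T) ^ s / s := Real.log_le_rpow_div (by positivity) hs
  have e5 : (2 * A * T) ^ s = (2 * A) ^ s * T ^ s := Real.mul_rpow (by positivity) hT0.le
  have e6 : 0 ≤ Real.log (2 * Real.pi) := Real.log_nonneg (by nlinarith [Real.pi_gt_three])
  have e7 : Real.log (2 * Real.pi) ≤ 2 := by
    rw [Real.log_le_iff_le_exp (by positivity)]
    have h1 : Real.exp 1 ^ 2 = Real.exp 2 := by
      rw [← Real.exp_nat_mul]; norm_num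
    nlinarith [Real.pi_lt_d2, Real.exp_one_gt_d9]
  have e8 := Real.one_half_lt_eulerMascheroniConstant
  have e9 := Real.eulerMascheroniConstant_lt_two_thirds
  have e10 : 1 ≤ T ^ s := Real.one_le_rpow hT hs.le
  have e11 : ((2 * A) ^ s / s + 4) * T ^ s = (2 * A * T) ^ s / s + 4 * T ^ s := by
    rw [e5]; ring
  rw [e11, e1, abs_le]
  constructor <;> nlinarith

lemma comb (a b c d e : ℝ) (X : ℝ≥0∞) (ha : 0 ≤ a) (hb : 0 ≤ b) (hc : 0 ≤ c) (hd : 0 ≤ d)
    (he : 0 ≤ e) :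
    2 * (ENNReal.ofReal a * (ENNReal.ofReal b * X)) +
      2 * (ENNReal.ofReal c * (ENNReal.ofReal d * (ENNReal.ofReal e * X))) =
    ENNReal.ofReal (2 * (a * b) + 2 * (c * (d * e))) * X := by
  have h2 : (2 : ℝ≥0∞) = ENNReal.ofReal 2 := by simp
  rw [ENNReal.ofReal_add (by positivity) (by positivity), ENNReal.ofReal_mul (by norm_num),
    ENNReal.ofReal_mul ha, ENNReal.ofReal_mul (by norm_num : (0 : ℝ) ≤ 2), ENNReal.ofReal_mul hc,
    ENNReal.ofReal_mul hd, ← h2]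
  ring

/-- the main induction -/
theorem claim {δ : ℝ} (h : P_DIL1 δ) (h1 : S_M4) (h2 : S_CRU) (A : ℝ) (hA : 1 ≤ A) : ∀ (k : ℕ)
    (η : ℝ), 0 < η → ∃ C T₀ : ℝ, 0 < C ∧ 1 ≤ T₀ ∧
    ∀ (T : ℝ) (F : ℝ → ℂ), T₀ ≤ T → Measurable F →
    ∫⁻ l in Icc (fun _ : Fin k => A⁻¹) (fun _ => A),
      ‖∫ t in Icc T (2 * T), F t * ((dif l t : ℝ) : ℂ)‖ₑ ^ 2 ≤
    ENNReal.ofReal (C * T ^ (1 - 2 * δ + η)) * ∫⁻ t in Icc T (2 * T), ‖F t‖ₑ ^ 2 := by
  have hcont : Continuous ff := by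
    obtain ⟨-, -, -, hcont, -, -⟩ := h2
    exact hcont
  have hmff : Measurable ff := hcont.measurable
  have hmD := meas_D0
  have hA0 : 0 < A := by linarith
  intro k
  induction k with
  | zero =>
    intro η hη
    refine ⟨1, 1, one_pos, le_refl _, ?_⟩
    intro T F _ _
    have : ∀ (l : Fin 0 → ℝ) (t : ℝ), dif l t = 0 := by
      intro l t
      simp [dif]
    simp [this]
  | succ k ih =>
    intro η hη
    obtain ⟨C₁, T₁, hC₁, hT₁, H1⟩ := h A hA
    obtain ⟨C₂, T₂, hC₂, hT₂, H2⟩ := ih (η / 2) (by linarith)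
    obtain ⟨C₃, hC₃, H3⟩ := inner_ff h1 h2 A hA (η / 2) (by linarith)
    obtain ⟨C₄, hC₄, H4⟩ := D0_le A hA (η / (2 * (k + 1))) (by positivity)
    refine ⟨2 * (C₂ * C₃) + 2 * ((A - A⁻¹) ^ k * (C₁ * C₄ ^ (2 * k))), max T₁ T₂, ?_, ?_, ?_⟩
    · have : 0 ≤ A - A⁻¹ := by
        have : A⁻¹ ≤ 1 := inv_le_one_of_one_le₀ hA
        linarith
      positivity
    · exact hT₁.trans (le_max_left _ _)
    intro T F hT hF
    have hTT₁ : T₁ ≤ T := (le_max_left _ _).trans hT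
    have hTT₂ : T₂ ≤ T := (le_max_right _ _).trans hT
    have hT1 : 1 ≤ T := hT₁.trans hTT₁
    have hT0 : 0 < T := by linarith
    have hAA : 0 ≤ A - A⁻¹ := by
      have : A⁻¹ ≤ 1 := inv_le_one_of_one_le₀ hA
      linarith
    by_cases hX : ∫⁻ t in Icc T (2 * T), ‖F t‖ₑ ^ 2 = ⊤
    · rw [hX, ENNReal.mul_top]
      · exact le_top
      · rw [Ne, ENNReal.ofReal_eq_zero, not_le]
        have : 0 < 2 * (C₂ * C₃) + 2 * ((A - A⁻¹) ^ k * (C₁ * C₄ ^ (2 * k))) := by positivity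
        positivity
    -- integrability
    have hFi : IntegrableOn F (Icc T (2 * T)) := by
      refine ⟨hF.aestronglyMeasurable, ?_⟩
      rw [hasFiniteIntegral_iff_enorm]
      have h3 : ∀ t, ‖F t‖ₑ ≤ 1 + ‖F t‖ₑ ^ 2 := by
        intro t
        rcases le_total (‖F t‖ₑ) 1 with h4 | h4
        · exact h4.trans (le_add_right (le_refl _))
        · refine le_trans ?_ (le_add_left (le_refl _))
          calc ‖F t‖ₑ = ‖F t‖ₑ * 1 := (mul_one _).symm
            _ ≤ ‖F t‖ₑ * ‖F t‖ₑ := by gcongr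
            _ = ‖F t‖ₑ ^ 2 := (sq _).symm
      calc ∫⁻ t in Icc T (2 * T), ‖F t‖ₑ ≤ ∫⁻ t in Icc T (2 * T), (1 + ‖F t‖ₑ ^ 2) :=
            lintegral_mono h3
        _ = volume (Icc T (2 * T)) + ∫⁻ t in Icc T (2 * T), ‖F t‖ₑ ^ 2 := by
            rw [lintegral_add_left measurable_const]
            simp
        _ < ⊤ := by
            rw [Real.volume_Icc]
            exact ENNReal.add_lt_top.2 ⟨ENNReal.ofReal_lt_top, lt_top_iff_ne_top.2 hX⟩
    have hcD : ∀ x : ℝ, 0 < x → ContinuousOn (fun t => D0 (x * t)) (Icc T (2 * T)) := by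
      intro x hx
      unfold D0
      refine ContinuousOn.add (ContinuousOn.log (by fun_prop) ?_) continuousOn_const
      intro t ht
      have ht0 : 0 < t := lt_of_lt_of_le hT0 ht.1
      have := Real.pi_pos
      positivity
    have hcf : ∀ x : ℝ, ContinuousOn (fun t => ff (x * t)) (Icc T (2 * T)) := fun x =>
      (hcont.comp (continuous_const.mul continuous_id)).continuousOn
    have hpos : ∀ l ∈ Icc (fun _ : Fin k => A⁻¹) (fun _ => A), ∀ j, l j ∈ Icc A⁻¹ A :=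
      fun l hl j => ⟨hl.1 j, hl.2 j⟩
    have hmul : ∀ g : ℝ → ℝ, ContinuousOn g (Icc T (2 * T)) →
        IntegrableOn (fun t => F t * ((g t : ℝ) : ℂ)) (Icc T (2 * T)) := by
      intro g hg
      exact hFi.mul_continuousOn (continuous_ofReal.comp_continuousOn hg) isCompact_Icc
    -- the two parts
    obtain ⟨Φ₁, hΦ₁⟩ : ∃ Φ : ℝ × (Fin k → ℝ) → ℂ, Φ = fun p => ∫ t in Icc T (2 * T),
      (F t * ((ff (p.1 * t) : ℝ) : ℂ)) * ((dif p.2 t : ℝ) : ℂ) := ⟨_, rfl⟩
    obtain ⟨Φ₂, hΦ₂⟩ : ∃ Φ : ℝ × (Fin k → ℝ) → ℂ, Φ = fun p => ∫ t in Icc T (2 * T),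
      (F t * ((∏ j, D0 (p.2 j * t) : ℝ) : ℂ)) * ((ff (p.1 * t) - D0 (p.1 * t) : ℝ) : ℂ) :=
      ⟨_, rfl⟩
    have hmΦ₁ : Measurable Φ₁ := by
      rw [hΦ₁]
      refine (StronglyMeasurable.integral_prod_right' (ν := volume.restrict (Icc T (2 * T)))
        (f := fun q : (ℝ × (Fin k → ℝ)) × ℝ => (F q.2 * ((ff (q.1.1 * q.2) : ℝ) : ℂ)) *
          ((dif q.1.2 q.2 : ℝ) : ℂ)) ?_).measurable
      refine Measurable.stronglyMeasurable ?_
      unfold dif
      refine Measurable.mul (Measurable.mul (hF.comp measurable_snd) ?_) ?_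
      · exact measurable_ofReal.comp (hmff.comp (by fun_prop))
      · refine measurable_ofReal.comp (Measurable.sub ?_ ?_)
        · exact Finset.measurable_prod _ fun j _ => hmff.comp (by fun_prop)
        · exact Finset.measurable_prod _ fun j _ => hmD.comp (by fun_prop)
    have hmΦ₂ : Measurable Φ₂ := by
      rw [hΦ₂]
      refine (StronglyMeasurable.integral_prod_right' (ν := volume.restrict (Icc T (2 * T)))
        (f := fun q : (ℝ × (Fin k → ℝ)) × ℝ => (F q.2 * ((∏ j, D0 (q.1.2 j * q.2) : ℝ) : ℂ)) *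
          ((ff (q.1.1 * q.2) - D0 (q.1.1 * q.2) : ℝ) : ℂ)) ?_).measurable
      refine Measurable.stronglyMeasurable ?_
      refine Measurable.mul (Measurable.mul (hF.comp measurable_snd) ?_) ?_
      · refine measurable_ofReal.comp ?_
        exact Finset.measurable_prod _ fun j _ => hmD.comp (by fun_prop)
      · refine measurable_ofReal.comp (Measurable.sub ?_ ?_)
        · exact hmff.comp (by fun_prop)
        · exact hmD.comp (by fun_prop)
    have hm1 : Measurable (fun p => ‖Φ₁ p‖ₑ ^ 2) := hmΦ₁.enorm.pow_const 2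
    have hm2 : Measurable (fun p => ‖Φ₂ p‖ₑ ^ 2) := hmΦ₂.enorm.pow_const 2
    have hmS : MeasurableSet (Icc A⁻¹ A ×ˢ Icc (fun _ : Fin k => A⁻¹) (fun _ => A)) :=
      measurableSet_Icc.prod measurableSet_Icc
    have hsplit : ∫⁻ l in Icc (fun _ : Fin (k + 1) => A⁻¹) (fun _ => A),
        ‖∫ t in Icc T (2 * T), F t * ((dif l t : ℝ) : ℂ)‖ₑ ^ 2 ≤
        2 * (∫⁻ p in Icc A⁻¹ A ×ˢ Icc (fun _ : Fin k => A⁻¹) (fun _ => A), ‖Φ₁ p‖ₑ ^ 2) +
        2 * ∫⁻ p in Icc A⁻¹ A ×ˢ Icc (fun _ : Fin k => A⁻¹) (fun _ => A), ‖Φ₂ p‖ₑ ^ 2 := by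
      rw [chg, ← lintegral_const_mul _ hm1, ← lintegral_const_mul _ hm2,
        ← lintegral_add_left (hm1.const_mul 2)]
      refine setLIntegral_mono' hmS ?_
      rintro ⟨x, l⟩ ⟨hx, hl⟩
      have hx0 : 0 < x := lt_of_lt_of_le (inv_pos.2 hA0) hx.1
      have hl0 : ∀ j, 0 < l j := fun j => lt_of_lt_of_le (inv_pos.2 hA0) (hpos l hl j).1
      have hcP : ContinuousOn (fun t => ∏ j, D0 (l j * t)) (Icc T (2 * T)) :=
        continuousOn_finsetProd _ fun j _ => hcD _ (hl0 j)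
      have hcdif : ContinuousOn (fun t => dif l t) (Icc T (2 * T)) :=
        (continuousOn_finsetProd _ fun j _ => hcf _).sub hcP
      have hsum : ∫ t in Icc T (2 * T), F t * ((dif (Fin.cons x l : Fin (k + 1) → ℝ) t : ℝ) : ℂ) =
          Φ₁ (x, l) + Φ₂ (x, l) := by
        rw [hΦ₁, hΦ₂]
        show _ = (∫ t in Icc T (2 * T), (F t * ((ff (x * t) : ℝ) : ℂ)) * ((dif l t : ℝ) : ℂ)) +
          ∫ t in Icc T (2 * T), (F t * ((∏ j, D0 (l j * t) : ℝ) : ℂ)) *
            ((ff (x * t) - D0 (x * t) : ℝ) : ℂ)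
        rw [← integral_add]
        · refine integral_congr_ae (Eventually.of_forall fun t => ?_)
          show F t * ((dif (Fin.cons x l : Fin (k + 1) → ℝ) t : ℝ) : ℂ) = _
          rw [dif_cons]
          push_cast
          ring
        · have := hmul _ ((hcf x).mul hcdif)
          refine this.congr (Eventually.of_forall fun t => ?_)
          show F t * ((ff (x * t) * dif l t : ℝ) : ℂ) = _
          push_cast
          ring
        · have := hmul _ (hcP.mul ((hcf x).sub (hcD x hx0)))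
          refine this.congr (Eventually.of_forall fun t => ?_)
          show F t * (((∏ j, D0 (l j * t)) * (ff (x * t) - D0 (x * t)) : ℝ) : ℂ) = _
          push_cast
          ring
      show ‖∫ t in Icc T (2 * T), F t * ((dif (Fin.cons x l : Fin (k + 1) → ℝ) t : ℝ) : ℂ)‖ₑ ^ 2 ≤ _
      rw [hsum]
      exact sq_add _ _
    obtain ⟨X, hXd⟩ : ∃ X, X = ∫⁻ t in Icc T (2 * T), ‖F t‖ₑ ^ 2 := ⟨_, rfl⟩
    have hfir : ∫⁻ p in Icc A⁻¹ A ×ˢ Icc (fun _ : Fin k => A⁻¹) (fun _ => A), ‖Φ₁ p‖ₑ ^ 2 ≤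
        ENNReal.ofReal (C₂ * T ^ (1 - 2 * δ + η / 2)) * (ENNReal.ofReal (C₃ * T ^ (η / 2)) * X) := by
      rw [show (volume : Measure (ℝ × (Fin k → ℝ))) = (volume : Measure ℝ).prod volume from rfl,
        setLIntegral_prod _ hm1.aemeasurable]
      calc ∫⁻ x in Icc A⁻¹ A, ∫⁻ l in Icc (fun _ : Fin k => A⁻¹) (fun _ => A), ‖Φ₁ (x, l)‖ₑ ^ 2
          ≤ ∫⁻ x in Icc A⁻¹ A, ENNReal.ofReal (C₂ * T ^ (1 - 2 * δ + η / 2)) *
              ∫⁻ t in Icc T (2 * T), ‖F t * ((ff (x * t) : ℝ) : ℂ)‖ₑ ^ 2 := by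
            refine lintegral_mono fun x => ?_
            have := H2 T (fun t => F t * ((ff (x * t) : ℝ) : ℂ)) hTT₂
              (hF.mul (measurable_ofReal.comp (hmff.comp (by fun_prop))))
            rw [hΦ₁]
            exact this
        _ = ENNReal.ofReal (C₂ * T ^ (1 - 2 * δ + η / 2)) *
              ∫⁻ t in Icc T (2 * T), ∫⁻ x in Icc A⁻¹ A, ‖F t * ((ff (x * t) : ℝ) : ℂ)‖ₑ ^ 2 := by
            have hm : Measurable (fun q : ℝ × ℝ => ‖F q.2 * ((ff (q.1 * q.2) : ℝ) : ℂ)‖ₑ ^ 2) :=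
              ((hF.comp measurable_snd).mul
                (measurable_ofReal.comp (hmff.comp (by fun_prop)))).enorm.pow_const 2
            rw [lintegral_const_mul _ hm.lintegral_prod_right', lintegral_lintegral_swap]
            exact hm.aemeasurable
        _ ≤ ENNReal.ofReal (C₂ * T ^ (1 - 2 * δ + η / 2)) *
              ∫⁻ t in Icc T (2 * T), ENNReal.ofReal (C₃ * T ^ (η / 2)) * ‖F t‖ₑ ^ 2 := by
            refine mul_le_mul' le_rfl ?_
            refine setLIntegral_mono' measurableSet_Icc fun t ht => ?_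
            calc ∫⁻ x in Icc A⁻¹ A, ‖F t * ((ff (x * t) : ℝ) : ℂ)‖ₑ ^ 2
                = ∫⁻ x in Icc A⁻¹ A, ‖F t‖ₑ ^ 2 * ‖((ff (x * t) : ℝ) : ℂ)‖ₑ ^ 2 := by
                  refine lintegral_congr fun x => ?_
                  rw [enorm_mul, mul_pow]
              _ = ‖F t‖ₑ ^ 2 * ∫⁻ x in Icc A⁻¹ A, ‖((ff (x * t) : ℝ) : ℂ)‖ₑ ^ 2 := by
                  refine lintegral_const_mul _ ?_
                  exact (measurable_ofReal.comp (hmff.comp (by fun_prop))).enorm.pow_const 2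
              _ ≤ ‖F t‖ₑ ^ 2 * ENNReal.ofReal (C₃ * T ^ (η / 2)) := by
                  gcongr
                  exact H3 T t hT1 ht
              _ = _ := mul_comm _ _
        _ = _ := by
            rw [lintegral_const_mul _ (hF.enorm.pow_const 2), hXd]
    have hsec : ∫⁻ p in Icc A⁻¹ A ×ˢ Icc (fun _ : Fin k => A⁻¹) (fun _ => A), ‖Φ₂ p‖ₑ ^ 2 ≤
        ENNReal.ofReal ((A - A⁻¹) ^ k) * (ENNReal.ofReal (C₁ * T ^ (1 - 2 * δ)) *
          (ENNReal.ofReal (C₄ ^ (2 * k) * T ^ η) * X)) := by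
      rw [show (volume : Measure (ℝ × (Fin k → ℝ))) = (volume : Measure ℝ).prod volume from rfl,
        setLIntegral_prod_symm _ hm2.aemeasurable]
      calc ∫⁻ l in Icc (fun _ : Fin k => A⁻¹) (fun _ => A), ∫⁻ x in Icc A⁻¹ A, ‖Φ₂ (x, l)‖ₑ ^ 2
          ≤ ∫⁻ l in Icc (fun _ : Fin k => A⁻¹) (fun _ => A),
              (ENNReal.ofReal (C₁ * T ^ (1 - 2 * δ)) *
                (ENNReal.ofReal (C₄ ^ (2 * k) * T ^ η) * X)) := by
            refine setLIntegral_mono' measurableSet_Icc fun l hl => ?_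
            have := H1 T (fun t => F t * ((∏ j, D0 (l j * t) : ℝ) : ℂ)) hTT₁
              (hF.mul (measurable_ofReal.comp
                (Finset.measurable_prod _ fun j _ => hmD.comp (by fun_prop))))
            rw [hΦ₂]
            refine this.trans ?_
            refine mul_le_mul' le_rfl ?_
            rw [hXd, ← lintegral_const_mul _ (hF.enorm.pow_const 2)]
            refine setLIntegral_mono' measurableSet_Icc fun t ht => ?_
            rw [enorm_mul, mul_pow, mul_comm]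
            gcongr
            rw [← ofReal_norm, ← ENNReal.ofReal_pow (norm_nonneg _), Complex.norm_real,
              Real.norm_eq_abs]
            refine ENNReal.ofReal_le_ofReal ?_
            rw [Finset.abs_prod]
            have hb : ∏ j : Fin k, |D0 (l j * t)| ≤ (C₄ * T ^ (η / (2 * (k + 1)))) ^ k := by
              calc ∏ j : Fin k, |D0 (l j * t)| ≤ ∏ j : Fin k, (C₄ * T ^ (η / (2 * ((k : ℝ) + 1)))) :=
                    Finset.prod_le_prod (fun j _ => abs_nonneg _)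
                      fun j _ => H4 T t (l j) hT1 ht (hpos l hl j)
                _ = _ := by simp
            have hb0 : 0 ≤ ∏ j : Fin k, |D0 (l j * t)| := Finset.prod_nonneg fun j _ => abs_nonneg _
            calc (∏ j : Fin k, |D0 (l j * t)|) ^ 2 ≤ ((C₄ * T ^ (η / (2 * (k + 1)))) ^ k) ^ 2 := by
                  gcongr
              _ = C₄ ^ (2 * k) * (T ^ (η / (2 * (k + 1)))) ^ (2 * k) := by
                  rw [← pow_mul, mul_comm k 2, mul_pow]
              _ ≤ C₄ ^ (2 * k) * T ^ η := by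
                  gcongr
                  rw [← Real.rpow_mul_natCast hT0.le]
                  refine Real.rpow_le_rpow_of_exponent_le hT1 ?_
                  push_cast
                  rw [div_mul_eq_mul_div, div_le_iff₀ (by positivity)]
                  nlinarith
        _ = _ := by
            rw [setLIntegral_const, Real.volume_Icc_pi]
            simp only [Finset.prod_const, Finset.card_univ, Fintype.card_fin]
            rw [← ENNReal.ofReal_pow hAA, mul_comm]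
    refine hsplit.trans ?_
    rw [← hXd]
    have htwo : (2 : ℝ≥0∞) = ENNReal.ofReal 2 := by simp
    calc 2 * (∫⁻ p in Icc A⁻¹ A ×ˢ Icc (fun _ : Fin k => A⁻¹) (fun _ => A), ‖Φ₁ p‖ₑ ^ 2) +
        2 * ∫⁻ p in Icc A⁻¹ A ×ˢ Icc (fun _ : Fin k => A⁻¹) (fun _ => A), ‖Φ₂ p‖ₑ ^ 2
        ≤ 2 * (ENNReal.ofReal (C₂ * T ^ (1 - 2 * δ + η / 2)) *
            (ENNReal.ofReal (C₃ * T ^ (η / 2)) * X)) +
          2 * (ENNReal.ofReal ((A - A⁻¹) ^ k) * (ENNReal.ofReal (C₁ * T ^ (1 - 2 * δ)) *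
          (ENNReal.ofReal (C₄ ^ (2 * k) * T ^ η) * X))) := by gcongr
      _ = ENNReal.ofReal (2 * ((C₂ * T ^ (1 - 2 * δ + η / 2)) * (C₃ * T ^ (η / 2))) +
            2 * ((A - A⁻¹) ^ k * ((C₁ * T ^ (1 - 2 * δ)) * (C₄ ^ (2 * k) * T ^ η)))) * X := by
          exact comb _ _ _ _ _ _ (by positivity) (by positivity) (by positivity) (by positivity)
            (by positivity)
      _ ≤ _ := by
          gcongr ENNReal.ofReal ?_ * _
          have g1 : T ^ (1 - 2 * δ + η / 2) * T ^ (η / 2) = T ^ (1 - 2 * δ + η) := by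
            rw [← Real.rpow_add hT0]
            congr 1
            ring
          have g2 : T ^ (1 - 2 * δ) * T ^ η = T ^ (1 - 2 * δ + η) := by
            rw [← Real.rpow_add hT0]
          apply le_of_eq
          rw [← g2]
          rw [← g2] at g1
          linear_combination (2 * C₂ * C₃) * g1

end Dilk

theorem t_DILK (h1 : S_M4) (h2 : S_CRU) : S_DILK := by
  intro δ δ' _ hlt _ hP k A hA
  obtain ⟨C, T₀, hC, hT₀, H⟩ := Dilk.claim hP h1 h2 A hA k (2 * (δ - δ')) (by linarith)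
  refine ⟨C, T₀, hC, hT₀, ?_⟩
  intro T F hT hF
  have := H T F hT hF
  rwa [show 1 - 2 * δ + 2 * (δ - δ') = 1 - 2 * δ' by ring] at this

end Pool.Agent.N879.GD
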