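import Pool.Agent.N879.GD.Stm

set_option autoImplicit false

/-!
Project GD (helper879), task FIN (helper468): assembling the final theorem.
-/

namespace Pool.Agent.N879.GD

open Complex Filter Topology MeasureTheory Set
open Pool.Agent.Y969.GP (ff V ht lam PS co PX)

noncomputable section

/-- a natural number which bounds finitely many positive reals and their inverses -/
theorem exists_nat_window {k : ℕ} (l : Fin k → ℝ) (hl : ∀ j, 0 < l j) :
    ∃ A : ℕ, 1 ≤ A ∧ ∀ j, (A : ℝ)⁻¹ ≤ l j ∧ l j ≤ A := by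
  obtain ⟨N, hN⟩ := exists_nat_ge (∑ j, (l j + (l j)⁻¹))
  refine ⟨N + 1, by omega, fun j => ?_⟩
  have hnn : ∀ i ∈ (Finset.univ : Finset (Fin k)), 0 ≤ l i + (l i)⁻¹ := fun i _ => by
    have := hl i
    positivity
  have h := Finset.single_le_sum hnn (Finset.mem_univ j)
  have hj := hl j
  have hinv : 0 < (l j)⁻¹ := inv_pos.mpr hj
  have h1 : l j ≤ ((N + 1 : ℕ) : ℝ) := by
    push_cast
    linarith
  have h2 : (l j)⁻¹ ≤ ((N + 1 : ℕ) : ℝ) := by
    push_cast
    linarith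
  refine ⟨?_, h1⟩
  have hN0 : (0 : ℝ) < ((N + 1 : ℕ) : ℝ) := by positivity
  exact inv_le_of_inv_le₀ hj h2

theorem pow_rpow_eq (n : ℕ) (x : ℝ) : ((2 : ℝ) ^ n) ^ x = ((2 : ℝ) ^ x) ^ n := by
  rw [← Real.rpow_natCast, ← Real.rpow_natCast, ← Real.rpow_mul (by norm_num),
    ← Real.rpow_mul (by norm_num), mul_comm]

theorem tendsto_pow_rpow {x : ℝ} (hx : x < 0) :
    Tendsto (fun n : ℕ => ((2 : ℝ) ^ n) ^ x) atTop (𝓝 0) := by
  simp only [pow_rpow_eq]
  exact tendsto_pow_atTop_nhds_zero_of_lt_one (by positivity)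
    (Real.rpow_lt_one_of_one_lt_of_neg (by norm_num) hx)

theorem summable_pow_rpow {x : ℝ} (hx : x < 0) :
    Summable (fun n : ℕ => ((2 : ℝ) ^ n) ^ x) := by
  simp only [pow_rpow_eq]
  exact summable_geometric_of_lt_one (by positivity)
    (Real.rpow_lt_one_of_one_lt_of_neg (by norm_num) hx)

theorem t_FIN (h1 : S_DIL1) (h2 : S_DILK) (h3 : S_COV) (h4 : S_INT) (h5 : S_MB) (h6 : S_LIP)
    (h7 : S_DET) : S_FIN := by
  obtain ⟨δ1, hδ1, hδ1', hP1⟩ := h1
  obtain ⟨d, hd⟩ : ∃ d : ℝ, d = δ1 / 2 := ⟨_, rfl⟩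
  have hd0 : 0 < d := by rw [hd]; positivity
  have hd1 : d ≤ 1 / 2 := by linarith
  have hPK : P_DILK d := h2 δ1 d hd0 (by linarith) hδ1' hP1
  refine ⟨d / 16, by positivity, by linarith, ?_⟩
  intro k hk
  obtain ⟨K, hK, hLIP⟩ := h6 k
  have hK0 : 0 < K := by linarith
  obtain ⟨e, he⟩ : ∃ e : ℝ, e = d / 4 / (2 * K) := ⟨_, rfl⟩
  have he0 : 0 < e := by rw [he]; positivity
  have he1 : e < 1 := by
    rw [he, div_lt_one (by positivity)]
    linarith
  have hKe : K * e = d / 8 := by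
    rw [he]
    field_simp
    ring
  have hk1 : (1 : ℝ) ≤ k := by exact_mod_cast hk
  have hs0 : 0 < (k : ℝ) - e := by linarith
  refine ⟨(k : ℝ) - e, hs0, by linarith, ?_⟩
  intro F hF
  refine ⟨⋃ A : ℕ, {x | ∃ᶠ n in atTop, x ∈ Bad k F ((A : ℝ) + 1) 1 (d / 4) (d / 4) n}, ?_, ?_⟩
  · rw [dimH_iUnion]
    refine iSup_le fun A => ?_
    have hA : (1 : ℝ) ≤ (A : ℝ) + 1 := by
      have : (0 : ℝ) ≤ A := Nat.cast_nonneg A
      linarith
    obtain ⟨C, hC, hvol⟩ := h5 d (d / 4) (d / 4) (d / 4) hd0 (by linarith) (by linarith)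
      (by linarith) (by linarith) hPK (by linarith) k F hF (2 * ((A : ℝ) + 1)) (1 / 2)
      (by linarith) (by norm_num)
    have hball := hLIP F ((A : ℝ) + 1) (d / 4) (d / 4) hF hA (by linarith) (by linarith)
      (by linarith) (by linarith)
    refine h3 k ((k : ℝ) - e) (fun n => Bad k F ((A : ℝ) + 1) 1 (d / 4) (d / 4) n)
      (fun n => Bad k F (2 * ((A : ℝ) + 1)) (1 / 2) (d / 4) (d / 4) n)
      (fun n => ((2 : ℝ) ^ n) ^ (-K)) (fun n => C * ((2 : ℝ) ^ n) ^ (-(d / 4))) hk hs0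
      (fun n => by positivity) (tendsto_pow_rpow (by linarith)) (fun n => by positivity)
      hball hvol ?_
    have : (fun n : ℕ => C * ((2 : ℝ) ^ n) ^ (-(d / 4)) * (((2 : ℝ) ^ n) ^ (-K)) ^ ((k : ℝ) - e - k)) =
        fun n : ℕ => C * ((2 : ℝ) ^ n) ^ (-(d / 8)) := by
      funext n
      have hp : (0 : ℝ) < (2 : ℝ) ^ n := by positivity
      rw [← Real.rpow_mul hp.le, mul_assoc, ← Real.rpow_add hp]
      congr 2
      have : -K * ((k : ℝ) - e - k) = K * e := by ring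
      rw [this, hKe]
      ring
    rw [this]
    exact (summable_pow_rpow (by linarith)).mul_left C
  · intro l hl hpos
    obtain ⟨A, hA1, hA⟩ := exists_nat_window l hpos
    obtain ⟨B, rfl⟩ : ∃ B, A = B + 1 := ⟨A - 1, by omega⟩
    have hnot : ¬ ∃ᶠ n in atTop, l ∈ Bad k F ((B : ℝ) + 1) 1 (d / 4) (d / 4) n := by
      intro h
      exact hl (mem_iUnion.mpr ⟨B, h⟩)
    rw [not_frequently] at hnot
    have hB : (1 : ℝ) ≤ (B : ℝ) + 1 := by
      have : (0 : ℝ) ≤ B := Nat.cast_nonneg B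
      linarith
    obtain ⟨C, hC⟩ := h7 k F ((B : ℝ) + 1) (d / 4) (d / 4) (d / 16) hF hB (by linarith)
      (by linarith) (by linarith) (by linarith) (by linarith) (by linarith) (by linarith) l
      (fun j => by simpa using hA j) hnot
    refine ⟨C, fun T hT => ?_⟩
    obtain ⟨i1, i2⟩ := h4 k F hF l hpos T
    have hT0 : (0 : ℝ) ≤ T := by linarith
    rw [intervalIntegral.integral_of_le hT0, intervalIntegral.integral_of_le hT0,
      ← integral_sub i1 i2]
    refine le_of_eq_of_le ?_ (hC T hT)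
    congr 1
    refine integral_congr_ae (Eventually.of_forall fun t => ?_)
    simp only [dif]
    push_cast
    ring

end

end Pool.Agent.N879.GD
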