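import Pool.Agent.N879.GD.Stm

set_option autoImplicit false

/-!
GD/GAM (helper498): Stirling's upper bound for `Γ(b - i ω)`.
-/

namespace Pool.Agent.N879.GD

open Complex

namespace Gam_

lemma sinh_bd {x : ℝ} (hx : 0 ≤ x) : x ≤ (1 + 2 * x) * Real.exp (-x) * Real.sinh x := by
  rw [Real.sinh_eq]
  have h1 : Real.exp (-x) * Real.exp x = 1 := by rw [← Real.exp_add]; simp
  have h2 : 2 * x + 1 ≤ Real.exp (2 * x) := Real.add_one_le_exp _
  have h3 : Real.exp (2 * x) = Real.exp x * Real.exp x := by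
    rw [← Real.exp_add]
    congr 1
    ring
  have h4 : (1 + 2 * x) * (Real.exp (-x) * Real.exp (-x)) ≤ 1 := by
    calc (1 + 2 * x) * (Real.exp (-x) * Real.exp (-x)) ≤
          Real.exp (2 * x) * (Real.exp (-x) * Real.exp (-x)) := by
          gcongr
          linarith
      _ = (Real.exp (-x) * Real.exp x) * (Real.exp (-x) * Real.exp x) := by rw [h3]; ring
      _ = 1 := by rw [h1]; norm_num
  have h5 : (1 + 2 * x) * Real.exp (-x) * ((Real.exp x - Real.exp (-x)) / 2) =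
      ((1 + 2 * x) * (Real.exp (-x) * Real.exp x) -
        (1 + 2 * x) * (Real.exp (-x) * Real.exp (-x))) / 2 := by ring
  rw [h5, h1]
  linarith

lemma gam_one {ω : ℝ} (hω : ω ≠ 0) :
    ‖Gamma (1 - I * ω)‖ ^ 2 * |Real.sinh (Real.pi * ω)| = Real.pi * |ω| := by
  have hz : (I * ω : ℂ) ≠ 0 := mul_ne_zero I_ne_zero (by exact_mod_cast hω)
  have h1 := Complex.Gamma_mul_Gamma_one_sub (I * ω)
  have h2 := Complex.Gamma_add_one (I * ω) hz
  have h3 : ‖Gamma (1 - I * ω)‖ = ‖Gamma (I * ω + 1)‖ := by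
    have h4 := Complex.Gamma_conj (I * ω + 1)
    have h5 : (starRingEnd ℂ) (I * ω + 1) = 1 - I * ω := by
      rw [map_add, map_mul, conj_I, conj_ofReal, map_one]
      ring
    rw [h5] at h4
    rw [h4, Complex.norm_conj]
  have h6 : Complex.sin (Real.pi * (I * ω)) = ((Real.sinh (Real.pi * ω) : ℝ) : ℂ) * I := by
    have : (Real.pi : ℂ) * (I * ω) = ((Real.pi * ω : ℝ) : ℂ) * I := by push_cast; ring
    rw [this, Complex.sin_mul_I, Complex.ofReal_sinh]
  have hs : Real.sinh (Real.pi * ω) ≠ 0 := by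
    rw [Ne, Real.sinh_eq_zero]
    exact mul_ne_zero Real.pi_ne_zero hω
  have h7 : ‖Gamma (I * ω)‖ * ‖Gamma (1 - I * ω)‖ * |Real.sinh (Real.pi * ω)| = Real.pi := by
    rw [← norm_mul, h1, h6, norm_div, norm_mul, norm_I, mul_one, Complex.norm_real,
      Complex.norm_real, Real.norm_eq_abs, Real.norm_eq_abs, abs_of_pos Real.pi_pos,
      div_mul_cancel₀ _ (abs_ne_zero.2 hs)]
  have h8 : ‖Gamma (I * ω + 1)‖ = |ω| * ‖Gamma (I * ω)‖ := by
    rw [h2, norm_mul, norm_mul, norm_I, one_mul, Complex.norm_real, Real.norm_eq_abs]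
  calc ‖Gamma (1 - I * ω)‖ ^ 2 * |Real.sinh (Real.pi * ω)| =
        ‖Gamma (1 - I * ω)‖ * ‖Gamma (1 - I * ω)‖ * |Real.sinh (Real.pi * ω)| := by ring
    _ = ‖Gamma (I * ω + 1)‖ * ‖Gamma (1 - I * ω)‖ * |Real.sinh (Real.pi * ω)| := by
        nth_rewrite 1 [h3]
        rfl
    _ = |ω| * (‖Gamma (I * ω)‖ * ‖Gamma (1 - I * ω)‖ * |Real.sinh (Real.pi * ω)|) := by
        rw [h8]
        ring
    _ = _ := by rw [h7]; ring

lemma base (ω : ℝ) :
    ‖Gamma (1 - I * ω)‖ ≤ 3 * (1 + |ω|) ^ ((1 : ℝ) / 2) * Real.exp (-(Real.pi * |ω| / 2)) := by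
  have hpi := Real.pi_pos
  have hpi4 := Real.pi_lt_four
  have hw : 0 ≤ |ω| := abs_nonneg ω
  have hsq : ‖Gamma (1 - I * ω)‖ ^ 2 ≤ (1 + 2 * (Real.pi * |ω|)) * Real.exp (-(Real.pi * |ω|)) := by
    rcases eq_or_ne ω 0 with rfl | hω
    · simp
    · have h1 := gam_one hω
      have h2 : |Real.sinh (Real.pi * ω)| = Real.sinh (Real.pi * |ω|) := by
        rw [Real.abs_sinh, abs_mul, abs_of_pos hpi]
      rw [h2] at h1
      have hx : 0 < Real.pi * |ω| := mul_pos hpi (abs_pos.2 hω)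
      have hs : 0 < Real.sinh (Real.pi * |ω|) := Real.sinh_pos_iff.2 hx
      have h3 := sinh_bd hx.le
      rw [← h1] at h3
      have h4 : ‖Gamma (1 - I * ω)‖ ^ 2 * Real.sinh (Real.pi * |ω|) ≤
          ((1 + 2 * (Real.pi * |ω|)) * Real.exp (-(Real.pi * |ω|))) * Real.sinh (Real.pi * |ω|) := by
        rw [h1] at h3 ⊢
        exact h3
      exact le_of_mul_le_mul_right h4 hs
  have hR : (3 * (1 + |ω|) ^ ((1 : ℝ) / 2) * Real.exp (-(Real.pi * |ω| / 2))) ^ 2 =
      9 * (1 + |ω|) * Real.exp (-(Real.pi * |ω|)) := by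
    have e1 : ((1 + |ω|) ^ ((1 : ℝ) / 2)) ^ 2 = 1 + |ω| := by
      rw [← Real.rpow_natCast, ← Real.rpow_mul (by positivity)]
      norm_num
    have e2 : Real.exp (-(Real.pi * |ω| / 2)) ^ 2 = Real.exp (-(Real.pi * |ω|)) := by
      rw [← Real.exp_nat_mul]
      congr 1
      push_cast
      ring
    rw [mul_pow, mul_pow, e1, e2]
    norm_num
  have hle : ‖Gamma (1 - I * ω)‖ ^ 2 ≤
      (3 * (1 + |ω|) ^ ((1 : ℝ) / 2) * Real.exp (-(Real.pi * |ω| / 2))) ^ 2 := by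
    rw [hR]
    refine hsq.trans ?_
    gcongr
    nlinarith
  exact (pow_le_pow_iff_left₀ (norm_nonneg _) (by positivity) (by norm_num)).1 hle

end Gam_

theorem t_GAM : S_GAM := by
  intro b hb
  induction b, hb using Nat.le_induction with
  | base =>
    refine ⟨3, by norm_num, fun ω => ?_⟩
    have h := Gam_.base ω
    have e : ((1 : ℕ) : ℝ) - 1 / 2 = 1 / 2 := by norm_num
    rw [e, Nat.cast_one]
    exact h
  | succ b hb ih =>
    obtain ⟨C, hC, h⟩ := ih
    have hb1 : (1 : ℝ) ≤ b := by exact_mod_cast hb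
    refine ⟨b * C, by positivity, fun ω => ?_⟩
    have hw : 0 ≤ |ω| := abs_nonneg ω
    have hne : ((b : ℂ) - I * ω) ≠ 0 := by
      intro h0
      have := congrArg Complex.re h0
      simp at this
      omega
    have e1 : (((b + 1 : ℕ) : ℂ) - I * ω) = ((b : ℂ) - I * ω) + 1 := by push_cast; ring
    rw [e1, Complex.Gamma_add_one _ hne, norm_mul]
    have h1 : ‖(b : ℂ) - I * ω‖ ≤ b * (1 + |ω|) := by
      refine (norm_sub_le _ _).trans ?_
      rw [norm_mul, norm_I, one_mul, Complex.norm_real, Real.norm_eq_abs, Complex.norm_natCast]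
      nlinarith
    have e2 : (1 + |ω|) ^ (((b + 1 : ℕ) : ℝ) - 1 / 2) = (1 + |ω|) * (1 + |ω|) ^ ((b : ℝ) - 1 / 2) := by
      rw [← Real.rpow_one_add' (by positivity) (by push_cast; linarith)]
      congr 1
      push_cast
      ring
    rw [e2]
    calc ‖(b : ℂ) - I * ω‖ * ‖Gamma ((b : ℂ) - I * ω)‖ ≤
          (b * (1 + |ω|)) * (C * (1 + |ω|) ^ ((b : ℝ) - 1 / 2) * Real.exp (-(Real.pi * |ω| / 2))) :=
          mul_le_mul h1 (h ω) (norm_nonneg _) (by positivity)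
      _ = _ := by ring

end Pool.Agent.N879.GD
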