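import Pool.Agent.N879.GD.Stm
import Pool.Agent.H581R3.GPR.Rot

set_option autoImplicit false

/-!
Project GD, task GF (helper322): closed form and bound of the Mellin-Fourier kernel `GG`.
-/

namespace Pool.Agent.N879.GD

open Complex Filter Topology MeasureTheory Set

theorem gf_re {T x : ℝ} (hT : 0 < T) : 0 < ((T : ℂ)⁻¹ - I * x).re := by
  have : ((T : ℂ)⁻¹ - I * x).re = T⁻¹ := by
    rw [← ofReal_inv]
    simp
  rw [this]
  positivity

theorem gf_wt (b : ℕ) {T u : ℝ} (hT : 0 < T) (hu : 0 < u) :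
    (u / T) ^ b * Real.exp (-(u / T)) / u =
      (T ^ b)⁻¹ * Real.exp (b * Real.log u - Real.log u - u / T) := by
  have e1 : Real.exp (b * Real.log u - Real.log u - u / T) =
      u ^ b / u * Real.exp (-(u / T)) := by
    rw [sub_eq_add_neg (_ - _), Real.exp_add, Real.exp_sub, Real.exp_log hu, Real.exp_nat_mul,
      Real.exp_log hu]
  rw [e1, div_pow]
  field_simp

theorem t_GF : S_GF := by
  intro b T x ω hb hT
  refine ⟨?_, ?_⟩
  · have h1 := integrableOn_rpow_mul_exp_neg_mul_rpow (p := 1) (s := (b : ℝ) - 1) (b := T⁻¹)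
      (by
        have : (1 : ℝ) ≤ b := by exact_mod_cast hb
        linarith) one_pos (by positivity)
    have h2 : IntegrableOn (fun u : ℝ => (T ^ b)⁻¹ * (u ^ ((b : ℝ) - 1) *
        Real.exp (-T⁻¹ * u ^ (1 : ℝ)))) (Ioi 0) := h1.const_mul ((T ^ b)⁻¹)
    refine h2.congr_fun ?_ measurableSet_Ioi
    intro u hu
    have hu' : 0 < u := hu
    simp only
    rw [gf_wt b hT hu', Real.rpow_one, Real.rpow_def_of_pos hu', ← Real.exp_add]
    congr 2
    rw [div_eq_mul_inv]
    ring
  · have hre := gf_re (x := x) hT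
    set r : ℂ := (T : ℂ)⁻¹ - I * x with hr
    have hr0 : r ≠ 0 := by
      intro h
      rw [h] at hre
      simp at hre
    have ha : 0 < ((b : ℂ) - I * ω).re := by
      have : ((b : ℂ) - I * ω).re = b := by simp
      rw [this]
      exact_mod_cast hb
    have hint := Pool.Agent.H581R3.GPR.Rot.rot_formula ha hre
    have harg : r.arg ≠ Real.pi := by
      have := (Complex.abs_arg_lt_pi_div_two_iff (z := r)).2 (Or.inl hre)
      intro h
      rw [h, abs_of_pos Real.pi_pos] at this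
      linarith [Real.pi_pos]
    have hpow : (1 / r) ^ ((b : ℂ) - I * ω) = cexp (-((b : ℂ) - I * ω) * Complex.log r) := by
      rw [Complex.cpow_def_of_ne_zero (one_div_ne_zero hr0), one_div, Complex.log_inv r harg]
      congr 1
      ring
    rw [hpow] at hint
    unfold GG
    have h2 : ∫ u in Ioi (0 : ℝ), (((u / T) ^ b * Real.exp (-(u / T)) / u : ℝ) : ℂ) *
        cexp (I * ((u * x - ω * Real.log u : ℝ) : ℂ)) =
        ∫ u in Ioi (0 : ℝ), ((T : ℂ) ^ b)⁻¹ *
          ((u : ℂ) ^ ((b : ℂ) - I * ω - 1) * cexp (-(r * u))) := by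
      refine setIntegral_congr_fun measurableSet_Ioi ?_
      intro u hu
      have hu' : 0 < u := hu
      have hu0 : (u : ℂ) ≠ 0 := by exact_mod_cast hu'.ne'
      simp only
      rw [gf_wt b hT hu', Complex.cpow_def_of_ne_zero hu0, ← Complex.ofReal_log hu'.le,
        ← Complex.exp_add]
      push_cast
      rw [mul_assoc, ← Complex.exp_add]
      congr 2
      rw [hr, div_eq_mul_inv]
      ring
    rw [h2, integral_const_mul, hint]
    ring

theorem gf_arctan {z : ℝ} (hz : 1 ≤ z) : 1 / (2 * z) ≤ Real.pi / 2 - Real.arctan z := by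
  have hz0 : 0 < z := by linarith
  have h1 : Real.arctan z⁻¹ = Real.pi / 2 - Real.arctan z := Real.arctan_inv_of_pos hz0
  rw [← h1]
  set w : ℝ := z⁻¹ with hw
  have hw0 : 0 < w := by positivity
  have hw1 : w ≤ 1 := inv_le_one_of_one_le₀ hz
  have hθ0 : 0 ≤ Real.arctan w := Real.arctan_nonneg.2 hw0.le
  have hcos : 1 / 2 ≤ Real.cos (Real.arctan w) := by
    rw [Real.cos_arctan]
    apply one_div_le_one_div_of_le (Real.sqrt_pos.2 (by positivity))
    rw [Real.sqrt_le_left (by norm_num)]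
    nlinarith
  have hcos0 : 0 < Real.cos (Real.arctan w) := by linarith
  have hsin : w * Real.cos (Real.arctan w) = Real.sin (Real.arctan w) := by
    have h2 : w = Real.sin (Real.arctan w) / Real.cos (Real.arctan w) := by
      rw [← Real.tan_eq_sin_div_cos, Real.tan_arctan]
    calc w * Real.cos (Real.arctan w)
        = Real.sin (Real.arctan w) / Real.cos (Real.arctan w) * Real.cos (Real.arctan w) := by
          rw [← h2]
      _ = _ := div_mul_cancel₀ _ hcos0.ne'
  have h3 := Real.sin_le hθ0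
  have h4 : 1 / (2 * z) = w * (1 / 2) := by
    rw [hw]
    field_simp
  rw [h4]
  have h5 : w * (1 / 2) ≤ w * Real.cos (Real.arctan w) := mul_le_mul_of_nonneg_left hcos hw0.le
  linarith

theorem gf_mul_arctan (ω y : ℝ) : ω * Real.arctan y ≤ |ω| * Real.arctan |y| := by
  have h1 : |Real.arctan y| = Real.arctan |y| := by
    rcases le_total 0 y with h | h
    · rw [abs_of_nonneg h, abs_of_nonneg (Real.arctan_nonneg.2 h)]
    · rw [abs_of_nonpos h, Real.arctan_neg, abs_of_nonpos]
      have := Real.arctan_nonneg.2 (show 0 ≤ -y by linarith)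
      rw [Real.arctan_neg] at this
      linarith
  calc ω * Real.arctan y ≤ |ω * Real.arctan y| := le_abs_self _
    _ = |ω| * Real.arctan |y| := by rw [abs_mul, h1]

theorem t_GK (h : S_GAM) : S_GK := by
  intro b hb
  obtain ⟨C, hC, hG⟩ := h b hb
  refine ⟨C, hC, ?_⟩
  intro T x ω hT hx
  have hxpos : 0 < |x| := by
    by_contra hcon
    have : |x| = 0 := le_antisymm (not_lt.1 hcon) (abs_nonneg x)
    rw [this, zero_mul] at hx
    linarith
  rw [(t_GF b T x ω hb hT).2]
  have hre := gf_re (x := x) hT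
  set r : ℂ := (T : ℂ)⁻¹ - I * x with hr
  have hre' : r.re = T⁻¹ := by
    rw [hr, ← ofReal_inv]
    simp
  have him : r.im = -x := by
    rw [hr, ← ofReal_inv]
    simp
  have harg : r.arg = -Real.arctan (x * T) := by
    have h1 := (Complex.abs_arg_lt_pi_div_two_iff (z := r)).2 (Or.inl hre)
    rw [abs_lt] at h1
    have h2 := Complex.tan_arg r
    rw [him, hre', div_inv_eq_mul] at h2
    have h3 := Real.arctan_tan h1.1 h1.2
    rw [← h3, h2, neg_mul, Real.arctan_neg]
  have hnorm : |x| ≤ ‖r‖ := by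
    have := Complex.abs_im_le_norm r
    rwa [him, abs_neg] at this
  have hr0 : 0 < ‖r‖ := lt_of_lt_of_le hxpos hnorm
  have hexp : (-((b : ℂ) - I * ω) * Complex.log r).re =
      -(b * Real.log ‖r‖) + ω * Real.arctan (x * T) := by
    rw [Complex.mul_re, Complex.log_re, Complex.log_im, harg]
    simp
  rw [norm_mul, norm_mul, norm_inv, norm_pow, Complex.norm_real, Real.norm_eq_abs,
    abs_of_pos hT, Complex.norm_exp, hexp]
  have h1 : Real.exp (-(b * Real.log ‖r‖) + ω * Real.arctan (x * T)) ≤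
      (|x| ^ b)⁻¹ * Real.exp (|ω| * Real.arctan (|x| * T)) := by
    rw [Real.exp_add]
    have e1 : Real.exp (-(b * Real.log ‖r‖)) = (‖r‖ ^ b)⁻¹ := by
      rw [Real.exp_neg, Real.exp_nat_mul, Real.exp_log hr0]
    rw [e1]
    have e2 : (‖r‖ ^ b)⁻¹ ≤ (|x| ^ b)⁻¹ :=
      inv_anti₀ (by positivity) (pow_le_pow_left₀ hxpos.le hnorm b)
    have e3 : Real.exp (ω * Real.arctan (x * T)) ≤ Real.exp (|ω| * Real.arctan (|x| * T)) := by
      apply Real.exp_le_exp.2
      have := gf_mul_arctan ω (x * T)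
      rwa [abs_mul, abs_of_pos hT] at this
    exact mul_le_mul e2 e3 (Real.exp_pos _).le (by positivity)
  have h2 := hG ω
  have h3 := gf_arctan hx
  have hw : 0 < 1 + |ω| := by positivity
  have h4 : Real.exp (-(Real.pi * |ω| / 2)) * Real.exp (|ω| * Real.arctan (|x| * T)) ≤
      Real.exp (-(|ω| / (2 * (|x| * T)))) := by
    rw [← Real.exp_add]
    apply Real.exp_le_exp.2
    have h5 := mul_le_mul_of_nonneg_left h3 (abs_nonneg ω)
    have h6 : |ω| * (1 / (2 * (|x| * T))) = |ω| / (2 * (|x| * T)) := by ring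
    rw [h6] at h5
    linarith
  have h5 : (1 + |ω|) ^ ((b : ℝ) - 1 / 2) = (1 + |ω|) ^ (-(1 / 2 : ℝ)) * (1 + |ω|) ^ b := by
    rw [← Real.rpow_natCast, ← Real.rpow_add hw]
    congr 1
    ring
  calc (T ^ b)⁻¹ * ‖Gamma ((b : ℂ) - I * ω)‖ *
        Real.exp (-(b * Real.log ‖r‖) + ω * Real.arctan (x * T))
      ≤ (T ^ b)⁻¹ * (C * (1 + |ω|) ^ ((b : ℝ) - 1 / 2) * Real.exp (-(Real.pi * |ω| / 2))) *
        ((|x| ^ b)⁻¹ * Real.exp (|ω| * Real.arctan (|x| * T))) := by
        apply mul_le_mul _ h1 (Real.exp_pos _).le (by positivity)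
        exact mul_le_mul_of_nonneg_left h2 (by positivity)
    _ = (C * (1 + |ω|) ^ (-(1 / 2 : ℝ)) * ((1 + |ω|) / (|x| * T)) ^ b) *
        (Real.exp (-(Real.pi * |ω| / 2)) * Real.exp (|ω| * Real.arctan (|x| * T))) := by
        rw [h5, div_pow, mul_pow]
        field_simp
    _ ≤ (C * (1 + |ω|) ^ (-(1 / 2 : ℝ)) * ((1 + |ω|) / (|x| * T)) ^ b) *
        Real.exp (-(|ω| / (2 * (|x| * T)))) :=
        mul_le_mul_of_nonneg_left h4 (by positivity)

end Pool.Agent.N879.GD
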