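import Pool.Agent.N879.GD.Stm

set_option autoImplicit false

/-!
Project GD: integrability on `(0, T]` (helper407).
-/

namespace Pool.Agent.N879.GD

open Complex Filter Topology MeasureTheory Set
open Pool.Agent.Y969.GP (ff)

namespace Int_

lemma D0_bound {l : ℝ} (hl : 0 < l) {η : ℝ} (hη : 0 < η) {T : ℝ} (hT : 0 < T) :
    ∃ C : ℝ, 0 ≤ C ∧ ∀ t ∈ Ioc 0 T, |D0 (l * t)| ≤ C * t ^ (-η) := by
  have hpi := Real.pi_pos
  set c : ℝ := |Real.log (l / (2 * Real.pi)) + 2 * Real.eulerMascheroniConstant| with hc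
  refine ⟨1 / η + T * T ^ η + c * T ^ η, by positivity, fun t ht => ?_⟩
  have ht0 : 0 < t := ht.1
  have htη : 0 < t ^ η := Real.rpow_pos_of_pos ht0 _
  have h1 : D0 (l * t) = Real.log t + (Real.log (l / (2 * Real.pi)) +
      2 * Real.eulerMascheroniConstant) := by
    unfold D0
    rw [show l * t / (2 * Real.pi) = t * (l / (2 * Real.pi)) by ring,
      Real.log_mul ht0.ne' (by positivity)]
    ring
  have h2 : |D0 (l * t)| ≤ |Real.log t| + c := by
    rw [h1]
    exact abs_add_le _ _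
  have hTt : 1 ≤ T ^ η * t ^ (-η) := by
    rw [Real.rpow_neg ht0.le, ← div_eq_mul_inv, one_le_div htη]
    exact Real.rpow_le_rpow ht0.le ht.2 hη.le
  have htn : 0 < t ^ (-η) := Real.rpow_pos_of_pos ht0 _
  have h3 : |Real.log t| ≤ (1 / η + T * T ^ η) * t ^ (-η) := by
    rcases le_or_gt t 1 with h | h
    · have h4 := (Real.abs_log_mul_self_rpow_lt t η ht0 h hη).le
      rw [abs_mul, abs_of_pos htη] at h4
      have h5 : |Real.log t| ≤ 1 / η * t ^ (-η) := by
        rw [Real.rpow_neg ht0.le, ← div_eq_mul_inv, le_div_iff₀ htη]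
        exact h4
      have h6 : 0 ≤ T * T ^ η * t ^ (-η) := by positivity
      nlinarith
    · have h4 : |Real.log t| ≤ T := by
        rw [abs_of_nonneg (Real.log_nonneg h.le)]
        have := Real.log_le_sub_one_of_pos ht0
        linarith [ht.2]
      have h6 : 0 ≤ 1 / η * t ^ (-η) := by positivity
      have h7 : T ≤ T * (T ^ η * t ^ (-η)) := le_mul_of_one_le_right hT.le hTt
      calc |Real.log t| ≤ T * (T ^ η * t ^ (-η)) := h4.trans h7
        _ ≤ (1 / η + T * T ^ η) * t ^ (-η) := by nlinarith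
  have h4 : c ≤ c * T ^ η * t ^ (-η) := by
    rw [mul_assoc]
    exact le_mul_of_one_le_right (abs_nonneg _) hTt
  calc |D0 (l * t)| ≤ |Real.log t| + c := h2
    _ ≤ (1 / η + T * T ^ η) * t ^ (-η) + c * T ^ η * t ^ (-η) := add_le_add h3 h4
    _ = _ := by ring

lemma memLp_F {F : ℝ → ℂ} (hF : Gr F) (T : ℝ) : MemLp F 2 (volume.restrict (Ioc 0 T)) := by
  obtain ⟨hm, hg⟩ := hF
  obtain ⟨C, _, hC⟩ := hg 1 one_pos
  refine ⟨hm.aestronglyMeasurable, ?_⟩
  rw [eLpNorm_lt_top_iff_lintegral_rpow_enorm_lt_top two_ne_zero ENNReal.ofNat_ne_top]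
  simp only [ENNReal.toReal_ofNat]
  have h1 := hC (max T 1) (le_max_right _ _)
  have h2 : ∫⁻ t in Ioc 0 T, ‖F t‖ₑ ^ (2 : ℝ) ≤ ∫⁻ t in Ioc 0 (max T 1), ‖F t‖ₑ ^ 2 := by
    have h3 : ∀ t, ‖F t‖ₑ ^ (2 : ℝ) = ‖F t‖ₑ ^ 2 := fun t => by
      rw [← ENNReal.rpow_natCast]; norm_num
    simp only [h3]
    exact lintegral_mono_set (Ioc_subset_Ioc_right (le_max_left _ _))
  exact (h2.trans h1).trans_lt ENNReal.ofReal_lt_top

lemma measurable_D0 : Measurable D0 := by
  unfold D0
  fun_prop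

lemma memLp_rpow {η : ℝ} (k : ℕ) (hk : η * k < 1 / 2) {T : ℝ} (hT : 0 < T) :
    MemLp (fun t : ℝ => (t ^ (-η)) ^ k) 2 (volume.restrict (Ioc 0 T)) := by
  have hmeas : Measurable (fun t : ℝ => (t ^ (-η)) ^ k) := by fun_prop
  rw [memLp_two_iff_integrable_sq hmeas.aestronglyMeasurable]
  have h1 : IntegrableOn (fun t : ℝ => t ^ (-(2 * (η * k)))) (Ioc 0 T) := by
    have h2 : IntervalIntegrable (fun t : ℝ => t ^ (-(2 * (η * k)))) volume 0 T :=
      intervalIntegral.intervalIntegrable_rpow' (by linarith)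
    rwa [intervalIntegrable_iff_integrableOn_Ioc_of_le hT.le] at h2
  refine h1.congr_fun (fun t ht => ?_) measurableSet_Ioc
  have ht0 : 0 < t := ht.1
  simp only
  rw [← pow_mul, ← Real.rpow_natCast, ← Real.rpow_mul ht0.le]
  congr 1
  push_cast
  ring

end Int_

open Int_ in
theorem t_INT (h : S_CRU) : S_INT := by
  obtain ⟨_, _, _, hcont, _, _⟩ := h
  intro k F hF l hl T
  rcases le_or_gt T 0 with hT | hT
  · rw [Ioc_eq_empty_of_le hT]
    exact ⟨integrableOn_empty, integrableOn_empty⟩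
  have hF2 := memLp_F hF T
  constructor
  · have hc : Continuous (fun t : ℝ => ∏ j, ff (l j * t)) :=
      continuous_finsetProd _ fun j _ => hcont.comp (continuous_const_mul _)
    have hcC : Continuous (fun t : ℝ => ((∏ j, ff (l j * t) : ℝ) : ℂ)) :=
      continuous_ofReal.comp hc
    obtain ⟨C, hC⟩ := isCompact_Icc.exists_bound_of_continuousOn (hcC.continuousOn (s := Icc 0 T))
    have hG : MemLp (fun t : ℝ => ((∏ j, ff (l j * t) : ℝ) : ℂ)) 2 (volume.restrict (Ioc 0 T)) := by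
      refine MemLp.of_bound hcC.aestronglyMeasurable C ?_
      rw [ae_restrict_iff' measurableSet_Ioc]
      exact Eventually.of_forall fun t ht => hC t (Ioc_subset_Icc_self ht)
    exact hF2.integrable_mul hG
  · set η : ℝ := 1 / (4 * (k + 1)) with hη
    have hη0 : 0 < η := by positivity
    have hηk : η * k < 1 / 2 := by
      rw [hη, one_div, inv_mul_lt_iff₀ (by positivity)]
      have : (0 : ℝ) ≤ k := Nat.cast_nonneg k
      nlinarith
    choose C hC0 hC using fun j => D0_bound (hl j) hη0 hT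
    have hm : Measurable (fun t : ℝ => ((∏ j, D0 (l j * t) : ℝ) : ℂ)) :=
      measurable_ofReal.comp (Finset.measurable_fun_prod _ fun j _ =>
        measurable_D0.comp (measurable_const_mul _))
    have hG : MemLp (fun t : ℝ => ((∏ j, D0 (l j * t) : ℝ) : ℂ)) 2
        (volume.restrict (Ioc 0 T)) := by
      have h1 := (memLp_rpow k hηk hT).const_mul (∏ j, C j)
      refine h1.mono hm.aestronglyMeasurable ?_
      rw [ae_restrict_iff' measurableSet_Ioc]
      refine Eventually.of_forall fun t ht => ?_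
      rw [norm_real, Real.norm_eq_abs, Finset.abs_prod, Real.norm_eq_abs]
      have ht0 : 0 < t := ht.1
      have hP : 0 ≤ ∏ j, C j := Finset.prod_nonneg fun j _ => hC0 j
      have htn : 0 < t ^ (-η) := Real.rpow_pos_of_pos ht0 _
      rw [abs_of_nonneg (by positivity)]
      calc ∏ j, |D0 (l j * t)| ≤ ∏ j, (C j * t ^ (-η)) :=
            Finset.prod_le_prod (fun j _ => abs_nonneg _) fun j _ => hC j t ht
        _ = (∏ j, C j) * (t ^ (-η)) ^ k := by
            rw [Finset.prod_mul_distrib, Finset.prod_const, Finset.card_univ, Fintype.card_fin]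
    exact hF2.integrable_mul hG

end Pool.Agent.N879.GD
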