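import Pool.Agent.N879.GD.Stm
import Pool.Agent.H221R2.FB_VdcGen

set_option autoImplicit false

/-!
Project GD: van der Corput's method for the phase `ω log log (1+t/m)`.
-/

namespace Pool.Agent.N879.GD

open Finset

noncomputable section

namespace LLp

/-- the coefficients of the derivatives of `log log` -/
def cq : ℕ → ℕ → ℝ
  | 0, 0 => 1
  | 0, _ + 1 => 0
  | j + 1, 0 => (j + 1) * cq j 0
  | j + 1, i + 1 => (j + 1) * cq j (i + 1) + (i + 1) * cq j i

lemma cq_nonneg : ∀ j i : ℕ, 0 ≤ cq j i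
  | 0, 0 => by simp [cq]
  | 0, i + 1 => by simp [cq]
  | j + 1, 0 => by
      rw [cq]
      exact mul_nonneg (by positivity) (cq_nonneg j 0)
  | j + 1, i + 1 => by
      rw [cq]
      exact add_nonneg (mul_nonneg (by positivity) (cq_nonneg j (i + 1)))
        (mul_nonneg (by positivity) (cq_nonneg j i))

lemma cq_gt : ∀ j i : ℕ, j < i → cq j i = 0
  | 0, 0, h => absurd h (by omega)
  | 0, i + 1, _ => by simp [cq]
  | j + 1, 0, h => absurd h (by omega)
  | j + 1, i + 1, h => by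
      rw [cq, cq_gt j (i + 1) (by omega), cq_gt j i (by omega)]
      simp

lemma cq_zero_right : ∀ j : ℕ, 1 ≤ cq j 0
  | 0 => by simp [cq]
  | j + 1 => by
      rw [cq]
      have := cq_zero_right j
      have h : (0 : ℝ) ≤ j := Nat.cast_nonneg _
      nlinarith

lemma cq_diag : ∀ j : ℕ, 1 ≤ cq j j
  | 0 => by simp [cq]
  | j + 1 => by
      rw [cq, cq_gt j (j + 1) (by omega)]
      have := cq_diag j
      have h : (0 : ℝ) ≤ j := Nat.cast_nonneg _
      nlinarith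

/-- the polynomials -/
def qq (j : ℕ) (u : ℝ) : ℝ := ∑ i ∈ range (j + 1), cq j i * u ^ (i + 1)

/-- their derivatives -/
def qd (j : ℕ) (u : ℝ) : ℝ := ∑ i ∈ range (j + 1), cq j i * ((i + 1) * u ^ i)

lemma hasDerivAt_qq (j : ℕ) (u : ℝ) : HasDerivAt (qq j) (qd j u) u := by
  unfold qq qd
  refine HasDerivAt.fun_sum fun i _ => ?_
  refine HasDerivAt.const_mul _ ?_
  have := hasDerivAt_pow (i + 1) u
  simpa using this

lemma qq_succ (j : ℕ) (u : ℝ) : qq (j + 1) u = (j + 1) * qq j u + u ^ 2 * qd j u := by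
  unfold qq qd
  rw [sum_range_succ' _ (j + 1), mul_sum, mul_sum]
  have h1 : ∑ i ∈ range (j + 1), cq (j + 1) (i + 1) * u ^ (i + 1 + 1) =
      ∑ i ∈ range (j + 1), (j + 1) * cq j (i + 1) * u ^ (i + 1 + 1) +
      ∑ i ∈ range (j + 1), u ^ 2 * (cq j i * ((i + 1) * u ^ i)) := by
    rw [← sum_add_distrib]
    refine sum_congr rfl fun i _ => ?_
    rw [cq]
    ring
  have h2 : ∑ i ∈ range (j + 1), (j + 1) * (cq j i * u ^ (i + 1)) =
      ∑ i ∈ range (j + 1), (j + 1) * cq j (i + 1) * u ^ (i + 1 + 1) + (j + 1) * cq j 0 * u := by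
    rw [sum_range_succ' _ j, sum_range_succ _ j, cq_gt j (j + 1) (by omega)]
    simp only [mul_zero, zero_mul, add_zero, zero_add, pow_one]
    congr 1
    · exact sum_congr rfl fun i _ => by ring
    · ring
  rw [h1, h2, cq]
  simp only [zero_add, pow_one]
  ring

/-- the derivatives of the phase -/
def ph (κ m : ℝ) : ℕ → ℝ → ℝ
  | 0, t => κ⁻¹ * Real.log (Real.log (1 + t / m))
  | j + 1, t => κ⁻¹ * (-1) ^ j * ((m + t) ^ (j + 1))⁻¹ * qq j (Real.log (1 + t / m))⁻¹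

lemma hasDerivAt_ph (κ m : ℝ) (hm : 0 < m) (j : ℕ) (t : ℝ) (ht : 0 < t) :
    HasDerivAt (ph κ m j) (ph κ m (j + 1) t) t := by
  have hL : 0 < Real.log (1 + t / m) := Real.log_pos (by have := div_pos ht hm; linarith)
  have hmt : 0 < m + t := by linarith
  have h1t : 0 < 1 + t / m := by have := div_pos ht hm; linarith
  have hd : HasDerivAt (fun t : ℝ => Real.log (1 + t / m)) ((m + t)⁻¹) t := by
    have h1 : HasDerivAt (fun t : ℝ => 1 + t / m) (1 / m) t :=
      ((hasDerivAt_id t).div_const m).const_add 1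
    have h2 := h1.log h1t.ne'
    convert h2 using 1
    field_simp
  cases j with
  | zero =>
    have h3 := (hd.log hL.ne').const_mul κ⁻¹
    refine HasDerivAt.congr_deriv (f := ph κ m 0) h3 ?_
    show _ = κ⁻¹ * (-1) ^ 0 * ((m + t) ^ (0 + 1))⁻¹ * qq 0 (Real.log (1 + t / m))⁻¹
    rw [qq, zero_add, sum_range_one, cq]
    ring
  | succ j =>
    have hi : HasDerivAt (fun t : ℝ => (Real.log (1 + t / m))⁻¹)
        (-(m + t)⁻¹ / (Real.log (1 + t / m)) ^ 2) t := hd.inv hL.ne'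
    have hq : HasDerivAt (fun t : ℝ => qq j (Real.log (1 + t / m))⁻¹)
        (qd j (Real.log (1 + t / m))⁻¹ * (-(m + t)⁻¹ / (Real.log (1 + t / m)) ^ 2)) t :=
      (hasDerivAt_qq j _).comp t hi
    have hp : HasDerivAt (fun t : ℝ => ((m + t) ^ (j + 1))⁻¹)
        (-((j + 1 : ℕ) * (m + t) ^ j * 1) / ((m + t) ^ (j + 1)) ^ 2) t := by
      have h1 : HasDerivAt (fun t : ℝ => m + t) 1 t := (hasDerivAt_id t).const_add m
      have h2 := h1.pow (j + 1)
      exact h2.inv (pow_pos hmt (j + 1)).ne'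
    have h3 := (hp.mul hq).const_mul (κ⁻¹ * (-1) ^ j)
    have h4 : (fun t : ℝ => κ⁻¹ * (-1) ^ j * (((m + t) ^ (j + 1))⁻¹ *
        qq j (Real.log (1 + t / m))⁻¹)) = ph κ m (j + 1) := by
      funext t
      simp only [ph]
      ring
    have h5 : HasDerivAt (ph κ m (j + 1)) _ t := h4 ▸ h3
    convert h5 using 1
    simp only [ph]
    rw [qq_succ]
    push_cast
    obtain ⟨L, hL'⟩ : ∃ L, L = Real.log (1 + t / m) := ⟨_, rfl⟩
    rw [← hL'] at hL ⊢
    obtain ⟨s, hs⟩ : ∃ s, s = m + t := ⟨_, rfl⟩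
    rw [← hs] at hmt ⊢
    field_simp
    ring

lemma qq_mono (j : ℕ) {u v : ℝ} (hu : 0 ≤ u) (huv : u ≤ v) : qq j u ≤ qq j v := by
  unfold qq
  exact sum_le_sum fun i _ => mul_le_mul_of_nonneg_left (pow_le_pow_left₀ hu huv _) (cq_nonneg _ _)

lemma qq_ge1 (j : ℕ) {u : ℝ} (hu : 0 ≤ u) : u ≤ qq j u := by
  unfold qq
  have h1 : cq j 0 * u ^ (0 + 1) ≤ ∑ i ∈ range (j + 1), cq j i * u ^ (i + 1) :=
    single_le_sum (f := fun i => cq j i * u ^ (i + 1))
      (fun i _ => mul_nonneg (cq_nonneg _ _) (by positivity)) (by simp)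
  refine le_trans ?_ h1
  have := cq_zero_right j
  rw [zero_add, pow_one]
  nlinarith

lemma qq_ge2 (j : ℕ) {u : ℝ} (hu : 0 ≤ u) : u ^ (j + 1) ≤ qq j u := by
  unfold qq
  have h1 : cq j j * u ^ (j + 1) ≤ ∑ i ∈ range (j + 1), cq j i * u ^ (i + 1) :=
    single_le_sum (f := fun i => cq j i * u ^ (i + 1))
      (fun i _ => mul_nonneg (cq_nonneg _ _) (by positivity)) (by simp)
  refine le_trans ?_ h1
  have := cq_diag j
  have h2 : 0 ≤ u ^ (j + 1) := by positivity
  nlinarith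

/-- the sum of the coefficients -/
def sq (j : ℕ) : ℝ := ∑ i ∈ range (j + 1), cq j i

lemma up_bound (j : ℕ) {ρ u : ℝ} (hρ : 0 < ρ) (hρ1 : ρ ≤ 1) (hu : 0 < u) (h1 : ρ * u ≤ 1) :
    (ρ * u)⁻¹ * ρ ^ (j + 1) * qq j u ≤ sq j := by
  unfold qq sq
  rw [mul_sum]
  refine sum_le_sum fun i hi => ?_
  rw [mem_range] at hi
  have h2 : (ρ * u)⁻¹ * ρ ^ (j + 1) * (cq j i * u ^ (i + 1)) =
      cq j i * (ρ ^ (j - i) * (ρ * u) ^ i) := by
    obtain ⟨d, rfl⟩ : ∃ d, j = i + d := ⟨j - i, by omega⟩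
    rw [Nat.add_sub_cancel_left, mul_pow]
    field_simp
    ring
  rw [h2]
  refine mul_le_of_le_one_right (cq_nonneg _ _) ?_
  exact mul_le_one₀ (pow_le_one₀ hρ.le hρ1) (by positivity) (pow_le_one₀ (by positivity) h1)

end LLp

open LLp

theorem t_LL : S_LL := by
  obtain ⟨C0, hC0⟩ : ∃ C0, C0 = ∑ j ∈ range 9, sq j := ⟨_, rfl⟩
  obtain ⟨η, hη0, hη1, C, hC, hmain⟩ := Pool.Agent.H221R2.FB.vdc_gen 5 ((1 / 18) ^ 10) C0 (by positivity)
  refine ⟨η, hη0, hη1, 2 * Real.pi * C, by positivity, ?_⟩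
  intro m R L u ω hm hR hRu hLR huL hk1 hk2
  have hm' : (1 : ℝ) ≤ m := by exact_mod_cast hm
  have hR' : (1 : ℝ) ≤ R := by exact_mod_cast hR
  have hm0 : (0 : ℝ) < m := by linarith
  have hR0 : (0 : ℝ) < R := by linarith
  obtain ⟨x, hx⟩ : ∃ x : ℝ, x = (R : ℝ) / m := ⟨_, rfl⟩
  have hx0 : 0 < x := by rw [hx]; positivity
  obtain ⟨ρ, hρ⟩ : ∃ ρ : ℝ, ρ = (R : ℝ) / (m + R) := ⟨_, rfl⟩
  have hρ0 : 0 < ρ := by rw [hρ]; positivity
  have hρ1 : ρ ≤ 1 := by
    rw [hρ, div_le_one (by positivity)]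
    linarith
  have hρx : ρ = x / (1 + x) := by
    rw [hρ, hx]
    field_simp
  obtain ⟨U, hU⟩ : ∃ U : ℝ, U = (Real.log (1 + x))⁻¹ := ⟨_, rfl⟩
  have hlog : 0 < Real.log (1 + x) := Real.log_pos (by linarith)
  have hU0 : 0 < U := by rw [hU]; positivity
  have hkap : kap m R = ρ * U := by
    rw [kap, hρ, hU, hx, div_eq_mul_inv ((R : ℝ) / (m + R))]
  have hκ0 : 0 < kap m R := by rw [hkap]; positivity
  have hρU : ρ * U ≤ 1 := by
    rw [hU, ← div_eq_mul_inv, div_le_one hlog, hρx]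
    have h1 := Real.one_sub_inv_le_log_of_pos (show 0 < 1 + x by linarith)
    refine le_trans (le_of_eq ?_) h1
    field_simp
    ring
  have hlow : ∀ j : ℕ, ((1 : ℝ) / 2) ^ j ≤ ρ ^ j ∨ ((1 : ℝ) / 2) ^ j ≤ (ρ * U) ^ j := by
    intro j
    rcases le_or_gt 1 x with h | h
    · left
      refine pow_le_pow_left₀ (by norm_num) ?_ _
      rw [hρx, div_le_div_iff₀ (by norm_num) (by linarith)]
      linarith
    · right
      refine pow_le_pow_left₀ (by norm_num) ?_ _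
      rw [hU, ← div_eq_mul_inv, div_le_div_iff₀ (by norm_num) hlog]
      have h1 : Real.log (1 + x) ≤ x := by
        have := Real.log_le_sub_one_of_pos (show 0 < 1 + x by linarith)
        linarith
      have h2 : x / 2 ≤ ρ := by
        rw [hρx, div_le_div_iff₀ (by norm_num) (by linarith)]
        nlinarith
      linarith
  have hbd : ∀ k, 1 ≤ k → k ≤ 5 + 4 → ∀ t ∈ Set.Icc (R : ℝ) (3 * R),
      (1 / 18) ^ 10 ≤ (-1) ^ (k + 1) * ph (kap m R) m k t * (R : ℝ) ^ k ∧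
      (-1) ^ (k + 1) * ph (kap m R) m k t * (R : ℝ) ^ k ≤ C0 := by
    intro k hk1' hk2' t ht
    obtain ⟨ht1, ht2⟩ := ht
    obtain ⟨j, rfl⟩ : ∃ j, k = j + 1 := ⟨k - 1, by omega⟩
    have hmt : 0 < (m : ℝ) + t := by linarith
    have h1 : (-1) ^ (j + 1 + 1) * ph (kap m R) m (j + 1) t * (R : ℝ) ^ (j + 1) =
        (ρ * U)⁻¹ * ((R : ℝ) / (m + t)) ^ (j + 1) * qq j (Real.log (1 + t / m))⁻¹ := by
      simp only [ph]
      rw [hkap, div_pow, div_eq_mul_inv ((R : ℝ) ^ (j + 1))]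
      have h2 : ((-1 : ℝ)) ^ (j + 1 + 1) * (-1) ^ j = 1 := by
        rw [← pow_add, show j + 1 + 1 + j = 2 * (j + 1) by ring, pow_mul]
        norm_num
      calc _ = ((-1 : ℝ) ^ (j + 1 + 1) * (-1) ^ j) * ((ρ * U)⁻¹ * ((R : ℝ) ^ (j + 1) *
            ((m + t) ^ (j + 1))⁻¹) * qq j (Real.log (1 + t / m))⁻¹) := by ring
        _ = _ := by rw [h2, one_mul]
    rw [h1]
    have hrt1 : ρ / 3 ≤ (R : ℝ) / (m + t) := by
      rw [hρ, div_div, div_le_div_iff₀ (by positivity) hmt]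
      nlinarith
    have hrt2 : (R : ℝ) / (m + t) ≤ ρ := by
      rw [hρ]
      exact div_le_div_of_nonneg_left hR0.le (by positivity) (by linarith)
    have hlt1 : Real.log (1 + x) ≤ Real.log (1 + t / m) := by
      refine Real.log_le_log (by linarith) ?_
      rw [hx]
      gcongr
    have hlt2 : Real.log (1 + t / m) ≤ 3 * Real.log (1 + x) := by
      have h3 : 3 * Real.log (1 + x) = Real.log ((1 + x) ^ 3) := by
        rw [Real.log_pow]
        norm_num
      rw [h3]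
      refine Real.log_le_log (by have : 0 < t / (m : ℝ) := div_pos (by linarith) hm0
                                 linarith) ?_
      have h4 : t / m ≤ 3 * x := by
        rw [hx, div_le_iff₀ hm0]
        field_simp
        linarith
      nlinarith [pow_pos hx0 2, pow_pos hx0 3]
    have hlt0 : 0 < Real.log (1 + t / m) := lt_of_lt_of_le hlog hlt1
    have hu1 : U / 3 ≤ (Real.log (1 + t / m))⁻¹ := by
      rw [hU, div_eq_mul_inv, ← mul_inv]
      exact inv_anti₀ hlt0 (by linarith)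
    have hu2 : (Real.log (1 + t / m))⁻¹ ≤ U := by
      rw [hU]
      exact inv_anti₀ hlog hlt1
    constructor
    · have h5 : (ρ * U)⁻¹ * (ρ / 3) ^ (j + 1) * qq j (U / 3) ≤
          (ρ * U)⁻¹ * ((R : ℝ) / (m + t)) ^ (j + 1) * qq j (Real.log (1 + t / m))⁻¹ := by
        have h6 := qq_mono j (by positivity) hu1
        have h7 : 0 ≤ qq j (U / 3) := le_trans (by positivity) (qq_ge1 j (by positivity : 0 ≤ U / 3))
        have h8 : (ρ / 3) ^ (j + 1) ≤ ((R : ℝ) / (m + t)) ^ (j + 1) :=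
          pow_le_pow_left₀ (by positivity) hrt1 _
        refine mul_le_mul (mul_le_mul_of_nonneg_left h8 (by positivity)) h6 h7 (by positivity)
      refine le_trans ?_ h5
      have h9 : ((1 : ℝ) / 18) ^ 10 ≤ (1 / 18) ^ (j + 1) :=
        pow_le_pow_of_le_one (by norm_num) (by norm_num) (by omega)
      refine h9.trans ?_
      rcases hlow j with h | h
      · have h6 : (ρ * U)⁻¹ * (ρ / 3) ^ (j + 1) * (U / 3) ≤
            (ρ * U)⁻¹ * (ρ / 3) ^ (j + 1) * qq j (U / 3) :=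
          mul_le_mul_of_nonneg_left (qq_ge1 j (by positivity)) (by positivity)
        refine le_trans ?_ h6
        have h7 : (ρ * U)⁻¹ * (ρ / 3) ^ (j + 1) * (U / 3) = ρ ^ j * (1 / 3) ^ (j + 2) := by
          rw [div_pow, one_div, inv_pow, pow_succ (3 : ℝ) (j + 1)]
          field_simp
          try ring
        rw [h7]
        have h8 : ((1 : ℝ) / 18) ^ (j + 1) ≤ (1 / 2) ^ j * (1 / 3) ^ (j + 2) := by
          have : ((1 : ℝ) / 18) ^ (j + 1) = (1 / 2) ^ j * (1 / 3) ^ (j + 2) * (1 / 3) ^ j * (1 / 2) := by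
            rw [show (1 : ℝ) / 18 = 1 / 2 * (1 / 3) * (1 / 3) by norm_num, mul_pow, mul_pow]
            ring
          rw [this, mul_assoc]
          refine mul_le_of_le_one_right (by positivity) ?_
          have : ((1 : ℝ) / 3) ^ j ≤ 1 := pow_le_one₀ (by norm_num) (by norm_num)
          linarith
        exact h8.trans (mul_le_mul_of_nonneg_right h (by positivity))
      · have h6 : (ρ * U)⁻¹ * (ρ / 3) ^ (j + 1) * (U / 3) ^ (j + 1) ≤
            (ρ * U)⁻¹ * (ρ / 3) ^ (j + 1) * qq j (U / 3) :=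
          mul_le_mul_of_nonneg_left (qq_ge2 j (by positivity)) (by positivity)
        refine le_trans ?_ h6
        have h7 : (ρ * U)⁻¹ * (ρ / 3) ^ (j + 1) * (U / 3) ^ (j + 1) =
            (ρ * U) ^ j * (1 / 9) ^ (j + 1) := by
          rw [div_pow, div_pow, mul_pow, one_div, inv_pow, show (9 : ℝ) = 3 * 3 by norm_num, mul_pow]
          field_simp
          try ring
        rw [h7]
        have h8 : ((1 : ℝ) / 18) ^ (j + 1) = (1 / 2) ^ j * (1 / 9) ^ (j + 1) * (1 / 2) := by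
          rw [show (1 : ℝ) / 18 = 1 / 2 * (1 / 9) by norm_num, mul_pow]
          ring
        rw [h8]
        have h10 : 0 ≤ ((1 : ℝ) / 2) ^ j * (1 / 9) ^ (j + 1) := by positivity
        have h11 : ((1 : ℝ) / 2) ^ j * (1 / 9) ^ (j + 1) ≤ (ρ * U) ^ j * (1 / 9) ^ (j + 1) :=
          mul_le_mul_of_nonneg_right h (by positivity)
        linarith
    · have h5 : (ρ * U)⁻¹ * ((R : ℝ) / (m + t)) ^ (j + 1) * qq j (Real.log (1 + t / m))⁻¹ ≤
          (ρ * U)⁻¹ * ρ ^ (j + 1) * qq j U := by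
        have h6 := qq_mono j (by positivity) hu2
        have h7 : 0 ≤ qq j (Real.log (1 + t / m))⁻¹ :=
          le_trans (by positivity) (qq_ge1 j (by positivity : 0 ≤ (Real.log (1 + t / m))⁻¹))
        have h8 : ((R : ℝ) / (m + t)) ^ (j + 1) ≤ ρ ^ (j + 1) :=
          pow_le_pow_left₀ (by positivity) hrt2 _
        exact mul_le_mul (mul_le_mul_of_nonneg_left h8 (by positivity)) h6 h7 (by positivity)
      refine h5.trans ((up_bound j hρ0 hρ1 hU0 hρU).trans ?_)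
      rw [hC0]
      exact single_le_sum (f := sq) (fun i _ => sum_nonneg fun k _ => cq_nonneg _ _)
        (mem_range.2 (by omega))
  have hξ1 : 1 ≤ |kap m R * ω / (2 * Real.pi)| := by
    rw [abs_div, abs_mul, abs_of_pos hκ0, abs_of_pos (by positivity : 0 < 2 * Real.pi),
      le_div_iff₀ (by positivity)]
    linarith
  have hpi : (1 : ℝ) ≤ 2 * Real.pi := by have := Real.pi_gt_three; linarith
  have hξ2 : |kap m R * ω / (2 * Real.pi)| ≤ (R : ℝ) ^ 5 := by
    rw [abs_div, abs_mul, abs_of_pos hκ0, abs_of_pos (by positivity : 0 < 2 * Real.pi),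
      div_le_iff₀ (by positivity)]
    refine hk2.trans ?_
    have : (0 : ℝ) ≤ (R : ℝ) ^ 5 := by positivity
    nlinarith
  have h := hmain R L u (kap m R * ω / (2 * Real.pi)) (ph (kap m R) m) hR hRu hLR huL
    (fun k _ t ht => hasDerivAt_ph _ _ hm0 k t (by linarith [ht.1])) hbd hξ1 hξ2
  have h1 : ∑ n ∈ range L, Complex.exp (Complex.I *
        ((ω * Real.log (Real.log (1 + (u + n) / m)) : ℝ) : ℂ)) =
      ∑ n ∈ range L, Pool.Agent.H469R2.NK.e
        (kap m R * ω / (2 * Real.pi) * ph (kap m R) m 0 (u + n)) := by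
    refine sum_congr rfl fun n _ => ?_
    rw [Pool.Agent.H469R2.NK.e, mul_comm Complex.I]
    congr 3
    simp only [ph]
    have hpi0 : Real.pi ≠ 0 := Real.pi_ne_zero
    field_simp
  rw [h1]
  refine h.trans ?_
  have h2 : |kap m R * ω / (2 * Real.pi)| = kap m R * |ω| / (2 * Real.pi) := by
    rw [abs_div, abs_mul, abs_of_pos hκ0, abs_of_pos (by positivity : 0 < 2 * Real.pi)]
  have h3 : (R : ℝ) / |kap m R * ω / (2 * Real.pi)| = 2 * Real.pi * (R / (kap m R * |ω|)) := by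
    rw [h2, div_div_eq_mul_div]
    ring
  rw [h3]
  have h4 : 0 ≤ (R : ℝ) ^ (1 - η) := by positivity
  have h5 : 0 ≤ (R : ℝ) / (kap m R * |ω|) := by positivity
  have h6 : (R : ℝ) ^ (1 - η) ≤ 2 * Real.pi * (R : ℝ) ^ (1 - η) := le_mul_of_one_le_left h4 hpi
  calc C * ((R : ℝ) ^ (1 - η) + 2 * Real.pi * (R / (kap m R * |ω|)))
      ≤ C * (2 * Real.pi * (R : ℝ) ^ (1 - η) + 2 * Real.pi * (R / (kap m R * |ω|))) :=
        mul_le_mul_of_nonneg_left (by linarith) hC.le
    _ = 2 * Real.pi * C * ((R : ℝ) ^ (1 - η) + R / (kap m R * |ω|)) := by ring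

end

end Pool.Agent.N879.GD
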