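import Pool.Agent.N879.GD.Stm
import Pool.Agent.Y587.GP.V

/-!
Project GD (helper879), LEM (helper123): the Mellin transform of `|ζ|² - D0` with the weight `W`.
-/

set_option autoImplicit false

namespace Pool.Agent.N879.GD

open Complex Filter Topology MeasureTheory Set
open Pool.Agent.Y969.GP (ff V ht lam PS co PX)

noncomputable section

namespace Lem

/-- the Gamma integrals -/
lemma gam (s T : ℝ) (hs : -1 < s) (hT : 0 < T) :
    IntegrableOn (fun u : ℝ => u ^ s * Real.exp (-(u / T))) (Ioi 0) ∧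
    ∫ u in Ioi (0 : ℝ), u ^ s * Real.exp (-(u / T)) = T ^ (s + 1) * Real.Gamma (s + 1) := by
  have hT' : 0 < 1 / T := by positivity
  constructor
  · have h := integrableOn_rpow_mul_exp_neg_mul_rpow hs one_pos hT'
    refine h.congr_fun (fun u _ => ?_) measurableSet_Ioi
    simp only [Real.rpow_one]
    congr 2
    ring
  · have h := Real.integral_rpow_mul_exp_neg_mul_Ioi (a := s + 1) (r := 1 / T) (by linarith) hT'
    rw [one_div_one_div, add_sub_cancel_right] at h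
    rw [← h]
    refine setIntegral_congr_fun measurableSet_Ioi fun u _ => ?_
    congr 2
    ring

/-- three integrals -/
lemma int3 (k₁ k₂ k₃ : ℝ) {f₁ f₂ f₃ : ℝ → ℝ} (h₁ : IntegrableOn f₁ (Ioi 0))
    (h₂ : IntegrableOn f₂ (Ioi 0)) (h₃ : IntegrableOn f₃ (Ioi 0)) :
    IntegrableOn (fun u => k₁ * f₁ u + k₂ * f₂ u + k₃ * f₃ u) (Ioi 0) ∧
    ∫ u in Ioi (0 : ℝ), (k₁ * f₁ u + k₂ * f₂ u + k₃ * f₃ u) =
      k₁ * (∫ u in Ioi (0 : ℝ), f₁ u) + k₂ * (∫ u in Ioi (0 : ℝ), f₂ u) +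
        k₃ * ∫ u in Ioi (0 : ℝ), f₃ u := by
  have i1 : IntegrableOn (fun u => k₁ * f₁ u) (Ioi 0) := h₁.const_mul k₁
  have i2 : IntegrableOn (fun u => k₂ * f₂ u) (Ioi 0) := h₂.const_mul k₂
  have i3 : IntegrableOn (fun u => k₃ * f₃ u) (Ioi 0) := h₃.const_mul k₃
  have i12 : IntegrableOn (fun u => k₁ * f₁ u + k₂ * f₂ u) (Ioi 0) := i1.add i2
  refine ⟨i12.add i3, ?_⟩
  rw [integral_add i12 i3, integral_add i1 i2, integral_const_mul, integral_const_mul,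
    integral_const_mul]

lemma W_eq (a T u : ℝ) (hT : 0 < T) (hu : 0 < u) :
    W a T u = T ^ (-a) * (u ^ (a - 1) * Real.exp (-(u / T))) := by
  unfold W
  rw [Real.div_rpow hu.le hT.le, Real.rpow_neg hT.le, Real.rpow_sub hu, Real.rpow_one]
  field_simp

lemma W_nonneg (a T u : ℝ) (hT : 0 < T) (hu : 0 < u) : 0 ≤ W a T u := by
  unfold W
  positivity

lemma W_cont (a T : ℝ) (hT : 0 < T) : ContinuousOn (W a T) (Ioi 0) := by
  unfold W
  refine ContinuousOn.div (ContinuousOn.mul ?_ ?_) continuousOn_id fun u hu => (mem_Ioi.1 hu).ne'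
  · refine ContinuousOn.rpow_const (continuousOn_id.div_const _) fun u hu => Or.inl ?_
    have : 0 < u := hu
    have : 0 < id u / T := div_pos this hT
    exact this.ne'
  · exact (Real.continuous_exp.comp ((continuous_id.div_const T).neg)).continuousOn

lemma V_cont : ContinuousOn V (Ioi 0) := fun x hx =>
  (Pool.Agent.Y587.GP.V_deriv x hx).continuousAt.continuousWithinAt

lemma mem_PS {X : ℕ} {p : ℕ × ℕ} (h : p ∈ PS X) : 1 ≤ p.1 ∧ 1 ≤ p.2 := by
  unfold PS at h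
  rw [Finset.mem_filter, Finset.mem_product, Finset.mem_Icc, Finset.mem_Icc] at h
  exact ⟨h.1.1.1, h.1.2.1⟩

lemma ht_ge {X : ℕ} {p : ℕ × ℕ} (h : p ∈ PS X) : 1 ≤ ht p := by
  obtain ⟨h1, h2⟩ := mem_PS h
  have h1' : (1 : ℝ) ≤ p.1 := by exact_mod_cast h1
  have h2' : (1 : ℝ) ≤ p.2 := by exact_mod_cast h2
  unfold ht
  nlinarith

lemma co_cont {X : ℕ} {p : ℕ × ℕ} (h : p ∈ PS X) : ContinuousOn (co p) (Ioi 0) := by
  unfold co
  have h1 := ht_ge h
  refine continuousOn_const.mul ?_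
  refine V_cont.comp (continuousOn_const.div continuousOn_id fun u hu => (mem_Ioi.1 hu).ne') ?_
  intro u hu
  have hu' : 0 < u := hu
  have h2 : 0 < ht p := by linarith
  change 0 < 2 * Real.pi * ht p / u
  positivity

lemma co_le {X : ℕ} {p : ℕ × ℕ} (h : p ∈ PS X) (u : ℝ) : |co p u| ≤ 2 := by
  unfold co
  have h1 := ht_ge h
  have h2 := Pool.Agent.Y587.GP.V_nonneg (2 * Real.pi * ht p / u)
  have h3 := Pool.Agent.Y587.GP.V_le_one (2 * Real.pi * ht p / u)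
  have h4 : (√(ht p))⁻¹ ≤ 1 := inv_le_one_of_one_le₀ (Real.one_le_sqrt.2 h1)
  have h5 : 0 ≤ (√(ht p))⁻¹ := by positivity
  rw [abs_of_nonneg (by positivity)]
  calc 2 * (√(ht p))⁻¹ * V (2 * Real.pi * ht p / u) ≤ 2 * 1 * 1 := by gcongr
    _ = 2 := by norm_num

/-- the part off the diagonal -/
def off (X : ℕ) (u : ℝ) : ℂ := ∑ p ∈ (PS X).filter (fun p => p.1 ≠ p.2),
  (co p u : ℂ) * cexp (I * ((u * lam p : ℝ) : ℂ))

lemma norm_cexp (t : ℝ) : ‖cexp (I * (t : ℂ))‖ = 1 := by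
  rw [mul_comm]
  exact Complex.norm_exp_ofReal_mul_I t

lemma off_cont (X : ℕ) : ContinuousOn (off X) (Ioi 0) := by
  unfold off
  refine continuousOn_finsetSum _ fun p hp => ?_
  rw [Finset.mem_filter] at hp
  refine ContinuousOn.mul ?_ ?_
  · exact Complex.continuous_ofReal.comp_continuousOn (co_cont hp.1)
  · have : Continuous fun u : ℝ => cexp (I * ((u * lam p : ℝ) : ℂ)) := by fun_prop
    exact this.continuousOn

lemma off_le (X : ℕ) (u : ℝ) : ‖off X u‖ ≤ 2 * (X : ℝ) ^ 2 := by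
  unfold off
  have h1 : ∀ p ∈ (PS X).filter (fun p => p.1 ≠ p.2),
      ‖(co p u : ℂ) * cexp (I * ((u * lam p : ℝ) : ℂ))‖ ≤ 2 := by
    intro p hp
    rw [Finset.mem_filter] at hp
    rw [norm_mul, norm_cexp, mul_one, Complex.norm_real]
    exact co_le hp.1 u
  refine (norm_sum_le_of_le _ h1).trans ?_
  rw [Finset.sum_const, nsmul_eq_mul, mul_comm]
  refine mul_le_mul_of_nonneg_left ?_ (by norm_num)
  have h2 : ((PS X).filter (fun p => p.1 ≠ p.2)).card ≤ X ^ 2 := by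
    refine (Finset.card_filter_le _ _).trans ?_
    unfold PS
    refine (Finset.card_filter_le _ _).trans (le_of_eq ?_)
    rw [Finset.card_product, Nat.card_Icc, Nat.add_sub_cancel, sq]
  exact_mod_cast h2

/-- the splitting of the Dirichlet polynomial -/
lemma PX_eq (X : ℕ) (u : ℝ) : PX X u =
    ((∑ p ∈ (PS X).filter (fun p => p.1 = p.2), co p u : ℝ) : ℂ) + off X u := by
  unfold PX off
  rw [← Finset.sum_filter_add_sum_filter_not (PS X) (fun p => p.1 = p.2)]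
  congr 1
  push_cast
  refine Finset.sum_congr rfl fun p hp => ?_
  rw [Finset.mem_filter] at hp
  have : lam p = 0 := by
    unfold lam
    rw [hp.2, sub_self]
  rw [this, Complex.ofReal_zero, mul_zero, mul_zero, Complex.exp_zero, mul_one]

lemma D0_cont : ContinuousOn D0 (Ioi 0) := by
  unfold D0
  refine ContinuousOn.add (ContinuousOn.log (continuousOn_id.div_const _) fun u hu => ?_)
    continuousOn_const
  have h : 0 < u := hu
  have h2 : 0 < id u / (2 * Real.pi) := by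
    have := Real.pi_pos
    change 0 < u / (2 * Real.pi)
    positivity
  exact h2.ne'

/-- the constant of `D0` -/
def c0 : ℝ := |Real.log (2 * Real.pi)| + |2 * Real.eulerMascheroniConstant|

lemma c0_nonneg : 0 ≤ c0 := by unfold c0; positivity

lemma D0_le (u : ℝ) (hu : 0 < u) : |D0 u| ≤ |Real.log u| + c0 := by
  unfold D0 c0
  rw [Real.log_div hu.ne' (by have := Real.pi_pos; positivity)]
  have h1 := abs_add_le (Real.log u - Real.log (2 * Real.pi)) (2 * Real.eulerMascheroniConstant)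
  have h2 := abs_sub (Real.log u) (Real.log (2 * Real.pi))
  linarith

/-- crude bound for `ff - D0` -/
lemma crude {C : ℝ} {N : ℕ} (hC : 0 < C) (h : ∀ u : ℝ, 0 ≤ u → ff u ≤ C * (1 + u) ^ N) :
    (∀ u : ℝ, 0 < u → u ≤ 1 → |ff u - D0 u| ≤ (C * 2 ^ N + 1 + c0) * u ^ (-1 : ℝ)) ∧
    (∀ u : ℝ, 1 ≤ u → |ff u - D0 u| ≤ (C * 2 ^ N + 1 + c0) * u ^ ((N : ℝ) + 1)) := by
  have hff : ∀ u, 0 ≤ ff u := fun u => by unfold ff; positivity
  have hc := c0_nonneg
  constructor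
  · intro u hu hu1
    have h1 : ff u ≤ C * 2 ^ N := by
      refine (h u hu.le).trans ?_
      gcongr
      linarith
    have h2 := D0_le u hu
    have h3 : |Real.log u| ≤ u ^ (-1 : ℝ) := by
      rw [Real.rpow_neg_one, abs_of_nonpos (Real.log_nonpos hu.le hu1), ← Real.log_inv]
      exact (Real.log_le_sub_one_of_pos (inv_pos.2 hu)).trans (by linarith)
    have h4 : 1 ≤ u ^ (-1 : ℝ) := by
      rw [Real.rpow_neg_one]
      exact (one_le_inv₀ hu).2 hu1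
    have h5 : |ff u - D0 u| ≤ |ff u| + |D0 u| := abs_sub _ _
    rw [abs_of_nonneg (hff u)] at h5
    have h6 : 0 ≤ C * 2 ^ N := by positivity
    nlinarith
  · intro u hu
    have hu0 : 0 < u := by linarith
    have h1 : ff u ≤ C * 2 ^ N * u ^ ((N : ℝ) + 1) := by
      refine (h u hu0.le).trans ?_
      have e1 : (1 + u) ^ N ≤ (2 * u) ^ N := pow_le_pow_left₀ (by linarith) (by linarith) _
      have e2 : (u : ℝ) ^ N ≤ u ^ ((N : ℝ) + 1) := by
        rw [← Real.rpow_natCast]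
        exact Real.rpow_le_rpow_of_exponent_le hu (by linarith)
      rw [mul_pow] at e1
      calc C * (1 + u) ^ N ≤ C * (2 ^ N * u ^ N) := by gcongr
        _ ≤ C * (2 ^ N * u ^ ((N : ℝ) + 1)) := by gcongr
        _ = _ := by ring
    have h2 := D0_le u hu0
    have h4' : u ≤ u ^ ((N : ℝ) + 1) := by
      calc u = u ^ (1 : ℝ) := (Real.rpow_one u).symm
        _ ≤ _ := Real.rpow_le_rpow_of_exponent_le hu (by
          have : (0 : ℝ) ≤ N := Nat.cast_nonneg N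
          linarith)
    have h3 : |Real.log u| ≤ u ^ ((N : ℝ) + 1) := by
      rw [abs_of_nonneg (Real.log_nonneg hu)]
      exact (Real.log_le_sub_one_of_pos hu0).trans (by linarith)
    have h4 : 1 ≤ u ^ ((N : ℝ) + 1) := by linarith
    have h5 : |ff u - D0 u| ≤ |ff u| + |D0 u| := abs_sub _ _
    rw [abs_of_nonneg (hff u)] at h5
    nlinarith

/-- integrability -/
lemma intG {a : ℝ} (ha : 3 < a) {C : ℝ} {N : ℕ} (hC : 0 < C) (hcont : Continuous ff)
    (h : ∀ u : ℝ, 0 ≤ u → ff u ≤ C * (1 + u) ^ N) (T : ℝ) (hT : 0 < T) :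
    IntegrableOn (fun u => W a T u * (ff u - D0 u)) (Ioi 0) := by
  obtain ⟨h1, h2⟩ := crude hC h
  set c := C * 2 ^ N + 1 + c0 with hc
  have hc0 : 0 ≤ c := by
    have := c0_nonneg
    positivity
  have hN0 : (0 : ℝ) ≤ N := Nat.cast_nonneg N
  have g1 := (gam (a - 2) T (by linarith) hT).1
  have g2 := (gam (a + N) T (by linarith) hT).1
  have hg : IntegrableOn (fun u : ℝ => c * T ^ (-a) * (u ^ (a - 2) * Real.exp (-(u / T)) +
      u ^ (a + N) * Real.exp (-(u / T)))) (Ioi 0) := (g1.add g2).const_mul _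
  refine Integrable.mono' hg ?_ ?_
  · exact (ContinuousOn.mul (W_cont a T hT) (hcont.continuousOn.sub D0_cont)).aestronglyMeasurable
      measurableSet_Ioi
  · filter_upwards [ae_restrict_mem measurableSet_Ioi] with u hu
    have hu0 : 0 < u := hu
    rw [norm_mul, Real.norm_eq_abs, Real.norm_eq_abs, abs_of_nonneg (W_nonneg a T u hT hu0),
      W_eq a T u hT hu0]
    have hT0 : 0 ≤ T ^ (-a) := Real.rpow_nonneg hT.le _
    have hE0 : 0 ≤ Real.exp (-(u / T)) := (Real.exp_pos _).le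
    have hp : ∀ s : ℝ, 0 ≤ u ^ s := fun s => Real.rpow_nonneg hu0.le s
    have key : |ff u - D0 u| ≤ c * (u ^ (-1 : ℝ) + u ^ ((N : ℝ) + 1)) := by
      rcases le_total u 1 with h' | h'
      · have := h1 u hu0 h'
        have h3 := mul_nonneg hc0 (hp ((N : ℝ) + 1))
        linarith
      · have := h2 u h'
        have h3 := mul_nonneg hc0 (hp (-1))
        linarith
    have e1 : u ^ (a - 1) * u ^ (-1 : ℝ) = u ^ (a - 2) := by
      rw [← Real.rpow_add hu0]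
      congr 1
      ring
    have e2 : u ^ (a - 1) * u ^ ((N : ℝ) + 1) = u ^ (a + N) := by
      rw [← Real.rpow_add hu0]
      congr 1
      ring
    have hp1 := hp (a - 1)
    calc T ^ (-a) * (u ^ (a - 1) * Real.exp (-(u / T))) * |ff u - D0 u| ≤
        T ^ (-a) * (u ^ (a - 1) * Real.exp (-(u / T))) *
          (c * (u ^ (-1 : ℝ) + u ^ ((N : ℝ) + 1))) := by gcongr
      _ = c * T ^ (-a) * ((u ^ (a - 1) * u ^ (-1 : ℝ)) * Real.exp (-(u / T)) +
          (u ^ (a - 1) * u ^ ((N : ℝ) + 1)) * Real.exp (-(u / T))) := by ring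
      _ = _ := by rw [e1, e2]

/-- the pointwise bound -/
lemma ptb {a ε C₁ C₃ c T M : ℝ} {N X : ℕ} (ha : 3 < a) (hε0 : 0 < ε) (hε1 : ε ≤ 1 / 4)
    (hC₁ : 0 < C₁) (hC₃ : 0 < C₃) (hc : 0 ≤ c) (hT : 1 ≤ T) (hM : 0 ≤ M)
    (hX : T ^ (1 + ε) ≤ X)
    (hA : ∀ (u : ℝ) (X : ℕ), 1 ≤ u → u ^ (1 + ε / 4) ≤ X →
      ‖(ff u : ℂ) - PX X u‖ ≤ C₁ * u ^ (-(1 / 2) + ε / 4))
    (hD : ∀ (u : ℝ) (X : ℕ), 1 ≤ u → u ^ (1 + ε / 4) ≤ X →
      |∑ p ∈ (PS X).filter (fun p => p.1 = p.2), co p u - D0 u| ≤ C₃ * u ^ (-(1 / 2 : ℝ)))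
    (k1 : ∀ u : ℝ, 0 < u → u ≤ 1 → |ff u - D0 u| ≤ c * u ^ (-1 : ℝ))
    (k2 : ∀ u : ℝ, 1 ≤ u → |ff u - D0 u| ≤ c * u ^ ((N : ℝ) + 1)) (u : ℝ) (hu : 0 < u) :
    W a T u * ‖((ff u - D0 u : ℝ) : ℂ) - off X u‖ ≤
      T ^ (-a) * (c + 2 * (X : ℝ) ^ 2) * Real.exp 1 * (u ^ (0 : ℝ) * Real.exp (-(u / 1))) +
      (C₁ + C₃) * T ^ (-a) * (u ^ (a - 3 / 2 + ε / 4) * Real.exp (-(u / T))) +
      (c + 2) * (X : ℝ) ^ 2 * T ^ (-a - M * (1 + ε / 2)) *
        (u ^ (a + N + M) * Real.exp (-(u / T))) := by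
  have hT0 : 0 < T := by linarith
  have hX1 : (1 : ℝ) ≤ X := (Real.one_le_rpow hT (by linarith)).trans hX
  have hX2 : (1 : ℝ) ≤ (X : ℝ) ^ 2 := one_le_pow₀ hX1
  have hTa : 0 < T ^ (-a) := Real.rpow_pos_of_pos hT0 _
  have hW0 := W_nonneg a T u hT0 hu
  have hp : ∀ s : ℝ, 0 < u ^ s := fun s => Real.rpow_pos_of_pos hu s
  have hTp : ∀ s : ℝ, 0 < T ^ s := fun s => Real.rpow_pos_of_pos hT0 s
  have n1 : 0 ≤ T ^ (-a) * (c + 2 * (X : ℝ) ^ 2) * Real.exp 1 *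
      (u ^ (0 : ℝ) * Real.exp (-(u / 1))) := by
    have := hp 0
    positivity
  have n2 : 0 ≤ (C₁ + C₃) * T ^ (-a) * (u ^ (a - 3 / 2 + ε / 4) * Real.exp (-(u / T))) := by
    have := hp (a - 3 / 2 + ε / 4)
    positivity
  have n3 : 0 ≤ (c + 2) * (X : ℝ) ^ 2 * T ^ (-a - M * (1 + ε / 2)) *
        (u ^ (a + N + M) * Real.exp (-(u / T))) := by
    have := hp (a + N + M)
    have := hTp (-a - M * (1 + ε / 2))
    positivity
  have hoff := off_le X u
  have hH : ‖((ff u - D0 u : ℝ) : ℂ) - off X u‖ ≤ |ff u - D0 u| + 2 * (X : ℝ) ^ 2 := by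
    refine (norm_sub_le _ _).trans ?_
    rw [Complex.norm_real, Real.norm_eq_abs]
    linarith
  rcases lt_or_ge u 1 with hu1 | hu1
  · -- small u
    have e1 : ‖((ff u - D0 u : ℝ) : ℂ) - off X u‖ ≤ (c + 2 * (X : ℝ) ^ 2) * u ^ (-1 : ℝ) := by
      have h1 := k1 u hu hu1.le
      have h2 : 1 ≤ u ^ (-1 : ℝ) := by
        rw [Real.rpow_neg_one]
        exact (one_le_inv₀ hu).2 hu1.le
      nlinarith
    have e2 : W a T u ≤ T ^ (-a) * u ^ (a - 1) := by
      rw [W_eq a T u hT0 hu]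
      have h1 : Real.exp (-(u / T)) ≤ 1 := by
        rw [Real.exp_le_one_iff]
        have : 0 < u / T := div_pos hu hT0
        linarith
      have h2 := (hp (a - 1)).le
      calc T ^ (-a) * (u ^ (a - 1) * Real.exp (-(u / T))) ≤ T ^ (-a) * (u ^ (a - 1) * 1) := by
            gcongr
        _ = _ := by rw [mul_one]
    have e3 : u ^ (a - 1) * u ^ (-1 : ℝ) ≤ 1 := by
      rw [← Real.rpow_add hu]
      exact Real.rpow_le_one hu.le hu1.le (by linarith)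
    have e4 : 1 ≤ Real.exp 1 * (u ^ (0 : ℝ) * Real.exp (-(u / 1))) := by
      rw [Real.rpow_zero, one_mul, div_one, ← Real.exp_add]
      exact Real.one_le_exp (by linarith)
    have hcX : 0 ≤ c + 2 * (X : ℝ) ^ 2 := by positivity
    have hpa := (hp (a - 1)).le
    have hpn := (hp (-1)).le
    calc W a T u * ‖((ff u - D0 u : ℝ) : ℂ) - off X u‖ ≤
        (T ^ (-a) * u ^ (a - 1)) * ((c + 2 * (X : ℝ) ^ 2) * u ^ (-1 : ℝ)) := by
          refine mul_le_mul e2 e1 (norm_nonneg _) (by positivity)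
      _ = T ^ (-a) * (c + 2 * (X : ℝ) ^ 2) * (u ^ (a - 1) * u ^ (-1 : ℝ)) := by ring
      _ ≤ T ^ (-a) * (c + 2 * (X : ℝ) ^ 2) * 1 := by gcongr
      _ ≤ T ^ (-a) * (c + 2 * (X : ℝ) ^ 2) *
          (Real.exp 1 * (u ^ (0 : ℝ) * Real.exp (-(u / 1)))) := by gcongr
      _ = T ^ (-a) * (c + 2 * (X : ℝ) ^ 2) * Real.exp 1 *
          (u ^ (0 : ℝ) * Real.exp (-(u / 1))) := by ring
      _ ≤ _ := by linarith
  · rcases le_or_gt u (T ^ (1 + ε / 2)) with hu2 | hu2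
    · -- the main range
      have e1 : u ^ (1 + ε / 4) ≤ X := by
        calc u ^ (1 + ε / 4) ≤ (T ^ (1 + ε / 2)) ^ (1 + ε / 4) :=
              Real.rpow_le_rpow hu.le hu2 (by linarith)
          _ = T ^ ((1 + ε / 2) * (1 + ε / 4)) := by rw [← Real.rpow_mul hT0.le]
          _ ≤ T ^ (1 + ε) := Real.rpow_le_rpow_of_exponent_le hT (by nlinarith)
          _ ≤ X := hX
      have e2 := hA u X hu1 e1
      have e3 := hD u X hu1 e1
      have e4 : ((ff u - D0 u : ℝ) : ℂ) - off X u = ((ff u : ℂ) - PX X u) +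
          ((∑ p ∈ (PS X).filter (fun p => p.1 = p.2), co p u - D0 u : ℝ) : ℂ) := by
        rw [PX_eq]
        push_cast
        ring
      have e5 : u ^ (-(1 / 2 : ℝ)) ≤ u ^ (-(1 / 2) + ε / 4) :=
        Real.rpow_le_rpow_of_exponent_le hu1 (by linarith)
      have e6 : ‖((ff u - D0 u : ℝ) : ℂ) - off X u‖ ≤ (C₁ + C₃) * u ^ (-(1 / 2) + ε / 4) := by
        rw [e4]
        refine (norm_add_le _ _).trans ?_
        rw [Complex.norm_real, Real.norm_eq_abs]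
        have := mul_le_mul_of_nonneg_left e5 hC₃.le
        linarith
      have e7 : u ^ (a - 1) * u ^ (-(1 / 2) + ε / 4) = u ^ (a - 3 / 2 + ε / 4) := by
        rw [← Real.rpow_add hu]
        congr 1
        ring
      calc W a T u * ‖((ff u - D0 u : ℝ) : ℂ) - off X u‖ ≤
          W a T u * ((C₁ + C₃) * u ^ (-(1 / 2) + ε / 4)) := mul_le_mul_of_nonneg_left e6 hW0
        _ = (C₁ + C₃) * T ^ (-a) * ((u ^ (a - 1) * u ^ (-(1 / 2) + ε / 4)) *
            Real.exp (-(u / T))) := by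
            rw [W_eq a T u hT0 hu]
            ring
        _ = (C₁ + C₃) * T ^ (-a) * (u ^ (a - 3 / 2 + ε / 4) * Real.exp (-(u / T))) := by rw [e7]
        _ ≤ _ := by linarith
    · -- large u
      have h1 := k2 u hu1
      have h2 : 1 ≤ u ^ ((N : ℝ) + 1) := Real.one_le_rpow hu1 (by positivity)
      have e1 : ‖((ff u - D0 u : ℝ) : ℂ) - off X u‖ ≤ (c + 2) * (X : ℝ) ^ 2 *
          u ^ ((N : ℝ) + 1) := by
        have h3 : c * u ^ ((N : ℝ) + 1) ≤ c * (X : ℝ) ^ 2 * u ^ ((N : ℝ) + 1) := by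
          have : c ≤ c * (X : ℝ) ^ 2 := by nlinarith
          gcongr
        have h4 : 2 * (X : ℝ) ^ 2 ≤ 2 * (X : ℝ) ^ 2 * u ^ ((N : ℝ) + 1) := by
          have : 0 ≤ 2 * (X : ℝ) ^ 2 := by positivity
          nlinarith
        linarith
      have e2 : 1 ≤ T ^ (-(M * (1 + ε / 2))) * u ^ M := by
        rw [Real.rpow_neg hT0.le, inv_mul_eq_div, one_le_div (hTp _), mul_comm M,
          Real.rpow_mul hT0.le]
        exact Real.rpow_le_rpow (hTp _).le hu2.le hM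
      have e7 : u ^ (a - 1) * u ^ ((N : ℝ) + 1) * u ^ M = u ^ (a + N + M) := by
        rw [← Real.rpow_add hu, ← Real.rpow_add hu]
        congr 1
        ring
      have e8 : T ^ (-a) * T ^ (-(M * (1 + ε / 2))) = T ^ (-a - M * (1 + ε / 2)) := by
        rw [← Real.rpow_add hT0]
        congr 1
      have hc2 : 0 ≤ (c + 2) * (X : ℝ) ^ 2 := by positivity
      have q1 := (hp (a - 1)).le
      have q2 := (hp ((N : ℝ) + 1)).le
      calc W a T u * ‖((ff u - D0 u : ℝ) : ℂ) - off X u‖ ≤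
          W a T u * ((c + 2) * (X : ℝ) ^ 2 * u ^ ((N : ℝ) + 1)) :=
            mul_le_mul_of_nonneg_left e1 hW0
        _ = (c + 2) * (X : ℝ) ^ 2 * (T ^ (-a) * (u ^ (a - 1) * u ^ ((N : ℝ) + 1) *
            Real.exp (-(u / T)))) * 1 := by
            rw [W_eq a T u hT0 hu]
            ring
        _ ≤ (c + 2) * (X : ℝ) ^ 2 * (T ^ (-a) * (u ^ (a - 1) * u ^ ((N : ℝ) + 1) *
            Real.exp (-(u / T)))) * (T ^ (-(M * (1 + ε / 2))) * u ^ M) := by
            refine mul_le_mul_of_nonneg_left e2 (by positivity)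
        _ = (c + 2) * (X : ℝ) ^ 2 * (T ^ (-a) * T ^ (-(M * (1 + ε / 2)))) *
            ((u ^ (a - 1) * u ^ ((N : ℝ) + 1) * u ^ M) * Real.exp (-(u / T))) := by ring
        _ = (c + 2) * (X : ℝ) ^ 2 * T ^ (-a - M * (1 + ε / 2)) *
            (u ^ (a + N + M) * Real.exp (-(u / T))) := by rw [e7, e8]
        _ ≤ _ := by linarith

end Lem

open Lem

/-- LEM -/
theorem t_LEM (h1 : Pool.Agent.Y969.GP.S_AFE) (h2 : S_OFI) (h3 : S_DIA) (h4 : S_CRU) : S_LEM := by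
  obtain ⟨a, ε, δ, ha, hε0, hε1, hδ0, hδ1, C₂, T₂, hC₂, hT₂, hO⟩ := h2
  obtain ⟨C₁, hC₁, hA⟩ := h1 (ε / 4) (by positivity)
  obtain ⟨C₃, hC₃, hD⟩ := h3 (ε / 4) (by positivity)
  obtain ⟨C₄, N, hC₄, hcont, hcr, _⟩ := h4
  obtain ⟨k1, k2⟩ := crude hC₄ hcr
  obtain ⟨c, hcdef⟩ : ∃ c, c = C₄ * 2 ^ N + 1 + c0 := ⟨_, rfl⟩
  rw [← hcdef] at k1 k2
  have hc : 0 ≤ c := by
    have := c0_nonneg
    rw [hcdef]
    positivity
  have hN0 : (0 : ℝ) ≤ N := Nat.cast_nonneg N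
  obtain ⟨M, hM⟩ : ∃ M : ℝ, M = 2 * (N + 4) / ε := ⟨_, rfl⟩
  have hM0 : 0 ≤ M := by rw [hM]; positivity
  have hMε : M * (ε / 2) = N + 4 := by
    rw [hM]
    field_simp
  have hΓ₁ : 0 < Real.Gamma (a - 3 / 2 + ε / 4 + 1) := Real.Gamma_pos_of_pos (by linarith)
  have hΓ₂ : 0 < Real.Gamma (a + N + M + 1) := Real.Gamma_pos_of_pos (by linarith)
  refine ⟨a, min δ (1 / 4), ha, lt_min hδ0 (by norm_num), (min_le_left _ _).trans hδ1,
    C₂ + (c + 8) * Real.exp 1 + (C₁ + C₃) * Real.Gamma (a - 3 / 2 + ε / 4 + 1) +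
      4 * (c + 2) * Real.Gamma (a + N + M + 1), T₂, by positivity, hT₂,
    fun T hT => ⟨intG ha hC₄ hcont hcr T (by linarith), fun τ => ?_⟩⟩
  have hT1 : 1 ≤ T := hT₂.trans hT
  have hT0 : 0 < T := by linarith
  have hTp : ∀ s : ℝ, 0 < T ^ s := fun s => Real.rpow_pos_of_pos hT0 s
  obtain ⟨X, hXdef⟩ : ∃ X : ℕ, X = ⌈T ^ (1 + ε)⌉₊ := ⟨_, rfl⟩
  have hX1 : T ^ (1 + ε) ≤ X := by rw [hXdef]; exact Nat.le_ceil _
  have hX2 : (X : ℝ) ≤ 2 * T ^ (1 + ε) := by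
    have e1 := Nat.ceil_lt_add_one (hTp (1 + ε)).le
    rw [← hXdef] at e1
    have e2 : 1 ≤ T ^ (1 + ε) := Real.one_le_rpow hT1 (by linarith)
    linarith
  have hXX : (X : ℝ) ^ 2 ≤ 4 * T ^ (2 + 2 * ε) := by
    have e1 : (X : ℝ) ^ 2 ≤ (2 * T ^ (1 + ε)) ^ 2 := pow_le_pow_left₀ (Nat.cast_nonneg _) hX2 2
    have e2 : (2 * T ^ (1 + ε)) ^ 2 = 4 * T ^ (2 + 2 * ε) := by
      rw [mul_pow, ← Real.rpow_natCast (T ^ (1 + ε)) 2, ← Real.rpow_mul hT0.le]
      norm_num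
      congr 1
      ring
    linarith
  have hOT := hO T τ X hT hX1 hX2
  -- the splitting
  set E : ℝ → ℂ := fun u => cexp (-(I * ((τ * Real.log u : ℝ) : ℂ))) with hE
  have hEn : ∀ u, ‖E u‖ = 1 := by
    intro u
    have : E u = cexp (I * ((-(τ * Real.log u) : ℝ) : ℂ)) := by
      rw [hE]
      simp only
      congr 1
      push_cast
      ring
    rw [this]
    exact norm_cexp _
  have hEc : ContinuousOn E (Ioi 0) := by
    rw [hE]
    refine Complex.continuous_exp.comp_continuousOn (ContinuousOn.neg (continuousOn_const.mul ?_))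
    refine Complex.continuous_ofReal.comp_continuousOn (continuousOn_const.mul ?_)
    exact Real.continuousOn_log.mono fun u hu => (mem_Ioi.1 hu).ne'
  set B : ℝ → ℝ := fun u =>
      T ^ (-a) * (c + 2 * (X : ℝ) ^ 2) * Real.exp 1 * (u ^ (0 : ℝ) * Real.exp (-(u / 1))) +
      (C₁ + C₃) * T ^ (-a) * (u ^ (a - 3 / 2 + ε / 4) * Real.exp (-(u / T))) +
      (c + 2) * (X : ℝ) ^ 2 * T ^ (-a - M * (1 + ε / 2)) *
        (u ^ (a + N + M) * Real.exp (-(u / T))) with hB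
  obtain ⟨g1, g1'⟩ := gam 0 1 (by norm_num) one_pos
  obtain ⟨g2, g2'⟩ := gam (a - 3 / 2 + ε / 4) T (by linarith) hT0
  obtain ⟨g3, g3'⟩ := gam (a + N + M) T (by linarith) hT0
  obtain ⟨hBi', hBv'⟩ := int3 (T ^ (-a) * (c + 2 * (X : ℝ) ^ 2) * Real.exp 1)
    ((C₁ + C₃) * T ^ (-a)) ((c + 2) * (X : ℝ) ^ 2 * T ^ (-a - M * (1 + ε / 2))) g1 g2 g3
  have hBi : IntegrableOn B (Ioi 0) := hBi'
  have hBv : ∫ u in Ioi (0 : ℝ), B u =
      T ^ (-a) * (c + 2 * (X : ℝ) ^ 2) * Real.exp 1 * (1 ^ ((0 : ℝ) + 1) * Real.Gamma (0 + 1)) +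
      (C₁ + C₃) * T ^ (-a) * (T ^ (a - 3 / 2 + ε / 4 + 1) * Real.Gamma (a - 3 / 2 + ε / 4 + 1)) +
      (c + 2) * (X : ℝ) ^ 2 * T ^ (-a - M * (1 + ε / 2)) *
        (T ^ (a + N + M + 1) * Real.Gamma (a + N + M + 1)) := by
    rw [← g1', ← g2', ← g3']
    exact hBv'
  have hHb : ∀ u ∈ Ioi (0 : ℝ), ‖(W a T u : ℂ) * (((ff u - D0 u : ℝ) : ℂ) - off X u) * E u‖ ≤
      B u := by
    intro u hu
    have hu0 : 0 < u := hu
    rw [norm_mul, hEn, mul_one, norm_mul, Complex.norm_real, Real.norm_eq_abs,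
      abs_of_nonneg (W_nonneg a T u hT0 hu0)]
    exact ptb ha hε0 hε1 hC₁ hC₃ hc hT1 hM0 hX1 hA hD k1 k2 u hu0
  have hWc : ContinuousOn (fun u => (W a T u : ℂ)) (Ioi 0) :=
    Complex.continuous_ofReal.comp_continuousOn (W_cont a T hT0)
  have hfc : ContinuousOn (fun u => ((ff u - D0 u : ℝ) : ℂ)) (Ioi 0) :=
    Complex.continuous_ofReal.comp_continuousOn (hcont.continuousOn.sub D0_cont)
  have hHi : IntegrableOn (fun u => (W a T u : ℂ) * (((ff u - D0 u : ℝ) : ℂ) - off X u) * E u)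
      (Ioi 0) := by
    refine Integrable.mono' hBi ?_ ?_
    · exact ((hWc.mul (hfc.sub (off_cont X))).mul hEc).aestronglyMeasurable measurableSet_Ioi
    · filter_upwards [ae_restrict_mem measurableSet_Ioi] with u hu
      exact hHb u hu
  have hWi : IntegrableOn (W a T) (Ioi 0) := by
    have g := (gam (a - 1) T (by linarith) hT0).1.const_mul (T ^ (-a))
    exact IntegrableOn.congr_fun g (fun u hu => (W_eq a T u hT0 hu).symm) measurableSet_Ioi
  have hOi : IntegrableOn (fun u => (W a T u : ℂ) * off X u * E u) (Ioi 0) := by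
    refine Integrable.mono' (hWi.mul_const (2 * (X : ℝ) ^ 2)) ?_ ?_
    · exact ((hWc.mul (off_cont X)).mul hEc).aestronglyMeasurable measurableSet_Ioi
    · filter_upwards [ae_restrict_mem measurableSet_Ioi] with u hu
      rw [norm_mul, hEn, mul_one, norm_mul, Complex.norm_real, Real.norm_eq_abs,
        abs_of_nonneg (W_nonneg a T u hT0 hu)]
      exact mul_le_mul_of_nonneg_left (off_le X u) (W_nonneg a T u hT0 hu)
  have hsplit : ∫ u in Ioi (0 : ℝ), ((W a T u * (ff u - D0 u) : ℝ) : ℂ) * E u =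
      (∫ u in Ioi (0 : ℝ), (W a T u : ℂ) * off X u * E u) +
      ∫ u in Ioi (0 : ℝ), (W a T u : ℂ) * (((ff u - D0 u : ℝ) : ℂ) - off X u) * E u := by
    rw [← integral_add hOi hHi]
    refine integral_congr_ae (Eventually.of_forall fun u => ?_)
    simp only
    push_cast
    ring
  rw [hsplit]
  have hH2 : ‖∫ u in Ioi (0 : ℝ), (W a T u : ℂ) * (((ff u - D0 u : ℝ) : ℂ) - off X u) * E u‖ ≤
      ∫ u in Ioi (0 : ℝ), B u := by
    refine norm_integral_le_of_norm_le hBi ?_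
    filter_upwards [ae_restrict_mem measurableSet_Ioi] with u hu
    exact hHb u hu
  have hO2 : ‖∫ u in Ioi (0 : ℝ), (W a T u : ℂ) * off X u * E u‖ ≤ C₂ * T ^ (-δ) := hOT
  refine (norm_add_le _ _).trans ((add_le_add hO2 hH2).trans ?_)
  rw [hBv]
  -- the exponents
  obtain ⟨δ', hδ'⟩ : ∃ d, d = min δ (1 / 4) := ⟨_, rfl⟩
  rw [← hδ']
  have hd1 : δ' ≤ δ := by rw [hδ']; exact min_le_left _ _
  have hd2 : δ' ≤ 1 / 4 := by rw [hδ']; exact min_le_right _ _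
  have x1 : T ^ (-δ) ≤ T ^ (-δ') := Real.rpow_le_rpow_of_exponent_le hT1 (by linarith)
  have x2 : T ^ (-a) * (c + 2 * (X : ℝ) ^ 2) ≤ (c + 8) * T ^ (-δ') := by
    have y1 : T ^ (-a) ≤ T ^ (-δ') := Real.rpow_le_rpow_of_exponent_le hT1 (by linarith)
    have y2 : T ^ (-a) * T ^ (2 + 2 * ε) ≤ T ^ (-δ') := by
      rw [← Real.rpow_add hT0]
      exact Real.rpow_le_rpow_of_exponent_le hT1 (by linarith)
    calc T ^ (-a) * (c + 2 * (X : ℝ) ^ 2) ≤ T ^ (-a) * (c + 2 * (4 * T ^ (2 + 2 * ε))) := by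
          have := (hTp (-a)).le
          gcongr
      _ = c * T ^ (-a) + 8 * (T ^ (-a) * T ^ (2 + 2 * ε)) := by ring
      _ ≤ c * T ^ (-δ') + 8 * T ^ (-δ') := by gcongr
      _ = _ := by ring
  have x3 : T ^ (-a) * T ^ (a - 3 / 2 + ε / 4 + 1) ≤ T ^ (-δ') := by
    rw [← Real.rpow_add hT0]
    exact Real.rpow_le_rpow_of_exponent_le hT1 (by linarith)
  have x4 : (X : ℝ) ^ 2 * (T ^ (-a - M * (1 + ε / 2)) * T ^ (a + N + M + 1)) ≤
      4 * T ^ (-δ') := by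
    have y1 : T ^ (-a - M * (1 + ε / 2)) * T ^ (a + N + M + 1) = T ^ (-3 : ℝ) := by
      rw [← Real.rpow_add hT0]
      congr 1
      linarith
    rw [y1]
    calc (X : ℝ) ^ 2 * T ^ (-3 : ℝ) ≤ 4 * T ^ (2 + 2 * ε) * T ^ (-3 : ℝ) := by
          have := (hTp (-3)).le
          gcongr
      _ = 4 * (T ^ (2 + 2 * ε) * T ^ (-3 : ℝ)) := by ring
      _ ≤ 4 * T ^ (-δ') := by
          rw [← Real.rpow_add hT0]
          have := Real.rpow_le_rpow_of_exponent_le hT1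
            (show 2 + 2 * ε + -3 ≤ -δ' by linarith)
          linarith
  have hG1 : Real.Gamma (0 + 1) = 1 := by rw [zero_add, Real.Gamma_one]
  rw [hG1, Real.one_rpow, mul_one, mul_one]
  have z1 : C₂ * T ^ (-δ) ≤ C₂ * T ^ (-δ') := mul_le_mul_of_nonneg_left x1 hC₂.le
  have z2 : T ^ (-a) * (c + 2 * (X : ℝ) ^ 2) * Real.exp 1 ≤
      (c + 8) * T ^ (-δ') * Real.exp 1 := mul_le_mul_of_nonneg_right x2 (Real.exp_pos _).le
  have z3 : (C₁ + C₃) * T ^ (-a) * (T ^ (a - 3 / 2 + ε / 4 + 1) *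
      Real.Gamma (a - 3 / 2 + ε / 4 + 1)) ≤
      (C₁ + C₃) * Real.Gamma (a - 3 / 2 + ε / 4 + 1) * T ^ (-δ') := by
    calc _ = (C₁ + C₃) * Real.Gamma (a - 3 / 2 + ε / 4 + 1) *
        (T ^ (-a) * T ^ (a - 3 / 2 + ε / 4 + 1)) := by ring
      _ ≤ _ := mul_le_mul_of_nonneg_left x3 (by positivity)
  have z4 : (c + 2) * (X : ℝ) ^ 2 * T ^ (-a - M * (1 + ε / 2)) *
        (T ^ (a + N + M + 1) * Real.Gamma (a + N + M + 1)) ≤
      4 * (c + 2) * Real.Gamma (a + N + M + 1) * T ^ (-δ') := by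
    calc _ = (c + 2) * Real.Gamma (a + N + M + 1) *
        ((X : ℝ) ^ 2 * (T ^ (-a - M * (1 + ε / 2)) * T ^ (a + N + M + 1))) := by ring
      _ ≤ (c + 2) * Real.Gamma (a + N + M + 1) * (4 * T ^ (-δ')) :=
          mul_le_mul_of_nonneg_left x4 (by positivity)
      _ = _ := by ring
  calc _ ≤ C₂ * T ^ (-δ') + ((c + 8) * T ^ (-δ') * Real.exp 1 +
      (C₁ + C₃) * Real.Gamma (a - 3 / 2 + ε / 4 + 1) * T ^ (-δ') +
      4 * (c + 2) * Real.Gamma (a + N + M + 1) * T ^ (-δ')) :=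
        add_le_add z1 (add_le_add (add_le_add z2 z3) z4)
    _ = _ := by ring

end

end Pool.Agent.N879.GD
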