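import Pool.Agent.N879.GD.Stm

set_option autoImplicit false

/-!
Project GD: change of the weight by Fourier inversion.
-/

namespace Pool.Agent.N879.GD

open Complex Filter Topology MeasureTheory Set
open Pool.Agent.Y969.GP (ff V ht lam PS co PX)
open scoped FourierTransform ContDiff

namespace Lew

/-- the weight in logarithmic coordinates -/
noncomputable def hw (a : ℝ) (w : ℝ → ℝ) (v : ℝ) : ℂ :=
  ((w (Real.exp v) * Real.exp (-(a * v)) * Real.exp (Real.exp v) : ℝ) : ℂ)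

theorem hw_smooth {a : ℝ} {w : ℝ → ℝ} (hw' : ContDiff ℝ ∞ w) : ContDiff ℝ ∞ (hw a w) := by
  have h1 : ContDiff ℝ ∞ (fun v : ℝ => w (Real.exp v) * Real.exp (-(a * v)) *
      Real.exp (Real.exp v)) := by
    refine ((hw'.comp Real.contDiff_exp).mul ?_).mul (Real.contDiff_exp.comp Real.contDiff_exp)
    exact Real.contDiff_exp.comp (contDiff_const.mul contDiff_id).neg
  exact Complex.ofRealCLM.contDiff.comp h1

theorem hw_supp {a : ℝ} {w : ℝ → ℝ} (hc : HasCompactSupport w) (hs : tsupport w ⊆ Ioi 0) :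
    HasCompactSupport (hw a w) := by
  have hK : IsCompact (Real.log '' tsupport w) := by
    refine IsCompact.image_of_continuousOn hc ?_
    exact Real.continuousOn_log.mono fun x hx => (hs hx).ne'
  refine HasCompactSupport.intro hK fun v hv => ?_
  have h1 : Real.exp v ∉ tsupport w := fun h => hv ⟨Real.exp v, h, Real.log_exp v⟩
  have h2 : w (Real.exp v) = 0 := image_eq_zero_of_notMem_tsupport h1
  rw [hw, h2, zero_mul, zero_mul, Complex.ofReal_zero]

theorem hw_inv {a : ℝ} {w : ℝ → ℝ} (hw' : ContDiff ℝ ∞ w) (hc : HasCompactSupport w)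
    (hs : tsupport w ⊆ Ioi 0) : ∃ g : ℝ → ℂ, Integrable g ∧
      ∀ v, hw a w v = ∫ ξ : ℝ, cexp (((2 * Real.pi * (ξ * v) : ℝ) : ℂ) * I) * g ξ := by
  set f : SchwartzMap ℝ ℂ := (hw_supp (a := a) hc hs).toSchwartzMap (hw_smooth hw') with hf
  have hfv : ∀ v, f v = hw a w v := fun v => rfl
  refine ⟨fun ξ => (𝓕 f : SchwartzMap ℝ ℂ) ξ, (𝓕 f).integrable, fun v => ?_⟩
  have h1 : Integrable (𝓕 (f : ℝ → ℂ)) := by
    rw [← SchwartzMap.fourier_coe]
    exact (𝓕 f).integrable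
  have h2 := Continuous.fourierInv_fourier_eq f.continuous f.integrable h1
  have h3 := congrFun h2 v
  rw [Real.fourierInv_eq'] at h3
  rw [← hfv, ← h3]
  refine integral_congr_ae (ae_of_all _ fun ξ => ?_)
  simp only [smul_eq_mul]
  congr 2
  · congr 3
    simp [mul_comm]

theorem weight {a T u : ℝ} (hT : 0 < T) (hu : 0 < u) (w : ℝ → ℝ) (z : ℝ) :
    ((w (u / T) * z / u : ℝ) : ℂ) =
      ((W a T u * z : ℝ) : ℂ) * hw a w (Real.log u - Real.log T) := by
  have huT : 0 < u / T := div_pos hu hT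
  have h1 : Real.exp (Real.log u - Real.log T) = u / T := by
    rw [← Real.log_div hu.ne' hT.ne', Real.exp_log huT]
  rw [hw, h1, W, ← Complex.ofReal_mul]
  congr 1
  have h2 : (u / T) ^ a * Real.exp (-(a * (Real.log u - Real.log T))) = 1 := by
    rw [Real.rpow_def_of_pos huT, ← Real.exp_add, Real.log_div hu.ne' hT.ne']
    rw [show (Real.log u - Real.log T) * a + -(a * (Real.log u - Real.log T)) = 0 by ring,
      Real.exp_zero]
  have h3 : Real.exp (-(u / T)) * Real.exp (u / T) = 1 := by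
    rw [← Real.exp_add, neg_add_cancel, Real.exp_zero]
  calc w (u / T) * z / u = w (u / T) * z / u * ((u / T) ^ a *
        Real.exp (-(a * (Real.log u - Real.log T)))) * (Real.exp (-(u / T)) *
        Real.exp (u / T)) := by rw [h2, h3]; ring
    _ = _ := by ring

end Lew

open Lew in
/-- change of the weight -/
theorem t_LEW (h : S_LEM) : S_LEW := by
  obtain ⟨a, δ, ha, hδ0, hδ1, C, T₀, hC, hT₀, hmain⟩ := h
  refine ⟨δ, hδ0, hδ1, fun w hw' hc hs => ?_⟩
  obtain ⟨g, hg, hinv⟩ := hw_inv (a := a) hw' hc hs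
  have hgn : 0 ≤ ∫ ξ, ‖g ξ‖ := integral_nonneg fun _ => norm_nonneg _
  refine ⟨(∫ ξ, ‖g ξ‖) * C + 1, T₀, by positivity, hT₀, fun T τ hT => ?_⟩
  obtain ⟨hint, hbd⟩ := hmain T hT
  have hT0 : 0 < T := by linarith
  have hTδ : 0 ≤ T ^ (-δ) := Real.rpow_nonneg hT0.le _
  set A : ℝ → ℂ := fun u => ((W a T u * (ff u - D0 u) : ℝ) : ℂ) with hA
  have hAi : Integrable A (volume.restrict (Ioi 0)) := hint.ofReal
  set ph : ℝ → ℝ → ℂ := fun u ξ =>
    cexp (((2 * Real.pi * (ξ * (Real.log u - Real.log T)) : ℝ) : ℂ) * I) *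
      cexp (-(I * ((τ * Real.log u : ℝ) : ℂ))) with hph
  have hphn : ∀ u ξ, ‖ph u ξ‖ = 1 := by
    intro u ξ
    rw [hph]
    simp only
    have e : -(I * ((τ * Real.log u : ℝ) : ℂ)) = ((-(τ * Real.log u) : ℝ) : ℂ) * I := by
      push_cast
      ring
    rw [norm_mul, e, norm_exp_ofReal_mul_I, norm_exp_ofReal_mul_I, mul_one]
  have hphm : Measurable (Function.uncurry ph) := by
    rw [hph]
    unfold Function.uncurry
    simp only
    fun_prop
  set Φ : ℝ → ℝ → ℂ := fun u ξ => ph u ξ * (A u * g ξ) with hΦ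
  have hΦi : Integrable (Function.uncurry Φ) ((volume.restrict (Ioi 0)).prod volume) := by
    have h1 : Integrable (fun z : ℝ × ℝ => A z.1 * g z.2)
        ((volume.restrict (Ioi 0)).prod volume) := hAi.mul_prod hg
    have h2 : Integrable (fun z : ℝ × ℝ => (Function.uncurry ph) z * (A z.1 * g z.2))
        ((volume.restrict (Ioi 0)).prod volume) := by
      refine h1.bdd_mul (c := 1) hphm.aestronglyMeasurable (ae_of_all _ fun z => ?_)
      exact (hphn z.1 z.2).le
    exact h2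
  have e1 : ∫ u in Ioi (0 : ℝ), ((w (u / T) * (ff u - D0 u) / u : ℝ) : ℂ) *
      cexp (-(I * ((τ * Real.log u : ℝ) : ℂ))) = ∫ u in Ioi (0 : ℝ), ∫ ξ, Φ u ξ := by
    refine setIntegral_congr_fun measurableSet_Ioi fun u hu => ?_
    rw [weight (a := a) hT0 hu, hinv, mul_assoc, ← integral_mul_const, ← integral_const_mul]
    refine integral_congr_ae (ae_of_all _ fun ξ => ?_)
    simp only [hΦ, hph, hA]
    ring
  have e2 : ∀ ξ, ∫ u in Ioi (0 : ℝ), Φ u ξ =
      g ξ * cexp (-(((2 * Real.pi * (ξ * Real.log T) : ℝ) : ℂ) * I)) *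
      ∫ u in Ioi (0 : ℝ), ((W a T u * (ff u - D0 u) : ℝ) : ℂ) *
        cexp (-(I * (((τ - 2 * Real.pi * ξ) * Real.log u : ℝ) : ℂ))) := by
    intro ξ
    rw [← integral_const_mul]
    refine integral_congr_ae (ae_of_all _ fun u => ?_)
    simp only [hΦ, hph, hA]
    have e3 : cexp (((2 * Real.pi * (ξ * (Real.log u - Real.log T)) : ℝ) : ℂ) * I) *
        cexp (-(I * ((τ * Real.log u : ℝ) : ℂ))) =
        cexp (-(((2 * Real.pi * (ξ * Real.log T) : ℝ) : ℂ) * I)) *
        cexp (-(I * (((τ - 2 * Real.pi * ξ) * Real.log u : ℝ) : ℂ))) := by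
      rw [← Complex.exp_add, ← Complex.exp_add]
      congr 1
      push_cast
      ring
    rw [e3]
    ring
  rw [e1, integral_integral_swap hΦi]
  have h3 : ‖∫ ξ, ∫ u in Ioi (0 : ℝ), Φ u ξ‖ ≤ ∫ ξ, ‖g ξ‖ * (C * T ^ (-δ)) := by
    refine norm_integral_le_of_norm_le (hg.norm.mul_const _) (ae_of_all _ fun ξ => ?_)
    rw [e2 ξ, norm_mul, norm_mul]
    have e4 : ‖cexp (-(((2 * Real.pi * (ξ * Real.log T) : ℝ) : ℂ) * I))‖ = 1 := by
      rw [← neg_mul, ← Complex.ofReal_neg, norm_exp_ofReal_mul_I]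
    rw [e4, mul_one]
    gcongr
    exact hbd (τ - 2 * Real.pi * ξ)
  rw [integral_mul_const] at h3
  calc _ ≤ (∫ ξ, ‖g ξ‖) * (C * T ^ (-δ)) := h3
    _ ≤ ((∫ ξ, ‖g ξ‖) * C + 1) * T ^ (-δ) := by nlinarith

end Pool.Agent.N879.GD
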