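import Pool.Agent.N879.GD.Int

set_option autoImplicit false

/-!
Project GD: balls around bad parameters are bad (helper407).
-/

namespace Pool.Agent.N879.GD

open Complex Filter Topology MeasureTheory Set
open Pool.Agent.Y969.GP (ff)

namespace Lip

lemma prod_diff {ι : Type} (s : Finset ι) (a b : ι → ℝ) {M d : ℝ} (hM : 1 ≤ M)
    (ha : ∀ j ∈ s, |a j| ≤ M) (hb : ∀ j ∈ s, |b j| ≤ M) (hd : ∀ j ∈ s, |a j - b j| ≤ d) :
    |∏ j ∈ s, a j - ∏ j ∈ s, b j| ≤ s.card * M ^ s.card * d := by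
  classical
  induction s using Finset.induction_on with
  | empty => simp
  | insert i s hi ih =>
    have ih' := ih (fun j hj => ha j (Finset.mem_insert_of_mem hj))
      (fun j hj => hb j (Finset.mem_insert_of_mem hj))
      (fun j hj => hd j (Finset.mem_insert_of_mem hj))
    have hdi := hd i (Finset.mem_insert_self _ _)
    have hd0 : 0 ≤ d := (abs_nonneg _).trans hdi
    have hPa : |∏ j ∈ s, a j| ≤ M ^ s.card := by
      rw [Finset.abs_prod]
      calc ∏ j ∈ s, |a j| ≤ ∏ _j ∈ s, M :=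
            Finset.prod_le_prod (fun _ _ => abs_nonneg _) fun j hj =>
              ha j (Finset.mem_insert_of_mem hj)
        _ = M ^ s.card := by rw [Finset.prod_const]
    rw [Finset.prod_insert hi, Finset.prod_insert hi, Finset.card_insert_of_notMem hi]
    have h1 : a i * ∏ j ∈ s, a j - b i * ∏ j ∈ s, b j =
        (a i - b i) * ∏ j ∈ s, a j + b i * (∏ j ∈ s, a j - ∏ j ∈ s, b j) := by ring
    rw [h1]
    have hMk : (0 : ℝ) ≤ M ^ s.card := by positivity
    calc |(a i - b i) * ∏ j ∈ s, a j + b i * (∏ j ∈ s, a j - ∏ j ∈ s, b j)|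
        ≤ |a i - b i| * |∏ j ∈ s, a j| + |b i| * |∏ j ∈ s, a j - ∏ j ∈ s, b j| := by
          refine (abs_add_le _ _).trans ?_
          rw [abs_mul, abs_mul]
      _ ≤ d * M ^ s.card + M * (s.card * M ^ s.card * d) := by
          gcongr
          exact hb i (Finset.mem_insert_self _ _)
      _ ≤ M * (d * M ^ s.card) + M * (s.card * M ^ s.card * d) := by
          have h5 : d * M ^ s.card ≤ M * (d * M ^ s.card) :=
            le_mul_of_one_le_left (by positivity) hM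
          linarith
      _ = ((s.card + 1 : ℕ) : ℝ) * M ^ (s.card + 1) * d := by
          push_cast
          ring

lemma abs_log_le {u : ℝ} (hu : 0 < u) : |Real.log u| ≤ u + 1 / u := by
  have h1 := Real.log_le_sub_one_of_pos hu
  have h2 := Real.log_le_sub_one_of_pos (show 0 < 1 / u by positivity)
  rw [one_div, Real.log_inv] at h2
  have h3 : 0 < u⁻¹ := by positivity
  rw [abs_le, one_div]
  constructor <;> linarith

lemma log_lip {x y m : ℝ} (hm : 0 < m) (hx : m ≤ x) (hy : m ≤ y) :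
    |Real.log x - Real.log y| ≤ |x - y| / m := by
  have key : ∀ x y : ℝ, m ≤ x → m ≤ y → Real.log x - Real.log y ≤ |x - y| / m := by
    intro x y hx hy
    have hx0 : 0 < x := by linarith
    have hy0 : 0 < y := by linarith
    rw [← Real.log_div hx0.ne' hy0.ne']
    have h1 := Real.log_le_sub_one_of_pos (show 0 < x / y by positivity)
    have h2 : x / y - 1 = (x - y) / y := by field_simp
    rw [h2] at h1
    refine h1.trans ?_
    calc (x - y) / y ≤ |x - y| / y := by gcongr; exact le_abs_self _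
      _ ≤ |x - y| / m := by gcongr
  rw [abs_le]
  have h1 := key x y hx hy
  have h2 := key y x hy hx
  rw [abs_sub_comm] at h2
  constructor <;> linarith

/-- the difference of the values of `dif` -/
lemma dif_lip {C : ℝ} {N : ℕ} (hC : 0 < C) (hff : ∀ u : ℝ, 0 ≤ u → ff u ≤ C * (1 + u) ^ N)
    (hfl : ∀ u v : ℝ, 0 ≤ u → 0 ≤ v → |ff u - ff v| ≤ C * (1 + u + v) ^ N * |u - v|) (k : ℕ)
    {A : ℝ} (hA : 1 ≤ A) : ∃ C3 : ℝ, 0 < C3 ∧ ∀ (T r : ℝ) (x y : Fin k → ℝ), 1 ≤ T → 0 ≤ r →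
    (∀ j, A⁻¹ ≤ x j ∧ x j ≤ A) → (∀ j, A⁻¹ ≤ y j ∧ y j ≤ A) → (∀ j, |x j - y j| ≤ r) →
    ∀ t ∈ Icc T (2 * T), |dif x t - dif y t| ≤ C3 * T ^ (N * (k + 1) + 1 + k) * r := by
  have hA0 : 0 < A := by linarith
  refine ⟨k * ((1 + C) * (5 * A) ^ N) ^ k * (2 * C * (5 * A) ^ N) + k * (22 * A) ^ k * A + 1,
    by positivity, fun T r x y hT hr hx hy hxy t ht => ?_⟩
  have hT0 : 0 < T := by linarith
  have ht0 : 0 < t := by linarith [ht.1]
  have hAi : 0 < A⁻¹ := by positivity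
  have hAT : 1 ≤ A * T := one_le_mul_of_one_le_of_one_le hA hT
  have hgen : ∀ z : Fin k → ℝ, (∀ j, A⁻¹ ≤ z j ∧ z j ≤ A) → ∀ j, 0 < z j * t ∧
      z j * t ≤ 2 * (A * T) ∧ |ff (z j * t)| ≤ (1 + C) * (5 * A) ^ N * T ^ N ∧
      |D0 (z j * t)| ≤ 22 * A * T := by
    intro z hz j
    have hzj : 0 < z j := lt_of_lt_of_le hAi (hz j).1
    have h1 : 0 < z j * t := by positivity
    have h2 : z j * t ≤ 2 * (A * T) := by
      calc z j * t ≤ A * (2 * T) := mul_le_mul (hz j).2 ht.2 ht0.le hA0.le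
        _ = 2 * (A * T) := by ring
    refine ⟨h1, h2, ?_, ?_⟩
    · have h3 : 0 ≤ ff (z j * t) := by unfold ff; positivity
      rw [abs_of_nonneg h3]
      calc ff (z j * t) ≤ C * (1 + z j * t) ^ N := hff _ h1.le
        _ ≤ (1 + C) * (5 * A * T) ^ N := by
            gcongr
            · linarith
            · linarith
        _ = (1 + C) * (5 * A) ^ N * T ^ N := by rw [mul_pow (5 * A)]; ring
    · unfold D0
      have hpi := Real.pi_pos
      have hpi4 := Real.pi_le_four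
      have hpi3 := Real.pi_gt_three
      have h4 := abs_log_le (show 0 < z j * t / (2 * Real.pi) by positivity)
      have h5 : z j * t / (2 * Real.pi) ≤ 2 * (A * T) := by
        refine (div_le_self h1.le (by linarith)).trans h2
      have h6 : 1 / (z j * t / (2 * Real.pi)) ≤ 8 * A := by
        rw [one_div_div, div_le_iff₀ h1]
        have h7 : 1 ≤ A * (z j * t) := by
          have h8 : A⁻¹ * 1 ≤ z j * t := mul_le_mul (hz j).1 (by linarith [ht.1]) zero_le_one hzj.le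
          rw [mul_one, inv_le_iff_one_le_mul₀ hA0] at h8
          linarith
        nlinarith
      have h7 : |2 * Real.eulerMascheroniConstant| ≤ 2 := by
        have g1 := Real.eulerMascheroniConstant_lt_two_thirds
        have g2 := Real.one_half_lt_eulerMascheroniConstant
        rw [abs_of_nonneg (by linarith)]
        linarith
      have h8 : 8 * A ≤ 8 * (A * T) := by nlinarith
      calc |Real.log (z j * t / (2 * Real.pi)) + 2 * Real.eulerMascheroniConstant|
          ≤ |Real.log (z j * t / (2 * Real.pi))| + |2 * Real.eulerMascheroniConstant| :=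
            abs_add_le _ _
        _ ≤ (2 * (A * T) + 8 * A) + 2 := by linarith
        _ ≤ 22 * A * T := by nlinarith
  -- the products of `ff`
  set M1 : ℝ := (1 + C) * (5 * A) ^ N * T ^ N with hM1
  have h5A : (1 : ℝ) ≤ (5 * A) ^ N := one_le_pow₀ (by linarith)
  have hTN : (1 : ℝ) ≤ T ^ N := one_le_pow₀ hT
  have hM11 : 1 ≤ M1 := by
    rw [hM1]
    have h1 : 1 ≤ (1 + C) * (5 * A) ^ N := by nlinarith
    exact one_le_mul_of_one_le_of_one_le h1 hTN
  have hd1 : ∀ j, |ff (x j * t) - ff (y j * t)| ≤ 2 * C * (5 * A) ^ N * T ^ (N + 1) * r := by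
    intro j
    have gx := hgen x hx j
    have gy := hgen y hy j
    refine (hfl _ _ gx.1.le gy.1.le).trans ?_
    have h1 : |x j * t - y j * t| ≤ r * (2 * T) := by
      rw [← sub_mul, abs_mul, abs_of_pos ht0]
      exact mul_le_mul (hxy j) ht.2 ht0.le hr
    calc C * (1 + x j * t + y j * t) ^ N * |x j * t - y j * t|
        ≤ C * (5 * A * T) ^ N * (r * (2 * T)) := by
          have h2 : 0 ≤ 1 + x j * t + y j * t := by linarith [gx.1, gy.1]
          have h3 : 1 + x j * t + y j * t ≤ 5 * A * T := by linarith [gx.2.1, gy.2.1]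
          gcongr
      _ = 2 * C * (5 * A) ^ N * T ^ (N + 1) * r := by rw [mul_pow (5 * A), pow_succ]; ring
  have p1 := prod_diff Finset.univ (fun j => ff (x j * t)) (fun j => ff (y j * t)) hM11
    (fun j _ => (hgen x hx j).2.2.1) (fun j _ => (hgen y hy j).2.2.1) (fun j _ => hd1 j)
  -- the products of `D0`
  have hM2 : 1 ≤ 22 * A * T := by nlinarith
  have hd2 : ∀ j, |D0 (x j * t) - D0 (y j * t)| ≤ A * r := by
    intro j
    have hxj : 0 < x j := lt_of_lt_of_le hAi (hx j).1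
    have hyj : 0 < y j := lt_of_lt_of_le hAi (hy j).1
    have hpi := Real.pi_pos
    have h1 : D0 (x j * t) - D0 (y j * t) = Real.log (x j) - Real.log (y j) := by
      unfold D0
      rw [Real.log_div (by positivity) (by positivity), Real.log_div (by positivity) (by positivity),
        Real.log_mul hxj.ne' ht0.ne', Real.log_mul hyj.ne' ht0.ne']
      ring
    rw [h1]
    refine (log_lip hAi (hx j).1 (hy j).1).trans ?_
    rw [div_inv_eq_mul, mul_comm]
    exact mul_le_mul_of_nonneg_left (hxy j) hA0.le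
  have p2 := prod_diff Finset.univ (fun j => D0 (x j * t)) (fun j => D0 (y j * t)) hM2
    (fun j _ => (hgen x hx j).2.2.2) (fun j _ => (hgen y hy j).2.2.2) (fun j _ => hd2 j)
  rw [Finset.card_univ, Fintype.card_fin] at p1 p2
  have e1 : (k : ℝ) * M1 ^ k * (2 * C * (5 * A) ^ N * T ^ (N + 1) * r) =
      k * ((1 + C) * (5 * A) ^ N) ^ k * (2 * C * (5 * A) ^ N) * T ^ (N * (k + 1) + 1) * r := by
    rw [hM1, mul_pow ((1 + C) * (5 * A) ^ N), ← pow_mul]
    have : T ^ (N * (k + 1) + 1) = T ^ (N * k) * T ^ (N + 1) := by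
      rw [← pow_add]; congr 1
    rw [this]
    ring
  have e2 : (k : ℝ) * (22 * A * T) ^ k * (A * r) = k * (22 * A) ^ k * A * T ^ k * r := by
    rw [mul_pow (22 * A)]; ring
  rw [e1] at p1
  rw [e2] at p2
  have hT1 : T ^ (N * (k + 1) + 1) ≤ T ^ (N * (k + 1) + 1 + k) := pow_le_pow_right₀ hT (by omega)
  have hT2 : T ^ k ≤ T ^ (N * (k + 1) + 1 + k) := pow_le_pow_right₀ hT (by omega)
  have h3 : dif x t - dif y t = (∏ j, ff (x j * t) - ∏ j, ff (y j * t)) -
      (∏ j, D0 (x j * t) - ∏ j, D0 (y j * t)) := by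
    unfold dif; ring
  rw [h3]
  refine (abs_sub _ _).trans ?_
  calc |∏ j, ff (x j * t) - ∏ j, ff (y j * t)| + |∏ j, D0 (x j * t) - ∏ j, D0 (y j * t)|
      ≤ k * ((1 + C) * (5 * A) ^ N) ^ k * (2 * C * (5 * A) ^ N) * T ^ (N * (k + 1) + 1) * r +
        k * (22 * A) ^ k * A * T ^ k * r := add_le_add p1 p2
    _ ≤ k * ((1 + C) * (5 * A) ^ N) ^ k * (2 * C * (5 * A) ^ N) * T ^ (N * (k + 1) + 1 + k) * r +
        k * (22 * A) ^ k * A * T ^ (N * (k + 1) + 1 + k) * r := by gcongr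
    _ ≤ (k * ((1 + C) * (5 * A) ^ N) ^ k * (2 * C * (5 * A) ^ N) + k * (22 * A) ^ k * A + 1) *
        T ^ (N * (k + 1) + 1 + k) * r := by
        have : 0 ≤ T ^ (N * (k + 1) + 1 + k) * r := by positivity
        nlinarith

lemma x_le_one_add_sq (x : ENNReal) : x ≤ 1 + x ^ 2 := by
  rcases le_or_gt x 1 with h | h
  · exact h.trans le_self_add
  · calc x = x * 1 := (mul_one x).symm
      _ ≤ x * x := by gcongr
      _ = x ^ 2 := (sq x).symm
      _ ≤ 1 + x ^ 2 := le_add_self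

/-- the mean of `|F|` -/
lemma int_norm {F : ℝ → ℂ} (hF : Gr F) : ∃ C : ℝ, 0 < C ∧ ∀ T : ℝ, 1 ≤ T →
    IntegrableOn F (Icc T (2 * T)) ∧ ∫ t in Icc T (2 * T), ‖F t‖ ≤ C * T ^ 2 := by
  obtain ⟨hm, hg⟩ := hF
  obtain ⟨C, hC, hCb⟩ := hg 1 one_pos
  refine ⟨1 + 4 * C, by positivity, fun T hT => ?_⟩
  have hT0 : 0 < T := by linarith
  have h1 : ∫⁻ t in Icc T (2 * T), ‖F t‖ₑ ≤ ENNReal.ofReal ((1 + 4 * C) * T ^ 2) := by
    calc ∫⁻ t in Icc T (2 * T), ‖F t‖ₑ ≤ ∫⁻ t in Icc T (2 * T), (1 + ‖F t‖ₑ ^ 2) :=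
          lintegral_mono fun t => x_le_one_add_sq _
      _ = ENNReal.ofReal T + ∫⁻ t in Icc T (2 * T), ‖F t‖ₑ ^ 2 := by
          rw [lintegral_add_left measurable_const, setLIntegral_const, one_mul, Real.volume_Icc]
          congr 2
          ring
      _ ≤ ENNReal.ofReal T + ENNReal.ofReal (C * (2 * T) ^ ((1 : ℝ) + 1)) := by
          have hs : Icc T (2 * T) ⊆ Ioc 0 (2 * T) := fun t ht => ⟨by linarith [ht.1], ht.2⟩
          gcongr
          exact (lintegral_mono_set hs).trans (hCb (2 * T) (by linarith))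
      _ = ENNReal.ofReal (T + C * (2 * T) ^ ((1 : ℝ) + 1)) := by
          rw [ENNReal.ofReal_add hT0.le (by positivity)]
      _ ≤ ENNReal.ofReal ((1 + 4 * C) * T ^ 2) := by
          refine ENNReal.ofReal_le_ofReal ?_
          have h2 : (2 * T) ^ ((1 : ℝ) + 1) = 4 * T ^ 2 := by
            rw [show (1 : ℝ) + 1 = ((2 : ℕ) : ℝ) by norm_num, Real.rpow_natCast]
            ring
          rw [h2]
          nlinarith
  have h2 : IntegrableOn F (Icc T (2 * T)) :=
    ⟨hm.aestronglyMeasurable, h1.trans_lt ENNReal.ofReal_lt_top⟩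
  refine ⟨h2, ?_⟩
  rw [integral_norm_eq_lintegral_enorm hm.aestronglyMeasurable]
  exact ENNReal.toReal_le_of_le_ofReal (by positivity) h1

/-- comparison of the integrals -/
lemma jj_le (h : S_CRU) {k : ℕ} {H : ℝ → ℂ} (hH : Gr H) {T d I0 : ℝ} (hT : 1 ≤ T) (hd : 0 ≤ d)
    (hHi : IntegrableOn H (Icc T (2 * T))) (hI : ∫ t in Icc T (2 * T), ‖H t‖ ≤ I0)
    {x y : Fin k → ℝ} (hx : ∀ j, 0 < x j) (hy : ∀ j, 0 < y j)
    (hdif : ∀ t ∈ Icc T (2 * T), |dif x t - dif y t| ≤ d) {a b : ℝ} (ha : T ≤ a)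
    (hb : b ≤ 2 * T) : JJ H x a b ≤ JJ H y a b + d * I0 := by
  have hsub : Icc a b ⊆ Icc T (2 * T) := Icc_subset_Icc ha hb
  have hsub2 : Icc a b ⊆ Ioc 0 (2 * T) := fun t ht => ⟨by linarith [ht.1], by linarith [ht.2]⟩
  have hint : ∀ z : Fin k → ℝ, (∀ j, 0 < z j) →
      IntegrableOn (fun t => H t * ((dif z t : ℝ) : ℂ)) (Icc a b) := by
    intro z hz
    obtain ⟨h1, h2⟩ := t_INT h k H hH z hz (2 * T)
    have h3 := (h1.mono_set hsub2).sub (h2.mono_set hsub2)
    refine h3.congr (Eventually.of_forall fun t => ?_)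
    show H t * _ - H t * _ = _
    unfold dif
    push_cast
    ring
  have h1 : ∫ t in Icc a b, H t * ((dif x t : ℝ) : ℂ) =
      (∫ t in Icc a b, H t * ((dif y t : ℝ) : ℂ)) +
        ∫ t in Icc a b, H t * ((dif x t - dif y t : ℝ) : ℂ) := by
    rw [← integral_add (hint y hy)]
    · congr 1
      funext t
      push_cast
      ring
    · refine ((hint x hx).sub (hint y hy)).congr (Eventually.of_forall fun t => ?_)
      show H t * _ - H t * _ = _
      push_cast
      ring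
  have h2 : ‖∫ t in Icc a b, H t * ((dif x t - dif y t : ℝ) : ℂ)‖ ≤ d * I0 := by
    calc ‖∫ t in Icc a b, H t * ((dif x t - dif y t : ℝ) : ℂ)‖
        ≤ ∫ t in Icc a b, ‖H t‖ * d := by
          refine norm_integral_le_of_norm_le ((hHi.mono_set hsub).norm.mul_const d) ?_
          rw [ae_restrict_iff' measurableSet_Icc]
          refine Eventually.of_forall fun t ht => ?_
          rw [norm_mul, norm_real, Real.norm_eq_abs]
          gcongr
          exact hdif t (hsub ht)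
      _ = (∫ t in Icc a b, ‖H t‖) * d := integral_mul_const _ _
      _ ≤ (∫ t in Icc T (2 * T), ‖H t‖) * d := by
          refine mul_le_mul_of_nonneg_right ?_ hd
          exact setIntegral_mono_set hHi.norm (Eventually.of_forall fun t => norm_nonneg _)
            (HasSubset.Subset.eventuallyLE hsub)
      _ ≤ d * I0 := by rw [mul_comm]; gcongr
  unfold JJ
  rw [h1]
  exact (norm_add_le _ _).trans (by gcongr)

lemma Gr_norm {F : ℝ → ℂ} (hF : Gr F) : Gr (fun t => ((‖F t‖ : ℝ) : ℂ)) := by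
  refine ⟨measurable_ofReal.comp hF.1.norm, fun ε hε => ?_⟩
  obtain ⟨C, hC, h⟩ := hF.2 ε hε
  refine ⟨C, hC, fun T hT => ?_⟩
  refine le_trans (le_of_eq ?_) (h T hT)
  refine lintegral_congr fun t => ?_
  have : ‖((‖F t‖ : ℝ) : ℂ)‖ₑ = ‖F t‖ₑ := by
    rw [← ofReal_norm_eq_enorm, norm_real, norm_norm, ofReal_norm_eq_enorm]
  rw [this]

end Lip

open Lip in
theorem t_LIP (h : S_CRU) : S_LIP := by
  have h0 := h
  obtain ⟨C, N, hC, _, hff, hfl⟩ := h0
  intro k
  set E : ℕ := N * (k + 1) + 1 + k with hE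
  refine ⟨(E : ℝ) + 3, by have : (0 : ℝ) ≤ E := Nat.cast_nonneg E; linarith,
    fun F A θ ρ hF hA hθ hθ1 hρ hρ1 => ?_⟩
  obtain ⟨C3, hC3, hdif⟩ := dif_lip hC hff hfl k (show 1 ≤ 2 * A by linarith)
  obtain ⟨C4, hC4, hI⟩ := int_norm hF
  obtain ⟨C4', hC4', hI'⟩ := int_norm (Gr_norm hF)
  have hpow : Tendsto (fun n : ℕ => (2 : ℝ) ^ n) atTop atTop :=
    tendsto_pow_atTop_atTop_of_one_lt (by norm_num)
  filter_upwards [hpow.eventually_ge_atTop (1 : ℝ), hpow.eventually_ge_atTop (2 * A),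
    hpow.eventually_ge_atTop (2 * (C3 * C4)), hpow.eventually_ge_atTop (2 * (C3 * C4'))]
    with n n1 n2 n3 n4
  intro x hx y hy
  obtain ⟨hxA, i, hi, hbad⟩ := hx
  have hy' : dist y x ≤ ((2 : ℝ) ^ n) ^ (-((E : ℝ) + 3)) := hy
  show (∀ j, (2 * A)⁻¹ ≤ y j ∧ y j ≤ 2 * A) ∧ ∃ i < NN θ n,
    1 / 2 * ((2 : ℝ) ^ n) ^ (1 - ρ) < JJ F y (2 ^ n) (gp θ n i) ∨
    1 / 2 * ((2 : ℝ) ^ n) ^ (1 - ρ) <
      JJ (fun t => ((‖F t‖ : ℝ) : ℂ)) y (gp θ n i) (gp θ n (i + 1))
  have hgp : ∀ j ≤ NN θ n, (2 : ℝ) ^ n ≤ gp θ n j ∧ gp θ n j ≤ 2 * 2 ^ n := by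
    intro j hj
    have hN1 : (0 : ℝ) < NN θ n := by
      have : 0 < NN θ n := by omega
      exact_mod_cast this
    have h1 : (0 : ℝ) ≤ (j : ℝ) / NN θ n := by positivity
    have h2 : (j : ℝ) / NN θ n ≤ 1 := by
      rw [div_le_one hN1]
      exact_mod_cast hj
    have h3 : (0 : ℝ) < 2 ^ n := by positivity
    unfold gp
    constructor <;> nlinarith
  generalize hT : (2 : ℝ) ^ n = T at *
  have hT0 : 0 < T := by linarith
  have hA0 : 0 < A := by linarith
  set r : ℝ := T ^ (-((E : ℝ) + 3)) with hr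
  have hr0 : 0 < r := Real.rpow_pos_of_pos hT0 _
  have hrT : r * T ^ (E + 3) = 1 := by
    rw [hr, ← Real.rpow_natCast, ← Real.rpow_add hT0]
    push_cast
    rw [neg_add_cancel, Real.rpow_zero]
  have hr1 : r ≤ 1 / T := by
    rw [hr, one_div, ← Real.rpow_neg_one]
    refine Real.rpow_le_rpow_of_exponent_le n1 ?_
    have : (0 : ℝ) ≤ E := Nat.cast_nonneg E
    linarith
  have hxy : ∀ j, |x j - y j| ≤ r := by
    intro j
    have h1 := dist_le_pi_dist y x j
    rw [Real.dist_eq] at h1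
    rw [abs_sub_comm]
    exact h1.trans hy'
  have hrA : r ≤ (2 * A)⁻¹ := by
    refine hr1.trans ?_
    rw [one_div]
    exact inv_anti₀ (by positivity) n2
  have hr11 : r ≤ 1 := by
    refine hr1.trans ?_
    rw [div_le_one hT0]
    exact n1
  have hA2 : A⁻¹ = (2 * A)⁻¹ + (2 * A)⁻¹ := by
    field_simp
    ring
  have hA2' : (0 : ℝ) < (2 * A)⁻¹ := by positivity
  have hyA : ∀ j, (2 * A)⁻¹ ≤ y j ∧ y j ≤ 2 * A := by
    intro j
    have h1 := abs_le.1 (hxy j)
    have h2 := hxA j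
    constructor <;> linarith [h1.1, h1.2, h2.1, h2.2]
  have hxA' : ∀ j, (2 * A)⁻¹ ≤ x j ∧ x j ≤ 2 * A := by
    intro j
    have h2 := hxA j
    constructor <;> linarith [h2.1, h2.2]
  have hxpos : ∀ j, 0 < x j := fun j => lt_of_lt_of_le hA2' (hxA' j).1
  have hypos : ∀ j, 0 < y j := fun j => lt_of_lt_of_le hA2' (hyA j).1
  have hd := hdif T r x y n1 hr0.le hxA' hyA hxy
  have hd0 : 0 ≤ C3 * T ^ E * r := by positivity
  have hsmall : ∀ C4 : ℝ, 2 * (C3 * C4) ≤ T → C3 * T ^ E * r * (C4 * T ^ 2) ≤ 1 / 2 := by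
    intro C4 h4
    have h1 : (C3 * T ^ E * r * (C4 * T ^ 2)) * T = C3 * C4 * (r * T ^ (E + 3)) := by ring
    rw [hrT, mul_one] at h1
    have h2 : (C3 * T ^ E * r * (C4 * T ^ 2)) * T ≤ (1 / 2) * T := by
      rw [h1]; linarith
    exact le_of_mul_le_mul_right h2 hT0
  have hTρ : 1 ≤ T ^ (1 - ρ) := Real.one_le_rpow n1 (by linarith)
  refine ⟨hyA, i, hi, ?_⟩
  rcases hbad with hbad | hbad
  · left
    have g1 := hgp i hi.le
    have h1 := jj_le h hF n1 hd0 (hI T n1).1 (hI T n1).2 hxpos hypos hd (a := T) le_rfl g1.2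
    have h2 := hsmall C4 n3
    linarith
  · right
    have g1 := hgp i hi.le
    have g2 := hgp (i + 1) hi
    have h1 := jj_le h (Gr_norm hF) n1 hd0 (hI' T n1).1 (hI' T n1).2 hxpos hypos hd g1.1 g2.2
    have h2 := hsmall C4' n4
    linarith

end Pool.Agent.N879.GD
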