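import Pool.Agent.N879.GD.Stm
import Pool.Agent.Y587.GP.V
import Pool.Agent.Y587.GP.Chi
import Pool.Agent.Y891.GP.AFE
import Pool.Agent.Y125.GP.LSW
import Pool.Agent.Y379.GP.Sp
import Pool.Agent.Y545.GP.CR
import Pool.Agent.N879.GD.Cru

set_option autoImplicit false

/-! GD: the fourth moment. -/

namespace Pool.Agent.N879.GD

open Complex Filter Topology MeasureTheory Set
open Pool.Agent.Y969.GP (ff V ht lam PS co PX FR cr mB S_LSW S_CR)

noncomputable section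

/-- the large sieve in one variable -/
lemma lsw_one (h : S_LSW) : ∃ C : ℝ, 0 < C ∧ ∀ (X : ℕ) (T : ℝ), 1 ≤ X → 1 ≤ T →
    ∀ (A A' : ℕ × ℕ → ℝ → ℂ) (w : ℕ × ℕ → ℝ),
    (∀ p ∈ FR X, ∀ x ∈ Icc 1 T, HasDerivAt (A p) (A' p x) x) →
    (∀ p ∈ FR X, ContinuousOn (A' p) (Icc 1 T)) →
    (∀ p ∈ FR X, ∀ x ∈ Icc 1 T, ‖A p x‖ ≤ w p) →
    (∀ p ∈ FR X, ∫ x in (1 : ℝ)..T, ‖A' p x‖ ≤ w p) →
    ∫ x in Icc 1 T, ‖∑ q ∈ FR X, A q x * cexp (I * ((x * lam q : ℝ) : ℂ))‖ ^ 2 ≤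
      C * ((T + X) * (1 + Real.log X)) * ∑ q ∈ FR X, w q ^ 2 := by
  obtain ⟨C, hC, h1⟩ := h 1
  refine ⟨C, hC, ?_⟩
  intro X T hX hT A A' w hA hA' hw hw'
  have h2 := h1 X 1 T hX hT (by norm_num) hT (fun _ => A) (fun _ => A') (fun _ => 1) (fun _ => w)
    (fun _ => hA) (fun _ => hA') (fun _ => hw) (fun _ => hw')
  have hsum : ∀ {M : Type} [AddCommMonoid M] (g : ℕ × ℕ → M),
      ∑ q ∈ Fintype.piFinset (fun _ : Fin 1 => FR X), g (q 0) = ∑ q ∈ FR X, g q := by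
    intro M _ g
    refine Finset.sum_nbij' (fun q => q 0) (fun p _ => p) ?_ ?_ ?_ ?_ ?_
    · intro q hq
      exact Fintype.mem_piFinset.1 hq 0
    · intro p hp
      exact Fintype.mem_piFinset.2 fun _ => hp
    · intro q _
      funext i
      rw [Subsingleton.elim i 0]
    · intro p _; rfl
    · intro q _; rfl
  simp only [Fin.prod_univ_one, one_mul, norm_one, one_pow, pow_one] at h2
  rw [hsum (fun q => w q ^ 2)] at h2
  have h3 : ∀ c : Fin 1 → ℝ, ∑ q ∈ Fintype.piFinset (fun _ : Fin 1 => FR X),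
      A (q 0) (c 0) * cexp (I * ((c 0 * lam (q 0) : ℝ) : ℂ)) =
      ∑ q ∈ FR X, A q (c 0) * cexp (I * ((c 0 * lam q : ℝ) : ℂ)) := fun c =>
    hsum (fun q => A q (c 0) * cexp (I * ((c 0 * lam q : ℝ) : ℂ)))
  simp only [h3] at h2
  have h4 := (measurePreserving_funUnique (volume.restrict (Icc (1 : ℝ) T)) (Fin 1)).integral_comp'
    (g := fun x : ℝ => ‖∑ q ∈ FR X, A q x * cexp (I * ((x * lam q : ℝ) : ℂ))‖ ^ 2)
  have h5 : ∫ c, ‖∑ q ∈ FR X, A q (c 0) * cexp (I * ((c 0 * lam q : ℝ) : ℂ))‖ ^ 2 ∂(mB 1 1 T) =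
      ∫ x in Icc 1 T, ‖∑ q ∈ FR X, A q x * cexp (I * ((x * lam q : ℝ) : ℂ))‖ ^ 2 := by
    rw [← h4]
    rfl
  rw [h5] at h2
  exact h2

lemma sum_FR_le (X : ℕ) : ∑ q ∈ FR X, (ht q)⁻¹ ≤ (1 + Real.log X) ^ 2 := by
  have h1 : ∑ m ∈ Finset.Icc 1 X, ((m : ℝ))⁻¹ ≤ 1 + Real.log X := by
    have h1 := harmonic_le_one_add_log X
    have h2 : ∑ m ∈ Finset.Icc 1 X, ((m : ℝ))⁻¹ = ((harmonic X : ℚ) : ℝ) := by
      rw [harmonic_eq_sum_Icc]
      push_cast
      ring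
    rw [h2]; exact h1
  have h0 : 0 ≤ ∑ m ∈ Finset.Icc 1 X, ((m : ℝ))⁻¹ := Finset.sum_nonneg fun m _ => by positivity
  calc ∑ q ∈ FR X, (ht q)⁻¹ ≤ ∑ q ∈ Finset.Icc 1 X ×ˢ Finset.Icc 1 X, (ht q)⁻¹ := by
        refine Finset.sum_le_sum_of_subset_of_nonneg ?_ ?_
        · exact (Finset.filter_subset _ _).trans (Finset.filter_subset _ _)
        · intro q _ _
          unfold ht
          positivity
    _ = (∑ m ∈ Finset.Icc 1 X, ((m : ℝ))⁻¹) * ∑ m ∈ Finset.Icc 1 X, ((m : ℝ))⁻¹ := by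
        rw [Finset.sum_product, Finset.sum_mul]
        refine Finset.sum_congr rfl fun m _ => ?_
        rw [Finset.mul_sum]
        refine Finset.sum_congr rfl fun n _ => ?_
        unfold ht
        rw [mul_inv]
    _ ≤ (1 + Real.log X) * (1 + Real.log X) := by
        gcongr
    _ = _ := by ring

/-- mean square of the Dirichlet polynomial -/
lemma mean_PX (hL : S_LSW) (hCR : S_CR) : ∃ C : ℝ, 0 < C ∧ ∀ (X : ℕ) (T : ℝ), 1 ≤ X → 1 ≤ T →
    ∫ x in Icc 1 T, ‖PX X x‖ ^ 2 ≤ C * (T + X) * (1 + Real.log X) ^ 5 * (1 + Real.log T) ^ 2 := by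
  obtain ⟨C, hC, h1⟩ := lsw_one hL
  obtain ⟨h2, -, C1, hC1, h3⟩ := hCR
  refine ⟨C * C1 ^ 2, by positivity, ?_⟩
  intro X T hX hT
  have hX' : (1 : ℝ) ≤ X := by exact_mod_cast hX
  have hlX : 0 ≤ Real.log X := Real.log_nonneg hX'
  have hlT : 0 ≤ Real.log T := Real.log_nonneg hT
  set w : ℕ × ℕ → ℝ := fun p => C1 * (1 + Real.log X) * (√(ht p))⁻¹ * (1 + Real.log T) with hw
  have h4 := h1 X T hX hT (fun p x => ((cr X p x : ℝ) : ℂ)) (fun p x => ((deriv (cr X p) x : ℝ) : ℂ)) w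
    ?_ ?_ ?_ ?_
  · have e1 : ∀ x : ℝ, PX X x = ∑ q ∈ FR X, ((cr X q x : ℝ) : ℂ) * cexp (I * ((x * lam q : ℝ) : ℂ)) :=
      fun x => h2 X x
    simp only [← e1] at h4
    refine h4.trans ?_
    have h5 : ∑ q ∈ FR X, w q ^ 2 ≤ C1 ^ 2 * (1 + Real.log X) ^ 2 * (1 + Real.log T) ^ 2 *
        (1 + Real.log X) ^ 2 := by
      calc ∑ q ∈ FR X, w q ^ 2 = C1 ^ 2 * (1 + Real.log X) ^ 2 * (1 + Real.log T) ^ 2 *
            ∑ q ∈ FR X, (ht q)⁻¹ := by
            rw [Finset.mul_sum]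
            refine Finset.sum_congr rfl fun q _ => ?_
            have : 0 ≤ ht q := by unfold ht; positivity
            simp only [hw]
            rw [mul_pow, mul_pow, mul_pow, inv_pow, Real.sq_sqrt this]
            ring
        _ ≤ _ := by
            gcongr
            exact sum_FR_le X
    calc C * ((T + X) * (1 + Real.log X)) * ∑ q ∈ FR X, w q ^ 2 ≤
        C * ((T + X) * (1 + Real.log X)) * (C1 ^ 2 * (1 + Real.log X) ^ 2 * (1 + Real.log T) ^ 2 *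
        (1 + Real.log X) ^ 2) := by gcongr
      _ = _ := by ring
  · intro p hp x hx
    have := (h3 X p hp x (by linarith [hx.1])).1.hasDerivAt
    exact this.ofReal_comp
  · intro p hp
    refine continuous_ofReal.comp_continuousOn ?_
    intro x hx
    exact (h3 X p hp x (by linarith [hx.1])).2.1.continuousAt.continuousWithinAt
  · intro p hp x hx
    have h5 := (h3 X p hp x (by linarith [hx.1])).2.2.2.1
    rw [Complex.norm_real, Real.norm_eq_abs]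
    refine h5.trans ?_
    rw [hw]
    have h6 : 0 ≤ C1 * (1 + Real.log X) * (√(ht p))⁻¹ := by positivity
    nlinarith
  · intro p hp
    have h6 : 0 ≤ C1 * (1 + Real.log X) * (√(ht p))⁻¹ := by positivity
    have h5 : ∀ x ∈ Icc 1 T, ‖((deriv (cr X p) x : ℝ) : ℂ)‖ ≤ C1 * (1 + Real.log X) * (√(ht p))⁻¹ * x⁻¹ := by
      intro x hx
      have hx0 : 0 < x := by linarith [hx.1]
      have h7 := (h3 X p hp x hx0).2.2.2.2.1
      rw [abs_mul, abs_of_pos hx0] at h7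
      rw [Complex.norm_real, Real.norm_eq_abs, ← div_eq_mul_inv, le_div_iff₀ hx0]
      linarith
    have hcont : ContinuousOn (fun x => ‖((deriv (cr X p) x : ℝ) : ℂ)‖) (Icc 1 T) := by
      refine (continuous_ofReal.comp_continuousOn ?_).norm
      intro x hx
      exact (h3 X p hp x (by linarith [hx.1])).2.1.continuousAt.continuousWithinAt
    have hinv : ContinuousOn (fun x : ℝ => x⁻¹) (Icc 1 T) :=
      continuousOn_inv₀.mono fun x hx => by
        simp only [mem_compl_iff, mem_singleton_iff]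
        linarith [hx.1]
    calc ∫ x in (1 : ℝ)..T, ‖((deriv (cr X p) x : ℝ) : ℂ)‖ ≤
        ∫ x in (1 : ℝ)..T, C1 * (1 + Real.log X) * (√(ht p))⁻¹ * x⁻¹ := by
          refine intervalIntegral.integral_mono_on hT ?_ ?_ h5
          · exact hcont.intervalIntegrable_of_Icc hT
          · exact (hinv.const_smul (C1 * (1 + Real.log X) * (√(ht p))⁻¹)).intervalIntegrable_of_Icc hT
      _ = C1 * (1 + Real.log X) * (√(ht p))⁻¹ * Real.log T := by
          rw [intervalIntegral.integral_const_mul, integral_inv_of_pos one_pos (by linarith), div_one]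
      _ ≤ w p := by
          rw [hw]
          nlinarith

theorem t_M4' : S_M4 := by
  have hV := Pool.Agent.Y587.GP.t_V
  have hAFE := Pool.Agent.Y891.GP.t_AFE hV Pool.Agent.Y587.GP.Chi.t_CHI
  have hL := Pool.Agent.Y125.GP.t_LSW Pool.Agent.Y379.GP.t_SP
  have hCR := Pool.Agent.Y545.GP.t_CR hV
  obtain ⟨_, _, _, hcont, _, _⟩ := t_CRU
  obtain ⟨C1, hC1, hM⟩ := mean_PX hL hCR
  intro ε hε
  set κ : ℝ := min (ε / 8) (1 / 2) with hκdef
  have hκ : 0 < κ := lt_min (by positivity) (by norm_num)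
  have hκ8 : 8 * κ ≤ ε := by have := min_le_left (ε / 8) (1 / 2); linarith
  have hκ2 : κ ≤ 1 / 2 := min_le_right _ _
  obtain ⟨C2, hC2, hA⟩ := hAFE κ hκ
  -- powers of logarithms
  obtain ⟨C3, hC3⟩ : ∃ C3 : ℝ, 0 < C3 ∧ ∀ T : ℝ, 1 ≤ T → 1 + 3 * Real.log T ≤ C3 * T ^ κ := by
    refine ⟨1 + 3 / κ, by positivity, fun T hT => ?_⟩
    have h1 := Real.log_le_rpow_div (by linarith : 0 ≤ T) hκ
    have h2 : 1 ≤ T ^ κ := Real.one_le_rpow hT hκ.le
    have h3 : 3 * (T ^ κ / κ) = 3 / κ * T ^ κ := by ring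
    nlinarith
  obtain ⟨hC30, hC3⟩ := hC3
  set K0 : ℝ := ∫ u in (0 : ℝ)..1, ff u ^ 2 with hK0
  have hK00 : 0 ≤ K0 := intervalIntegral.integral_nonneg (by norm_num) fun u _ => by positivity
  refine ⟨K0 + 2 * (C1 * 3 * (3 * C3) ^ 7) + 2 * C2 ^ 2, by positivity, fun T hT => ?_⟩
  have hT0 : 0 < T := by linarith
  have radd : ∀ a c : ℝ, T ^ a * T ^ c = T ^ (a + c) := fun a c => (Real.rpow_add hT0 a c).symm
  have rmono : ∀ a c : ℝ, a ≤ c → T ^ a ≤ T ^ c := fun a c h => Real.rpow_le_rpow_of_exponent_le hT h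
  have rpos : ∀ a : ℝ, 0 < T ^ a := fun a => Real.rpow_pos_of_pos hT0 a
  set X : ℕ := ⌈T ^ (1 + κ)⌉₊ with hX
  have hXl : T ^ (1 + κ) ≤ X := Nat.le_ceil _
  have hT1k : 1 ≤ T ^ (1 + κ) := Real.one_le_rpow hT (by linarith)
  have hXu : (X : ℝ) ≤ 2 * T ^ (1 + κ) := by
    have := Nat.ceil_lt_add_one (rpos (1 + κ)).le
    rw [← hX] at this
    linarith
  have hX1 : (1 : ℝ) ≤ X := hT1k.trans hXl
  have hX1' : 1 ≤ X := by exact_mod_cast hX1
  have hlX : 1 + Real.log X ≤ 3 * C3 * T ^ κ := by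
    have h1 : Real.log X ≤ Real.log 2 + (1 + κ) * Real.log T := by
      calc Real.log X ≤ Real.log (2 * T ^ (1 + κ)) := Real.log_le_log (by linarith) hXu
        _ = Real.log 2 + (1 + κ) * Real.log T := by
            rw [Real.log_mul (by norm_num) (rpos _).ne', Real.log_rpow hT0]
    have h2 : Real.log 2 ≤ 1 := by linarith [Real.log_two_lt_d9]
    have h3 : 0 ≤ Real.log T := Real.log_nonneg hT
    have h4 := hC3 T hT
    nlinarith
  have hlX0 : 0 ≤ Real.log X := Real.log_nonneg hX1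
  have hlT : 1 + Real.log T ≤ 3 * C3 * T ^ κ := by
    have h3 : 0 ≤ Real.log T := Real.log_nonneg hT
    have h4 := hC3 T hT
    have h5 : 0 ≤ C3 * T ^ κ := by positivity
    nlinarith
  have hlT0 : 0 ≤ Real.log T := Real.log_nonneg hT
  have hMT := hM X T hX1' hT
  -- continuity of PX on [1,T]
  have hPc : ContinuousOn (fun x => ‖PX X x‖ ^ 2) (Icc 1 T) := by
    obtain ⟨h2, -, C1', hC1', h3⟩ := hCR
    have e1 : PX X = fun x : ℝ => ∑ q ∈ FR X, ((cr X q x : ℝ) : ℂ) * cexp (I * ((x * lam q : ℝ) : ℂ)) :=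
      funext fun x => h2 X x
    rw [e1]
    refine (ContinuousOn.norm ?_).pow 2
    refine continuousOn_finsetSum _ fun q hq => ?_
    refine ContinuousOn.mul ?_ ?_
    · refine continuous_ofReal.comp_continuousOn ?_
      intro x hx
      exact (h3 X q hq x (by linarith [hx.1])).1.continuousAt.continuousWithinAt
    · exact (Continuous.cexp (continuous_const.mul (continuous_ofReal.comp
        (continuous_id.mul continuous_const)))).continuousOn
  have hfc : ContinuousOn (fun x => ff x ^ 2) (Icc 1 T) := (hcont.pow 2).continuousOn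
  have hpt : ∀ x ∈ Icc 1 T, ff x ^ 2 ≤ 2 * ‖PX X x‖ ^ 2 + 2 * C2 ^ 2 := by
    intro x hx
    have hx0 : 0 < x := by linarith [hx.1]
    have h1 : x ^ (1 + κ) ≤ X := (Real.rpow_le_rpow hx0.le hx.2 (by linarith)).trans hXl
    have h2 := hA x X hx.1 h1
    have h3 : x ^ (-(1 / 2) + κ) ≤ 1 := Real.rpow_le_one_of_one_le_of_nonpos hx.1 (by linarith)
    have h4 : ‖(ff x : ℂ)‖ ≤ ‖PX X x‖ + C2 := by
      calc ‖(ff x : ℂ)‖ = ‖PX X x + ((ff x : ℂ) - PX X x)‖ := by ring_nf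
        _ ≤ ‖PX X x‖ + ‖(ff x : ℂ) - PX X x‖ := norm_add_le _ _
        _ ≤ ‖PX X x‖ + C2 := by
            have : C2 * x ^ (-(1 / 2) + κ) ≤ C2 * 1 := by gcongr
            linarith
    have h5 : 0 ≤ ff x := by unfold Pool.Agent.Y969.GP.ff; positivity
    rw [Complex.norm_real, Real.norm_of_nonneg h5] at h4
    nlinarith [norm_nonneg (PX X x), sq_nonneg (‖PX X x‖ - C2)]
  have hsplit : ∫ u in (0 : ℝ)..T, ff u ^ 2 = K0 + ∫ u in (1 : ℝ)..T, ff u ^ 2 := by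
    have hi : ∀ a b : ℝ, IntervalIntegrable (fun u => ff u ^ 2) volume a b :=
      fun a b => (hcont.pow 2).intervalIntegrable a b
    rw [hK0, intervalIntegral.integral_add_adjacent_intervals (hi 0 1) (hi 1 T)]
  have hmain : ∫ u in (1 : ℝ)..T, ff u ^ 2 ≤ 2 * (∫ x in Icc 1 T, ‖PX X x‖ ^ 2) + 2 * C2 ^ 2 * T := by
    have h1 : ∫ u in (1 : ℝ)..T, ff u ^ 2 ≤ ∫ u in (1 : ℝ)..T, (2 * ‖PX X u‖ ^ 2 + 2 * C2 ^ 2) := by
      refine intervalIntegral.integral_mono_on hT (hfc.intervalIntegrable_of_Icc hT) ?_ hpt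
      exact ((hPc.const_smul (2 : ℝ)).add continuousOn_const).intervalIntegrable_of_Icc hT
    have h2 : ∫ u in (1 : ℝ)..T, (2 * ‖PX X u‖ ^ 2 + 2 * C2 ^ 2) =
        2 * (∫ u in (1 : ℝ)..T, ‖PX X u‖ ^ 2) + 2 * C2 ^ 2 * (T - 1) := by
      rw [intervalIntegral.integral_add, intervalIntegral.integral_const_mul,
        intervalIntegral.integral_const, smul_eq_mul]
      · ring
      · exact (hPc.const_smul (2 : ℝ)).intervalIntegrable_of_Icc hT
      · simp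
    have h3 : ∫ u in (1 : ℝ)..T, ‖PX X u‖ ^ 2 = ∫ x in Icc 1 T, ‖PX X x‖ ^ 2 := by
      rw [intervalIntegral.integral_of_le hT, integral_Icc_eq_integral_Ioc]
    rw [h2, h3] at h1
    nlinarith [sq_nonneg C2]
  have hbig : C1 * (T + X) * (1 + Real.log X) ^ 5 * (1 + Real.log T) ^ 2 ≤
      C1 * 3 * (3 * C3) ^ 7 * T ^ (1 + ε) := by
    have h1 : T + X ≤ 3 * T ^ (1 + κ) := by
      have : T ≤ T ^ (1 + κ) := by
        calc T = T ^ (1 : ℝ) := (Real.rpow_one T).symm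
          _ ≤ _ := rmono _ _ (by linarith)
      linarith
    calc C1 * (T + X) * (1 + Real.log X) ^ 5 * (1 + Real.log T) ^ 2 ≤
        C1 * (3 * T ^ (1 + κ)) * (3 * C3 * T ^ κ) ^ 5 * (3 * C3 * T ^ κ) ^ 2 := by gcongr
      _ = C1 * 3 * (3 * C3) ^ 7 * (T ^ (1 + κ) * (T ^ κ) ^ 7) := by ring
      _ = C1 * 3 * (3 * C3) ^ 7 * T ^ (1 + 8 * κ) := by
          rw [← Real.rpow_natCast (T ^ κ) 7, ← Real.rpow_mul hT0.le, radd]
          congr 2
          push_cast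
          ring
      _ ≤ C1 * 3 * (3 * C3) ^ 7 * T ^ (1 + ε) := by
          have := rmono (1 + 8 * κ) (1 + ε) (by linarith)
          gcongr
  have hT1e : T ≤ T ^ (1 + ε) := by
    calc T = T ^ (1 : ℝ) := (Real.rpow_one T).symm
      _ ≤ _ := rmono _ _ (by linarith)
  have h1e : 1 ≤ T ^ (1 + ε) := hT.trans hT1e
  rw [hsplit]
  calc K0 + ∫ u in (1 : ℝ)..T, ff u ^ 2 ≤ K0 + (2 * (C1 * 3 * (3 * C3) ^ 7 * T ^ (1 + ε)) + 2 * C2 ^ 2 * T) := by
        linarith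
    _ ≤ K0 * T ^ (1 + ε) + (2 * (C1 * 3 * (3 * C3) ^ 7 * T ^ (1 + ε)) + 2 * C2 ^ 2 * T ^ (1 + ε)) := by
        have h1 : K0 ≤ K0 * T ^ (1 + ε) := le_mul_of_one_le_right hK00 h1e
        have h2 : 2 * C2 ^ 2 * T ≤ 2 * C2 ^ 2 * T ^ (1 + ε) := by gcongr
        linarith
    _ = _ := by ring

end

end Pool.Agent.N879.GD
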