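import Pool.Agent.N879.GD.Stm

set_option autoImplicit false

/-!
Project GD: measure of the bad set (helper407).
-/

namespace Pool.Agent.N879.GD

open Complex Filter Topology MeasureTheory Set
open Pool.Agent.Y969.GP (ff)

namespace Mb

lemma measurable_D0 : Measurable D0 := by
  unfold D0
  fun_prop

lemma sm_dif (hcont : Continuous ff) {k : ℕ} {H : ℝ → ℂ} (hH : Measurable H) (ν : Measure ℝ)
    [SFinite ν] : StronglyMeasurable (fun l : Fin k → ℝ => ∫ t, H t * ((dif l t : ℝ) : ℂ) ∂ν) := by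
  have h1 : Measurable (Function.uncurry (fun (l : Fin k → ℝ) (t : ℝ) =>
      H t * ((dif l t : ℝ) : ℂ))) := by
    have hff : Measurable ff := hcont.measurable
    have hm : ∀ j : Fin k, Measurable (fun p : (Fin k → ℝ) × ℝ => p.1 j * p.2) := fun j =>
      ((measurable_pi_apply j).comp measurable_fst).mul measurable_snd
    have h2 : Measurable (fun p : (Fin k → ℝ) × ℝ => dif p.1 p.2) := by
      unfold dif
      exact (Finset.measurable_fun_prod _ fun j _ => hff.comp (hm j)).sub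
        (Finset.measurable_fun_prod _ fun j _ => measurable_D0.comp (hm j))
    exact (hH.comp measurable_snd).mul (measurable_ofReal.comp h2)
  exact h1.stronglyMeasurable.integral_prod_right

lemma box_eq (k : ℕ) (A : ℝ) : {l : Fin k → ℝ | ∀ j, A⁻¹ ≤ l j ∧ l j ≤ A} =
    Icc (fun _ : Fin k => A⁻¹) (fun _ => A) := by
  ext l
  simp only [mem_setOf_eq, mem_Icc, Pi.le_def]
  exact ⟨fun h => ⟨fun j => (h j).1, fun j => (h j).2⟩, fun h j => ⟨h.1 j, h.2 j⟩⟩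

/-- Markov's inequality for one cell -/
lemma one (hcont : Continuous ff) {k : ℕ} {A T a b e M : ℝ} {H : ℝ → ℂ} (hH : Measurable H)
    (hTa : T ≤ a) (hb : b ≤ 2 * T) (he : 0 < e)
    (hM : ∫⁻ l in Icc (fun _ : Fin k => A⁻¹) (fun _ => A),
      ‖∫ t in Icc T (2 * T), (Icc a b).indicator H t * ((dif l t : ℝ) : ℂ)‖ₑ ^ 2 ≤
        ENNReal.ofReal M) :
    volume {l : Fin k → ℝ | (∀ j, A⁻¹ ≤ l j ∧ l j ≤ A) ∧ e < JJ H l a b} ≤
      ENNReal.ofReal (M / e ^ 2) := by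
  have h0 : ∀ l : Fin k → ℝ, ∫ t in Icc T (2 * T),
      (Icc a b).indicator H t * ((dif l t : ℝ) : ℂ) = ∫ t in Icc a b, H t * ((dif l t : ℝ) : ℂ) := by
    intro l
    have h1 : ∀ t, (Icc a b).indicator H t * ((dif l t : ℝ) : ℂ) =
        (Icc a b).indicator (fun t => H t * ((dif l t : ℝ) : ℂ)) t := fun t => by
      by_cases ht : t ∈ Icc a b <;> simp [ht]
    simp only [h1]
    rw [setIntegral_indicator measurableSet_Icc]
    congr 2
    exact inter_eq_self_of_subset_right (Icc_subset_Icc hTa hb)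
  simp only [h0] at hM
  set f : (Fin k → ℝ) → ENNReal := fun l => ‖∫ t in Icc a b, H t * ((dif l t : ℝ) : ℂ)‖ₑ ^ 2
    with hf
  have hfm : Measurable f := by
    exact ((sm_dif hcont hH (volume.restrict (Icc a b))).measurable.enorm).pow_const 2
  have hmk := mul_meas_ge_le_lintegral₀ (μ := volume.restrict
    (Icc (fun _ : Fin k => A⁻¹) (fun _ => A))) hfm.aemeasurable (ENNReal.ofReal (e ^ 2))
  have hsub : {l : Fin k → ℝ | (∀ j, A⁻¹ ≤ l j ∧ l j ≤ A) ∧ e < JJ H l a b} ⊆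
      {l | ENNReal.ofReal (e ^ 2) ≤ f l} ∩ Icc (fun _ : Fin k => A⁻¹) (fun _ => A) := by
    rintro l ⟨h1, h2⟩
    refine ⟨?_, by rw [← box_eq]; exact h1⟩
    show ENNReal.ofReal (e ^ 2) ≤ ‖∫ t in Icc a b, H t * ((dif l t : ℝ) : ℂ)‖ₑ ^ 2
    rw [ENNReal.ofReal_pow he.le, ← ofReal_norm_eq_enorm]
    gcongr
    exact h2.le
  have hms : MeasurableSet {l | ENNReal.ofReal (e ^ 2) ≤ f l} :=
    measurableSet_le measurable_const hfm
  have h3 : volume {l : Fin k → ℝ | (∀ j, A⁻¹ ≤ l j ∧ l j ≤ A) ∧ e < JJ H l a b} ≤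
      (volume.restrict (Icc (fun _ : Fin k => A⁻¹) (fun _ => A))) {l | ENNReal.ofReal (e ^ 2) ≤ f l} := by
    rw [Measure.restrict_apply hms]
    exact measure_mono hsub
  refine h3.trans ?_
  have he2 : 0 < e ^ 2 := by positivity
  rw [ENNReal.ofReal_div_of_pos he2, ENNReal.le_div_iff_mul_le
    (Or.inl (ENNReal.ofReal_pos.2 he2).ne') (Or.inl ENNReal.ofReal_ne_top), mul_comm]
  exact hmk.trans hM

end Mb

open Mb in
theorem t_MB (h : S_CRU) : S_MB := by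
  obtain ⟨_, _, _, hcont, _, _⟩ := h
  intro δ θ ρ κ hδ hθ hθ1 hρ hρ1 hP hlt k F hF A c hA hc
  set ε : ℝ := 2 * δ - θ - 2 * ρ - κ with hε
  have hε0 : 0 < ε := by linarith
  obtain ⟨C, T₀, hC, hT₀, hD⟩ := hP k A hA
  obtain ⟨hFm, hFg⟩ := hF
  obtain ⟨Cε, hCε, hG⟩ := hFg ε hε0
  set C' : ℝ := C * (Cε * 2 ^ (1 + ε)) / c ^ 2 with hC'
  have hC'0 : 0 < C' := by positivity
  refine ⟨4 * C', by positivity, ?_⟩
  have hpow : Tendsto (fun n : ℕ => (2 : ℝ) ^ n) atTop atTop :=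
    tendsto_pow_atTop_atTop_of_one_lt (by norm_num)
  filter_upwards [hpow.eventually_ge_atTop T₀] with n hn
  set T : ℝ := 2 ^ n with hT
  have hT1 : 1 ≤ T := hT₀.trans hn
  have hT0 : 0 < T := by linarith
  set N : ℕ := NN θ n with hN
  have hTθ : 1 ≤ T ^ θ := Real.one_le_rpow hT1 hθ.le
  have hN1 : 1 ≤ N := by
    rw [hN]
    unfold NN
    exact Nat.one_le_ceil_iff.2 (by linarith)
  have hN2 : (N : ℝ) ≤ 2 * T ^ θ := by
    have := Nat.ceil_lt_add_one (show 0 ≤ T ^ θ by positivity)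
    rw [hN]
    unfold NN
    linarith
  have hNR : (1 : ℝ) ≤ N := by exact_mod_cast hN1
  have hgp : ∀ j ≤ N, T ≤ gp θ n j ∧ gp θ n j ≤ 2 * T := by
    intro j hj
    have h1 : (0 : ℝ) ≤ (j : ℝ) / N := by positivity
    have h2 : (j : ℝ) / N ≤ 1 := by
      rw [div_le_one (by linarith)]
      exact_mod_cast hj
    unfold gp
    rw [← hT, ← hN]
    constructor <;> nlinarith
  set e : ℝ := c * T ^ (1 - ρ) with he
  have he0 : 0 < e := by positivity
  set M : ℝ := C * T ^ (1 - 2 * δ) * (Cε * (2 * T) ^ (1 + ε)) with hM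
  -- the mean square for one cell
  have hint : ∀ (H : ℝ → ℂ), Measurable H → (∀ t, ‖H t‖ₑ ≤ ‖F t‖ₑ) → ∀ a b : ℝ,
      ∫⁻ l in Icc (fun _ : Fin k => A⁻¹) (fun _ => A),
        ‖∫ t in Icc T (2 * T), (Icc a b).indicator H t * ((dif l t : ℝ) : ℂ)‖ₑ ^ 2 ≤
          ENNReal.ofReal M := by
    intro H hH hHF a b
    refine (hD T ((Icc a b).indicator H) hn (hH.indicator measurableSet_Icc)).trans ?_
    have hM' : ENNReal.ofReal M = ENNReal.ofReal (C * T ^ (1 - 2 * δ)) *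
        ENNReal.ofReal (Cε * (2 * T) ^ (1 + ε)) := by
      rw [hM, ENNReal.ofReal_mul (by positivity : 0 ≤ C * T ^ (1 - 2 * δ))]
    rw [hM']
    refine mul_le_mul_right ?_ _
    calc ∫⁻ t in Icc T (2 * T), ‖(Icc a b).indicator H t‖ₑ ^ 2
        ≤ ∫⁻ t in Icc T (2 * T), ‖F t‖ₑ ^ 2 := by
          refine lintegral_mono fun t => ?_
          have h1 : ‖(Icc a b).indicator H t‖ₑ ≤ ‖F t‖ₑ := by
            by_cases ht : t ∈ Icc a b
            · rw [indicator_of_mem ht]; exact hHF t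
            · rw [indicator_of_notMem ht, enorm_zero]; exact zero_le
          show ‖(Icc a b).indicator H t‖ₑ ^ 2 ≤ ‖F t‖ₑ ^ 2
          gcongr
      _ ≤ ∫⁻ t in Ioc 0 (2 * T), ‖F t‖ₑ ^ 2 :=
          lintegral_mono_set fun t ht => ⟨by linarith [ht.1], ht.2⟩
      _ ≤ ENNReal.ofReal (Cε * (2 * T) ^ (1 + ε)) := hG (2 * T) (by linarith)
  have hcov : Bad k F A c θ ρ n ⊆ ⋃ i ∈ Finset.range N,
      ({l : Fin k → ℝ | (∀ j, A⁻¹ ≤ l j ∧ l j ≤ A) ∧ e < JJ F l T (gp θ n i)} ∪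
        {l : Fin k → ℝ | (∀ j, A⁻¹ ≤ l j ∧ l j ≤ A) ∧
          e < JJ (fun t => ((‖F t‖ : ℝ) : ℂ)) l (gp θ n i) (gp θ n (i + 1))}) := by
    rintro l ⟨h1, i, hi, h2⟩
    refine mem_biUnion (x := i) (Finset.mem_coe.2 (Finset.mem_range.2 hi)) ?_
    rcases h2 with h2 | h2
    · exact Or.inl ⟨h1, h2⟩
    · exact Or.inr ⟨h1, h2⟩
  have hMe : M / e ^ 2 = C' * T ^ (-κ - θ) := by
    rw [hM, he, hC', Real.mul_rpow (by norm_num) hT0.le, mul_pow]
    have h1 : T ^ (-κ - θ) * (T ^ (1 - ρ)) ^ 2 = T ^ (1 - 2 * δ) * T ^ (1 + ε) := by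
      rw [← Real.rpow_natCast (T ^ (1 - ρ)), ← Real.rpow_mul hT0.le, ← Real.rpow_add hT0,
        ← Real.rpow_add hT0]
      congr 1
      push_cast
      rw [hε]
      ring
    have h2 : (T ^ (1 - ρ)) ^ 2 ≠ 0 := by positivity
    rw [div_eq_iff (by positivity)]
    calc C * T ^ (1 - 2 * δ) * (Cε * (2 ^ (1 + ε) * T ^ (1 + ε)))
        = C * (Cε * 2 ^ (1 + ε)) * (T ^ (1 - 2 * δ) * T ^ (1 + ε)) := by ring
      _ = C * (Cε * 2 ^ (1 + ε)) * (T ^ (-κ - θ) * (T ^ (1 - ρ)) ^ 2) := by rw [h1]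
      _ = _ := by field_simp
  calc volume (Bad k F A c θ ρ n) ≤ volume (⋃ i ∈ Finset.range N,
      ({l : Fin k → ℝ | (∀ j, A⁻¹ ≤ l j ∧ l j ≤ A) ∧ e < JJ F l T (gp θ n i)} ∪
        {l : Fin k → ℝ | (∀ j, A⁻¹ ≤ l j ∧ l j ≤ A) ∧
          e < JJ (fun t => ((‖F t‖ : ℝ) : ℂ)) l (gp θ n i) (gp θ n (i + 1))})) :=
        measure_mono hcov
    _ ≤ ∑ i ∈ Finset.range N, volume
      ({l : Fin k → ℝ | (∀ j, A⁻¹ ≤ l j ∧ l j ≤ A) ∧ e < JJ F l T (gp θ n i)} ∪
        {l : Fin k → ℝ | (∀ j, A⁻¹ ≤ l j ∧ l j ≤ A) ∧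
          e < JJ (fun t => ((‖F t‖ : ℝ) : ℂ)) l (gp θ n i) (gp θ n (i + 1))}) :=
        measure_biUnion_finset_le _ _
    _ ≤ ∑ _i ∈ Finset.range N, ENNReal.ofReal (2 * (M / e ^ 2)) := by
        refine Finset.sum_le_sum fun i hi => ?_
        rw [Finset.mem_range] at hi
        refine (measure_union_le _ _).trans ?_
        have g1 := hgp i hi.le
        have g2 := hgp (i + 1) hi
        have o1 := one hcont (k := k) (A := A) hFm le_rfl g1.2 he0
          (hint F hFm (fun _ => le_rfl) T (gp θ n i))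
        have o2 := one hcont (k := k) (A := A) (H := fun t => ((‖F t‖ : ℝ) : ℂ))
          (measurable_ofReal.comp hFm.norm) g1.1 g2.2 he0
          (hint (fun t => ((‖F t‖ : ℝ) : ℂ)) (measurable_ofReal.comp hFm.norm) (fun t => by
            show ‖((‖F t‖ : ℝ) : ℂ)‖ₑ ≤ ‖F t‖ₑ
            rw [← ofReal_norm_eq_enorm, norm_real, norm_norm, ofReal_norm_eq_enorm])
            (gp θ n i) (gp θ n (i + 1)))
        have hMe0 : 0 ≤ M / e ^ 2 := by rw [hMe]; positivity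
        rw [two_mul, ENNReal.ofReal_add hMe0 hMe0]
        exact add_le_add o1 o2
    _ = ENNReal.ofReal (N * (2 * (M / e ^ 2))) := by
        rw [Finset.sum_const, Finset.card_range, nsmul_eq_mul,
          ENNReal.ofReal_mul (Nat.cast_nonneg N : (0 : ℝ) ≤ (N : ℝ)), ENNReal.ofReal_natCast]
    _ ≤ ENNReal.ofReal (4 * C' * T ^ (-κ)) := by
        refine ENNReal.ofReal_le_ofReal ?_
        rw [hMe]
        have h1 : T ^ θ * T ^ (-κ - θ) = T ^ (-κ) := by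
          rw [← Real.rpow_add hT0]
          congr 1
          ring
        calc (N : ℝ) * (2 * (C' * T ^ (-κ - θ))) ≤ (2 * T ^ θ) * (2 * (C' * T ^ (-κ - θ))) := by
              gcongr
          _ = 4 * C' * (T ^ θ * T ^ (-κ - θ)) := by ring
          _ = 4 * C' * T ^ (-κ) := by rw [h1]

end Pool.Agent.N879.GD
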