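import Pool.Agent.N879.GD.Stm

set_option autoImplicit false

/-!
Project GD, statement OFI: the Mellin transform of the off-diagonal part of the approximate
functional equation (the Mellin representation of `V` and Fubini's theorem).
-/

namespace Pool.Agent.N879.GD

open Complex Filter Topology MeasureTheory Set
open Pool.Agent.Y969.GP (ff V ht lam PS co PX)

noncomputable section

/-- the weight in `GG` -/
def OFI_E (b : ℕ) (T u : ℝ) : ℝ := (u / T) ^ b * Real.exp (-(u / T)) / u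

/-- the factor which depends on `y` only -/
def OFI_A (σ T y : ℝ) : ℂ :=
  ((Real.pi⁻¹ * T ^ σ : ℝ) : ℂ) * cexp (-((σ + I * y) * (Real.log (2 * Real.pi) : ℝ))) *
    (cexp ((σ + I * y) ^ 2) / (σ + I * y))

/-- the factor which depends on `y` and `p` -/
def OFI_B (σ : ℝ) (p : ℕ × ℕ) (y : ℝ) : ℂ :=
  (((√(ht p))⁻¹ : ℝ) : ℂ) * cexp (-((σ + I * y) * (Real.log (ht p) : ℝ)))

/-- the integrand of `GG` -/
def OFI_P (b : ℕ) (T x ω u : ℝ) : ℂ :=
  (OFI_E b T u : ℂ) * cexp (I * ((u * x - ω * Real.log u : ℝ) : ℂ))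

/-- the kernel -/
def OFI_H (σ : ℝ) (b : ℕ) (T τ : ℝ) (p : ℕ × ℕ) (y u : ℝ) : ℂ :=
  OFI_A σ T y * (OFI_B σ p y * OFI_P b T (lam p) (τ - y) u)

theorem OFI_W (σ : ℝ) (b : ℕ) (T u : ℝ) (hT : 0 < T) (hu : 0 < u) :
    W (b - σ) T u = OFI_E b T u * T ^ σ * Real.exp (-(σ * Real.log u)) := by
  unfold W OFI_E
  have h1 : (u / T) ^ ((b : ℝ) - σ) = (u / T) ^ b * (T ^ σ * Real.exp (-(σ * Real.log u))) := by
    have hd : 0 < u / T := div_pos hu hT
    rw [Real.rpow_sub hd, Real.rpow_natCast, div_eq_mul_inv]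
    congr 1
    rw [Real.rpow_def_of_pos hd, Real.rpow_def_of_pos hT, ← Real.exp_neg, ← Real.exp_add,
      Real.log_div hu.ne' hT.ne']
    congr 1
    ring
  rw [h1]
  ring

theorem OFI_pt (hV : ∀ σ x : ℝ, 0 < σ → 0 < x → ((V x : ℝ) : ℂ) = ((2 * Real.pi : ℝ) : ℂ)⁻¹ *
    ∫ y : ℝ, cexp (-((σ + I * y) * (Real.log x : ℝ))) * cexp ((σ + I * y) ^ 2) / (σ + I * y))
    (σ : ℝ) (b : ℕ) (T τ u : ℝ) (p : ℕ × ℕ) (hσ : 0 < σ) (hT : 0 < T) (hu : 0 < u)
    (hp : 0 < ht p) :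
    (W (b - σ) T u : ℂ) * ((co p u : ℂ) * cexp (I * ((u * lam p : ℝ) : ℂ))) *
      cexp (-(I * ((τ * Real.log u : ℝ) : ℂ))) = ∫ y : ℝ, OFI_H σ b T τ p y u := by
  have h2 : (0 : ℝ) < 2 * Real.pi := by positivity
  have hx : 0 < 2 * Real.pi * ht p / u := by positivity
  have hlog : Real.log (2 * Real.pi * ht p / u) =
      Real.log (2 * Real.pi) + Real.log (ht p) - Real.log u := by
    rw [Real.log_div (by positivity) hu.ne', Real.log_mul h2.ne' hp.ne']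
  have e1 : ∀ y : ℝ, OFI_H σ b T τ p y u =
      ((W (b - σ) T u : ℂ) * (2 * (((√(ht p))⁻¹ : ℝ) : ℂ) * ((2 * Real.pi : ℝ) : ℂ)⁻¹) *
        cexp (I * ((u * lam p : ℝ) : ℂ)) * cexp (-(I * ((τ * Real.log u : ℝ) : ℂ)))) *
      (cexp (-((σ + I * y) * (Real.log (2 * Real.pi * ht p / u) : ℝ))) * cexp ((σ + I * y) ^ 2) /
        (σ + I * y)) := by
    intro y
    rw [OFI_W σ b T u hT hu, hlog]
    unfold OFI_H OFI_A OFI_B OFI_P
    have h3 : cexp (-((σ + I * y) * (Real.log (2 * Real.pi) : ℝ))) *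
        (cexp (-((σ + I * y) * (Real.log (ht p) : ℝ))) *
          cexp (I * ((u * lam p - (τ - y) * Real.log u : ℝ) : ℂ))) =
        ((Real.exp (-(σ * Real.log u)) : ℝ) : ℂ) * cexp (I * ((u * lam p : ℝ) : ℂ)) *
          cexp (-(I * ((τ * Real.log u : ℝ) : ℂ))) *
          cexp (-((σ + I * y) * ((Real.log (2 * Real.pi) + Real.log (ht p) - Real.log u : ℝ) : ℂ))) := by
      rw [Complex.ofReal_exp, ← Complex.exp_add, ← Complex.exp_add, ← Complex.exp_add,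
        ← Complex.exp_add, ← Complex.exp_add]
      congr 1
      push_cast
      ring
    have h4 : (2 : ℂ) * ((2 * Real.pi : ℝ) : ℂ)⁻¹ = ((Real.pi⁻¹ : ℝ) : ℂ) := by
      push_cast
      have : (Real.pi : ℂ) ≠ 0 := by exact_mod_cast Real.pi_ne_zero
      field_simp
    calc _ = ((Real.pi⁻¹ : ℝ) : ℂ) * ((T ^ σ : ℝ) : ℂ) * (OFI_E b T u : ℂ) *
          (((√(ht p))⁻¹ : ℝ) : ℂ) * (cexp ((σ + I * y) ^ 2) / (σ + I * y)) *
          (cexp (-((σ + I * y) * (Real.log (2 * Real.pi) : ℝ))) *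
        (cexp (-((σ + I * y) * (Real.log (ht p) : ℝ))) *
          cexp (I * ((u * lam p - (τ - y) * Real.log u : ℝ) : ℂ)))) := by
          push_cast
          ring
      _ = _ := by
          rw [h3, ← h4]
          push_cast
          ring
  simp only [e1]
  rw [integral_const_mul]
  have e2 : (co p u : ℂ) = 2 * (((√(ht p))⁻¹ : ℝ) : ℂ) * ((V (2 * Real.pi * ht p / u) : ℝ) : ℂ) := by
    unfold co
    push_cast
    ring
  rw [e2, hV σ _ hσ hx]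
  ring

theorem OFI_nA (σ T y : ℝ) (hσ : 0 < σ) (hT : 0 < T) :
    ‖OFI_A σ T y‖ ≤ Real.pi⁻¹ * T ^ σ * (Real.exp (σ ^ 2) / σ) * Real.exp (-1 * y ^ 2) := by
  unfold OFI_A
  have hT' : 0 < T ^ σ := Real.rpow_pos_of_pos hT σ
  have h0 : 0 < Real.pi⁻¹ * T ^ σ := by positivity
  have h1 : ‖cexp (-((σ + I * y) * (Real.log (2 * Real.pi) : ℝ)))‖ ≤ 1 := by
    rw [Complex.norm_exp, Real.exp_le_one_iff]
    have h2 : (-(((σ : ℂ) + I * y) * (Real.log (2 * Real.pi) : ℝ))).re =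
        -(σ * Real.log (2 * Real.pi)) := by
      simp
    rw [h2]
    have h3 : 0 ≤ Real.log (2 * Real.pi) := by
      apply Real.log_nonneg
      linarith [Real.pi_gt_three]
    nlinarith
  have h2 : ‖cexp (((σ : ℂ) + I * y) ^ 2)‖ = Real.exp (σ ^ 2) * Real.exp (-1 * y ^ 2) := by
    rw [Complex.norm_exp, ← Real.exp_add]
    congr 1
    simp [pow_two]
    ring
  have h3 : σ ≤ ‖(σ : ℂ) + I * y‖ := by
    have h4 := Complex.abs_re_le_norm ((σ : ℂ) + I * y)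
    have h5 : ((σ : ℂ) + I * y).re = σ := by simp
    rw [h5] at h4
    exact (le_abs_self σ).trans h4
  rw [norm_mul, norm_mul, norm_div, h2, Complex.norm_real, Real.norm_of_nonneg h0.le]
  have h6 : Real.exp (σ ^ 2) * Real.exp (-1 * y ^ 2) / ‖(σ : ℂ) + I * y‖ ≤
      Real.exp (σ ^ 2) * Real.exp (-1 * y ^ 2) / σ := by
    apply div_le_div_of_nonneg_left (by positivity) hσ h3
  calc Real.pi⁻¹ * T ^ σ * ‖cexp (-((σ + I * y) * (Real.log (2 * Real.pi) : ℝ)))‖ *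
        (Real.exp (σ ^ 2) * Real.exp (-1 * y ^ 2) / ‖(σ : ℂ) + I * y‖)
      ≤ Real.pi⁻¹ * T ^ σ * 1 * (Real.exp (σ ^ 2) * Real.exp (-1 * y ^ 2) / σ) := by
        apply mul_le_mul (mul_le_mul_of_nonneg_left h1 h0.le) h6 (by positivity)
        positivity
    _ = _ := by ring

theorem OFI_nB (σ y : ℝ) (p : ℕ × ℕ) :
    ‖OFI_B σ p y‖ = ‖(√(ht p))⁻¹‖ * Real.exp (-(σ * Real.log (ht p))) := by
  unfold OFI_B
  rw [norm_mul, Complex.norm_real, Complex.norm_exp]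
  congr 2
  simp

theorem OFI_nP (b : ℕ) (T x ω u : ℝ) : ‖OFI_P b T x ω u‖ = ‖OFI_E b T u‖ := by
  unfold OFI_P
  rw [norm_mul, Complex.norm_real, Complex.norm_exp]
  have : (I * ((u * x - ω * Real.log u : ℝ) : ℂ)).re = 0 := by
    simp
  rw [this, Real.exp_zero, mul_one]

theorem OFI_meas (σ : ℝ) (b : ℕ) (T τ : ℝ) (p : ℕ × ℕ) :
    Measurable (Function.uncurry (OFI_H σ b T τ p)) := by
  unfold OFI_H OFI_A OFI_B OFI_P OFI_E Function.uncurry
  fun_prop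

theorem OFI_int (σ : ℝ) (b : ℕ) (T τ : ℝ) (p : ℕ × ℕ) (hσ : 0 < σ) (hT : 0 < T)
    (hE : IntegrableOn (OFI_E b T) (Ioi 0)) :
    Integrable (Function.uncurry (OFI_H σ b T τ p))
      ((volume : Measure ℝ).prod (volume.restrict (Ioi (0 : ℝ)))) := by
  have h1 : Integrable (fun y : ℝ => Real.exp (-1 * y ^ 2)) := integrable_exp_neg_mul_sq one_pos
  have h2 : Integrable (fun u : ℝ => (Real.pi⁻¹ * T ^ σ * (Real.exp (σ ^ 2) / σ) *
      (‖(√(ht p))⁻¹‖ * Real.exp (-(σ * Real.log (ht p))))) * ‖OFI_E b T u‖)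
      (volume.restrict (Ioi (0 : ℝ))) := (Integrable.norm hE).const_mul _
  refine (h1.mul_prod h2).mono' (OFI_meas σ b T τ p).aestronglyMeasurable
    (Filter.Eventually.of_forall fun z => ?_)
  show ‖OFI_H σ b T τ p z.1 z.2‖ ≤ _
  unfold OFI_H
  rw [norm_mul, norm_mul, OFI_nB, OFI_nP]
  have h3 := OFI_nA σ T z.1 hσ hT
  have h4 : 0 ≤ ‖(√(ht p))⁻¹‖ * Real.exp (-(σ * Real.log (ht p))) * ‖OFI_E b T z.2‖ := by positivity
  calc _ ≤ (Real.pi⁻¹ * T ^ σ * (Real.exp (σ ^ 2) / σ) * Real.exp (-1 * z.1 ^ 2)) *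
        (‖(√(ht p))⁻¹‖ * Real.exp (-(σ * Real.log (ht p))) * ‖OFI_E b T z.2‖) :=
        mul_le_mul_of_nonneg_right h3 h4
    _ = _ := by ring

theorem OFI_inner (σ : ℝ) (b : ℕ) (T τ : ℝ) (p : ℕ × ℕ) (y : ℝ) :
    ∫ u in Ioi (0 : ℝ), OFI_H σ b T τ p y u = OFI_A σ T y * bt σ b T y (τ - y) p.1 p.2 := by
  unfold OFI_H
  rw [integral_const_mul, integral_const_mul]
  rfl

theorem t_OFI (h1 : Pool.Agent.Y969.GP.S_V) (h2 : S_GF) (h3 : S_SUM) : S_OFI := by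
  obtain ⟨-, -, -, -, -, -, hV⟩ := h1
  obtain ⟨ε, δ, b, hε, hε4, hδ, hδ1, hb, C, T₀, hC, hT₀, hS⟩ := h3
  obtain ⟨σ, hσd⟩ : ∃ σ, σ = δ / 2 := ⟨_, rfl⟩
  have hσ : 0 < σ := by rw [hσd]; linarith
  have hσ1 : σ ≤ 1 := by rw [hσd]; linarith
  have hb' : (4 : ℝ) ≤ b := by exact_mod_cast hb
  obtain ⟨M, hM⟩ : ∃ M : ℝ, M = ∫ y : ℝ, (1 + |y|) * Real.exp (-1 * y ^ 2) := ⟨_, rfl⟩
  have hgi : Integrable (fun y : ℝ => (1 + |y|) * Real.exp (-1 * y ^ 2)) := by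
    have i1 : Integrable (fun y : ℝ => Real.exp (-1 * y ^ 2)) := integrable_exp_neg_mul_sq one_pos
    have i2 : Integrable (fun y : ℝ => y * Real.exp (-1 * y ^ 2)) :=
      integrable_mul_exp_neg_mul_sq one_pos
    refine (i1.add i2.norm).congr (Filter.Eventually.of_forall fun y => ?_)
    simp only [Pi.add_apply, norm_mul, Real.norm_eq_abs, Real.abs_exp]
    ring
  have hM0 : 0 ≤ M := by
    rw [hM]
    exact integral_nonneg fun y => by positivity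
  obtain ⟨K, hK⟩ : ∃ K : ℝ, K = Real.pi⁻¹ * (Real.exp (σ ^ 2) / σ) * C := ⟨_, rfl⟩
  have hK0 : 0 ≤ K := by
    rw [hK]
    positivity
  refine ⟨b - σ, ε, δ / 2, by linarith, hε, hε4, by linarith, by linarith, K * M + 1, T₀,
    by positivity, hT₀, fun T τ X hT hX1 hX2 => ?_⟩
  have hT0 : 0 < T := by linarith
  have hE : IntegrableOn (OFI_E b T) (Ioi 0) := (h2 b T 0 0 (by omega) hT0).1
  obtain ⟨P, hP⟩ : ∃ P, P = (PS X).filter (fun p => p.1 ≠ p.2) := ⟨_, rfl⟩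
  have hpos : ∀ p ∈ P, 0 < ht p := by
    intro p hp
    rw [hP, Finset.mem_filter] at hp
    have hp1 := hp.1
    unfold PS at hp1
    rw [Finset.mem_filter, Finset.mem_product, Finset.mem_Icc, Finset.mem_Icc] at hp1
    have a1 : (0 : ℝ) < p.1 := by exact_mod_cast hp1.1.1.1
    have a2 : (0 : ℝ) < p.2 := by exact_mod_cast hp1.1.2.1
    unfold ht
    positivity
  have hI : ∀ p, Integrable (Function.uncurry (OFI_H σ b T τ p))
      ((volume : Measure ℝ).prod (volume.restrict (Ioi (0 : ℝ)))) := fun p =>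
    OFI_int σ b T τ p hσ hT0 hE
  rw [← hP]
  have e1 : ∫ u in Ioi (0 : ℝ), (W (b - σ) T u : ℂ) * (∑ p ∈ P,
      (co p u : ℂ) * cexp (I * ((u * lam p : ℝ) : ℂ))) *
      cexp (-(I * ((τ * Real.log u : ℝ) : ℂ))) =
      ∫ u in Ioi (0 : ℝ), ∑ p ∈ P, ∫ y : ℝ, OFI_H σ b T τ p y u := by
    refine setIntegral_congr_fun measurableSet_Ioi fun u hu => ?_
    show (W (b - σ) T u : ℂ) * (∑ p ∈ P, (co p u : ℂ) * cexp (I * ((u * lam p : ℝ) : ℂ))) *
      cexp (-(I * ((τ * Real.log u : ℝ) : ℂ))) = _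
    rw [Finset.mul_sum, Finset.sum_mul]
    exact Finset.sum_congr rfl fun p hp =>
      OFI_pt hV σ b T τ u p hσ hT0 hu (hpos p hp)
  have e2 : ∫ u in Ioi (0 : ℝ), ∑ p ∈ P, ∫ y : ℝ, OFI_H σ b T τ p y u =
      ∑ p ∈ P, ∫ u in Ioi (0 : ℝ), ∫ y : ℝ, OFI_H σ b T τ p y u :=
    integral_finsetSum P fun p _ => (hI p).integral_prod_right
  have e3 : ∀ p, ∫ u in Ioi (0 : ℝ), ∫ y : ℝ, OFI_H σ b T τ p y u =
      ∫ y : ℝ, OFI_A σ T y * bt σ b T y (τ - y) p.1 p.2 := by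
    intro p
    rw [← integral_integral_swap (hI p)]
    simp only [OFI_inner]
  have e4 : ∑ p ∈ P, ∫ y : ℝ, OFI_A σ T y * bt σ b T y (τ - y) p.1 p.2 =
      ∫ y : ℝ, ∑ p ∈ P, OFI_A σ T y * bt σ b T y (τ - y) p.1 p.2 := by
    refine (integral_finsetSum P fun p _ => ?_).symm
    refine (hI p).integral_prod_left.congr (Filter.Eventually.of_forall fun y => ?_)
    exact OFI_inner σ b T τ p y
  rw [e1, e2, Finset.sum_congr rfl fun p _ => e3 p, e4]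
  have hb1 : ∀ y : ℝ, ‖∑ p ∈ P, OFI_A σ T y * bt σ b T y (τ - y) p.1 p.2‖ ≤
      (K * T ^ (-(δ / 2))) * ((1 + |y|) * Real.exp (-1 * y ^ 2)) := by
    intro y
    rw [← Finset.mul_sum, norm_mul]
    have b1 := OFI_nA σ T y hσ hT0
    have b2 := hS σ T y (τ - y) X hσ.le hσ1 hT hX1 hX2
    rw [← hP] at b2
    have hTs : T ^ σ * T ^ (-δ) = T ^ (-(δ / 2)) := by
      rw [← Real.rpow_add hT0, hσd]
      congr 1
      ring
    calc _ ≤ (Real.pi⁻¹ * T ^ σ * (Real.exp (σ ^ 2) / σ) * Real.exp (-1 * y ^ 2)) *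
          (C * (1 + |y|) * T ^ (-δ)) := by
          apply mul_le_mul b1 b2 (norm_nonneg _)
          have := Real.rpow_pos_of_pos hT0 σ
          positivity
      _ = Real.pi⁻¹ * (Real.exp (σ ^ 2) / σ) * C * (T ^ σ * T ^ (-δ)) *
          ((1 + |y|) * Real.exp (-1 * y ^ 2)) := by ring
      _ = _ := by rw [hTs, hK]
  have hb2 := norm_integral_le_of_norm_le (hgi.const_mul (K * T ^ (-(δ / 2))))
    (Filter.Eventually.of_forall hb1)
  rw [integral_const_mul, ← hM] at hb2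
  have hTp : 0 < T ^ (-(δ / 2)) := Real.rpow_pos_of_pos hT0 _
  calc _ ≤ K * T ^ (-(δ / 2)) * M := hb2
    _ ≤ (K * M + 1) * T ^ (-(δ / 2)) := by nlinarith

end

end Pool.Agent.N879.GD
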