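import Pool.Agent.N879.GD.Stm
import Pool.Agent.Helper76.HPlanch

set_option autoImplicit false

/-!
Task PL of project GD: Plancherel's theorem for the Mellin transform (helper701).
-/

namespace Pool.Agent.N879.GD

open Complex Filter Topology MeasureTheory Set FourierTransform
open scoped ENNReal Convolution

lemma pl_image : Real.exp '' univ = Ioi 0 := by
  rw [image_univ, Real.range_exp]

lemma pl_cvl (f : ℝ → ℝ≥0∞) :
    ∫⁻ t in Ioi (0 : ℝ), f t * ENNReal.ofReal t⁻¹ = ∫⁻ v, f (Real.exp v) := by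
  have h := lintegral_image_eq_lintegral_abs_deriv_mul (s := univ) (f := Real.exp)
    (f' := Real.exp) MeasurableSet.univ
    (fun x _ => (Real.hasDerivAt_exp x).hasDerivWithinAt) Real.exp_injective.injOn
    (fun t => f t * ENNReal.ofReal t⁻¹)
  rw [pl_image] at h
  rw [h, Measure.restrict_univ]
  refine lintegral_congr fun v => ?_
  have e1 : ENNReal.ofReal |Real.exp v| * ENNReal.ofReal (Real.exp v)⁻¹ = 1 := by
    rw [abs_of_pos (Real.exp_pos v), ← ENNReal.ofReal_mul (Real.exp_pos v).le,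
      mul_inv_cancel₀ (Real.exp_pos v).ne', ENNReal.ofReal_one]
  calc _ = f (Real.exp v) * (ENNReal.ofReal |Real.exp v| * ENNReal.ofReal (Real.exp v)⁻¹) := by
        ring
    _ = _ := by rw [e1, mul_one]

lemma pl_cvi (f : ℝ → ℂ) :
    ∫ t in Ioi (0 : ℝ), f t / t = ∫ v, f (Real.exp v) := by
  have h := integral_image_eq_integral_abs_deriv_smul (s := univ) (f := Real.exp)
    (f' := Real.exp) MeasurableSet.univ
    (fun x _ => (Real.hasDerivAt_exp x).hasDerivWithinAt) Real.exp_injective.injOn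
    (fun t => f t / (t : ℂ))
  rw [pl_image] at h
  rw [h, Measure.restrict_univ]
  refine integral_congr_ae (Eventually.of_forall fun v => ?_)
  have h0 : ((Real.exp v : ℝ) : ℂ) ≠ 0 := by
    exact_mod_cast (Real.exp_pos v).ne'
  simp only [abs_of_pos (Real.exp_pos v), real_smul]
  field_simp

theorem t_PL : S_PL := by
  intro F G a b B ha hab hF hF0 hF2 hG hG0 hB hbd
  set F1 : ℝ → ℂ := fun v => F (Real.exp v) with hF1
  set G1 : ℝ → ℂ := fun v => G (Real.exp v) with hG1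
  -- measurability, supports
  have hF1m : Measurable F1 := hF.comp Real.measurable_exp
  have hF1s : ∀ v, v ∉ Icc (Real.log a) (Real.log b) → F1 v = 0 := by
    intro v hv
    apply hF0
    intro hc
    apply hv
    constructor
    · rw [Real.log_le_iff_le_exp ha]; exact hc.1
    · rw [Real.le_log_iff_exp_le (lt_of_lt_of_le ha hab)]; exact hc.2
  have hG1s : ∀ v, v ∉ Icc (Real.log a) (Real.log b) → G1 v = 0 := by
    intro v hv
    apply hG0
    intro hc
    apply hv
    constructor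
    · rw [Real.log_le_iff_le_exp ha]; exact hc.1
    · rw [Real.le_log_iff_exp_le (lt_of_lt_of_le ha hab)]; exact hc.2
  have hG1c : Continuous G1 := hG.comp Real.continuous_exp
  have hG1k : HasCompactSupport G1 := HasCompactSupport.intro isCompact_Icc hG1s
  have hG1i : Integrable G1 := hG1c.integrable_of_hasCompactSupport hG1k
  -- the right hand side
  have hR : ∫⁻ t in Ioi (0 : ℝ), ‖F t‖ₑ ^ 2 * ENNReal.ofReal t⁻¹ = ∫⁻ v, ‖F1 v‖ₑ ^ 2 :=
    pl_cvl (fun t => ‖F t‖ₑ ^ 2)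
  have hF1f : ∫⁻ v, ‖F1 v‖ₑ ^ 2 ≠ ⊤ := by
    rw [← hR]
    have h1 : ∫⁻ t in Ioi (0 : ℝ), ‖F t‖ₑ ^ 2 * ENNReal.ofReal t⁻¹ ≤
        ∫⁻ t, ‖F t‖ₑ ^ 2 * ENNReal.ofReal a⁻¹ := by
      refine (lintegral_mono fun t => ?_).trans (setLIntegral_le_lintegral _ _)
      by_cases ht : t ∈ Icc a b
      · gcongr
        exact ht.1
      · rw [hF0 t ht]; simp
    refine ne_top_of_le_ne_top ?_ h1
    rw [lintegral_mul_const _ (by fun_prop)]
    exact ENNReal.mul_ne_top hF2 ENNReal.ofReal_ne_top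
  have hF1L2 : MemLp F1 2 := by
    refine ⟨hF1m.aestronglyMeasurable, ?_⟩
    rw [eLpNorm_eq_lintegral_rpow_enorm_toReal (by norm_num) (by norm_num)]
    simp only [ENNReal.toReal_ofNat, ENNReal.rpow_ofNat]
    exact ENNReal.rpow_lt_top_of_nonneg (by norm_num) hF1f
  have hF1i : Integrable F1 := by
    have h1 : Integrable F1 (volume.restrict (Icc (Real.log a) (Real.log b))) :=
      (hF1L2.restrict _).integrable (by norm_num)
    have h2 : IntegrableOn F1 (Icc (Real.log a) (Real.log b)) := h1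
    exact h2.integrable_of_forall_notMem_eq_zero hF1s
  -- reflected F1
  set F2 : ℝ → ℂ := fun v => F1 (-v) with hF2d
  have hF2i : Integrable F2 := hF1i.comp_neg
  have hF2L2 : MemLp F2 2 := by
    have := hF1L2.comp_measurePreserving (Measure.measurePreserving_neg (volume : Measure ℝ))
    exact this
  -- the convolution
  set H1 : ℝ → ℂ := F2 ⋆[ContinuousLinearMap.mul ℂ ℂ] G1 with hH1
  have hH1v : ∀ w, H1 w = ∫ v, F1 v * G1 (w + v) := by
    intro w
    rw [hH1]
    unfold MeasureTheory.convolution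
    rw [← integral_neg_eq_self]
    refine integral_congr_ae (Eventually.of_forall fun v => ?_)
    simp [hF2d]
  have hH1i : Integrable H1 := hF2i.integrable_convolution _ hG1i
  obtain ⟨M, hM⟩ := hG1k.exists_bound_of_continuous hG1c
  have hH1b : ∀ w, ‖H1 w‖ ≤ M * ∫ v, ‖F1 v‖ := by
    intro w
    rw [hH1v w]
    refine (norm_integral_le_integral_norm _).trans ?_
    rw [← integral_const_mul]
    refine integral_mono_of_nonneg (Eventually.of_forall fun v => norm_nonneg _)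
      (hF1i.norm.const_mul M) (Eventually.of_forall fun v => ?_)
    simp only [norm_mul]
    rw [mul_comm]
    gcongr
    exact hM _
  have hH1L2 : MemLp H1 2 := by
    rw [memLp_two_iff_integrable_sq_norm hH1i.aestronglyMeasurable]
    have : (fun x => ‖H1 x‖ ^ 2) = fun x => ‖H1 x‖ * ‖H1 x‖ := by
      funext x; ring
    rw [this]
    refine hH1i.norm.bdd_mul (c := M * ∫ v, ‖F1 v‖) hH1i.norm.aestronglyMeasurable ?_
    refine Eventually.of_forall fun x => ?_
    rw [norm_norm]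
    exact hH1b x
  -- Plancherel
  have P1 := Pool.Agent.Helper76.NormalHP.plancherel_lintegral H1 hH1i hH1L2
  have P2 := Pool.Agent.Helper76.NormalHP.plancherel_lintegral F2 hF2i hF2L2
  have hFT : ∀ ξ, 𝓕 H1 ξ = 𝓕 F2 ξ * 𝓕 G1 ξ := fun ξ =>
    Real.fourier_mul_convolution_eq hF2i hG1i ξ
  have hGb : ∀ ξ, ‖𝓕 G1 ξ‖ ≤ B := by
    intro ξ
    have h := hbd (2 * Real.pi * ξ)
    have e : ∫ u in Ioi (0 : ℝ), G u / u * cexp (-(I * ((2 * Real.pi * ξ * Real.log u : ℝ) : ℂ))) =
        𝓕 G1 ξ := by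
      rw [Real.fourier_eq']
      have e2 := pl_cvi (fun u => cexp (-(I * ((2 * Real.pi * ξ * Real.log u : ℝ) : ℂ))) * G u)
      have e3 : ∫ u in Ioi (0 : ℝ), G u / u *
          cexp (-(I * ((2 * Real.pi * ξ * Real.log u : ℝ) : ℂ))) =
          ∫ t in Ioi (0 : ℝ), cexp (-(I * ((2 * Real.pi * ξ * Real.log t : ℝ) : ℂ))) * G t / t := by
        refine integral_congr_ae (Eventually.of_forall fun t => ?_)
        simp only
        ring
      rw [e3, e2]
      refine integral_congr_ae (Eventually.of_forall fun v => ?_)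
      simp only [Real.log_exp, smul_eq_mul, hG1]
      congr 2
      simp
      ring
    rw [e] at h
    exact h
  -- the left hand side
  have hL : ∫⁻ l in Ioi (0 : ℝ), ‖∫ t in Ioi (0 : ℝ), F t * G (l * t) / t‖ₑ ^ 2 *
      ENNReal.ofReal l⁻¹ = ∫⁻ w, ‖H1 w‖ₑ ^ 2 := by
    rw [pl_cvl (fun l => ‖∫ t in Ioi (0 : ℝ), F t * G (l * t) / t‖ₑ ^ 2)]
    refine lintegral_congr fun w => ?_
    rw [pl_cvi (fun t => F t * G (Real.exp w * t)), hH1v w]
    simp only [hF1, hG1, Real.exp_add]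
  rw [hL, hR, ← P1]
  calc ∫⁻ ξ, ‖𝓕 H1 ξ‖ₑ ^ 2 ≤ ∫⁻ ξ, ENNReal.ofReal (B ^ 2) * ‖𝓕 F2 ξ‖ₑ ^ 2 := by
        refine lintegral_mono fun ξ => ?_
        rw [hFT ξ, enorm_mul, mul_pow, mul_comm, ENNReal.ofReal_pow hB]
        gcongr
        rw [← ofReal_norm]
        exact ENNReal.ofReal_le_ofReal (hGb ξ)
    _ = ENNReal.ofReal (B ^ 2) * ∫⁻ ξ, ‖𝓕 F2 ξ‖ₑ ^ 2 := by
        rw [lintegral_const_mul' _ _ ENNReal.ofReal_ne_top]
    _ = ENNReal.ofReal (B ^ 2) * ∫⁻ v, ‖F2 v‖ₑ ^ 2 := by rw [P2]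
    _ = ENNReal.ofReal (B ^ 2) * ∫⁻ v, ‖F1 v‖ₑ ^ 2 := by
        congr 1
        exact (Measure.measurePreserving_neg (volume : Measure ℝ)).lintegral_comp
          (f := fun v => ‖F1 v‖ₑ ^ 2) (by fun_prop)

end Pool.Agent.N879.GD
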