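import Pool.Agent.Y969.GP.Def

set_option autoImplicit false

/-!
Project GD (helper879): `∫ F(t) ∏ |ζ(1/2+iλ_j t)|² dt` for generic dilations `λ`, with a power saving.
Definitions and statements.
-/

namespace Pool.Agent.N879.GD

open Complex Filter Topology MeasureTheory Set
open Pool.Agent.Y969.GP (ff V ht lam PS co PX)

noncomputable section

/-! ### Definitions -/

/-- the main term of `|ζ(1/2+iu)|²` -/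
def D0 (u : ℝ) : ℝ := Real.log (u / (2 * Real.pi)) + 2 * Real.eulerMascheroniConstant

/-- the integral `∫ (u/T)^b e^(-u/T) e^(iux) u^(-iω) du/u` -/
def GG (b : ℕ) (T x ω : ℝ) : ℂ :=
  ∫ u in Ioi (0 : ℝ), (((u / T) ^ b * Real.exp (-(u / T)) / u : ℝ) : ℂ) *
    cexp (I * ((u * x - ω * Real.log u : ℝ) : ℂ))

/-- the size of `R` times the first derivative of `log log (1+t/m)` at `t = R` -/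
def kap (m R : ℕ) : ℝ := (R : ℝ) / (m + R) / Real.log (1 + (R : ℝ) / m)

/-- the summand -/
def bt (σ : ℝ) (b : ℕ) (T y ω : ℝ) (m n : ℕ) : ℂ :=
  (((√((m : ℝ) * n))⁻¹ : ℝ) : ℂ) * cexp (-((σ + I * y) * (Real.log ((m : ℝ) * n) : ℝ))) *
    GG b T (Real.log n - Real.log m) ω

/-- the size of `T x` on a block -/
def zz (T : ℝ) (m R : ℕ) : ℝ := T * Real.log (1 + (R : ℝ) / m)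

/-- the weight `(u/T)^a e^(-u/T) / u` -/
def W (a T u : ℝ) : ℝ := (u / T) ^ a * Real.exp (-(u / T)) / u

/-- `∏ |ζ(1/2+i l_j t)|² - ∏ (log(l_j t/2π)+2γ)` -/
def dif {k : ℕ} (l : Fin k → ℝ) (t : ℝ) : ℝ := ∏ j, ff (l j * t) - ∏ j, D0 (l j * t)

/-- the weighted integral over `[a,b]` -/
def JJ {k : ℕ} (F : ℝ → ℂ) (l : Fin k → ℝ) (a b : ℝ) : ℝ :=
  ‖∫ t in Icc a b, F t * ((dif l t : ℝ) : ℂ)‖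

/-- the number of cells at scale `2^n` -/
def NN (θ : ℝ) (n : ℕ) : ℕ := ⌈((2 : ℝ) ^ n) ^ θ⌉₊

/-- the endpoints of the cells -/
def gp (θ : ℝ) (n j : ℕ) : ℝ := 2 ^ n * (1 + (j : ℝ) / NN θ n)

/-- the bad parameters at scale `2^n` -/
def Bad (k : ℕ) (F : ℝ → ℂ) (A c θ ρ : ℝ) (n : ℕ) : Set (Fin k → ℝ) :=
  {l | (∀ j, A⁻¹ ≤ l j ∧ l j ≤ A) ∧ ∃ i < NN θ n,
    c * ((2 : ℝ) ^ n) ^ (1 - ρ) < JJ F l (2 ^ n) (gp θ n i) ∨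
    c * ((2 : ℝ) ^ n) ^ (1 - ρ) < JJ (fun t => ((‖F t‖ : ℝ) : ℂ)) l (gp θ n i) (gp θ n (i + 1))}

/-- the class of weights: mean square at most `T^(1+o(1))` -/
def Gr (F : ℝ → ℂ) : Prop := Measurable F ∧ ∀ ε : ℝ, 0 < ε → ∃ C : ℝ, 0 < C ∧ ∀ T : ℝ, 1 ≤ T →
  ∫⁻ t in Ioc 0 T, ‖F t‖ₑ ^ 2 ≤ ENNReal.ofReal (C * T ^ (1 + ε))

/-! ### Statements: exponential sums -/

/-- GAM: Stirling's upper bound on vertical lines -/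
def S_GAM : Prop := ∀ b : ℕ, 1 ≤ b → ∃ C : ℝ, 0 < C ∧ ∀ ω : ℝ,
  ‖Gamma ((b : ℂ) - I * ω)‖ ≤ C * (1 + |ω|) ^ ((b : ℝ) - 1 / 2) * Real.exp (-(Real.pi * |ω| / 2))

/-- GF: closed form of `GG` -/
def S_GF : Prop := ∀ (b : ℕ) (T x ω : ℝ), 1 ≤ b → 0 < T →
  IntegrableOn (fun u : ℝ => (u / T) ^ b * Real.exp (-(u / T)) / u) (Ioi 0) ∧
  GG b T x ω = ((T : ℂ) ^ b)⁻¹ * Gamma ((b : ℂ) - I * ω) *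
    cexp (-((b : ℂ) - I * ω) * Complex.log ((T : ℂ)⁻¹ - I * x))

/-- GK: bound of `GG` -/
def S_GK : Prop := ∀ b : ℕ, 1 ≤ b → ∃ C : ℝ, 0 < C ∧ ∀ T x ω : ℝ, 0 < T → 1 ≤ |x| * T →
  ‖GG b T x ω‖ ≤ C * (1 + |ω|) ^ (-(1 / 2 : ℝ)) * ((1 + |ω|) / (|x| * T)) ^ b *
    Real.exp (-(|ω| / (2 * (|x| * T))))

/-- LL: van der Corput's method for the phase `ω log log (1+t/m)` -/
def S_LL : Prop := ∃ η : ℝ, 0 < η ∧ η ≤ 1 ∧ ∃ C : ℝ, 0 < C ∧ ∀ (m R L : ℕ) (u ω : ℝ), 1 ≤ m → 1 ≤ R →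
  (R : ℝ) ≤ u → L ≤ R → u + L ≤ 3 * R → 2 * Real.pi ≤ kap m R * |ω| → kap m R * |ω| ≤ (R : ℝ) ^ 5 →
  ‖∑ n ∈ Finset.range L, cexp (I * ((ω * Real.log (Real.log (1 + (u + n) / m)) : ℝ) : ℂ))‖ ≤
    C * ((R : ℝ) ^ (1 - η) + R / (kap m R * |ω|))

/-- BA: trivial bound for a block -/
def S_BA : Prop := ∀ b : ℕ, 1 ≤ b → ∃ C : ℝ, 0 < C ∧ ∀ (σ T y ω : ℝ) (m R L : ℕ), 0 ≤ σ → σ ≤ 1 →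
  0 < T → 1 ≤ m → 1 ≤ R → L ≤ R → 1 ≤ zz T m R →
  ‖∑ r ∈ Finset.range L, bt σ b T y ω m (m + R + r)‖ ≤
    C * (√((m : ℝ) * (m + R)))⁻¹ * (1 + |ω|) ^ (-(1 / 2 : ℝ)) * ((1 + |ω|) / zz T m R) ^ b *
      Real.exp (-(|ω| / (4 * zz T m R))) * R

/-- BB: bound for a block with a saving -/
def S_BB : Prop := ∃ η : ℝ, 0 < η ∧ η ≤ 1 ∧ ∀ b : ℕ, 1 ≤ b → ∃ C : ℝ, 0 < C ∧
  ∀ (σ T y ω : ℝ) (m R L : ℕ), 0 ≤ σ → σ ≤ 1 → 0 < T → 1 ≤ m → 1 ≤ R → L ≤ R → 1 ≤ zz T m R →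
  2 * Real.pi ≤ kap m R * |ω| → kap m R * |ω| ≤ (R : ℝ) ^ 5 →
  ‖∑ r ∈ Finset.range L, bt σ b T y ω m (m + R + r)‖ ≤
    C * (1 + |y|) * (√((m : ℝ) * (m + R)))⁻¹ * (1 + |ω|) ^ (-(1 / 2 : ℝ)) *
      ((1 + |ω|) / zz T m R) ^ b * (1 + (1 + |ω|) / zz T m R) *
      Real.exp (-(|ω| / (4 * zz T m R))) * ((R : ℝ) ^ (1 - η) + R / (kap m R * |ω|))

/-- SUM: the sum over all pairs off the diagonal -/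
def S_SUM : Prop := ∃ (ε δ : ℝ) (b : ℕ), 0 < ε ∧ ε ≤ 1 / 4 ∧ 0 < δ ∧ δ ≤ 1 ∧ 4 ≤ b ∧ ∃ C T₀ : ℝ, 0 < C ∧
  1 ≤ T₀ ∧ ∀ (σ T y ω : ℝ) (X : ℕ), 0 ≤ σ → σ ≤ 1 → T₀ ≤ T → T ^ (1 + ε) ≤ X → X ≤ 2 * T ^ (1 + ε) →
  ‖∑ p ∈ (PS X).filter (fun p => p.1 ≠ p.2), bt σ b T y ω p.1 p.2‖ ≤ C * (1 + |y|) * T ^ (-δ)

/-! ### Statements: the Mellin transform of `|ζ|² - D0` -/

/-- OFI: the off-diagonal part of the approximate functional equation -/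
def S_OFI : Prop := ∃ a ε δ : ℝ, 3 < a ∧ 0 < ε ∧ ε ≤ 1 / 4 ∧ 0 < δ ∧ δ ≤ 1 ∧ ∃ C T₀ : ℝ, 0 < C ∧ 1 ≤ T₀ ∧
  ∀ (T τ : ℝ) (X : ℕ), T₀ ≤ T → T ^ (1 + ε) ≤ X → X ≤ 2 * T ^ (1 + ε) →
  ‖∫ u in Ioi (0 : ℝ), (W a T u : ℂ) * (∑ p ∈ (PS X).filter (fun p => p.1 ≠ p.2),
      (co p u : ℂ) * cexp (I * ((u * lam p : ℝ) : ℂ))) *
      cexp (-(I * ((τ * Real.log u : ℝ) : ℂ)))‖ ≤ C * T ^ (-δ)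

/-- DIA: the diagonal part of the approximate functional equation -/
def S_DIA : Prop := ∀ ε : ℝ, 0 < ε → ∃ C : ℝ, 0 < C ∧ ∀ (u : ℝ) (X : ℕ), 1 ≤ u → u ^ (1 + ε) ≤ X →
  |∑ p ∈ (PS X).filter (fun p => p.1 = p.2), co p u - D0 u| ≤ C * u ^ (-(1 / 2 : ℝ))

/-- CRU: crude bounds for `ff` -/
def S_CRU : Prop := ∃ (C : ℝ) (N : ℕ), 0 < C ∧ Continuous ff ∧ (∀ u : ℝ, 0 ≤ u → ff u ≤ C * (1 + u) ^ N) ∧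
  ∀ u v : ℝ, 0 ≤ u → 0 ≤ v → |ff u - ff v| ≤ C * (1 + u + v) ^ N * |u - v|

/-- LEM: the Mellin transform of `ff - D0` with the weight `W` -/
def S_LEM : Prop := ∃ a δ : ℝ, 3 < a ∧ 0 < δ ∧ δ ≤ 1 ∧ ∃ C T₀ : ℝ, 0 < C ∧ 1 ≤ T₀ ∧
  ∀ T : ℝ, T₀ ≤ T → IntegrableOn (fun u => W a T u * (ff u - D0 u)) (Ioi 0) ∧ ∀ τ : ℝ,
  ‖∫ u in Ioi (0 : ℝ), ((W a T u * (ff u - D0 u) : ℝ) : ℂ) *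
      cexp (-(I * ((τ * Real.log u : ℝ) : ℂ)))‖ ≤ C * T ^ (-δ)

/-- LEW: the same for smooth compactly supported weights -/
def S_LEW : Prop := ∃ δ : ℝ, 0 < δ ∧ δ ≤ 1 ∧ ∀ w : ℝ → ℝ, ContDiff ℝ (⊤ : ℕ∞) w → HasCompactSupport w →
  tsupport w ⊆ Ioi 0 → ∃ C T₀ : ℝ, 0 < C ∧ 1 ≤ T₀ ∧ ∀ T τ : ℝ, T₀ ≤ T →
  ‖∫ u in Ioi (0 : ℝ), ((w (u / T) * (ff u - D0 u) / u : ℝ) : ℂ) *
      cexp (-(I * ((τ * Real.log u : ℝ) : ℂ)))‖ ≤ C * T ^ (-δ)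

/-! ### Statements: mean squares over the dilations -/

/-- PL: Plancherel's theorem for the Mellin transform -/
def S_PL : Prop := ∀ (F G : ℝ → ℂ) (a b B : ℝ), 0 < a → a ≤ b → Measurable F →
  (∀ t, t ∉ Icc a b → F t = 0) → ∫⁻ t, ‖F t‖ₑ ^ 2 ≠ ⊤ → Continuous G →
  (∀ t, t ∉ Icc a b → G t = 0) → 0 ≤ B →
  (∀ τ : ℝ, ‖∫ u in Ioi (0 : ℝ), G u / u * cexp (-(I * ((τ * Real.log u : ℝ) : ℂ)))‖ ≤ B) →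
  ∫⁻ l in Ioi (0 : ℝ), ‖∫ t in Ioi (0 : ℝ), F t * G (l * t) / t‖ₑ ^ 2 * ENNReal.ofReal l⁻¹ ≤
    ENNReal.ofReal (B ^ 2) * ∫⁻ t in Ioi (0 : ℝ), ‖F t‖ₑ ^ 2 * ENNReal.ofReal t⁻¹

/-- one dilation -/
def P_DIL1 (δ : ℝ) : Prop := ∀ A : ℝ, 1 ≤ A → ∃ C T₀ : ℝ, 0 < C ∧ 1 ≤ T₀ ∧
  ∀ (T : ℝ) (F : ℝ → ℂ), T₀ ≤ T → Measurable F →
  ∫⁻ l in Icc A⁻¹ A, ‖∫ t in Icc T (2 * T), F t * ((ff (l * t) - D0 (l * t) : ℝ) : ℂ)‖ₑ ^ 2 ≤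
    ENNReal.ofReal (C * T ^ (1 - 2 * δ)) * ∫⁻ t in Icc T (2 * T), ‖F t‖ₑ ^ 2

/-- DIL1 -/
def S_DIL1 : Prop := ∃ δ : ℝ, 0 < δ ∧ δ ≤ 1 ∧ P_DIL1 δ

/-- M4: fourth moment of zeta -/
def S_M4 : Prop := ∀ ε : ℝ, 0 < ε → ∃ C : ℝ, 0 < C ∧ ∀ T : ℝ, 1 ≤ T →
  ∫ u in (0 : ℝ)..T, ff u ^ 2 ≤ C * T ^ (1 + ε)

/-- several dilations -/
def P_DILK (δ : ℝ) : Prop := ∀ (k : ℕ) (A : ℝ), 1 ≤ A → ∃ C T₀ : ℝ, 0 < C ∧ 1 ≤ T₀ ∧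
  ∀ (T : ℝ) (F : ℝ → ℂ), T₀ ≤ T → Measurable F →
  ∫⁻ l in Icc (fun _ : Fin k => A⁻¹) (fun _ => A),
      ‖∫ t in Icc T (2 * T), F t * ((dif l t : ℝ) : ℂ)‖ₑ ^ 2 ≤
    ENNReal.ofReal (C * T ^ (1 - 2 * δ)) * ∫⁻ t in Icc T (2 * T), ‖F t‖ₑ ^ 2

/-- DILK -/
def S_DILK : Prop := ∀ δ δ' : ℝ, 0 < δ' → δ' < δ → δ ≤ 1 → P_DIL1 δ → P_DILK δ'

/-! ### Statements: the exceptional set -/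

/-- COV: Hausdorff dimension of a limsup set -/
def S_COV : Prop := ∀ (k : ℕ) (s : ℝ) (B B' : ℕ → Set (Fin k → ℝ)) (r v : ℕ → ℝ), 0 < k → 0 < s →
  (∀ n, 0 < r n) → Tendsto r atTop (𝓝 0) → (∀ n, 0 ≤ v n) →
  (∀ᶠ n in atTop, ∀ x ∈ B n, Metric.closedBall x (r n) ⊆ B' n) →
  (∀ᶠ n in atTop, volume (B' n) ≤ ENNReal.ofReal (v n)) →
  Summable (fun n => v n * r n ^ (s - k)) →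
  dimH {x | ∃ᶠ n in atTop, x ∈ B n} ≤ ENNReal.ofReal s

/-- INT: integrability -/
def S_INT : Prop := ∀ (k : ℕ) (F : ℝ → ℂ), Gr F → ∀ l : Fin k → ℝ, (∀ j, 0 < l j) → ∀ T : ℝ,
  IntegrableOn (fun t => F t * ((∏ j, ff (l j * t) : ℝ) : ℂ)) (Ioc 0 T) ∧
  IntegrableOn (fun t => F t * ((∏ j, D0 (l j * t) : ℝ) : ℂ)) (Ioc 0 T)

/-- MB: measure of the bad set -/
def S_MB : Prop := ∀ (δ θ ρ κ : ℝ), 0 < δ → 0 < θ → θ ≤ 1 → 0 < ρ → ρ ≤ 1 → P_DILK δ →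
  θ + 2 * ρ + κ < 2 * δ → ∀ (k : ℕ) (F : ℝ → ℂ), Gr F → ∀ A c : ℝ, 1 ≤ A → 0 < c →
  ∃ C : ℝ, 0 < C ∧ ∀ᶠ n : ℕ in atTop, volume (Bad k F A c θ ρ n) ≤ ENNReal.ofReal (C * ((2 : ℝ) ^ n) ^ (-κ))

/-- LIP: balls around bad points -/
def S_LIP : Prop := ∀ k : ℕ, ∃ K : ℝ, 1 ≤ K ∧ ∀ (F : ℝ → ℂ) (A θ ρ : ℝ), Gr F → 1 ≤ A → 0 < θ → θ ≤ 1 →
  0 < ρ → ρ ≤ 1 → ∀ᶠ n : ℕ in atTop, ∀ x ∈ Bad k F A 1 θ ρ n,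
  Metric.closedBall x (((2 : ℝ) ^ n) ^ (-K)) ⊆ Bad k F (2 * A) (1 / 2) θ ρ n

/-- DET: the integral for parameters which are bad only finitely often -/
def S_DET : Prop := ∀ (k : ℕ) (F : ℝ → ℂ) (A θ ρ δ : ℝ), Gr F → 1 ≤ A → 0 < θ → θ ≤ 1 → 0 < ρ → ρ ≤ 1 →
  0 < δ → δ < ρ → 2 * δ < θ → ∀ l : Fin k → ℝ, (∀ j, A⁻¹ ≤ l j ∧ l j ≤ A) →
  (∀ᶠ n : ℕ in atTop, l ∉ Bad k F A 1 θ ρ n) →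
  ∃ C : ℝ, ∀ T : ℝ, 1 ≤ T → ‖∫ t in Ioc 0 T, F t * ((dif l t : ℝ) : ℂ)‖ ≤ C * T ^ (1 - δ)

/-- FIN -/
def S_FIN : Prop := ∃ δ : ℝ, 0 < δ ∧ δ < 1 ∧ ∀ k : ℕ, 0 < k → ∃ s : ℝ, 0 < s ∧ s < k ∧
  ∀ F : ℝ → ℂ, Gr F → ∃ E : Set (Fin k → ℝ), dimH E ≤ ENNReal.ofReal s ∧
  ∀ l : Fin k → ℝ, l ∉ E → (∀ j, 0 < l j) → ∃ C : ℝ, ∀ T : ℝ, 1 ≤ T →
    ‖(∫ t in (0 : ℝ)..T, F t * ((∏ j, ff (l j * t) : ℝ) : ℂ)) -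
      ∫ t in (0 : ℝ)..T, F t * ((∏ j, D0 (l j * t) : ℝ) : ℂ)‖ ≤ C * T ^ (1 - δ)

end

end Pool.Agent.N879.GD
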