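import Pool.Agent.N879.GD.Blk

set_option autoImplicit false

/-! GD: the sum over all pairs off the diagonal. -/

namespace Pool.Agent.N879.GD

open Complex Filter Topology MeasureTheory Set
open Pool.Agent.Y969.GP (ff V ht lam PS co PX)

noncomputable section

/-! ### Reduction to blocks -/

lemma dyad (h : ℕ → ℂ) (D J : ℕ) :
    ∑ d ∈ Finset.Ico 1 (min (2 ^ J) (D + 1)), h d =
      ∑ j ∈ Finset.range J, ∑ r ∈ Finset.range (min (2 ^ (j + 1)) (D + 1) - 2 ^ j), h (2 ^ j + r) := by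
  induction J with
  | zero => simp
  | succ J ih =>
    rw [Finset.sum_range_succ, ← ih]
    rcases le_or_gt (2 ^ J) (D + 1) with h1 | h1
    · rw [min_eq_left h1]
      have h2 : 2 ^ J ≤ min (2 ^ (J + 1)) (D + 1) := le_min (by rw [pow_succ]; omega) h1
      rw [← Finset.sum_Ico_consecutive h (Nat.one_le_two_pow) h2,
        Finset.sum_Ico_eq_sum_range h (2 ^ J)]
    · have h2 : D + 1 ≤ 2 ^ (J + 1) := by rw [pow_succ]; omega
      rw [min_eq_right h1.le, min_eq_right h2, Nat.sub_eq_zero_of_le h1.le]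
      simp

/-- the sum over the pairs `m < n` as a sum over blocks -/
lemma sum_blocks (g : ℕ → ℕ → ℂ) (X : ℕ) :
    ∑ p ∈ (PS X).filter (fun p => p.1 < p.2), g p.1 p.2 =
      ∑ m ∈ Finset.Icc 1 X, ∑ j ∈ Finset.range (Nat.log 2 X + 1),
        ∑ r ∈ Finset.range (min (2 ^ (j + 1)) (X / m - m + 1) - 2 ^ j), g m (m + 2 ^ j + r) := by
  have e1 : ∑ p ∈ (PS X).filter (fun p => p.1 < p.2), g p.1 p.2 =
      ∑ m ∈ Finset.Icc 1 X, ∑ n ∈ (Finset.Icc 1 X).filter (fun n => m * n ≤ X ∧ m < n), g m n := by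
    unfold PS
    rw [Finset.filter_filter, Finset.sum_filter, Finset.sum_product]
    refine Finset.sum_congr rfl fun m _ => ?_
    rw [Finset.sum_filter]
  rw [e1]
  refine Finset.sum_congr rfl fun m hm => ?_
  rw [Finset.mem_Icc] at hm
  have e2 : ∑ n ∈ (Finset.Icc 1 X).filter (fun n => m * n ≤ X ∧ m < n), g m n =
      ∑ d ∈ Finset.Ico 1 (X / m - m + 1), g m (m + d) := by
    symm
    refine Finset.sum_bij (fun d _ => m + d) ?_ ?_ ?_ ?_
    · intro d hd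
      rw [Finset.mem_Ico] at hd
      rw [Finset.mem_filter, Finset.mem_Icc]
      have h1 : m + d ≤ X / m := by omega
      have h2 : m * (m + d) ≤ X := by
        calc m * (m + d) ≤ m * (X / m) := Nat.mul_le_mul_left _ h1
          _ ≤ X := Nat.mul_div_le _ _
      have h3 : m + d ≤ X := h1.trans (Nat.div_le_self _ _)
      exact ⟨⟨by omega, h3⟩, h2, by omega⟩
    · intro d1 _ d2 _ h
      omega
    · intro n hn
      rw [Finset.mem_filter, Finset.mem_Icc] at hn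
      obtain ⟨⟨hn1, hn2⟩, hn3, hn4⟩ := hn
      have h1 : n ≤ X / m := by
        rw [Nat.le_div_iff_mul_le (by omega)]
        rw [mul_comm]; exact hn3
      refine ⟨n - m, ?_, by omega⟩
      rw [Finset.mem_Ico]
      omega
    · intro d _
      rfl
  rw [e2]
  have h3 : X / m - m + 1 ≤ 2 ^ (Nat.log 2 X + 1) := by
    have h4 : X < 2 ^ (Nat.log 2 X + 1) := Nat.lt_pow_succ_log_self (by norm_num) X
    have h5 : X / m ≤ X := Nat.div_le_self _ _
    omega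
  have h4 := dyad (fun d => g m (m + d)) (X / m - m) (Nat.log 2 X + 1)
  rw [min_eq_right h3] at h4
  rw [h4]
  refine Finset.sum_congr rfl fun j _ => Finset.sum_congr rfl fun r _ => ?_
  rw [add_assoc]

lemma GG_conj (b : ℕ) (T x ω : ℝ) : GG b T (-x) (-ω) = (starRingEnd ℂ) (GG b T x ω) := by
  unfold GG
  rw [← integral_conj]
  refine integral_congr_ae (Eventually.of_forall fun u => ?_)
  simp only [map_mul, Complex.conj_ofReal, ← Complex.exp_conj, Complex.conj_I]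
  congr 2
  push_cast
  ring

lemma bt_conj (σ : ℝ) (b : ℕ) (T y ω : ℝ) (m n : ℕ) :
    bt σ b T (-y) (-ω) n m = (starRingEnd ℂ) (bt σ b T y ω m n) := by
  unfold bt
  rw [show Real.log m - Real.log n = -(Real.log n - Real.log m) by ring, GG_conj]
  simp only [map_mul, Complex.conj_ofReal, ← Complex.exp_conj, Complex.conj_I, map_neg, map_add]
  rw [mul_comm (n : ℝ) m]
  congr 3
  push_cast
  ring

lemma sum_swap (σ : ℝ) (b : ℕ) (T y ω : ℝ) (X : ℕ) :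
    ‖∑ p ∈ (PS X).filter (fun p => p.2 < p.1), bt σ b T y ω p.1 p.2‖ =
      ‖∑ p ∈ (PS X).filter (fun p => p.1 < p.2), bt σ b T (-y) (-ω) p.1 p.2‖ := by
  have e1 : ∑ p ∈ (PS X).filter (fun p => p.1 < p.2), bt σ b T (-y) (-ω) p.1 p.2 =
      ∑ p ∈ (PS X).filter (fun p => p.2 < p.1), (starRingEnd ℂ) (bt σ b T y ω p.1 p.2) := by
    refine Finset.sum_bij (fun p _ => (p.2, p.1)) ?_ ?_ ?_ ?_
    · intro p hp
      simp only [PS, Finset.mem_filter, Finset.mem_product] at hp ⊢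
      exact ⟨⟨⟨hp.1.1.2, hp.1.1.1⟩, by rw [mul_comm]; exact hp.1.2⟩, hp.2⟩
    · rintro ⟨a, b⟩ _ ⟨c, d⟩ _ h
      simp only [Prod.mk.injEq] at h ⊢
      exact ⟨h.2, h.1⟩
    · intro p hp
      refine ⟨(p.2, p.1), ?_, rfl⟩
      simp only [PS, Finset.mem_filter, Finset.mem_product] at hp ⊢
      exact ⟨⟨⟨hp.1.1.2, hp.1.1.1⟩, by rw [mul_comm]; exact hp.1.2⟩, hp.2⟩
    · intro p _
      exact bt_conj σ b T y ω p.2 p.1
  rw [e1, ← map_sum, RCLike.norm_conj]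

/-- the sum over `m < n` -/
lemma half (κ : ℝ) (hκ : 0 < κ) (hκ1 : 512 * κ ≤ 1) (b : ℕ) (hb : 6 ≤ 4 * κ * b) (CA CB : ℝ)
    (hCA : 0 < CA) (hCB : 0 < CB)
    (hA : ∀ (σ T y ω : ℝ) (m R L : ℕ), 0 ≤ σ → σ ≤ 1 →
      0 < T → 1 ≤ m → 1 ≤ R → L ≤ R → 1 ≤ zz T m R →
      ‖∑ r ∈ Finset.range L, bt σ b T y ω m (m + R + r)‖ ≤
      CA * (√((m : ℝ) * (m + R)))⁻¹ * (1 + |ω|) ^ (-(1 / 2 : ℝ)) * ((1 + |ω|) / zz T m R) ^ b *
        Real.exp (-(|ω| / (4 * zz T m R))) * R)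
    (hB : ∀ (σ T y ω : ℝ) (m R L : ℕ), 0 ≤ σ → σ ≤ 1 → 0 < T → 1 ≤ m → 1 ≤ R → L ≤ R → 1 ≤ zz T m R →
      2 * Real.pi ≤ kap m R * |ω| → kap m R * |ω| ≤ (R : ℝ) ^ 5 →
      ‖∑ r ∈ Finset.range L, bt σ b T y ω m (m + R + r)‖ ≤
      CB * (1 + |y|) * (√((m : ℝ) * (m + R)))⁻¹ * (1 + |ω|) ^ (-(1 / 2 : ℝ)) *
        ((1 + |ω|) / zz T m R) ^ b * (1 + (1 + |ω|) / zz T m R) *
        Real.exp (-(|ω| / (4 * zz T m R))) * ((R : ℝ) ^ (1 - 512 * κ) + R / (kap m R * |ω|)))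
    (σ T y ω : ℝ) (X : ℕ) (hσ : 0 ≤ σ) (hσ1 : σ ≤ 1) (hT1 : 1 ≤ T)
    (hTl : 1 + 3 * Real.log T ≤ T ^ κ) (hT8 : 8 ≤ T ^ κ) (hXl : T ^ (1 + 4 * κ) ≤ X)
    (hXu : (X : ℝ) ≤ 2 * T ^ (1 + 4 * κ)) :
    ‖∑ p ∈ (PS X).filter (fun p => p.1 < p.2), bt σ b T y ω p.1 p.2‖ ≤
      32 * (CA + CB) * (4 ^ (2 * b + 1) * ((2 * b + 1).factorial : ℝ)) * (1 + |y|) * T ^ (-(4 * κ)) := by
  have hT0 : 0 < T := by linarith
  have radd : ∀ a c : ℝ, T ^ a * T ^ c = T ^ (a + c) := fun a c => (Real.rpow_add hT0 a c).symm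
  have rmono : ∀ a c : ℝ, a ≤ c → T ^ a ≤ T ^ c := fun a c h => Real.rpow_le_rpow_of_exponent_le hT1 h
  have rpos : ∀ a : ℝ, 0 < T ^ a := fun a => Real.rpow_pos_of_pos hT0 a
  have hX1 : (1 : ℝ) ≤ X := by
    refine le_trans ?_ hXl
    exact Real.one_le_rpow hT1 (by linarith)
  have hX1' : 1 ≤ X := by exact_mod_cast hX1
  set KK : ℝ := 4 ^ (2 * b + 1) * ((2 * b + 1).factorial : ℝ) with hKK
  have hKK0 : 0 < KK := by positivity
  rw [sum_blocks]
  set B : ℝ := 16 * (CA + CB) * KK * (1 + |y|) * T ^ (-(8 * κ)) with hBdef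
  have hB0 : 0 ≤ B := by
    have := rpos (-(8 * κ))
    have := abs_nonneg y
    positivity
  have hblk : ∀ m ∈ Finset.Icc 1 X, ∀ j ∈ Finset.range (Nat.log 2 X + 1),
      ‖∑ r ∈ Finset.range (min (2 ^ (j + 1)) (X / m - m + 1) - 2 ^ j),
        bt σ b T y ω m (m + 2 ^ j + r)‖ ≤ B / m := by
    intro m hm j _
    rw [Finset.mem_Icc] at hm
    have hm0 : (0 : ℝ) < m := by exact_mod_cast hm.1
    rcases Nat.eq_zero_or_pos (min (2 ^ (j + 1)) (X / m - m + 1) - 2 ^ j) with h0 | h0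
    · rw [h0]
      simp only [Finset.range_zero, Finset.sum_empty, norm_zero]
      positivity
    have hL : min (2 ^ (j + 1)) (X / m - m + 1) - 2 ^ j ≤ 2 ^ j := by
      have : min (2 ^ (j + 1)) (X / m - m + 1) ≤ 2 ^ (j + 1) := min_le_left _ _
      rw [pow_succ] at this
      omega
    have h2 : m + 2 ^ j ≤ X / m := by
      have : min (2 ^ (j + 1)) (X / m - m + 1) ≤ X / m - m + 1 := min_le_right _ _
      omega
    have h3 : m * (m + 2 ^ j) ≤ X :=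
      (Nat.mul_le_mul_left m h2).trans (Nat.mul_div_le _ _)
    have h4 : (m : ℝ) * (m + (2 ^ j : ℕ)) ≤ 2 * T ^ (1 + 4 * κ) := by
      refine le_trans ?_ hXu
      exact_mod_cast h3
    exact block κ hκ hκ1 b hb CA CB hCA hCB T y ω m (2 ^ j) _ hm.1 Nat.one_le_two_pow hT1 hTl hT8 h4
      (fun h => hA σ T y ω m (2 ^ j) _ hσ hσ1 hT0 hm.1 Nat.one_le_two_pow hL h)
      (fun h h' h'' => hB σ T y ω m (2 ^ j) _ hσ hσ1 hT0 hm.1 Nat.one_le_two_pow hL h h' h'')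
  have hlogX : 1 + Real.log X ≤ T ^ κ := by
    have h1 : (X : ℝ) ≤ T ^ (3 : ℝ) := by
      calc (X : ℝ) ≤ 2 * T ^ (1 + 4 * κ) := hXu
        _ ≤ T ^ κ * T ^ (1 + 4 * κ) := by
            have := rpos (1 + 4 * κ)
            nlinarith
        _ = T ^ (1 + 5 * κ) := by rw [radd]; ring_nf
        _ ≤ _ := rmono _ _ (by linarith)
    have h2 : Real.log X ≤ 3 * Real.log T := by
      rw [← Real.log_rpow hT0]
      exact Real.log_le_log (by linarith) h1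
    linarith
  have hlogX0 : 0 ≤ Real.log X := Real.log_nonneg hX1
  have hJ : ((Nat.log 2 X + 1 : ℕ) : ℝ) ≤ 2 * T ^ κ := by
    have h1 : (2 : ℝ) ^ (Nat.log 2 X) ≤ X := by exact_mod_cast Nat.pow_log_le_self 2 (by omega)
    have h2 := Real.log_le_log (by positivity) h1
    rw [Real.log_pow] at h2
    have h3 := Real.log_two_gt_d9
    have h4 : (0 : ℝ) ≤ (Nat.log 2 X : ℝ) := Nat.cast_nonneg _
    push_cast
    nlinarith
  have hH : ∑ m ∈ Finset.Icc 1 X, (1 : ℝ) / m ≤ T ^ κ := by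
    have h1 := harmonic_le_one_add_log X
    have h2 : ∑ m ∈ Finset.Icc 1 X, (1 : ℝ) / m = ((harmonic X : ℚ) : ℝ) := by
      rw [harmonic_eq_sum_Icc]
      push_cast
      refine Finset.sum_congr rfl fun m _ => ?_
      rw [one_div]
    rw [h2]
    linarith
  calc ‖∑ m ∈ Finset.Icc 1 X, ∑ j ∈ Finset.range (Nat.log 2 X + 1),
        ∑ r ∈ Finset.range (min (2 ^ (j + 1)) (X / m - m + 1) - 2 ^ j),
          bt σ b T y ω m (m + 2 ^ j + r)‖
      ≤ ∑ m ∈ Finset.Icc 1 X, ∑ j ∈ Finset.range (Nat.log 2 X + 1), B / m := by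
        refine (norm_sum_le _ _).trans (Finset.sum_le_sum fun m hm => ?_)
        refine (norm_sum_le _ _).trans (Finset.sum_le_sum fun j hj => ?_)
        exact hblk m hm j hj
    _ = ((Nat.log 2 X + 1 : ℕ) : ℝ) * B * ∑ m ∈ Finset.Icc 1 X, (1 : ℝ) / m := by
        rw [Finset.mul_sum]
        refine Finset.sum_congr rfl fun m _ => ?_
        rw [Finset.sum_const, Finset.card_range, nsmul_eq_mul]
        ring
    _ ≤ (2 * T ^ κ) * B * T ^ κ := by
        have := rpos κ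
        gcongr
    _ = 32 * (CA + CB) * KK * (1 + |y|) * (T ^ κ * T ^ κ * T ^ (-(8 * κ))) := by
        rw [hBdef]; ring
    _ ≤ 32 * (CA + CB) * KK * (1 + |y|) * T ^ (-(4 * κ)) := by
        have h1 : T ^ κ * T ^ κ * T ^ (-(8 * κ)) ≤ T ^ (-(4 * κ)) := by
          rw [radd, radd]
          exact rmono _ _ (by linarith)
        have := abs_nonneg y
        gcongr

/-- SUM -/
theorem t_SUM (h1 : S_BA) (h2 : S_BB) : S_SUM := by
  obtain ⟨η, hη0, hη1, hBB⟩ := h2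
  set κ : ℝ := η / 512 with hκdef
  have hκ : 0 < κ := by positivity
  have hκη : 512 * κ = η := by rw [hκdef]; ring
  have hκ1 : 512 * κ ≤ 1 := by rw [hκη]; exact hη1
  obtain ⟨b, hb4, hb⟩ : ∃ b : ℕ, 4 ≤ b ∧ 6 ≤ 4 * κ * b := by
    refine ⟨⌈6 / (4 * κ)⌉₊ + 4, by omega, ?_⟩
    have h3 := Nat.le_ceil (6 / (4 * κ))
    rw [div_le_iff₀ (by positivity)] at h3
    push_cast
    nlinarith
  obtain ⟨CA, hCA, hA⟩ := h1 b (by omega)
  obtain ⟨CB, hCB, hB⟩ := hBB b (by omega)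
  have hev : ∀ᶠ T : ℝ in atTop, 1 ≤ T ∧ 1 + 3 * Real.log T ≤ T ^ κ ∧ 8 ≤ T ^ κ := by
    have e1 : ∀ᶠ T : ℝ in atTop, 8 ≤ T ^ κ := (tendsto_rpow_atTop hκ).eventually_ge_atTop 8
    have e2 : ∀ᶠ T : ℝ in atTop, 2 ≤ T ^ κ := (tendsto_rpow_atTop hκ).eventually_ge_atTop 2
    have e3 := (isLittleO_log_rpow_atTop hκ).bound (c := 1 / 6) (by norm_num)
    filter_upwards [e1, e2, e3, eventually_ge_atTop 1] with T h1 h2 h3 h4
    refine ⟨h4, ?_, h1⟩
    rw [Real.norm_of_nonneg (Real.log_nonneg h4), Real.norm_of_nonneg (by positivity)] at h3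
    linarith
  obtain ⟨T₀, hT₀⟩ := eventually_atTop.1 hev
  set KK : ℝ := 4 ^ (2 * b + 1) * ((2 * b + 1).factorial : ℝ) with hKK
  have hKK0 : 0 < KK := by positivity
  refine ⟨4 * κ, 4 * κ, b, by positivity, by linarith, by positivity, by linarith, hb4,
    64 * (CA + CB) * KK, max T₀ 1, by positivity, le_max_right _ _, ?_⟩
  intro σ T y ω X hσ hσ1 hT hXl hXu
  obtain ⟨hT1, hTl, hT8⟩ := hT₀ T ((le_max_left _ _).trans hT)
  rw [← hκη] at hB
  have hh := half κ hκ hκ1 b hb CA CB hCA hCB hA hB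
  have e1 : (PS X).filter (fun p => p.1 ≠ p.2) =
      (PS X).filter (fun p => p.1 < p.2) ∪ (PS X).filter (fun p => p.2 < p.1) := by
    ext p
    simp only [Finset.mem_filter, Finset.mem_union]
    constructor
    · rintro ⟨h3, h4⟩
      rcases lt_or_gt_of_ne h4 with h5 | h5
      · exact Or.inl ⟨h3, h5⟩
      · exact Or.inr ⟨h3, h5⟩
    · rintro (⟨h3, h4⟩ | ⟨h3, h4⟩)
      · exact ⟨h3, by omega⟩
      · exact ⟨h3, by omega⟩
  have e2 : Disjoint ((PS X).filter (fun p => p.1 < p.2)) ((PS X).filter (fun p => p.2 < p.1)) := by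
    rw [Finset.disjoint_left]
    intro p h3 h4
    rw [Finset.mem_filter] at h3 h4
    omega
  rw [e1, Finset.sum_union e2]
  have h3 := hh σ T y ω X hσ hσ1 hT1 hTl hT8 hXl hXu
  have h4 := hh σ T (-y) (-ω) X hσ hσ1 hT1 hTl hT8 hXl hXu
  rw [abs_neg] at h4
  rw [← sum_swap] at h4
  calc _ ≤ _ := norm_add_le _ _
    _ ≤ _ := add_le_add h3 h4
    _ = _ := by ring

end

end Pool.Agent.N879.GD
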